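import Pool.Agent.Lib.MP_181146_gt.HV.SpecV

/-!
# Project HV, module BsE: decomposition of a finite abelian group into cyclic groups, characters with
prescribed values
-/

set_option autoImplicit false

namespace HVx

open HEp HPx HRx HTx

section

variable {G : Type} [CommGroup G] {r : ℕ} {n : Fin r → ℕ}
  (ψ : G ≃* ((t : Fin r) → Multiplicative (ZMod (n t))))

/-- The generators. -/
private def BsE_g (t : ℕ) : G :=
  if h : t < r then ψ.symm (Pi.mulSingle ⟨t, h⟩ (Multiplicative.ofAdd 1)) else 1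

/-- The orders. -/
private def BsE_k (n : Fin r → ℕ) (t : ℕ) : ℕ := if h : t < r then n ⟨t, h⟩ else 1

private lemma BsE_k_fin (n : Fin r → ℕ) (t : Fin r) : BsE_k n (t : ℕ) = n t := by
  unfold BsE_k
  rw [dif_pos t.2]

private lemma BsE_g_fin (t : Fin r) :
    ψ (BsE_g ψ (t : ℕ)) = Pi.mulSingle t (Multiplicative.ofAdd 1) := by
  unfold BsE_g
  rw [dif_pos t.2, MulEquiv.apply_symm_apply]

private lemma BsE_prod (b : Fin r → ℕ) (s : Fin r) :
    ψ (∏ t : Fin r, BsE_g ψ (t : ℕ) ^ b t) s = Multiplicative.ofAdd ((b s : ℕ) : ZMod (n s)) := by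
  have h1 : ψ (∏ t : Fin r, BsE_g ψ (t : ℕ) ^ b t) =
      ∏ t : Fin r, Pi.mulSingle (M := fun t => Multiplicative (ZMod (n t))) t
        (Multiplicative.ofAdd ((b t : ℕ) : ZMod (n t))) := by
    rw [map_prod]
    refine Finset.prod_congr rfl fun t _ => ?_
    rw [map_pow, BsE_g_fin, ← Pi.mulSingle_pow, ← ofAdd_nsmul, nsmul_one]
  rw [h1, Finset.univ_prod_mulSingle]

end

/-- A finite abelian group is a product of cyclic groups, indexed by `Fin r`. -/
private lemma BsE_dec (G : Type) [CommGroup G] [Finite G] : ∃ (r : ℕ) (n : Fin r → ℕ),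
    (∀ t, 1 < n t) ∧ Nonempty (G ≃* ((t : Fin r) → Multiplicative (ZMod (n t)))) := by
  obtain ⟨ι, hι, n, hn, ⟨φ⟩⟩ := CommGroup.equiv_prod_multiplicative_zmod_of_finite G
  obtain ⟨r, ⟨e⟩⟩ : ∃ r : ℕ, Nonempty (Fin r ≃ ι) := ⟨_, ⟨(Fintype.equivFin ι).symm⟩⟩
  refine ⟨r, fun t => n (e t), fun t => hn _, ⟨MulEquiv.ofBijective
    (MonoidHom.mk' (fun g t => φ g (e t)) (fun g g' => by
      funext t
      rw [map_mul]
      rfl)) ⟨?_, ?_⟩⟩⟩
  · intro g g' h
    apply φ.injective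
    funext i
    have h1 := congrFun h (e.symm i)
    change φ g (e (e.symm i)) = φ g' (e (e.symm i)) at h1
    rwa [e.apply_symm_apply] at h1
  · intro f
    refine ⟨φ.symm (Equiv.piCongrLeft (fun i => Multiplicative (ZMod (n i))) e f), ?_⟩
    funext t
    change φ (φ.symm _) (e t) = f t
    rw [MulEquiv.apply_symm_apply]
    exact Equiv.piCongrLeft_apply_apply (fun i => Multiplicative (ZMod (n i))) e f t

theorem sBsE : S_BsE := by
  intro G _ _
  obtain ⟨r, n, hn, ⟨ψ⟩⟩ := BsE_dec G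
  have hpos : ∀ t, 0 < BsE_k n t := by
    intro t
    unfold BsE_k
    split_ifs with h
    · exact lt_trans one_pos (hn _)
    · exact one_pos
  refine ⟨r, BsE_g ψ, BsE_k n, ⟨hpos, ?_, ?_, ?_⟩, ?_, ?_⟩
  · intro t
    by_cases h : t < r
    · have h1 : BsE_k n t = n ⟨t, h⟩ := BsE_k_fin n ⟨t, h⟩
      apply ψ.injective
      have h2 := BsE_g_fin ψ ⟨t, h⟩
      change ψ (BsE_g ψ t) = _ at h2
      rw [map_pow, map_one, h2, h1, ← Pi.mulSingle_pow, ← ofAdd_nsmul, nsmul_one,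
        ZMod.natCast_self, ofAdd_zero, Pi.mulSingle_one]
    · unfold BsE_g
      rw [dif_neg h, one_pow]
  · intro a a' h
    funext s
    apply Fin.ext
    have h1 := congrFun (congrArg ψ h) s
    change ψ (∏ t : Fin r, BsE_g ψ (t : ℕ) ^ (a t : ℕ)) s =
      ψ (∏ t : Fin r, BsE_g ψ (t : ℕ) ^ (a' t : ℕ)) s at h1
    rw [BsE_prod, BsE_prod] at h1
    have h2 := Multiplicative.ofAdd.injective h1
    rw [ZMod.natCast_eq_natCast_iff'] at h2
    have h3 : (a s : ℕ) < n s := (a s).2.trans_eq (BsE_k_fin n s)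
    have h4 : (a' s : ℕ) < n s := (a' s).2.trans_eq (BsE_k_fin n s)
    rwa [Nat.mod_eq_of_lt h3, Nat.mod_eq_of_lt h4] at h2
  · intro g
    have hne : ∀ t, NeZero (n t) := fun t => ⟨by have := hn t; omega⟩
    refine ⟨fun t => ⟨(Multiplicative.toAdd (ψ g t)).val, ?_⟩, ?_⟩
    · have := hne t
      rw [BsE_k_fin]
      exact ZMod.val_lt _
    · apply ψ.injective
      funext s
      have := hne s
      change ψ (∏ t : Fin r, BsE_g ψ (t : ℕ) ^ ((Multiplicative.toAdd (ψ g t)).val : ℕ)) s = ψ g s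
      rw [BsE_prod ψ (fun t => (Multiplicative.toAdd (ψ g t)).val) s, ZMod.natCast_zmod_val,
        ofAdd_toAdd]
  · intro t
    by_cases h : t < r
    · have h1 : BsE_k n t = n ⟨t, h⟩ := BsE_k_fin n ⟨t, h⟩
      rw [h1, Nat.card_congr ψ.toEquiv, Nat.card_pi]
      have h2 : n ⟨t, h⟩ = Nat.card (Multiplicative (ZMod (n ⟨t, h⟩))) := by
        rw [Nat.card_congr Multiplicative.toAdd, Nat.card_zmod]
      nth_rewrite 1 [h2]
      exact Finset.dvd_prod_of_mem (fun t => Nat.card (Multiplicative (ZMod (n t))))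
        (Finset.mem_univ _)
    · unfold BsE_k
      rw [dif_neg h]
      exact one_dvd _
  · intro Q s hs
    have hz : ∀ t : Fin r, zmultiplesHom (ZMod Q) ((s t : ℤ) : ZMod Q) ((n t : ℕ) : ℤ) = 0 := by
      intro t
      have h1 := hs t t.2
      rw [BsE_k_fin] at h1
      rw [zmultiplesHom_apply, zsmul_eq_mul, mul_comm]
      push_cast at h1 ⊢
      exact h1
    refine ⟨∏ t : Fin r, (AddMonoidHom.toMultiplicative (ZMod.lift (n t)
      ⟨zmultiplesHom (ZMod Q) ((s t : ℤ) : ZMod Q), hz t⟩)).comp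
        ((Pi.evalMonoidHom (fun t => Multiplicative (ZMod (n t))) t).comp ψ.toMonoidHom), ?_⟩
    intro t ht
    have h2 := BsE_g_fin ψ ⟨t, ht⟩
    change ψ (BsE_g ψ t) = _ at h2
    rw [MonoidHom.finsetProd_apply, Finset.prod_eq_single (⟨t, ht⟩ : Fin r)]
    · change ZMod.lift (n ⟨t, ht⟩) ⟨zmultiplesHom (ZMod Q) ((s t : ℤ) : ZMod Q), hz ⟨t, ht⟩⟩
        (Multiplicative.toAdd (ψ (BsE_g ψ t) ⟨t, ht⟩)) = (s t : ZMod Q)
      rw [h2, Pi.mulSingle_eq_same, toAdd_ofAdd]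
      have h3 := ZMod.lift_coe (n ⟨t, ht⟩)
        ⟨zmultiplesHom (ZMod Q) ((s t : ℤ) : ZMod Q), hz ⟨t, ht⟩⟩ 1
      rw [Int.cast_one] at h3
      rw [h3]
      change zmultiplesHom (ZMod Q) ((s t : ℤ) : ZMod Q) 1 = _
      rw [zmultiplesHom_apply, one_zsmul]
    · intro b _ hb
      change AddMonoidHom.toMultiplicative (ZMod.lift (n b)
        ⟨zmultiplesHom (ZMod Q) ((s b : ℤ) : ZMod Q), hz b⟩) (ψ (BsE_g ψ t) b) = 1
      rw [h2, Pi.mulSingle_eq_of_ne hb, map_one]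
    · intro h
      exact absurd (Finset.mem_univ _) h

end HVx
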