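import Pool.Agent.Lib.MP_181146_gt.HV.SpecV

/-!
# Project HV (part V): `S_CnRc`
-/

set_option autoImplicit false

noncomputable section

namespace HVx

open HEp HPx HRx HTx

section tau

variable {Φ Ψ : Type} [AddCommGroup Φ] [AddCommGroup Ψ]

private lemma CnRc_pow (h : Φ →+ Ψ) (g : AddMonoid.End Φ) (g' : AddMonoid.End Ψ)
    (hg : ∀ x, h (g x) = g' (h x)) (a : ℕ) (x : Φ) : h ((g ^ a) x) = (g' ^ a) (h x) := by
  induction a with
  | zero => rw [pow_zero, pow_zero]; rfl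
  | succ a ih =>
    rw [pow_succ', pow_succ']
    change h (g ((g ^ a) x)) = g' ((g' ^ a) (h x))
    rw [hg, ih]

private lemma CnRc_tau (h : Φ →+ Ψ) (g : AddMonoid.End Φ) (g' : AddMonoid.End Ψ)
    (hg : ∀ x, h (g x) = g' (h x)) (k l : ℕ) (x : Φ) :
    h (tau g k l x) = tau g' k l (h x) := by
  unfold tau
  split_ifs
  · have e1 : (∑ a ∈ Finset.range k, g ^ a) x = ∑ a ∈ Finset.range k, (g ^ a) x :=
      AddMonoidHom.finsetSum_apply _ _ _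
    have e2 : (∑ a ∈ Finset.range k, g' ^ a) (h x) = ∑ a ∈ Finset.range k, (g' ^ a) (h x) :=
      AddMonoidHom.finsetSum_apply _ _ _
    rw [e1, e2, map_sum]
    exact Finset.sum_congr rfl (fun a _ => CnRc_pow h g g' hg a x)
  · change h (g x - x) = g' (h x) - h x
    rw [map_sub, hg]

private lemma CnRc_mem (g : AddMonoid.End Φ) (D : AddSubgroup Φ) (hg : ∀ x ∈ D, g x ∈ D)
    (k l : ℕ) (x : Φ) (hx : x ∈ D) : tau g k l x ∈ D := by
  have hp : ∀ a : ℕ, (g ^ a) x ∈ D := by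
    intro a
    induction a with
    | zero => rw [pow_zero]; exact hx
    | succ a ih => rw [pow_succ']; exact hg _ ih
  unfold tau
  split_ifs
  · have e1 : (∑ a ∈ Finset.range k, g ^ a) x = ∑ a ∈ Finset.range k, (g ^ a) x :=
      AddMonoidHom.finsetSum_apply _ _ _
    rw [e1]
    exact D.sum_mem (fun a _ => hp a)
  · exact D.sub_mem (hg x hx) hx

private lemma CnRc_tt (g : AddMonoid.End Φ) (k l : ℕ) (hk : g ^ k = 1) (x : Φ) :
    tau g k (l + 1) (tau g k l x) = 0 := by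
  have h : tau g k (l + 1) * tau g k l = 0 := by
    unfold tau
    by_cases hl : Even l
    · rw [if_pos hl, if_neg (by rw [Nat.even_add_one]; exact fun h => h hl), mul_geom_sum, hk,
        sub_self]
    · rw [if_neg hl, if_pos (by rw [Nat.even_add_one]; exact hl), geom_sum_mul, hk, sub_self]
  exact DFunLike.congr_fun h x

end tau

section S

variable {ι : Type}

/-- The second part of the differential of `A.rc i k`. -/
private def CnRcS (A : FC ι) (i : ι) (k l : ℕ) (x : A.Φ) : A.Φ :=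
  tau (A.g i) k (l + 1) ((-1 : ℤ) ^ l • A.tw x)

private lemma CnRcS_sub (A : FC ι) (i : ι) (k l : ℕ) (x y : A.Φ) :
    CnRcS A i k l (x - y) = CnRcS A i k l x - CnRcS A i k l y := by
  unfold CnRcS
  rw [map_sub, smul_sub, map_sub]

private lemma CnRcS_add (A : FC ι) (i : ι) (k l : ℕ) (x y : A.Φ) :
    CnRcS A i k l (x + y) = CnRcS A i k l x + CnRcS A i k l y := by
  unfold CnRcS
  rw [map_add, smul_add, map_add]

private lemma CnRcS_neg (A : FC ι) (i : ι) (k l : ℕ) (x : A.Φ) :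
    CnRcS A i k l (-x) = -CnRcS A i k l x := by
  unfold CnRcS
  rw [map_neg, smul_neg, map_neg]

private lemma CnRcS_bd (A : FC ι) (hA : A.OK) (i : ι) (k l : ℕ) (x : A.Φ) :
    A.bd (CnRcS A i k l x) = -CnRcS A i k l (A.bd x) := by
  have h1 : A.bd (A.tw x) = -A.tw (A.bd x) := by rw [hA.tb, neg_neg]
  have h2 : ∀ y, A.bd (tau (A.g i) k (l + 1) y) = tau (A.g i) k (l + 1) (A.bd y) :=
    fun y => CnRc_tau A.bd (A.g i) (A.g i) (fun y => (hA.gb i y).symm) k (l + 1) y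
  unfold CnRcS
  rw [h2, map_zsmul, h1, smul_neg, map_neg]

private lemma CnRcS_S (A : FC ι) (hA : A.OK) (i : ι) (k l : ℕ) (hk : A.g i ^ k = 1) (x : A.Φ) :
    CnRcS A i k (l + 1) (CnRcS A i k l x) = 0 := by
  have h2 : ∀ y, A.tw (tau (A.g i) k (l + 1) y) = tau (A.g i) k (l + 1) (A.tw y) :=
    fun y => CnRc_tau A.tw (A.g i) (A.g i) (fun y => (hA.gt i y).symm) k (l + 1) y
  unfold CnRcS
  rw [h2, map_zsmul, CnRc_tt _ _ _ hk, smul_zero]

private lemma CnRcS_mem (A : FC ι) (D : ℤ → AddSubgroup A.Φ) (hD : DOK A D) (i : ι) (k l : ℕ)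
    (d : ℤ) (x : A.Φ) (hx : x ∈ D d) : CnRcS A i k l x ∈ D d :=
  CnRc_mem _ _ (hD.Dg i d) _ _ _ ((D d).zsmul_mem (hD.Dt d x hx) _)

private lemma CnRcS_map {ι' : Type} (A : FC ι) (F : FC ι') (DA : ℤ → AddSubgroup A.Φ)
    (DF : ℤ → AddSubgroup F.Φ) (f : A.Φ →+ F.Φ) (i : ι) (i' : ι') (k l : ℕ)
    (hf : Mp A F DA DF f) (hg : ∀ φ, f (A.g i φ) = F.g i' (f φ)) (x : A.Φ) :
    f (CnRcS A i k l x) = CnRcS F i' k l (f x) := by
  unfold CnRcS
  rw [CnRc_tau f (A.g i) (F.g i') hg, map_zsmul, hf.ft]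

private lemma CnRc_Mp {ι' : Type} (A : FC ι) (F : FC ι') (DA : ℤ → AddSubgroup A.Φ)
    (DF : ℤ → AddSubgroup F.Φ) (f : A.Φ →+ F.Φ) (i : ι) (i' : ι') (k : ℕ)
    (hf : Mp A F DA DF f) (hg : ∀ φ, f (A.g i φ) = F.g i' (f φ)) :
    Mp (A.rc i k) (F.rc i' k) (rD DA) (rD DF) (pw f) where
  ft := by
    intro φ
    funext l
    change f ((-1 : ℤ) ^ l • A.tw (φ l)) = (-1 : ℤ) ^ l • F.tw (f (φ l))
    rw [map_zsmul, hf.ft]
  fb := by
    intro φ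
    funext l
    cases l with
    | zero =>
      change f (A.bd (φ 0) + 0) = F.bd (f (φ 0)) + 0
      rw [add_zero, add_zero, hf.fb]
    | succ l =>
      change f (A.bd (φ (l + 1)) + CnRcS A i k l (φ l)) =
        F.bd (f (φ (l + 1))) + CnRcS F i' k l (f (φ l))
      rw [map_add, hf.fb, CnRcS_map A F DA DF f i i' k l hf hg]
  fD := fun d φ h l => hf.fD _ _ (h l)

/-- The recursion. -/
private lemma CnRc_rec {ι' : Type} (A : FC ι) (F : FC ι') (DA : ℤ → AddSubgroup A.Φ)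
    (DF : ℤ → AddSubgroup F.Φ) (f : A.Φ →+ F.Φ) (i : ι) (i' : ι') (k : ℕ) (hA : A.OK)
    (hF : F.OK) (hDA : DOK A DA) (hDF : DOK F DF) (hkA : A.g i ^ k = 1) (hkF : F.g i' ^ k = 1)
    (hf : Mp A F DA DF f) (hg : ∀ φ, f (A.g i φ) = F.g i' (f φ)) (hC : Cn A F DA DF f)
    (d : ℤ) (a : ℕ → A.Φ) (φ : ℕ → F.Φ) (ha : ∀ l : ℕ, a l ∈ DA (d + 1 - l))
    (hφ : ∀ l : ℕ, φ l ∈ DF (d - l)) (a0 : A.bd (a 0) = 0)
    (as : ∀ l, A.bd (a (l + 1)) + CnRcS A i k l (a l) = 0) (p0 : F.bd (φ 0) = f (a 0))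
    (ps : ∀ l, F.bd (φ (l + 1)) + CnRcS F i' k l (φ l) = f (a (l + 1))) :
    ∃ (a' : ℕ → A.Φ) (φ' : ℕ → F.Φ), (∀ l : ℕ, a' l ∈ DA (d - l)) ∧
      (∀ l : ℕ, φ' l ∈ DF (d - 1 - l)) ∧ A.bd (a' 0) = a 0 ∧
      (∀ l, A.bd (a' (l + 1)) + CnRcS A i k l (a' l) = a (l + 1)) ∧
      φ 0 = f (a' 0) + F.bd (φ' 0) ∧
      ∀ l, φ (l + 1) = f (a' (l + 1)) + (F.bd (φ' (l + 1)) + CnRcS F i' k l (φ' l)) := by
  have hC' : ∀ (e : ℤ) (p : A.Φ × F.Φ), ∃ q : A.Φ × F.Φ, p.1 ∈ DA (e + 1) → p.2 ∈ DF e →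
      A.bd p.1 = 0 → F.bd p.2 = f p.1 → q.1 ∈ DA e ∧ q.2 ∈ DF (e - 1) ∧ A.bd q.1 = p.1 ∧
        p.2 = f q.1 + F.bd q.2 := by
    intro e p
    by_cases h : p.1 ∈ DA (e + 1) ∧ p.2 ∈ DF e ∧ A.bd p.1 = 0 ∧ F.bd p.2 = f p.1
    · obtain ⟨x, hx, y, hy, h1, h2⟩ := hC e p.1 h.1 p.2 h.2.1 h.2.2.1 h.2.2.2
      exact ⟨(x, y), fun _ _ _ _ => ⟨hx, hy, h1, h2⟩⟩
    · exact ⟨(0, 0), fun h1 h2 h3 h4 => absurd ⟨h1, h2, h3, h4⟩ h⟩
  choose C hC using hC'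
  obtain ⟨u, hu0, hus⟩ : ∃ u : ℕ → A.Φ × F.Φ, u 0 = C d (a 0, φ 0) ∧
      ∀ l, u (l + 1) = C (d - ((l + 1 : ℕ) : ℤ))
        (a (l + 1) - CnRcS A i k l (u l).1, φ (l + 1) - CnRcS F i' k l (u l).2) :=
    ⟨fun l => Nat.rec (C d (a 0, φ 0)) (fun l q => C (d - ((l + 1 : ℕ) : ℤ))
        (a (l + 1) - CnRcS A i k l q.1, φ (l + 1) - CnRcS F i' k l q.2)) l, rfl, fun _ => rfl⟩
  have h0 : (u 0).1 ∈ DA d ∧ (u 0).2 ∈ DF (d - 1) ∧ A.bd (u 0).1 = a 0 ∧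
      φ 0 = f (u 0).1 + F.bd (u 0).2 := by
    rw [hu0]
    have h1 := ha 0
    have h2 := hφ 0
    rw [Nat.cast_zero, sub_zero] at h1 h2
    exact hC d (a 0, φ 0) h1 h2 a0 p0
  have step : ∀ l : ℕ, (u l).1 ∈ DA (d - l) → (u l).2 ∈ DF (d - l - 1) →
      CnRcS A i k l (A.bd (u l).1) = CnRcS A i k l (a l) →
      CnRcS F i' k l (f (u l).1 + F.bd (u l).2) = CnRcS F i' k l (φ l) →
      (u (l + 1)).1 ∈ DA (d - ((l + 1 : ℕ) : ℤ)) ∧
      (u (l + 1)).2 ∈ DF (d - ((l + 1 : ℕ) : ℤ) - 1) ∧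
      A.bd (u (l + 1)).1 = a (l + 1) - CnRcS A i k l (u l).1 ∧
      φ (l + 1) - CnRcS F i' k l (u l).2 = f (u (l + 1)).1 + F.bd (u (l + 1)).2 := by
    intro l h1 h2 h3 h4
    rw [hus l]
    refine hC (d - ((l + 1 : ℕ) : ℤ))
      (a (l + 1) - CnRcS A i k l (u l).1, φ (l + 1) - CnRcS F i' k l (u l).2) ?_ ?_ ?_ ?_
    · refine (DA _).sub_mem ?_ ?_
      · have := ha (l + 1)
        rwa [show d + 1 - ((l + 1 : ℕ) : ℤ) = d - ((l + 1 : ℕ) : ℤ) + 1 by ring] at this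
      · have := CnRcS_mem A DA hDA i k l _ _ h1
        rwa [show d - (l : ℤ) = d - ((l + 1 : ℕ) : ℤ) + 1 by push_cast; ring] at this
    · refine (DF _).sub_mem (hφ (l + 1)) ?_
      have := CnRcS_mem F DF hDF i' k l _ _ h2
      rwa [show d - (l : ℤ) - 1 = d - ((l + 1 : ℕ) : ℤ) by push_cast; ring] at this
    · change A.bd (a (l + 1) - CnRcS A i k l (u l).1) = 0
      rw [map_sub, CnRcS_bd A hA, h3, sub_neg_eq_add]
      exact as l
    · change F.bd (φ (l + 1) - CnRcS F i' k l (u l).2) = f (a (l + 1) - CnRcS A i k l (u l).1)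
      rw [map_sub, map_sub, CnRcS_bd F hF, CnRcS_map A F DA DF f i i' k l hf hg, ← ps l, ← h4,
        CnRcS_add]
      abel
  have inv : ∀ l : ℕ, (u l).1 ∈ DA (d - l) ∧ (u l).2 ∈ DF (d - l - 1) ∧
      CnRcS A i k l (A.bd (u l).1) = CnRcS A i k l (a l) ∧
      CnRcS F i' k l (f (u l).1 + F.bd (u l).2) = CnRcS F i' k l (φ l) := by
    intro l
    induction l with
    | zero =>
      rw [Nat.cast_zero, sub_zero, h0.2.2.1, ← h0.2.2.2]
      exact ⟨h0.1, h0.2.1, rfl, rfl⟩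
    | succ l ih =>
      obtain ⟨s1, s2, s3, s4⟩ := step l ih.1 ih.2.1 ih.2.2.1 ih.2.2.2
      refine ⟨s1, s2, ?_, ?_⟩
      · rw [s3, CnRcS_sub, CnRcS_S A hA i k l hkA, sub_zero]
      · rw [← s4, CnRcS_sub, CnRcS_S F hF i' k l hkF, sub_zero]
  refine ⟨fun l => (u l).1, fun l => (u l).2, fun l => (inv l).1, fun l => ?_, h0.2.2.1,
    fun l => ?_, h0.2.2.2, fun l => ?_⟩
  · have := (inv l).2.1
    rwa [show d - (l : ℤ) - 1 = d - 1 - l by ring] at this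
  · obtain ⟨s1, s2, s3, s4⟩ := step l (inv l).1 (inv l).2.1 (inv l).2.2.1 (inv l).2.2.2
    change A.bd (u (l + 1)).1 + CnRcS A i k l (u l).1 = a (l + 1)
    rw [s3, sub_add_cancel]
  · obtain ⟨s1, s2, s3, s4⟩ := step l (inv l).1 (inv l).2.1 (inv l).2.2.1 (inv l).2.2.2
    change φ (l + 1) = f (u (l + 1)).1 + (F.bd (u (l + 1)).2 + CnRcS F i' k l (u l).2)
    rw [← add_assoc, ← s4, sub_add_cancel]

end S

theorem sCnRc : S_CnRc := by
  intro ι ι' A F DA DF f i i' k hA hF hDA hDF hkA hkF hf hg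
  refine ⟨CnRc_Mp A F DA DF f i i' k hf hg, fun hC => ?_⟩
  intro d a ha φ hφ h1 h2
  obtain ⟨a', φ', ha', hφ', e1, e2, e3, e4⟩ := CnRc_rec A F DA DF f i i' k hA hF hDA hDF hkA hkF hf
    hg hC d a φ ha hφ
    ((add_zero _).symm.trans (congrFun h1 0))
    (fun l => congrFun h1 (l + 1))
    ((add_zero _).symm.trans (congrFun h2 0))
    (fun l => congrFun h2 (l + 1))
  refine ⟨a', ha', φ', hφ', ?_, ?_⟩
  · funext l
    cases l with
    | zero => exact (add_zero _).trans e1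
    | succ l => exact e2 l
  · funext l
    cases l with
    | zero => exact e3.trans (congrArg (f (a' 0) + ·) (add_zero _).symm)
    | succ l => exact e4 l

end HVx
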