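import Pool.Agent.Lib.MP_181146_gt.HV.SpecV

/-!
# Project HV, module `Conc` (the name `Con` is reserved): concentration
-/

set_option autoImplicit false

noncomputable section

namespace HVx

open scoped TensorProduct
open HEp HPx HRx HTx

theorem sCon (h1 : S_Rit) (h2 : S_TrOK) (h3 : S_TrM) : S_Con := by
  intro ι F D n ε γ k r hF hD hn hA hP η hη κ hκ hB he
  obtain ⟨hz, hzD, hTD, -, hM, -, hC, hI⟩ := h2 ι F D n ε hF hD hn hA
  have hη' := (h3 ι F D n γ k r).2.1 η hη hB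
  have hzP : Per zc (fun _ => ()) k r := by
    intro t _
    change (1 : AddMonoid.End ℤ) ^ k t = 1
    rw [one_pow]
  have hg : ∀ t, t < r → ∀ φ, em ε (zc.g ((fun _ : ℕ => ()) t) φ) = F.g (γ t) (em ε φ) := by
    intro t _ φ
    have key : ∀ j : ℤ, F.g (γ t) (j • ε) = j • ε := fun j => by rw [map_zsmul, hA.ge]
    exact (key φ).symm
  obtain ⟨q1, q2, q3, -⟩ := h1.2 Unit ι zc F zD (trD F D n) (em ε) (fun _ => ()) γ k r hz hF hzD hTD
    hzP hP hM hg
  have hOK := (h1.1 ι F (trD F D n) γ k r hF hTD hP).1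
  have hbk : (zit k r).bd κ = 0 := by
    refine q3 hI _ ?_
    rw [q1.fb]
    have e1 : (rit F γ k r).bd ((rit F γ k r).bd η) = 0 := hOK.bb η
    rw [he] at e1
    exact e1
  obtain ⟨a', ha', -, -, h4, -⟩ := q2 hC n κ hκ η hη' hbk he
  exact ⟨a', ha', h4⟩

end HVx
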