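import Pool.Agent.Lib.MP_181146_gt.HV.SpecV2

/-!
# Project HV, module Cv (helper80)
-/

set_option autoImplicit false

noncomputable section

namespace HVx

open HEp HPx HRx HTx

section

variable {G : Type} [CommGroup G] {X : AX G} {E : Type} [TopologicalSpace E] {act : G → C(E, E)}

private lemma pX_sx (Λ : Lk X E act) (φ : (fX X).Φ) {n : ℕ} (x : (Sing E).K n) :
    pX Λ φ (sx ℤ x) = φ n (Λ.f' n (sx ℤ x)) := by
  change Finsupp.linearCombination ℤ
    (fun x : Σ n, (Sing E).K n => φ x.1 (Λ.f' x.1 (Finsupp.single x 1)))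
    (Finsupp.single ⟨n, x⟩ 1) = _
  rw [Finsupp.linearCombination_single, one_smul]
  rfl

private lemma gr_ind {K : SS} {i : ℕ} {P : Ch ℤ K → Prop} (h0 : P 0)
    (hs : ∀ x : K.K i, P (sx ℤ x)) (ha : ∀ a b, P a → P b → P (a + b))
    (hm : ∀ (r : ℤ) a, P a → P (r • a)) (c : Ch ℤ K) (hc : c ∈ gr ℤ K i) : P c := by
  rw [gr, Finsupp.supported_eq_span_single] at hc
  refine Submodule.span_induction ?_ h0 (fun a b _ _ => ha a b) (fun r a _ => hm r a) hc
  rintro _ ⟨⟨n, x⟩, hn, rfl⟩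
  obtain rfl : n = i := hn
  exact hs x

private lemma pX_gr (Λ : Lk X E act) (φ : (fX X).Φ) (i : ℕ) (c : Ch ℤ (Sing E))
    (hc : c ∈ gr ℤ (Sing E) i) : pX Λ φ c = φ i (Λ.f' i c) := by
  refine gr_ind (P := fun c => pX Λ φ c = φ i (Λ.f' i c)) ?_ (fun x => pX_sx Λ φ x)
    (fun a b ha hb => ?_) (fun r a ha => ?_) c hc
  · rw [map_zero, map_zero, map_zero]
  · rw [map_add, map_add, map_add]
    exact congrArg₂ (· + ·) ha hb
  · rw [map_zsmul, map_zsmul, map_zsmul]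
    exact congrArg (r • ·) ha

private lemma sgC_sx {K : SS} {n : ℕ} (x : K.K n) : sgC K (sx ℤ x) = (-1 : ℤ) ^ n • sx ℤ x := by
  rw [sgC, LinearMap.sub_apply, LinearMap.smul_apply, od_sx, LinearMap.id_apply]
  split_ifs with h
  · rw [h.neg_one_pow, two_smul, neg_smul, one_smul]
    abel
  · rw [Nat.not_odd_iff_even] at h
    rw [h.neg_one_pow, smul_zero, sub_zero, one_smul]

private lemma pX_tw (Λ : Lk X E act) (φ : (fX X).Φ) :
    (pX Λ ((fX X).tw φ) : Ch ℤ (Sing E) →ₗ[ℤ] ℤ) = pX Λ φ ∘ₗ sgC (Sing E) := by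
  apply ch_ext
  intro n x
  rw [pX_sx, LinearMap.comp_apply, sgC_sx, map_smul, pX_sx]
  rfl

private lemma bd_gr {K : SS} {n : ℕ} (x : K.K (n + 1)) : bd ℤ K (sx ℤ x) ∈ gr ℤ K n := by
  rw [bd_sx]
  exact Submodule.sum_mem _ fun i _ => Submodule.smul_mem _ _ (sx_mem_gr ℤ _)

private lemma pX_bd (Λ : Lk X E act) (φ : (fX X).Φ) :
    (pX Λ ((fX X).bd φ) : Ch ℤ (Sing E) →ₗ[ℤ] ℤ) = pX Λ φ ∘ₗ bd ℤ (Sing E) := by
  apply ch_ext
  intro n x
  rw [pX_sx, LinearMap.comp_apply]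
  cases n with
  | zero =>
    rw [bd_sx_zero, map_zero]
    rfl
  | succ n =>
    rw [pX_gr Λ φ n _ (bd_gr x), Λ.f'd]
    rfl

private lemma pX_g (Λ : Lk X E act) (φ : (fX X).Φ) (h : G) :
    (pX Λ ((fX X).g h φ) : Ch ℤ (Sing E) →ₗ[ℤ] ℤ) = pX Λ φ ∘ₗ cmap ℤ (SingMap (act h)) := by
  apply ch_ext
  intro n x
  rw [pX_sx, LinearMap.comp_apply, cmap_sx, pX_sx, ← cmap_sx, Λ.f'g]
  rfl

private lemma pX_eX (Λ : Lk X E act) :
    (pX Λ (eX X) : Ch ℤ (Sing E) →ₗ[ℤ] ℤ) = aug ℤ (Sing E) := by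
  apply ch_ext
  intro n x
  rw [pX_sx]
  cases n with
  | zero => exact Λ.f'ε _
  | succ n =>
    rw [aug_sx_succ]
    rfl

end

private lemma sum_cast {M : Type} [AddCommMonoid M] (Q : ℕ) [NeZero Q] (F : ZMod Q → M) (c : ℤ) :
    ∑ a ∈ Finset.range Q, F ((c + a : ℤ) : ZMod Q) = ∑ a : ZMod Q, F a := by
  have h1 : ∑ a : ZMod Q, F a = ∑ a : ZMod Q, F ((c : ZMod Q) + a) :=
    (Equiv.sum_comp (Equiv.addLeft (c : ZMod Q)) F).symm
  rw [h1]
  refine Finset.sum_bij' (fun a _ => (a : ZMod Q)) (fun a _ => a.val) (fun a _ => Finset.mem_univ _)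
    (fun a _ => Finset.mem_range.2 a.val_lt) (fun a ha => ?_) (fun a _ => ZMod.natCast_zmod_val a)
    (fun a _ => ?_)
  · exact ZMod.val_natCast_of_lt (Finset.mem_range.1 ha)
  · rw [Int.cast_add, Int.cast_natCast]

theorem sCv : S_Cv := by
  intro G _ X E _ act Λ Q _ χ ix n
  have htw : ∀ n φ, cv Λ Q χ ix n ((fcm (fX X) Q (rot χ) ix n).tw φ) =
      (fitE act Q χ ix n).tw (cv Λ Q χ ix n φ) := by
    intro n
    induction n with
    | zero => exact fun φ => pX_tw Λ φ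
    | succ n ih =>
      intro φ
      refine Prod.ext ?_ ?_
      · funext j c
        exact ih _
      · funext j c
        change cv Λ Q χ ix n (-((fcm (fX X) Q (rot χ) ix n).tw (φ.2 j c))) =
          -((fitE act Q χ ix n).tw (cv Λ Q χ ix n (φ.2 j c)))
        rw [map_neg, ih]
  have hbd : ∀ n φ, cv Λ Q χ ix n ((fcm (fX X) Q (rot χ) ix n).bd φ) =
      (fitE act Q χ ix n).bd (cv Λ Q χ ix n φ) := by
    intro n
    induction n with
    | zero => exact fun φ => pX_bd Λ φ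
    | succ n ih =>
      intro φ
      refine Prod.ext ?_ ?_
      · funext j c
        cases j with
        | zero =>
          change cv Λ Q χ ix n ((fcm (fX X) Q (rot χ) ix n).bd (φ.1 0 (c : ZMod Q)) + 0) =
            (fitE act Q χ ix n).bd (cv Λ Q χ ix n (φ.1 0 (c : ZMod Q))) + 0
          rw [map_add, map_zero, ih]
        | succ j =>
          change cv Λ Q χ ix n ((fcm (fX X) Q (rot χ) ix n).bd (φ.1 (j + 1) (c : ZMod Q)) +
            ∑ a : ZMod Q, (fcm (fX X) Q (rot χ) ix n).tw (φ.2 j a)) =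
            (fitE act Q χ ix n).bd (cv Λ Q χ ix n (φ.1 (j + 1) (c : ZMod Q))) +
            ∑ a ∈ Finset.range Q, (fitE act Q χ ix n).tw
              (cv Λ Q χ ix n (φ.2 j ((c + a : ℤ) : ZMod Q)))
          rw [map_add, ih, map_sum]
          refine congrArg _ ?_
          rw [← sum_cast Q (fun a : ZMod Q => cv Λ Q χ ix n
            ((fcm (fX X) Q (rot χ) ix n).tw (φ.2 j a))) c]
          exact Finset.sum_congr rfl fun a _ => htw n _
      · funext j c
        change cv Λ Q χ ix n ((fcm (fX X) Q (rot χ) ix n).bd (φ.2 j (c : ZMod Q)) +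
            ((fcm (fX X) Q (rot χ) ix n).tw (φ.1 j ((c : ZMod Q) + 1)) -
            (fcm (fX X) Q (rot χ) ix n).tw (φ.1 j (c : ZMod Q)))) =
          (fitE act Q χ ix n).bd (cv Λ Q χ ix n (φ.2 j (c : ZMod Q))) +
            ((fitE act Q χ ix n).tw (cv Λ Q χ ix n (φ.1 j ((c + 1 : ℤ) : ZMod Q))) -
            (fitE act Q χ ix n).tw (cv Λ Q χ ix n (φ.1 j (c : ZMod Q))))
        rw [map_add, map_sub, ih, htw, htw, Int.cast_add, Int.cast_one]
  have hg : ∀ n (h : Gam Q χ) φ, cv Λ Q χ ix n ((fcm (fX X) Q (rot χ) ix n).g h.1.1 φ) =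
      (fitE act Q χ ix n).tr h (cv Λ Q χ ix n φ) := by
    intro n h
    induction n with
    | zero => exact fun φ => pX_g Λ φ h.1.1
    | succ n ih =>
      intro φ
      have hr : ∀ c : ℤ, (c : ZMod Q) + rot χ (ix n) h.1.1 =
          ((c + rho Q χ (ix n) h : ℤ) : ZMod Q) := by
        intro c
        rw [Int.cast_add]
        exact congrArg _ (h.2 (ix n)).symm
      refine Prod.ext ?_ ?_
      · funext j c
        change cv Λ Q χ ix n ((fcm (fX X) Q (rot χ) ix n).g h.1.1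
          (φ.1 j ((c : ZMod Q) + rot χ (ix n) h.1.1))) =
          (fitE act Q χ ix n).tr h (cv Λ Q χ ix n (φ.1 j ((c + rho Q χ (ix n) h : ℤ) : ZMod Q)))
        rw [ih, hr]
      · funext j c
        change cv Λ Q χ ix n ((fcm (fX X) Q (rot χ) ix n).g h.1.1
          (φ.2 j ((c : ZMod Q) + rot χ (ix n) h.1.1))) =
          (fitE act Q χ ix n).tr h (cv Λ Q χ ix n (φ.2 j ((c + rho Q χ (ix n) h : ℤ) : ZMod Q)))
        rw [ih, hr]
  have hD : ∀ n d, ∀ φ ∈ fDs (fX X) Q (rot χ) ix (dX X) n d,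
      cv Λ Q χ ix n φ ∈ (fitE act Q χ ix n).Dg d := by
    intro n
    induction n with
    | zero =>
      intro d φ hφ i hi y hy
      have h1 : φ i = 0 := hφ i hi
      change pX Λ φ y = 0
      rw [pX_gr Λ φ i y hy, h1]
      rfl
    | succ n ih =>
      intro d φ hφ j c
      exact ⟨ih _ _ (hφ j c).1, ih _ _ (hφ j c).2⟩
  have hP : ∀ n φ, cv Λ Q χ ix n φ ∈ (fitE act Q χ ix n).Pr := by
    intro n
    induction n with
    | zero =>
      intro φ
      exact AddSubgroup.mem_top _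
    | succ n ih =>
      intro φ j c
      have hc : ((c + Q : ℤ) : ZMod Q) = (c : ZMod Q) := by
        rw [Int.cast_add, Int.cast_natCast, ZMod.natCast_self, add_zero]
      refine ⟨ih _, ih _, ?_, ?_⟩
      · change cv Λ Q χ ix n (φ.1 j ((c + Q : ℤ) : ZMod Q)) = cv Λ Q χ ix n (φ.1 j (c : ZMod Q))
        rw [hc]
      · change cv Λ Q χ ix n (φ.2 j ((c + Q : ℤ) : ZMod Q)) = cv Λ Q χ ix n (φ.2 j (c : ZMod Q))
        rw [hc]
  have hK : ∀ n κ, cv Λ Q χ ix n (kfz (fX X) (eX X) Q (rot χ) ix n κ) =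
      Kf (F := fs0 (Sing E) (fun h : Gam Q χ => SingMap (act h.1.1))) (aug ℤ (Sing E)) Q ix
        (rho Q χ) n κ := by
    intro n
    induction n with
    | zero =>
      intro κ
      change pX Λ (κ 0 • eX X) = κ 0 • aug ℤ (Sing E)
      rw [map_zsmul, pX_eX]
    | succ n ih =>
      intro κ
      refine Prod.ext ?_ ?_
      · funext j c
        exact ih _
      · funext j c
        exact map_zero (cv Λ Q χ ix n)
  have hV : ∀ n φ, vxE Q χ ix n (cv Λ Q χ ix n φ) = pX Λ (fB (fX X) Q (rot χ) ix n φ) := by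
    intro n
    induction n with
    | zero => exact fun φ => rfl
    | succ n ih =>
      intro φ
      change vxE Q χ ix n (cv Λ Q χ ix n (φ.1 0 ((0 : ℤ) : ZMod Q))) =
        pX Λ (fB (fX X) Q (rot χ) ix n (φ.1 0 0))
      rw [ih, Int.cast_zero]
  exact ⟨htw n, hbd n, hg n, hD n, hP n, hK n, hV n⟩

end HVx
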