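import Pool.Agent.Lib.MP_181146_gt.HV.SpecV

set_option autoImplicit false

/-!
# Project HV, module DStep: one more cyclic factor
-/

namespace HVx

open HEp HPx HRx HTx

private theorem DStep_sum {Φ : Type} [AddCommGroup Φ] (s : Finset ℕ) (f : ℕ → AddMonoid.End Φ)
    (x : Φ) : (∑ i ∈ s, f i) x = ∑ i ∈ s, f i x := by
  classical
  induction s using Finset.induction_on with
  | empty => rfl
  | insert a s ha ih =>
    rw [Finset.sum_insert ha, Finset.sum_insert ha, ← ih]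
    rfl

private theorem DStep_tau {Φ Ψ : Type} [AddCommGroup Φ] [AddCommGroup Ψ] (g : AddMonoid.End Φ)
    (g' : AddMonoid.End Ψ) (f : Φ →+ Ψ) (h : ∀ x, f (g x) = g' (f x)) (k l : ℕ) (x : Φ) :
    f (tau g k l x) = tau g' k l (f x) := by
  have hp : ∀ (a : ℕ) (x : Φ), f ((g ^ a) x) = (g' ^ a) (f x) := by
    intro a
    induction a with
    | zero => exact fun _ => rfl
    | succ a ih =>
      intro x
      rw [pow_succ', pow_succ']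
      change f (g ((g ^ a) x)) = g' ((g' ^ a) (f x))
      rw [h, ih]
  unfold tau
  split_ifs
  · rw [DStep_sum, DStep_sum, map_sum]
    exact Finset.sum_congr rfl fun a _ => hp a x
  · change f (g x - x) = g' (f x) - f x
    rw [map_sub, h]

private theorem DStep_inv {ι ι₂ : Type} (F : FC ι) (F₂ : FC ι₂) (γ : ℕ → ι) (γ₂ : ℕ → ι₂)
    (k : ℕ → ℕ) (p : F.Φ →+ F₂.Φ) (j : ι₂) (h : ∀ φ, F₂.g j (p φ) = p φ) (s : ℕ) :
    ∀ φ : (rit F γ k s).Φ, (rit F₂ γ₂ k s).g j (ritF p γ k γ₂ k s φ) =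
      ritF p γ k γ₂ k s φ := by
  induction s with
  | zero => exact h
  | succ s ih => exact fun φ => funext fun l => ih (φ l)

private theorem DStep_comp {ι ι₂ : Type} (F : FC ι) (F₂ : FC ι₂) (γ : ℕ → ι) (γ₂ : ℕ → ι₂)
    (k : ℕ → ℕ) (f : F.Φ →+ F₂.Φ) (ε : F.Φ) (s : ℕ) :
    ∀ κ : (zit k s).Φ, ritF f γ k γ₂ k s (eR F ε γ k s κ) = eR F₂ (f ε) γ₂ k s κ := by
  induction s with
  | zero => exact fun κ => map_zsmul f κ ε
  | succ s ih => exact fun κ => funext fun l => ih (κ l)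

private theorem DStep_zok : zc.OK where
  tt := fun _ => rfl
  tb := fun _ => neg_zero.symm
  bb := fun _ => rfl
  gt := fun _ _ => rfl
  gb := fun _ _ => rfl
  gg := fun _ _ _ => rfl

private theorem DStep_z0 (d : ℤ) (hd : d ≠ 0) (x : ℤ) (hx : x ∈ zD d) : x = 0 := by
  unfold zD at hx
  rw [if_neg hd] at hx
  exact AddSubgroup.mem_bot.1 hx

private theorem DStep_zdok : DOK zc zD where
  neg := fun d hd φ hφ => DStep_z0 d hd.ne φ hφ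
  Dt := fun _ _ h => h
  Ds := fun d φ hφ => by
    rcases eq_or_ne d 0 with rfl | hd
    · exact (one_smul ℤ φ).symm
    · have h : φ = (0 : ℤ) := DStep_z0 d hd φ hφ
      subst h
      exact (smul_zero (d.negOnePow : ℤ)).symm
  Db := fun d _ _ => (zD (d + 1)).zero_mem
  Dg := fun _ _ _ h => h

private theorem DStep_em {ι : Type} (F : FC ι) (D : ℤ → AddSubgroup F.Φ) (ε : F.Φ)
    (hD : DOK F D) (h0 : ε ∈ D 0) (hb : F.bd ε = 0) : Mp zc F zD D (em ε) where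
  ft := fun (j : ℤ) => by
    have h : F.tw ε = ε := (hD.Ds 0 ε h0).trans (one_smul ℤ ε)
    change j • ε = F.tw (j • ε)
    rw [map_zsmul, h]
  fb := fun (j : ℤ) => by
    change (0 : ℤ) • ε = F.bd (j • ε)
    rw [map_zsmul, hb, smul_zero, zero_smul]
  fD := fun d (j : ℤ) hj => by
    change j • ε ∈ D d
    rcases eq_or_ne d 0 with rfl | hd
    · exact (D 0).zsmul_mem h0 j
    · rw [DStep_z0 d hd j hj, zero_smul]
      exact (D d).zero_mem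

theorem sDStep (h1 : S_Ex) (h2 : S_Con) (h3 : S_Rit) (h4 : S_RitI) (h5 : S_RitB) :
    S_DStep := by
  intro ι ι₂ F F₂ D D₂ m s ε γ γ₂ k μ p₁ p₂ u z hF hF₂ hD hD₂ hm hA hA₂ e1 e2 hP hP₂ P hu hub
    hui hpr hv hw
  obtain ⟨v, hvD, hvb, hvu⟩ := hv
  obtain ⟨w, hwD, hwb, hwu⟩ := hw
  have hn : (0 : ℤ) < 2 * m - 1 := by
    have : (0 : ℤ) < m := by exact_mod_cast hm
    omega
  obtain ⟨v', hv'D, κ', hκD, hv'b, hv'u⟩ :=
    h1 ι F D (2 * m - 1) ε γ k (s + 1) u hF hD hn hA hP hu hub hui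
  have hzP : ∀ r, Per zc (fun _ => ()) k r := fun r t _ => one_pow (M := AddMonoid.End ℤ) (k t)
  have hP1 : Per F γ k s := fun t ht => hP t (ht.trans (Nat.lt_succ_self s))
  have hP2 : Per F₂ γ₂ k s := fun t ht => hP₂ t (ht.trans (Nat.lt_succ_self s))
  -- the maps
  obtain ⟨mE, -, -, -⟩ := h3.2 Unit ι zc F zD D (em ε) (fun _ => ()) γ k (s + 1) DStep_zok hF
    DStep_zdok hD (hzP _) hP (DStep_em F D ε hD hA.deg hA.bde) (fun t _ (j : ℤ) => by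
      change j • ε = F.g (γ t) (j • ε)
      rw [map_zsmul, hA.ge])
  obtain ⟨mM, -, -, -⟩ := h3.2 ι ι₂ F F₂ D D₂ μ γ γ₂ k (s + 1) hF hF₂ hD hD₂ hP hP₂ P.mm
    (fun t ht => P.gm t (Nat.lt_succ_iff.1 ht))
  obtain ⟨m1, -, -, -⟩ := h3.2 ι ι₂ F F₂ D D₂ p₁ γ γ₂ k s hF hF₂ hD hD₂ hP1 hP2 P.m1 P.g1
  obtain ⟨i1, i2, -, i4, i5, -, -, -, -⟩ := h4 ι₂ F₂ D₂ γ₂ k s hF₂ hD₂
  obtain ⟨-, -, -, -, -, -, -, z8, -⟩ :=
    h4 Unit zc zD (fun _ => ()) k (s + 1) DStep_zok DStep_zdok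
  -- the element `dg`
  have hdg : ∀ r, dg z m k r ∈ zDs k r (2 * m - 1 + 1) := by
    intro r
    induction r with
    | zero => exact (zD _).zero_mem
    | succ r ih =>
      obtain ⟨-, -, -, -, z5, -, -, -, -⟩ :=
        h4 Unit zc zD (fun _ => ()) k r DStep_zok DStep_zdok
      intro l
      change (if l = 0 then dg z m k r else
        if l = 2 * m then rI zc (fun _ => ()) k r (z r) else 0) ∈
        zDs k r (2 * m - 1 + 1 - (l : ℤ))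
      split_ifs with c1 c2
      · subst c1
        rw [Nat.cast_zero, sub_zero]
        exact ih
      · subst c2
        have e : (2 * m - 1 + 1 - ((2 * m : ℕ) : ℤ)) = 0 := by
          push_cast
          ring
        rw [e]
        exact z5 0 (z r) (by
          unfold zD
          rw [if_pos rfl]
          trivial)
      · exact AddSubgroup.zero_mem _
  -- the three functionals
  let M : (rit F γ k (s + 1)).Φ →+ (rit F₂ γ₂ k (s + 1)).Φ := ritF μ γ k γ₂ k (s + 1)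
  let a1 : (rit F₂ γ₂ k s).Φ := ritF p₁ γ k γ₂ k s v
  let Z1 : (rit F₂ γ₂ k (s + 1)).Φ := (ic a1 : ℕ → (rit F₂ γ₂ k s).Φ)
  let Z2 : (rit F₂ γ₂ k (s + 1)).Φ := fun l => rI F₂ γ₂ k s (p₂ (w l))
  have hMb : (rit F₂ γ₂ k (s + 1)).bd (M v') = eR F₂ (μ ε) γ₂ k (s + 1) κ' :=
    (mM.fb v').symm.trans ((congrArg M hv'b).trans (DStep_comp F F₂ γ γ₂ k μ ε (s + 1) κ'))
  have ha1 : (rit F₂ γ₂ k s).bd a1 = eR F₂ (μ ε) γ₂ k s (dg z m k s) := by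
    refine (m1.fb v).symm.trans ((congrArg _ hvb).trans ((DStep_comp F F₂ γ γ₂ k p₁ ε s _).trans ?_))
    rw [e1]
  have hg1 : (rit F₂ γ₂ k s).g (γ₂ s) ((rit F₂ γ₂ k s).tw a1) = (rit F₂ γ₂ k s).tw a1 := by
    have h : (rit F₂ γ₂ k s).tw a1 = ritF p₁ γ k γ₂ k s ((rit F γ k s).tw v) := (m1.ft v).symm
    rw [h]
    exact DStep_inv F F₂ γ γ₂ k p₁ (γ₂ s) P.g1s s _
  have hZ1b : ∀ l, ((rit F₂ γ₂ k (s + 1)).bd Z1 : ℕ → (rit F₂ γ₂ k s).Φ) l =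
      if l = 0 then eR F₂ (μ ε) γ₂ k s (dg z m k s) else 0 := by
    intro l
    match l with
    | 0 =>
      rw [if_pos rfl, ← ha1]
      exact add_zero _
    | 1 =>
      rw [if_neg one_ne_zero]
      change (rit F₂ γ₂ k s).bd 0 + tau ((rit F₂ γ₂ k s).g (γ₂ s)) (k s) 1
        ((-1 : ℤ) ^ 0 • (rit F₂ γ₂ k s).tw a1) = 0
      rw [map_zero, pow_zero, one_smul, zero_add]
      unfold tau
      rw [if_neg (by decide)]
      change (rit F₂ γ₂ k s).g (γ₂ s) ((rit F₂ γ₂ k s).tw a1) - (rit F₂ γ₂ k s).tw a1 = 0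
      rw [hg1, sub_self]
    | l + 2 =>
      rw [if_neg (by omega)]
      change (rit F₂ γ₂ k s).bd 0 + tau ((rit F₂ γ₂ k s).g (γ₂ s)) (k s) (l + 2)
        ((-1 : ℤ) ^ (l + 1) • (rit F₂ γ₂ k s).tw 0) = 0
      rw [map_zero, map_zero, smul_zero, map_zero, add_zero]
  have hI : ∀ x, (rit F₂ γ₂ k s).bd (rI F₂ γ₂ k s (p₂ x)) = rI F₂ γ₂ k s (p₂ (F.bd x)) := by
    intro x
    rw [i4, P.m2.fb, Finset.sum_eq_zero, add_zero]
    intro t ht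
    rw [← P.m2.ft, P.g2 t (Finset.mem_range.1 ht), sub_self, map_zero]
  have hG : ∀ x, (rit F₂ γ₂ k s).g (γ₂ s) (rI F₂ γ₂ k s (p₂ x)) =
      rI F₂ γ₂ k s (p₂ (F.g (γ s) x)) := by
    intro x
    rw [i2, P.g2s]
  have hT : ∀ x, (rit F₂ γ₂ k s).tw (rI F₂ γ₂ k s (p₂ x)) = rI F₂ γ₂ k s (p₂ (F.tw x)) := by
    intro x
    rw [i1, P.m2.ft]
  have hZ2b : ∀ l, ((rit F₂ γ₂ k (s + 1)).bd Z2 : ℕ → (rit F₂ γ₂ k s).Φ) l =
      if l = 2 * m then z s • rI F₂ γ₂ k s (μ ε) else 0 := by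
    intro l
    have h : ((rit F₂ γ₂ k (s + 1)).bd Z2 : ℕ → (rit F₂ γ₂ k s).Φ) l =
        rI F₂ γ₂ k s (p₂ ((F.rc (γ s) (k s)).bd w l)) := by
      cases l with
      | zero =>
        change (rit F₂ γ₂ k s).bd (rI F₂ γ₂ k s (p₂ (w 0))) + 0 =
          rI F₂ γ₂ k s (p₂ (F.bd (w 0) + 0))
        rw [add_zero, add_zero, hI]
      | succ l =>
        change (rit F₂ γ₂ k s).bd (rI F₂ γ₂ k s (p₂ (w (l + 1)))) +
          tau ((rit F₂ γ₂ k s).g (γ₂ s)) (k s) (l + 1)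
            ((-1 : ℤ) ^ l • (rit F₂ γ₂ k s).tw (rI F₂ γ₂ k s (p₂ (w l)))) =
          rI F₂ γ₂ k s (p₂ (F.bd (w (l + 1)) +
            tau (F.g (γ s)) (k s) (l + 1) ((-1 : ℤ) ^ l • F.tw (w l))))
        have h6 := DStep_tau (F.g (γ s)) ((rit F₂ γ₂ k s).g (γ₂ s))
          ((rI F₂ γ₂ k s).comp p₂) (fun x => (hG x).symm) (k s) (l + 1)
          ((-1 : ℤ) ^ l • F.tw (w l))
        have h7 : ((rI F₂ γ₂ k s).comp p₂) ((-1 : ℤ) ^ l • F.tw (w l)) =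
            (-1 : ℤ) ^ l • (rit F₂ γ₂ k s).tw (rI F₂ γ₂ k s (p₂ (w l))) := by
          rw [map_zsmul, hT]
          rfl
        rw [h7] at h6
        rw [hI, ← h6, map_add, map_add]
        rfl
    rw [h, hwb]
    change rI F₂ γ₂ k s (p₂ (if l = 2 * m then z s • ε else 0)) = _
    split_ifs
    · rw [map_zsmul, map_zsmul, e2]
    · rw [map_zero, map_zero]
  have hS : (rit F₂ γ₂ k (s + 1)).bd Z1 + (rit F₂ γ₂ k (s + 1)).bd Z2 =
      eR F₂ (μ ε) γ₂ k (s + 1) (dg z m k (s + 1)) := by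
    funext l
    change ((rit F₂ γ₂ k (s + 1)).bd Z1 : ℕ → (rit F₂ γ₂ k s).Φ) l +
      ((rit F₂ γ₂ k (s + 1)).bd Z2 : ℕ → (rit F₂ γ₂ k s).Φ) l =
      eR F₂ (μ ε) γ₂ k s (if l = 0 then dg z m k s else
        if l = 2 * m then rI zc (fun _ => ()) k s (z s) else 0)
    rw [hZ1b, hZ2b]
    split_ifs with c1 c2
    · omega
    · rw [add_zero]
    · rw [zero_add, (h5 Unit ι₂ zc F₂ (em (μ ε)) (fun _ => ()) γ₂ k k s).2.1 (z s : ℤ)]
      exact (map_zsmul (rI F₂ γ₂ k s) (z s) (μ ε)).symm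
    · rw [add_zero, map_zero]
  let η : (rit F₂ γ₂ k (s + 1)).Φ := M v' - Z1 - Z2
  have hηb : (rit F₂ γ₂ k (s + 1)).bd η =
      eR F₂ (μ ε) γ₂ k (s + 1) (κ' - dg z m k (s + 1)) := by
    change (rit F₂ γ₂ k (s + 1)).bd (M v' - Z1 - Z2) = _
    rw [map_sub, map_sub, map_sub, hMb, sub_sub, hS]
  have hηD : η ∈ rDs F₂ γ₂ k D₂ (s + 1) (2 * m - 1) := by
    refine AddSubgroup.sub_mem _ (AddSubgroup.sub_mem _ (mM.fD _ _ hv'D) ?_) ?_
    · intro l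
      change (if l = 0 then a1 else 0) ∈ rDs F₂ γ₂ k D₂ s (2 * m - 1 - (l : ℤ))
      split_ifs with c
      · subst c
        rw [Nat.cast_zero, sub_zero]
        exact m1.fD _ _ hvD
      · exact AddSubgroup.zero_mem _
    · intro l
      exact i5 _ _ (P.m2.fD _ _ (hwD l))
  have hc : ∀ f : F.Φ →+ F₂.Φ, Mp F F₂ D D₂ f → ∀ x ∈ cob F D (2 * m - 1),
      f x ∈ cob F₂ D₂ (2 * m - 1) := by
    rintro f hf x ⟨y, hy, rfl⟩
    exact ⟨f y, hf.fD _ _ hy, (hf.fb y).symm⟩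
  have hη0 : rB F₂ γ₂ k (s + 1) η ∈ cob F₂ D₂ (2 * m - 1) := by
    have g1 : rB F₂ γ₂ k (s + 1) (M v') = μ (rB F γ k (s + 1) v') :=
      (h5 ι ι₂ F F₂ μ γ γ₂ k k (s + 1)).1 v'
    have g2 : rB F₂ γ₂ k (s + 1) Z1 = p₁ (rB F γ k s v) :=
      (h5 ι ι₂ F F₂ p₁ γ γ₂ k k s).1 v
    have g3 : rB F₂ γ₂ k (s + 1) Z2 = p₂ (w 0) :=
      (h5 ι₂ ι₂ F₂ F₂ (AddMonoidHom.id _) γ₂ γ₂ k k s).2.2.2.1 (p₂ (w 0))
    have g4 : rB F₂ γ₂ k (s + 1) η = (μ u - p₁ u - p₂ u) + μ (rB F γ k (s + 1) v' - u) -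
        p₁ (rB F γ k s v - u) - p₂ (w 0 - u) := by
      change rB F₂ γ₂ k (s + 1) (M v' - Z1 - Z2) = _
      rw [map_sub (rB F₂ γ₂ k (s + 1)), map_sub (rB F₂ γ₂ k (s + 1)), g1, g2, g3, map_sub μ,
        map_sub p₁, map_sub p₂]
      abel
    rw [g4]
    exact AddSubgroup.sub_mem _ (AddSubgroup.sub_mem _ (AddSubgroup.add_mem _ hpr
      (hc μ P.mm _ hv'u)) (hc p₁ P.m1 _ hvu)) (hc p₂ P.m2 _ hwu)
  obtain ⟨η', hη'D, hη'b⟩ := h2 ι₂ F₂ D₂ (2 * m - 1) (μ ε) γ₂ k (s + 1) hF₂ hD₂ hn hA₂ hP₂ η hηD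
    (κ' - dg z m k (s + 1)) (AddSubgroup.sub_mem _ hκD (hdg (s + 1))) hη0 hηb
  refine ⟨v' - eR F ε γ k (s + 1) η', AddSubgroup.sub_mem _ hv'D (mE.fD _ _ hη'D), ?_, ?_⟩
  · rw [map_sub, hv'b, ← mE.fb, hη'b, map_sub, sub_sub_cancel]
  · have g5 : rB F γ k (s + 1) (eR F ε γ k (s + 1) η') = 0 := by
      rw [(h5 Unit ι zc F (em ε) (fun _ => ()) γ k k (s + 1)).1 η']
      have g6 : rB zc (fun _ => ()) k (s + 1) η' = (0 : ℤ) :=
        DStep_z0 _ hn.ne' _ (z8 _ _ hη'D)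
      rw [g6]
      exact map_zero (em ε)
    rw [map_sub, g5, sub_zero]
    exact hv'u

end HVx
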