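import Pool.Agent.Lib.MP_181146_gt.HV.SpecV

/-!
# Project HV, module DgX: the diagonal functional on `X` and the periodic resolutions
-/

set_option autoImplicit false
set_option linter.unusedVariables false

noncomputable section

namespace HVx

open scoped TensorProduct
open HEp HPx HRx HTx

/-- The compatibility of the three maps with the operators. -/
private theorem DgX_P2 {G : Type} [CommGroup G] {X : AX G} {E : Type} [TopologicalSpace E]
    {act : G → C(E, E)} (μ p₁ p₂ : (fX X).Φ →+ (f2 act).Φ)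
    (hg : ∀ φ, (fX X).g 1 φ = φ)
    (h1 : Mp (fX X) (f2 act) (dX X) (d2 act) μ) (h2 : Mp (fX X) (f2 act) (dX X) (d2 act) p₁)
    (h3 : Mp (fX X) (f2 act) (dX X) (d2 act) p₂)
    (h4 : ∀ a b φ, μ ((fX X).g (a * b) φ) = (f2 act).g (a, b) (μ φ))
    (h5 : ∀ a b φ, p₁ ((fX X).g a φ) = (f2 act).g (a, b) (p₁ φ))
    (h6 : ∀ a b φ, p₂ ((fX X).g b φ) = (f2 act).g (a, b) (p₂ φ)) (γ : ℕ → G) (s : ℕ) :
    P2 (fX X) (f2 act) (dX X) (d2 act) γ (gam2 γ s) s μ p₁ p₂ := by
  have e1 : ∀ t, t < s → gam2 γ s t = (γ t, 1) := fun t ht => if_pos ht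
  have e2 : gam2 γ s s = (1, γ s) := if_neg (lt_irrefl s)
  refine ⟨h1, h2, h3, ?_, ?_, ?_, ?_, ?_⟩
  · intro t ht φ
    rcases Nat.lt_or_ge t s with h | h
    · rw [e1 t h, ← h4, mul_one]
    · have : t = s := le_antisymm ht h
      rw [this, e2, ← h4, one_mul]
  · intro t ht φ
    rw [e1 t ht, ← h5]
  · intro φ
    rw [e2, ← h5, hg]
  · intro t ht φ
    rw [e1 t ht, ← h6, hg]
  · intro φ
    rw [e2, ← h6]

/-- The periods of the operators on the tensor square. -/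
private theorem DgX_Per {G : Type} [CommGroup G] {E : Type} [TopologicalSpace E]
    {act : G → C(E, E)} (h : ∀ (a : G × G) (k : ℕ), a ^ k = 1 → (f2 act).g a ^ k = 1)
    (γ : ℕ → G) (k : ℕ → ℕ) (hγ : ∀ t, γ t ^ k t = 1) (s : ℕ) :
    Per (f2 act) (gam2 γ s) k (s + 1) := by
  intro t ht
  refine h _ _ ?_
  unfold gam2
  split_ifs with h1
  · refine Prod.ext ?_ ?_
    · exact hγ t
    · exact one_pow _
  · have : t = s := by omega
    subst this
    refine Prod.ext ?_ ?_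
    · exact one_pow _
    · exact hγ t

theorem sDgX (hOne : S_One) (hDiv : S_Div) (hDStep : S_DStep) (hXOK : S_XOK) (hXAc : S_XAc)
    (hXPN : S_XPN) (hTOK : S_TOK) (hTAc : S_TAc) (hTMp : S_TMp) (hTZt : S_TZt) : S_DgX := by
  intro e he G _ _ E _ _ D X hN Λ m hm hX hE r γ k hB u hu hb
  have hn : ((2 * m - 1 : ℕ) : ℤ) = 2 * (m : ℤ) - 1 := by omega
  have hn0 : 0 < 2 * m - 1 := by omega
  have hm0 : 0 < m := by omega
  obtain ⟨o1, o2, -, o4, o5, o6⟩ := hXOK G X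
  obtain ⟨t1, t2, t3⟩ := hTOK G E D.act D.act_one D.act_mul
  have a1 := hXAc G X (2 * m - 1) hn0 hX
  have a2 := hTAc G E D.act (vtx D.v) (2 * m - 1) hn0 hE
  have hpn := hXPN G X (2 * m - 1) hn0 hX hN
  have hA : ContinuousMap.Homotopic (ContinuousMap.id E)
      (D.m.comp (ContinuousMap.prodMk (ContinuousMap.id E) (ContinuousMap.const E D.v))) :=
    ⟨{ toContinuousMap := D.A
       map_zero_left := fun x => D.A0 x
       map_one_left := fun x => D.A1 x }⟩
  have hBh : ContinuousMap.Homotopic (ContinuousMap.id E)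
      (D.m.comp (ContinuousMap.prodMk (ContinuousMap.const E D.v) (ContinuousMap.id E))) :=
    ⟨{ toContinuousMap := D.B
       map_zero_left := fun x => D.B0 x
       map_one_left := fun x => D.B1 x }⟩
  have hzt := hTZt e he G X E D.act Λ D.v D.m hA hBh (2 * m - 1) hn0 hE u
  obtain ⟨p1, p2, p3, p4, p5, p6, p7, p8, p9⟩ :=
    hTMp e he G X E D.act Λ D.m D.m1 D.m2 D.act_one D.act_mul
  rw [hn] at a1 a2 hpn hzt
  have hzt' := hzt hu hb
  have hinv : ∀ g, (fX X).g g u - u ∈ cob (fX X) (dX X) (2 * (m : ℤ) - 1) := hpn u hu hb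
  have hP := DgX_P2 _ _ _ o4 p1 p2 p3 p4 p5 p6
  rw [← p7] at a2
  have q1' := p8.trans p7.symm
  have q2' := p9.trans p7.symm
  -- the numbers `z t`
  have hz : ∀ t, ∃ z : ℤ, ∃ w : ((fX X).rc (γ t) (k t)).Φ, w ∈ rD (dX X) (2 * (m : ℤ) - 1) ∧
      ((fX X).rc (γ t) (k t)).bd w = (fun l => if l = 2 * m then z • eX X else 0) ∧
      w 0 - u ∈ cob (fX X) (dX X) (2 * (m : ℤ) - 1) := fun t =>
    hOne G (fX X) (dX X) m (eX X) (γ t) (k t) u o1 o2 hm0 a1 (o6 _ _ (hB.per t)) hu hb (hinv _)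
  choose z w hw1 hw2 hw3 using hz
  refine ⟨z, fun t j hj0 hjm => ?_, ?_⟩
  · exact hDiv G (G × G) (fX X) (f2 D.act) (dX X) (d2 D.act) m (eX X) (γ t)
      (gam2 (fun _ => γ t) 1) (k t) _ _ _ u o1 t1 o2 t2 hm0 a2 q1' q2' (o6 _ _ (hB.per t))
      (DgX_Per t3 (fun _ => γ t) (fun _ => k t) (fun _ => hB.per t) 1) (hP (fun _ => γ t) 1) hzt'
      (z t) (w t) (hw1 t) (hw2 t) (hw3 t) j hj0 hjm
  · have key : ∀ s : ℕ, ∃ v ∈ rDs (fX X) γ k (dX X) s (2 * (m : ℤ) - 1),
        (rit (fX X) γ k s).bd v = eR (fX X) (eX X) γ k s (dg z m k s) ∧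
        rB (fX X) γ k s v - u ∈ cob (fX X) (dX X) (2 * (m : ℤ) - 1) := by
      intro s
      induction s with
      | zero =>
        refine ⟨u, hu, ?_, ?_⟩
        · change (fX X).bd u = (0 : ℤ) • eX X
          rw [hb, zero_smul]
        · change u - u ∈ _
          rw [sub_self]
          exact AddSubgroup.zero_mem _
      | succ s ih =>
        exact hDStep G (G × G) (fX X) (f2 D.act) (dX X) (d2 D.act) m s (eX X) γ (gam2 γ s) k
          _ _ _ u z o1 t1 o2 t2 hm0 a1 a2 q1' q2' (fun t _ => o6 _ _ (hB.per t))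
          (DgX_Per t3 γ k hB.per s) (hP γ s) hu hb (fun t _ => hinv _) hzt' ih
          ⟨w s, hw1 s, hw2 s, hw3 s⟩
    exact key r

end HVx
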