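import Pool.Agent.Lib.MP_181146_gt.HV.SpecV

/-!
# Project HV (part V): divisibility
-/

set_option autoImplicit false
set_option linter.unusedVariables false

noncomputable section

namespace HVx

open scoped TensorProduct
open HEp HPx HRx HTx

private lemma sum_app {Φ : Type} [AddCommGroup Φ] (g : AddMonoid.End Φ) (k : ℕ) (x : Φ) :
    (∑ a ∈ Finset.range k, g ^ a : AddMonoid.End Φ) x = ∑ a ∈ Finset.range k, (g ^ a) x := by
  induction k with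
  | zero => rfl
  | succ k ih =>
    rw [Finset.sum_range_succ, Finset.sum_range_succ, ← ih]
    rfl

private lemma tau_map {Φ Ψ : Type} [AddCommGroup Φ] [AddCommGroup Ψ] (f : Φ →+ Ψ)
    (g : AddMonoid.End Φ) (G : AddMonoid.End Ψ) (h : ∀ x, f (g x) = G (f x)) (k l : ℕ) (x : Φ) :
    f (tau g k l x) = tau G k l (f x) := by
  have hp : ∀ a : ℕ, f ((g ^ a) x) = (G ^ a) (f x) := by
    intro a
    induction a with
    | zero => rfl
    | succ a ih =>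
      rw [pow_succ', pow_succ']
      change f (g ((g ^ a) x)) = G ((G ^ a) (f x))
      rw [h, ih]
  unfold tau
  split_ifs with hl
  · rw [sum_app, sum_app, map_sum]
    exact Finset.sum_congr rfl (fun a _ => hp a)
  · change f (g x - x) = G (f x) - f x
    rw [map_sub, h]

private lemma tau_rc {ι : Type} (F : FC ι) (i h : ι) (k k' l : ℕ) (φ : ℕ → F.Φ) (j : ℕ) :
    (tau ((F.rc i k).g h) k' l φ : ℕ → F.Φ) j = tau (F.g h) k' l (φ j) :=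
  tau_map (Pi.evalAddMonoidHom (fun _ : ℕ => F.Φ) j) ((F.rc i k).g h) (F.g h) (fun _ => rfl) k' l φ

private lemma tau_par {Φ : Type} [AddCommGroup Φ] (g : AddMonoid.End Φ) (k l l' : ℕ)
    (h : Even l ↔ Even l') : tau g k l = tau g k l' := by
  unfold tau
  by_cases hl : Even l
  · rw [if_pos hl, if_pos (h.1 hl)]
  · rw [if_neg hl, if_neg (fun h' => hl (h.2 h'))]

private lemma bd2 {ι₂ : Type} (F₂ : FC ι₂) (a b : ι₂) (k : ℕ) (η : ℕ → ℕ → F₂.Φ) (l₂ l₁ : ℕ) :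
    (((F₂.rc a k).rc b k).bd η : ℕ → ℕ → F₂.Φ) l₂ l₁ = F₂.bd (η l₂ l₁) +
      prv (fun j => tau (F₂.g a) k (j + 1) ((-1 : ℤ) ^ j • F₂.tw (η l₂ j))) l₁ +
      prv (fun j => tau (F₂.g b) k (j + 1) ((-1 : ℤ) ^ j • (-1 : ℤ) ^ l₁ • F₂.tw (η j l₁))) l₂ := by
  cases l₂ with
  | zero => rfl
  | succ l =>
    exact congrArg (fun t => (F₂.bd (η (l + 1) l₁) +
      prv (fun j => tau (F₂.g a) k (j + 1) ((-1 : ℤ) ^ j • F₂.tw (η (l + 1) j))) l₁) + t)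
      (tau_rc F₂ a b k k (l + 1) ((-1 : ℤ) ^ l • (fun j => (-1 : ℤ) ^ j • F₂.tw (η l j))) l₁)

private def cc (l₂ l₁ : ℕ) : ℤ :=
  if Odd l₁ ∧ Odd l₂ then 0 else ((l₁ / 2 + l₂ / 2).choose (l₁ / 2) : ℕ)

private lemma cc_ee (a b : ℕ) : cc (2 * b) (2 * a) = ((a + b).choose a : ℕ) := by
  unfold cc
  rw [if_neg (fun h => absurd h.1 (by simp)), Nat.mul_div_cancel_left _ two_pos,
    Nat.mul_div_cancel_left _ two_pos]

private lemma cc_oe (a b : ℕ) : cc (2 * b) (2 * a + 1) = ((a + b).choose a : ℕ) := by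
  unfold cc
  rw [if_neg (fun h => absurd h.2 (by simp)), Nat.mul_div_cancel_left _ two_pos,
    show (2 * a + 1) / 2 = a by omega]

private lemma cc_eo (a b : ℕ) : cc (2 * b + 1) (2 * a) = ((a + b).choose a : ℕ) := by
  unfold cc
  rw [if_neg (fun h => absurd h.1 (by simp)), Nat.mul_div_cancel_left _ two_pos,
    show (2 * b + 1) / 2 = b by omega]

private lemma cc_oo (a b : ℕ) : cc (2 * b + 1) (2 * a + 1) = 0 := by
  unfold cc
  rw [if_pos ⟨⟨a, rfl⟩, ⟨b, rfl⟩⟩]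

private lemma cc_z1 (l : ℕ) : cc 0 l = 1 := by
  unfold cc
  rw [if_neg (fun h => absurd h.2 (by simp)), Nat.zero_div, add_zero, Nat.choose_self, Nat.cast_one]

private lemma cc_z2 (l : ℕ) : cc l 0 = 1 := by
  unfold cc
  rw [if_neg (fun h => absurd h.1 (by simp)), Nat.zero_div, Nat.choose_zero_right, Nat.cast_one]

private lemma sgE (n : ℕ) (h : Even n) : (-1 : ℤ) ^ n = 1 := h.neg_one_pow

private lemma sgO (n : ℕ) (h : Odd n) : (-1 : ℤ) ^ n = -1 := h.neg_one_pow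

private lemma bdM {ι ι₂ : Type} (F : FC ι) (F₂ : FC ι₂) (i : ι) (a b : ι₂) (k : ℕ)
    (μ : F.Φ →+ F₂.Φ) (ht : ∀ φ, μ (F.tw φ) = F₂.tw (μ φ)) (hb : ∀ φ, μ (F.bd φ) = F₂.bd (μ φ))
    (ha : ∀ φ, μ (F.g i φ) = F₂.g a (μ φ)) (hb' : ∀ φ, μ (F.g i φ) = F₂.g b (μ φ))
    (x : ℕ → F.Φ) (l₂ l₁ : ℕ) :
    (((F₂.rc a k).rc b k).bd (fun l₂ l₁ => cc l₂ l₁ • μ (x (l₁ + l₂))) : ℕ → ℕ → F₂.Φ) l₂ l₁ =
      cc l₂ l₁ • μ (((F.rc i k).bd x : ℕ → F.Φ) (l₁ + l₂)) := by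
  have hA : ∀ (h : ι₂), (∀ φ, μ (F.g i φ) = F₂.g h (μ φ)) → ∀ (j : ℕ) (s c : ℤ) (y : F.Φ),
      tau (F₂.g h) k j (s • F₂.tw (c • μ y)) = (c * s) • μ (tau (F.g i) k j (F.tw y)) := by
    intro h hh j s c y
    have h1 : F₂.tw (c • μ y) = c • μ (F.tw y) := by rw [map_zsmul, ht]
    rw [h1, smul_smul, map_zsmul, mul_comm s c, ← tau_map μ (F.g i) (F₂.g h) hh]
  rw [bd2]
  cases l₁ with
  | zero =>
    cases l₂ with
    | zero =>
      change F₂.bd (cc 0 0 • μ (x 0)) + 0 + 0 = cc 0 0 • μ (F.bd (x 0) + 0)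
      rw [map_zsmul, add_zero, add_zero, add_zero, hb]
    | succ l =>
      rw [Nat.zero_add]
      change F₂.bd (cc (l + 1) 0 • μ (x (l + 1))) + 0 +
        tau (F₂.g b) k (l + 1) ((-1 : ℤ) ^ l • (-1 : ℤ) ^ 0 • F₂.tw (cc l 0 • μ (x (0 + l)))) =
        cc (l + 1) 0 • μ (F.bd (x (l + 1)) + tau (F.g i) k (l + 1) ((-1 : ℤ) ^ l • F.tw (x l)))
      rw [pow_zero, one_smul, hA b hb', cc_z2, cc_z2, Nat.zero_add, one_smul, one_smul,
        one_mul, add_zero, map_add, hb, map_zsmul, map_zsmul]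
  | succ l =>
    cases l₂ with
    | zero =>
      change F₂.bd (cc 0 (l + 1) • μ (x (l + 1))) +
        tau (F₂.g a) k (l + 1) ((-1 : ℤ) ^ l • F₂.tw (cc 0 l • μ (x l))) + 0 =
        cc 0 (l + 1) • μ (F.bd (x (l + 1)) + tau (F.g i) k (l + 1) ((-1 : ℤ) ^ l • F.tw (x l)))
      rw [hA a ha, cc_z1, cc_z1, one_smul, one_smul, one_mul, add_zero, map_add, hb, map_zsmul,
        map_zsmul]
    | succ j =>
      have e1 : l + 1 + (j + 1) = (l + j + 1) + 1 := by omega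
      have e2 : l + (j + 1) = l + j + 1 := by omega
      have e3 : l + 1 + j = l + j + 1 := by omega
      rw [e1]
      change F₂.bd (cc (j + 1) (l + 1) • μ (x (l + j + 1 + 1))) +
        tau (F₂.g a) k (l + 1) ((-1 : ℤ) ^ l • F₂.tw (cc (j + 1) l • μ (x (l + (j + 1))))) +
        tau (F₂.g b) k (j + 1) ((-1 : ℤ) ^ j • (-1 : ℤ) ^ (l + 1) •
          F₂.tw (cc j (l + 1) • μ (x (l + 1 + j)))) =
        cc (j + 1) (l + 1) • μ (F.bd (x (l + j + 1 + 1)) +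
          tau (F.g i) k (l + j + 1 + 1) ((-1 : ℤ) ^ (l + j + 1) • F.tw (x (l + j + 1))))
      rw [e2, e3, smul_smul, hA a ha, hA b hb', map_add, map_zsmul, map_zsmul, map_zsmul, ← hb,
        smul_add, smul_smul, add_assoc]
      congr 1
      generalize F.tw (x (l + j + 1)) = y
      obtain ⟨p, hp | hp⟩ := Nat.even_or_odd' l <;> obtain ⟨q, hq | hq⟩ := Nat.even_or_odd' j
      · -- `l`, `j` even: `l₁`, `l₂` odd
        have t1 : tau (F.g i) k (j + 1) = tau (F.g i) k (l + 1) := tau_par _ _ _ _ (by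
          subst hp hq
          simp)
        rw [t1, sgE l ⟨p, by omega⟩, sgE j ⟨q, by omega⟩, sgO (l + 1) ⟨p, by omega⟩, hp, hq, cc_eo,
          cc_oe, cc_oo, ← add_smul]
        simp
      · -- `l` even, `j` odd: `l₁` odd, `l₂` even
        have t1 : tau (F.g i) k (l + j + 1 + 1) = tau (F.g i) k (l + 1) := tau_par _ _ _ _ (by
          subst hp hq
          constructor <;> rintro ⟨r, hr⟩ <;> omega)
        rw [t1, sgE l ⟨p, by omega⟩, sgE (l + j + 1) ⟨p + q + 1, by omega⟩, hp, hq,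
          show 2 * q + 1 + 1 = 2 * (q + 1) by omega, cc_ee, cc_oo, cc_oe]
        simp
      · -- `l` odd, `j` even: `l₁` even, `l₂` odd
        have t1 : tau (F.g i) k (l + j + 1 + 1) = tau (F.g i) k (j + 1) := tau_par _ _ _ _ (by
          subst hp hq
          constructor <;> rintro ⟨r, hr⟩ <;> omega)
        rw [t1, sgE j ⟨q, by omega⟩, sgE (l + 1) ⟨p + 1, by omega⟩,
          sgE (l + j + 1) ⟨p + q + 1, by omega⟩, hp, hq,
          show 2 * p + 1 + 1 = 2 * (p + 1) by omega, cc_ee, cc_oo, cc_eo]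
        simp
      · -- both odd: `l₁`, `l₂` even
        have t1 : tau (F.g i) k (l + j + 1 + 1) = tau (F.g i) k (j + 1) := tau_par _ _ _ _
          (iff_of_true ⟨p + q + 2, by omega⟩ ⟨q + 1, by omega⟩)
        have t2 : tau (F.g i) k (l + 1) = tau (F.g i) k (j + 1) := tau_par _ _ _ _
          (iff_of_true ⟨p + 1, by omega⟩ ⟨q + 1, by omega⟩)
        rw [t1, t2, sgO l ⟨p, by omega⟩, sgO j ⟨q, by omega⟩, sgE (l + 1) ⟨p + 1, by omega⟩,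
          sgO (l + j + 1) ⟨p + q + 1, by omega⟩, hp, hq,
          show 2 * p + 1 + 1 = 2 * (p + 1) by omega, show 2 * q + 1 + 1 = 2 * (q + 1) by omega,
          cc_ee, cc_oe, cc_eo, ← add_smul]
        congr 1
        have hP : (p + 1 + (q + 1)).choose (p + 1) = (p + (q + 1)).choose p +
            (p + 1 + q).choose (p + 1) := by
          rw [show p + 1 + (q + 1) = (p + (q + 1)) + 1 by omega, Nat.choose_succ_succ,
            show p + 1 + q = p + (q + 1) by omega]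
        rw [hP]
        push_cast
        ring

private lemma tauz (k l : ℕ) (hl : Even l) (x : ℤ) : tau (zc.g ()) k l x = (k : ℤ) * x := by
  unfold tau
  rw [if_pos hl]
  have h1 : ∀ a : ℕ, ((zc.g ()) ^ a) (x : zc.Φ) = x := by
    intro a
    induction a with
    | zero => rfl
    | succ a ih =>
      rw [pow_succ']
      exact ih
  refine ((sum_app (zc.g ()) k x).trans (Finset.sum_congr rfl (fun a _ => h1 a))).trans ?_
  refine (Finset.sum_const _).trans ?_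
  rw [Finset.card_range]
  exact nsmul_eq_mul (α := ℤ) k x

private lemma tauz_dvd (k l : ℕ) (hl : Even l) (x : ℤ) : (k : ℤ) ∣ (tau (zc.g ()) k l x : ℤ) := by
  rw [tauz k l hl]
  exact dvd_mul_right _ _

private lemma bdp {ι ι₂ : Type} (F : FC ι) (F₂ : FC ι₂) (i : ι) (a : ι₂) (k : ℕ)
    (p : F.Φ →+ F₂.Φ) (ht : ∀ φ, p (F.tw φ) = F₂.tw (p φ)) (hb : ∀ φ, p (F.bd φ) = F₂.bd (p φ))
    (ha : ∀ φ, p (F.g i φ) = F₂.g a (p φ)) (x : ℕ → F.Φ) (l : ℕ) :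
    F₂.bd (p (x l)) + prv (fun j => tau (F₂.g a) k (j + 1) ((-1 : ℤ) ^ j • F₂.tw (p (x j)))) l =
      p (((F.rc i k).bd x : ℕ → F.Φ) l) := by
  cases l with
  | zero =>
    change F₂.bd (p (x 0)) + 0 = p (F.bd (x 0) + 0)
    rw [add_zero, add_zero, hb]
  | succ l =>
    change F₂.bd (p (x (l + 1))) + tau (F₂.g a) k (l + 1) ((-1 : ℤ) ^ l • F₂.tw (p (x l))) =
      p (F.bd (x (l + 1)) + tau (F.g i) k (l + 1) ((-1 : ℤ) ^ l • F.tw (x l)))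
    rw [map_add, hb, tau_map p (F.g i) (F₂.g a) ha, map_zsmul p, ht]

private lemma prv0 {X : Type} [Zero X] (l : ℕ) : prv (fun _ : ℕ => (0 : X)) l = 0 := by
  cases l <;> rfl

private lemma tau_fix {Φ : Type} [AddCommGroup Φ] (g : AddMonoid.End Φ) (k : ℕ) (x : Φ)
    (h : g x = x) : tau g k (0 + 1) x = 0 := by
  unfold tau
  rw [if_neg (by simp)]
  change g x - x = 0
  rw [h, sub_self]

theorem sDiv (h1 : S_Con) (h2 : S_Rit) (h3 : S_RitI) : S_Div := by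
  intro ι ι₂ F F₂ D D₂ m ε i γ₂ k μ p₁ p₂ u hF hF₂ hD hD₂ hm hA e1 e2 hg hP P hu z v hv hbv hv0 j hj
    hjm
  set n : ℤ := 2 * m - 1 with hn
  set ζ₁ : ℕ → ℕ → F₂.Φ := fun l₂ l₁ => if l₂ = 0 then p₁ (v l₁) else 0 with hζ₁
  set ζ₂ : ℕ → ℕ → F₂.Φ := fun l₂ l₁ => if l₁ = 0 then p₂ (v l₂) else 0 with hζ₂
  set M : ℕ → ℕ → F₂.Φ := fun l₂ l₁ => cc l₂ l₁ • μ (v (l₁ + l₂)) with hM
  set κ : ℕ → ℕ → ℤ := fun l₂ l₁ => if l₁ + l₂ = 2 * m ∧ 0 < l₁ ∧ 0 < l₂ then cc l₂ l₁ * z else 0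
    with hκ
  have hbM : ∀ l₂ l₁, (((F₂.rc (γ₂ 0) k).rc (γ₂ 1) k).bd M : ℕ → ℕ → F₂.Φ) l₂ l₁ =
      cc l₂ l₁ • (if l₁ + l₂ = 2 * m then z • μ ε else 0) := by
    intro l₂ l₁
    refine (bdM F F₂ i (γ₂ 0) (γ₂ 1) k μ P.mm.ft P.mm.fb (P.gm 0 (Nat.zero_le _)) (P.gm 1 le_rfl)
      v l₂ l₁).trans ?_
    congr 1
    rw [hbv]
    change μ (if l₁ + l₂ = 2 * m then z • ε else 0) = _
    split_ifs
    · rw [map_zsmul]
    · rw [map_zero]
  have hv' : ∀ l, ((F.rc i k).bd v : ℕ → F.Φ) l = if l = 2 * m then z • ε else 0 := by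
    intro l
    rw [hbv]
  have hb1 : ∀ l₂ l₁, (((F₂.rc (γ₂ 0) k).rc (γ₂ 1) k).bd ζ₁ : ℕ → ℕ → F₂.Φ) l₂ l₁ =
      if l₂ = 0 then (if l₁ = 2 * m then z • μ ε else 0) else 0 := by
    intro l₂ l₁
    rw [bd2]
    cases l₂ with
    | zero =>
      rw [if_pos rfl]
      refine (congrArg (· + (0 : F₂.Φ)) (bdp F F₂ i (γ₂ 0) k p₁ P.m1.ft P.m1.fb (P.g1 0 one_pos) v
        l₁)).trans ?_
      rw [add_zero, hv', ← e1]
      split_ifs
      · rw [map_zsmul]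
      · rw [map_zero]
    | succ l =>
      have hz : ∀ l j, ζ₁ (l + 1) j = 0 := fun l j => if_neg (Nat.succ_ne_zero l)
      rw [if_neg (Nat.succ_ne_zero l)]
      simp only [hz, map_zero, smul_zero, prv0, zero_add]
      cases l with
      | zero =>
        refine tau_fix _ _ _ ?_
        change F₂.g (γ₂ 1) ((-1 : ℤ) ^ 0 • (-1 : ℤ) ^ l₁ • F₂.tw (p₁ (v l₁))) =
          (-1 : ℤ) ^ 0 • (-1 : ℤ) ^ l₁ • F₂.tw (p₁ (v l₁))
        rw [map_zsmul, map_zsmul, hF₂.gt, P.g1s]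
      | succ l =>
        change tau (F₂.g (γ₂ 1)) k (l + 1 + 1) ((-1 : ℤ) ^ (l + 1) • (-1 : ℤ) ^ l₁ •
          F₂.tw (ζ₁ (l + 1) l₁)) = 0
        rw [hz, map_zero, smul_zero, smul_zero, map_zero]
  have hb2 : ∀ l₂ l₁, (((F₂.rc (γ₂ 0) k).rc (γ₂ 1) k).bd ζ₂ : ℕ → ℕ → F₂.Φ) l₂ l₁ =
      if l₁ = 0 then (if l₂ = 2 * m then z • μ ε else 0) else 0 := by
    intro l₂ l₁
    rw [bd2]
    cases l₁ with
    | zero =>
      rw [if_pos rfl]
      simp only [pow_zero, one_smul]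
      change F₂.bd (p₂ (v l₂)) + 0 + prv (fun j => tau (F₂.g (γ₂ 1)) k (j + 1) ((-1 : ℤ) ^ j •
        F₂.tw (p₂ (v j)))) l₂ = _
      rw [add_zero]
      refine (bdp F F₂ i (γ₂ 1) k p₂ P.m2.ft P.m2.fb P.g2s v l₂).trans ?_
      rw [hv', ← e2]
      split_ifs
      · rw [map_zsmul]
      · rw [map_zero]
    | succ l =>
      have hz : ∀ l j, ζ₂ j (l + 1) = 0 := fun l j => if_neg (Nat.succ_ne_zero l)
      rw [if_neg (Nat.succ_ne_zero l)]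
      simp only [hz, map_zero, smul_zero, prv0, zero_add, add_zero]
      cases l with
      | zero =>
        refine tau_fix _ _ _ ?_
        change F₂.g (γ₂ 0) ((-1 : ℤ) ^ 0 • F₂.tw (p₂ (v l₂))) = (-1 : ℤ) ^ 0 • F₂.tw (p₂ (v l₂))
        rw [map_zsmul, hF₂.gt, P.g2 0 one_pos]
      | succ l =>
        change tau (F₂.g (γ₂ 0)) k (l + 1 + 1) ((-1 : ℤ) ^ (l + 1) • F₂.tw (ζ₂ l₂ (l + 1))) = 0
        rw [hz, map_zero, smul_zero, map_zero]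
  have hη : ((M - ζ₁ - ζ₂ : ℕ → ℕ → F₂.Φ) : (rit F₂ γ₂ (fun _ => k) 2).Φ) ∈
      rDs F₂ γ₂ (fun _ => k) D₂ 2 n := by
    intro l₂ l₁
    change M l₂ l₁ - ζ₁ l₂ l₁ - ζ₂ l₂ l₁ ∈ D₂ (n - (l₂ : ℤ) - (l₁ : ℤ))
    refine sub_mem (sub_mem ?_ ?_) ?_
    · have := P.mm.fD _ _ (hv (l₁ + l₂))
      rw [show n - ((l₁ + l₂ : ℕ) : ℤ) = n - l₂ - l₁ by push_cast; ring] at this
      exact AddSubgroup.zsmul_mem _ this _
    · change (if l₂ = 0 then p₁ (v l₁) else 0) ∈ D₂ (n - (l₂ : ℤ) - (l₁ : ℤ))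
      split_ifs with h
      · subst h
        have := P.m1.fD _ _ (hv l₁)
        rw [show n - (l₁ : ℤ) = n - ((0 : ℕ) : ℤ) - l₁ by push_cast; ring] at this
        exact this
      · exact zero_mem _
    · change (if l₁ = 0 then p₂ (v l₂) else 0) ∈ D₂ (n - (l₂ : ℤ) - (l₁ : ℤ))
      split_ifs with h
      · subst h
        have := P.m2.fD _ _ (hv l₂)
        rw [show n - (l₂ : ℤ) = n - (l₂ : ℤ) - ((0 : ℕ) : ℤ) by push_cast; ring] at this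
        exact this
      · exact zero_mem _
  have hκD : (κ : (zit (fun _ => k) 2).Φ) ∈ zDs (fun _ => k) 2 (n + 1) := by
    intro l₂ l₁
    change (if l₁ + l₂ = 2 * m ∧ 0 < l₁ ∧ 0 < l₂ then cc l₂ l₁ * z else 0) ∈
      zD (n + 1 - (l₂ : ℤ) - (l₁ : ℤ))
    split_ifs with h
    · rw [show n + 1 - (l₂ : ℤ) - (l₁ : ℤ) = 0 by omega]
      unfold zD
      rw [if_pos rfl]
      exact AddSubgroup.mem_top _
    · exact zero_mem _
  have hbase : rB F₂ γ₂ (fun _ => k) 2 (M - ζ₁ - ζ₂ : ℕ → ℕ → F₂.Φ) ∈ cob F₂ D₂ n := by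
    change cc 0 0 • μ (v 0) - p₁ (v 0) - p₂ (v 0) ∈ cob F₂ D₂ n
    obtain ⟨w, hw, hw'⟩ := hv0
    have hv00 : v 0 = u + F.bd w := sub_eq_iff_eq_add'.1 hw'.symm
    rw [hv00, cc_z1, one_smul]
    have e3 : μ (u + F.bd w) - p₁ (u + F.bd w) - p₂ (u + F.bd w) =
        (μ u - p₁ u - p₂ u) + F₂.bd (μ w - p₁ w - p₂ w) := by
      rw [map_add, map_add, map_add, map_sub, map_sub, P.mm.fb, P.m1.fb, P.m2.fb]
      abel
    rw [e3]
    exact add_mem hu ⟨_, sub_mem (sub_mem (P.mm.fD _ _ hw) (P.m1.fD _ _ hw)) (P.m2.fD _ _ hw), rfl⟩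
  have hbd : (rit F₂ γ₂ (fun _ => k) 2).bd (M - ζ₁ - ζ₂ : ℕ → ℕ → F₂.Φ) =
      eR F₂ (μ ε) γ₂ (fun _ => k) 2 κ := by
    have e4 : (rit F₂ γ₂ (fun _ => k) 2).bd (M - ζ₁ - ζ₂ : ℕ → ℕ → F₂.Φ) =
        (rit F₂ γ₂ (fun _ => k) 2).bd M - (rit F₂ γ₂ (fun _ => k) 2).bd ζ₁ -
          (rit F₂ γ₂ (fun _ => k) 2).bd ζ₂ :=
      (map_sub (rit F₂ γ₂ (fun _ => k) 2).bd (M - ζ₁ : ℕ → ℕ → F₂.Φ) ζ₂).trans
        (congrArg (· - (rit F₂ γ₂ (fun _ => k) 2).bd ζ₂)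
          (map_sub (rit F₂ γ₂ (fun _ => k) 2).bd M ζ₁))
    rw [e4]
    funext l₂ l₁
    change (((F₂.rc (γ₂ 0) k).rc (γ₂ 1) k).bd M : ℕ → ℕ → F₂.Φ) l₂ l₁ -
      (((F₂.rc (γ₂ 0) k).rc (γ₂ 1) k).bd ζ₁ : ℕ → ℕ → F₂.Φ) l₂ l₁ -
      (((F₂.rc (γ₂ 0) k).rc (γ₂ 1) k).bd ζ₂ : ℕ → ℕ → F₂.Φ) l₂ l₁ = κ l₂ l₁ • μ ε
    rw [hbM, hb1, hb2]
    change _ = (if l₁ + l₂ = 2 * m ∧ 0 < l₁ ∧ 0 < l₂ then cc l₂ l₁ * z else 0) • μ ε
    by_cases h : l₁ + l₂ = 2 * m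
    · rw [if_pos h]
      rcases Nat.eq_zero_or_pos l₁ with h0 | h0
      · subst h0
        have h5 : l₂ = 2 * m := by omega
        have h6 : l₂ ≠ 0 := by omega
        rw [if_neg h6, if_pos rfl, if_pos h5, if_neg (by omega), cc_z2, one_smul, sub_zero, sub_self,
          zero_smul]
      · rcases Nat.eq_zero_or_pos l₂ with h1 | h1
        · subst h1
          have h5 : l₁ = 2 * m := by omega
          have h6 : l₁ ≠ 0 := by omega
          rw [if_pos rfl, if_pos h5, if_neg h6, if_neg (by omega), cc_z1, one_smul, sub_self,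
            sub_zero, zero_smul]
        · rw [if_neg h1.ne', if_neg h0.ne', if_pos ⟨h, h0, h1⟩, sub_zero, sub_zero, smul_smul]
    · have hc : ¬(l₁ + l₂ = 2 * m ∧ 0 < l₁ ∧ 0 < l₂) := fun h' => h h'.1
      rw [if_neg h, if_neg hc, smul_zero, zero_smul]
      split_ifs <;> first | omega | simp
  obtain ⟨η', -, hη'⟩ := h1 ι₂ F₂ D₂ n (μ ε) γ₂ (fun _ => k) 2 hF₂ hD₂ (by omega) hA hP _ hη κ hκD
    hbase hbd
  have h5 := congrFun (congrFun hη' (2 * (m - j))) (2 * j)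
  have h6 := bd2 zc () () k η' (2 * (m - j)) (2 * j)
  obtain ⟨a, ha⟩ : ∃ a, 2 * j = a + 1 := ⟨2 * j - 1, by omega⟩
  obtain ⟨b, hb⟩ : ∃ b, 2 * (m - j) = b + 1 := ⟨2 * (m - j) - 1, by omega⟩
  have h7 : (κ (2 * (m - j)) (2 * j) : ℤ) = m.choose j * z := by
    change (if 2 * j + 2 * (m - j) = 2 * m ∧ 0 < 2 * j ∧ 0 < 2 * (m - j) then
      cc (2 * (m - j)) (2 * j) * z else 0) = _
    rw [if_pos ⟨by omega, by omega, by omega⟩, cc_ee, Nat.add_sub_cancel' hjm.le]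
  have h8 : (κ (2 * (m - j)) (2 * j) : ℤ) = prv (fun l => tau (zc.g ()) k (l + 1) ((-1 : ℤ) ^ l •
      zc.tw (η' (2 * (m - j)) l))) (2 * j) +
      prv (fun l => tau (zc.g ()) k (l + 1) ((-1 : ℤ) ^ l • (-1 : ℤ) ^ (2 * j) •
        zc.tw (η' l (2 * j)))) (2 * (m - j)) := by
    refine h5.symm.trans (h6.trans ?_)
    exact congrArg (· + _) (zero_add _)
  rw [h7] at h8
  have h9 : (k : ℤ) ∣ (prv (fun l => tau (zc.g ()) k (l + 1) ((-1 : ℤ) ^ l •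
      zc.tw (η' (2 * (m - j)) l))) (2 * j) : ℤ) := by
    rw [ha]
    exact tauz_dvd k (a + 1) ⟨j, by omega⟩ _
  have h10 : (k : ℤ) ∣ (prv (fun l => tau (zc.g ()) k (l + 1) ((-1 : ℤ) ^ l •
      (-1 : ℤ) ^ (2 * j) • zc.tw (η' l (2 * j)))) (2 * (m - j)) : ℤ) := by
    rw [hb]
    exact tauz_dvd k (b + 1) ⟨m - j, by omega⟩ _
  rw [mul_comm, h8]
  exact Int.dvd_add h9 h10

end HVx
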