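import Pool.Agent.Lib.MP_181146_gt.HV.SpecV

/-!
# Project HV, EV: the functionals `eE`, `eV`
-/

set_option autoImplicit false

noncomputable section

namespace HVx

open HEp HPx HRx HTx

variable {ι : Type}

/-- Multiples of `x` on the vertices. -/
private def EvV {Φ : Type} [AddCommGroup Φ] (Q : ℕ) (x : Φ) (f : ZMod Q → ℤ) :
    (ℕ → ZMod Q → Φ) × (ℕ → ZMod Q → Φ) := (fun j c => if j = 0 then f c • x else 0, 0)

/-- Multiples of `x` on the edges. -/
private def EvE {Φ : Type} [AddCommGroup Φ] (Q : ℕ) (x : Φ) (f : ZMod Q → ℤ) :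
    (ℕ → ZMod Q → Φ) × (ℕ → ZMod Q → Φ) := (0, fun j c => if j = 0 then f c • x else 0)

section

variable (F : FC ι) (Q : ℕ) [NeZero Q] (ρ : ι → ZMod Q)

private lemma Ev_ite (A : AddMonoid.End F.Φ) (j : ℕ) (x : F.Φ) :
    A (if j = 0 then x else 0) = if j = 0 then A x else 0 := by
  split_ifs
  · rfl
  · exact map_zero A

/-! ### The inclusion `jc` -/

private lemma Ev_jc_bd (x : F.Φ) : (F.fc Q ρ).bd (jc Q x) = (jc Q (F.bd x) : (F.fc Q ρ).Φ) := by
  refine Prod.ext ?_ ?_
  · funext j c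
    change F.bd (if j = 0 then x else 0) + prv (fun _ => ∑ a : ZMod Q, F.tw 0) j =
      if j = 0 then F.bd x else 0
    cases j with
    | zero =>
      change F.bd x + 0 = F.bd x
      rw [add_zero]
    | succ j =>
      change F.bd 0 + ∑ a : ZMod Q, F.tw 0 = 0
      simp only [map_zero, Finset.sum_const_zero, add_zero]
  · funext j c
    change F.bd 0 + (F.tw (if j = 0 then x else 0) - F.tw (if j = 0 then x else 0)) = 0
    rw [map_zero, sub_self, add_zero]

private lemma Ev_jc_tw (x : F.Φ) : (F.fc Q ρ).tw (jc Q x) = (jc Q (F.tw x) : (F.fc Q ρ).Φ) := by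
  refine Prod.ext ?_ ?_
  · funext j c
    exact Ev_ite F F.tw j x
  · funext j c
    change -F.tw 0 = 0
    rw [map_zero, neg_zero]

private lemma Ev_jc_g (h : ι) (x : F.Φ) :
    (F.fc Q ρ).g h (jc Q x) = (jc Q (F.g h x) : (F.fc Q ρ).Φ) := by
  refine Prod.ext ?_ ?_
  · funext j c
    exact Ev_ite F (F.g h) j x
  · funext j c
    exact map_zero (F.g h)

omit [NeZero Q] in
private lemma Ev_jc_D {D : ℤ → AddSubgroup F.Φ} {d : ℤ} {x : F.Φ} (hx : x ∈ D d) :
    (jc Q x : (ℕ → ZMod Q → F.Φ) × (ℕ → ZMod Q → F.Φ)) ∈ fD Q D d := by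
  intro j c
  refine ⟨?_, (D _).zero_mem⟩
  change (if j = 0 then x else 0) ∈ D (d - 2 * (j : ℤ))
  split_ifs with h
  · subst h
    simpa using hx
  · exact (D _).zero_mem

/-! ### Vertices and edges -/

variable {x : F.Φ}

private lemma Ev_V_bd (hb : F.bd x = 0) (ht : F.tw x = x) (f : ZMod Q → ℤ) :
    (F.fc Q ρ).bd (EvV Q x f) = (EvE Q x (fun c => f (c + 1) - f c) : (F.fc Q ρ).Φ) := by
  refine Prod.ext ?_ ?_
  · funext j c
    change F.bd (if j = 0 then f c • x else 0) + prv (fun _ => ∑ a : ZMod Q, F.tw 0) j = 0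
    rw [Ev_ite, map_zsmul, hb, smul_zero, ite_self, zero_add]
    cases j with
    | zero => rfl
    | succ j =>
      change ∑ a : ZMod Q, F.tw 0 = 0
      simp only [map_zero, Finset.sum_const_zero]
  · funext j c
    change F.bd 0 + (F.tw (if j = 0 then f (c + 1) • x else 0) - F.tw (if j = 0 then f c • x else 0))
      = if j = 0 then (f (c + 1) - f c) • x else 0
    rw [Ev_ite, Ev_ite, map_zsmul, map_zsmul, ht, map_zero, zero_add]
    split_ifs
    · rw [sub_smul]
    · rw [sub_zero]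

private lemma Ev_E_bd (hb : F.bd x = 0) (ht : F.tw x = x) (f : ZMod Q → ℤ) :
    (F.fc Q ρ).bd (EvE Q x f) =
      ((fun j _ => if j = 1 then (∑ c, f c) • x else 0, fun _ _ => 0) :
        (ℕ → ZMod Q → F.Φ) × (ℕ → ZMod Q → F.Φ)) := by
  refine Prod.ext ?_ ?_
  · funext j c
    change F.bd 0 + prv (fun j => ∑ a : ZMod Q, F.tw (if j = 0 then f a • x else 0)) j =
      if j = 1 then (∑ c, f c) • x else 0
    rw [map_zero, zero_add]
    cases j with
    | zero => rfl
    | succ j =>
      change ∑ a : ZMod Q, F.tw (if j = 0 then f a • x else 0) =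
        if j + 1 = 1 then (∑ c, f c) • x else 0
      by_cases h : j = 0
      · subst h
        simp only [if_true, map_zsmul, ht, zero_add]
        rw [Finset.sum_smul]
      · rw [if_neg (by omega)]
        simp only [if_neg h, map_zero, Finset.sum_const_zero]
  · funext j c
    change F.bd (if j = 0 then f c • x else 0) + (F.tw 0 - F.tw 0) = 0
    rw [Ev_ite, map_zsmul, hb, smul_zero, ite_self, sub_self, add_zero]

private lemma Ev_V_tw (ht : F.tw x = x) (f : ZMod Q → ℤ) :
    (F.fc Q ρ).tw (EvV Q x f) = (EvV Q x f : (F.fc Q ρ).Φ) := by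
  refine Prod.ext ?_ ?_
  · funext j c
    change F.tw (if j = 0 then f c • x else 0) = if j = 0 then f c • x else 0
    rw [Ev_ite, map_zsmul, ht]
  · funext j c
    change -F.tw 0 = 0
    rw [map_zero, neg_zero]

private lemma Ev_E_tw (ht : F.tw x = x) (f : ZMod Q → ℤ) :
    (F.fc Q ρ).tw (EvE Q x f) = -(EvE Q x f : (F.fc Q ρ).Φ) := by
  refine Prod.ext ?_ ?_
  · funext j c
    change F.tw 0 = -0
    rw [map_zero, neg_zero]
  · funext j c
    change -F.tw (if j = 0 then f c • x else 0) = -(if j = 0 then f c • x else 0)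
    rw [Ev_ite, map_zsmul, ht]

private lemma Ev_V_g (h : ι) (hg : F.g h x = x) (f : ZMod Q → ℤ) :
    (F.fc Q ρ).g h (EvV Q x f) = (EvV Q x (fun c => f (c + ρ h)) : (F.fc Q ρ).Φ) := by
  refine Prod.ext ?_ ?_
  · funext j c
    change F.g h (if j = 0 then f (c + ρ h) • x else 0) = if j = 0 then f (c + ρ h) • x else 0
    rw [Ev_ite, map_zsmul, hg]
  · funext j c
    exact map_zero (F.g h)

private lemma Ev_E_g (h : ι) (hg : F.g h x = x) (f : ZMod Q → ℤ) :
    (F.fc Q ρ).g h (EvE Q x f) = (EvE Q x (fun c => f (c + ρ h)) : (F.fc Q ρ).Φ) := by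
  refine Prod.ext ?_ ?_
  · funext j c
    exact map_zero (F.g h)
  · funext j c
    change F.g h (if j = 0 then f (c + ρ h) • x else 0) = if j = 0 then f (c + ρ h) • x else 0
    rw [Ev_ite, map_zsmul, hg]

omit [NeZero Q] in
private lemma Ev_V_D {D : ℤ → AddSubgroup F.Φ} (hx : x ∈ D 0) (f : ZMod Q → ℤ) :
    (EvV Q x f : (ℕ → ZMod Q → F.Φ) × (ℕ → ZMod Q → F.Φ)) ∈ fD Q D 0 := by
  intro j c
  refine ⟨?_, (D _).zero_mem⟩
  change (if j = 0 then f c • x else 0) ∈ D (0 - 2 * (j : ℤ))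
  split_ifs with h
  · subst h
    have e : (0 : ℤ) - 2 * ((0 : ℕ) : ℤ) = 0 := by norm_num
    rw [e]
    exact (D 0).zsmul_mem hx _
  · exact (D _).zero_mem

omit [NeZero Q] in
private lemma Ev_E_D {D : ℤ → AddSubgroup F.Φ} (hx : x ∈ D 0) (f : ZMod Q → ℤ) :
    (EvE Q x f : (ℕ → ZMod Q → F.Φ) × (ℕ → ZMod Q → F.Φ)) ∈ fD Q D 1 := by
  intro j c
  refine ⟨(D _).zero_mem, ?_⟩
  change (if j = 0 then f c • x else 0) ∈ D (1 - 2 * (j : ℤ) - 1)
  split_ifs with h
  · subst h
    have e : (1 : ℤ) - 2 * ((0 : ℕ) : ℤ) - 1 = 0 := by norm_num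
    rw [e]
    exact (D 0).zsmul_mem hx _
  · exact (D _).zero_mem

end

/-! ### The functionals of families of coefficients -/

section

variable (F : FC ι) (ε : F.Φ) (Q : ℕ) [NeZero Q] (ρ : ℕ → ι → ZMod Q) (ix : ℕ → ℕ)

private lemma Ev_kcongr : ∀ (n : ℕ) (κ κ' : (ℕ → ℕ) → ℤ),
    (∀ a : ℕ → ℕ, (∀ x, (∀ l, l < n → ix l ≠ x) → a x = 0) → κ a = κ' a) →
    kfz F ε Q ρ ix n κ = kfz F ε Q ρ ix n κ' := by
  intro n
  induction n with
  | zero =>
    intro κ κ' h
    change κ 0 • ε = κ' 0 • ε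
    rw [h 0 (fun _ _ => rfl)]
  | succ n ih =>
    intro κ κ' h
    refine Prod.ext ?_ rfl
    funext j c
    refine ih _ _ fun a ha => h _ fun x hx => ?_
    rw [Function.update_of_ne (hx n (Nat.lt_succ_self n)).symm]
    exact ha x fun l hl => hx l (Nat.lt_succ_of_lt hl)

private lemma Ev_kzero : ∀ n : ℕ, kfz F ε Q ρ ix n (fun _ => 0) = 0 := by
  intro n
  induction n with
  | zero => exact zero_smul ℤ ε
  | succ n ih =>
    refine Prod.ext ?_ rfl
    funext j c
    exact ih

private lemma Ev_upd {n : ℕ} (hn : ∀ l, l < n → ix l ≠ ix n) (a : ℕ → ℕ) (j : ℕ) :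
    ∑ l ∈ Finset.range (n + 1), Function.update a (ix n) j (ix l) =
      ∑ l ∈ Finset.range n, a (ix l) + j := by
  rw [Finset.sum_range_succ, Function.update_self]
  congr 1
  refine Finset.sum_congr rfl fun l hl => ?_
  rw [Function.update_of_ne (hn l (Finset.mem_range.mp hl))]

private lemma Ev_keps : ∀ n : ℕ, (∀ a b, a < n → b < n → ix a = ix b → a = b) →
    kfz F ε Q ρ ix n (fun a => if ∑ l ∈ Finset.range n, a (ix l) = 0 then 1 else 0) =
      fI F Q ρ ix n ε := by
  intro n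
  induction n with
  | zero =>
    intro _
    exact one_smul ℤ ε
  | succ n ih =>
    intro hix
    have hn : ∀ l, l < n → ix l ≠ ix n := fun l hl h =>
      absurd (hix l n (Nat.lt_succ_of_lt hl) (Nat.lt_succ_self n) h) (by omega)
    have ih' := ih fun a b ha hb => hix a b (Nat.lt_succ_of_lt ha) (Nat.lt_succ_of_lt hb)
    refine Prod.ext ?_ rfl
    funext j c
    change kfz F ε Q ρ ix n (fun a => if ∑ l ∈ Finset.range (n + 1),
      Function.update a (ix n) j (ix l) = 0 then 1 else 0) =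
      if j = 0 then fI F Q ρ ix n ε else 0
    simp only [Ev_upd ix hn]
    by_cases h : j = 0
    · subst h
      simp only [add_zero, if_true]
      exact ih'
    · rw [if_neg h, ← Ev_kzero F ε Q ρ ix n]
      refine congrArg _ (funext fun a => if_neg ?_)
      omega

end

theorem sEV (_h1 : S_FcOK) (h2 : S_Fcm) (_h3 : S_Kf1) : S_EV := by
  intro ι F D ε Q _ ρ ix i n f hF hD hε hb hg hix
  have ht : F.tw ε = ε := by
    have := hD.Ds 0 ε hε
    rw [this, Int.negOnePow_zero]
    exact one_smul ℤ ε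
  induction n with
  | zero =>
    refine ⟨map_zero F.bd, ?_, map_zero F.tw, ?_, fun h => map_zero (F.g h),
      fun h => map_zero (F.g h), (D 0).zero_mem, (D 1).zero_mem, rfl⟩
    · refine (map_zero F.bd).trans ?_
      change (0 : F.Φ) = (∑ c, f c) • ((if (0 : ℕ → ℕ) i = 1 ∧ _ then 1 else 0 : ℤ) • ε)
      rw [if_neg (fun h => absurd h.1 (by simp)), zero_smul, smul_zero]
    · refine (map_zero F.tw).trans ?_
      exact neg_zero.symm
  | succ n ih =>
    obtain ⟨b1, b2, t1, t2, g1, g2, d1, d2, f1⟩ :=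
      ih fun a b ha hb => hix a b (Nat.lt_succ_of_lt ha) (Nat.lt_succ_of_lt hb)
    obtain ⟨-, -, -, -, mp, mg, -, -, -⟩ := h2 ι F D Q ρ ix n hF hD
    have hn : ∀ l, l < n → ix l ≠ ix n := fun l hl h =>
      absurd (hix l n (Nat.lt_succ_of_lt hl) (Nat.lt_succ_self n) h) (by omega)
    have hix' : ∀ a b, a < n → b < n → ix a = ix b → a = b := fun a b ha hb =>
      hix a b (Nat.lt_succ_of_lt ha) (Nat.lt_succ_of_lt hb)
    have xb : (fcm F Q ρ ix n).bd (fI F Q ρ ix n ε) = 0 := by rw [← mp.fb, hb, map_zero]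
    have xt : (fcm F Q ρ ix n).tw (fI F Q ρ ix n ε) = fI F Q ρ ix n ε := by rw [← mp.ft, ht]
    have xg : ∀ h, (fcm F Q ρ ix n).g h (fI F Q ρ ix n ε) = fI F Q ρ ix n ε := fun h => by
      rw [mg, hg]
    have xD : fI F Q ρ ix n ε ∈ fDs F Q ρ ix D n 0 := mp.fD 0 ε hε
    by_cases hi : ix n = i
    · have eE' : ∀ f : ZMod Q → ℤ, eE F ε Q ρ ix i f (n + 1) =
          (EvE Q (fI F Q ρ ix n ε) f : (fcm F Q ρ ix (n + 1)).Φ) := fun f => if_pos hi
      have eV' : ∀ f : ZMod Q → ℤ, eV F ε Q ρ ix i f (n + 1) =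
          (EvV Q (fI F Q ρ ix n ε) f : (fcm F Q ρ ix (n + 1)).Φ) := fun f => if_pos hi
      simp only [eE', eV']
      refine ⟨Ev_V_bd _ Q _ xb xt f, (Ev_E_bd _ Q _ xb xt f).trans ?_, Ev_V_tw _ Q _ xt f,
        Ev_E_tw _ Q _ xt f, fun h => ?_, fun h => ?_, Ev_V_D _ Q xD f, Ev_E_D _ Q xD f, ?_⟩
      · refine Prod.ext ?_ ?_
        · funext j c
          change (if j = 1 then (∑ c, f c) • fI F Q ρ ix n ε else 0) = (∑ c, f c) •
            kfz F ε Q ρ ix n (fun a => if Function.update a (ix n) j i = 1 ∧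
              ∑ l ∈ Finset.range (n + 1), Function.update a (ix n) j (ix l) = 1 then 1 else 0)
          rw [← hi]
          simp only [Ev_upd ix hn, Function.update_self]
          by_cases h : j = 1
          · subst h
            rw [if_pos rfl, ← Ev_keps F ε Q ρ ix n hix']
            refine congrArg _ (congrArg _ (funext fun a => ?_))
            simp
          · rw [if_neg h]
            simp only [h, false_and, if_false]
            rw [Ev_kzero, smul_zero]
        · funext j c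
          change (0 : (fcm F Q ρ ix n).Φ) = (∑ c, f c) • (0 : (fcm F Q ρ ix n).Φ)
          exact (smul_zero _).symm
      · rw [← hi]
        exact Ev_V_g _ Q _ h (xg h) f
      · rw [← hi]
        exact Ev_E_g _ Q _ h (xg h) f
      · exact map_zero (fB F Q ρ ix n)
    · have eE' : ∀ f : ZMod Q → ℤ, eE F ε Q ρ ix i f (n + 1) =
          (jc Q (eE F ε Q ρ ix i f n) : (fcm F Q ρ ix (n + 1)).Φ) := fun f => if_neg hi
      have eV' : ∀ f : ZMod Q → ℤ, eV F ε Q ρ ix i f (n + 1) =
          (jc Q (eV F ε Q ρ ix i f n) : (fcm F Q ρ ix (n + 1)).Φ) := fun f => if_neg hi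
      simp only [eE', eV']
      refine ⟨(Ev_jc_bd _ Q _ _).trans (congrArg _ b1), ((Ev_jc_bd _ Q _ _).trans
        (congrArg _ b2)).trans ?_, (Ev_jc_tw _ Q _ _).trans (congrArg _ t1),
        ((Ev_jc_tw _ Q _ _).trans (congrArg _ t2)).trans (map_neg _ _), fun h =>
        (Ev_jc_g _ Q _ h _).trans (congrArg _ (g1 h)), fun h =>
        (Ev_jc_g _ Q _ h _).trans (congrArg _ (g2 h)), Ev_jc_D _ Q d1, Ev_jc_D _ Q d2, ?_⟩
      · rw [map_zsmul]
        refine congrArg _ ?_
        refine Prod.ext ?_ rfl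
        funext j c
        change (if j = 0 then kfz F ε Q ρ ix n (fun a => if a i = 1 ∧
            ∑ l ∈ Finset.range n, a (ix l) = 1 then 1 else 0) else 0) =
          kfz F ε Q ρ ix n (fun a => if Function.update a (ix n) j i = 1 ∧
              ∑ l ∈ Finset.range (n + 1), Function.update a (ix n) j (ix l) = 1 then 1 else 0)
        simp only [Ev_upd ix hn, Function.update_of_ne (Ne.symm hi)]
        by_cases h : j = 0
        · subst h
          simp only [add_zero, if_true]
        · rw [if_neg h, ← Ev_kzero F ε Q ρ ix n]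
          refine Ev_kcongr F ε Q ρ ix n _ _ fun a ha => ?_
          refine (if_neg ?_).symm
          rintro ⟨h3, h4⟩
          have h5 : ∑ l ∈ Finset.range n, a (ix l) = 0 := by omega
          have h6 : a i = 0 := by
            by_cases h7 : ∀ l, l < n → ix l ≠ i
            · exact ha i h7
            · push Not at h7
              obtain ⟨l, hl, hl'⟩ := h7
              rw [← hl']
              exact (Finset.sum_eq_zero_iff.mp h5) l (Finset.mem_range.mpr hl)
          omega
      · exact f1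

end HVx
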