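import Pool.Agent.Lib.MP_181146_gt.HV.SpecV

/-!
# Project HV, module Ex: existence of the functional on the product with the periodic resolutions
-/

set_option autoImplicit false

noncomputable section

namespace HVx

open HEp HPx HRx HTx

private lemma trD_self {ι : Type} (F : FC ι) (D : ℤ → AddSubgroup F.Φ) (n : ℤ) :
    trD F D n n = cob F D n := by
  unfold trD
  rw [if_neg (lt_irrefl n), if_pos rfl]

/-- Existence. -/
theorem sEx (hRit : S_Rit) (hRitI : S_RitI) (hRitB : S_RitB) (hTrOK : S_TrOK) (hTrM : S_TrM) :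
    S_Ex := by
  intro ι F D n ε γ k r u hF hD hn hA hP hu hbu hg
  obtain ⟨hzc, hzD, hD', hle, hMp, -, hCn, -⟩ := hTrOK ι F D n ε hF hD hn hA
  have hPz : Per zc (fun _ => ()) k r := fun t _ => one_pow _
  obtain ⟨-, hCn', -, -⟩ := hRit.2 Unit ι zc F zD (trD F D n) (em ε) (fun _ => ()) γ k r hzc hF
    hzD hD' hPz hP hMp (by
      intro t _ φ
      have h1 : ∀ j : ℤ, j • ε = F.g (γ t) (j • ε) := fun j => by rw [map_zsmul, hA.ge]
      exact h1 φ)
  have hCnr := hCn' hCn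
  obtain ⟨hOK, -, -, -⟩ := hRit.1 ι F D γ k r hF hD hP
  obtain ⟨-, -, -, hbd, hI, -, -, -, -⟩ := hRitI ι F D γ k r hF hD
  obtain ⟨-, -, -, -, -, hins', -, hB', -⟩ := hRitI ι F (trD F D n) γ k r hF hD'
  obtain ⟨-, -, hle'⟩ := hTrM ι F D n γ k r
  obtain ⟨-, -, -, hBI, -⟩ := hRitB ι ι F F (AddMonoidHom.id _) γ γ k k r
  have hφ : (rit F γ k r).bd (rI F γ k r u) ∈ rDs F γ k (trD F D n) r (n + 1) := by
    rw [hbd, hbu, map_zero, zero_add]
    refine AddSubgroup.sum_mem _ ?_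
    intro t ht
    refine hins' t n _ ?_
    rw [trD_self]
    have h1 : F.g (γ t) (F.tw u) - F.tw u = (n.negOnePow : ℤ) • (F.g (γ t) u - u) := by
      rw [hD.Ds n u hu, map_zsmul, smul_sub]
    rw [h1]
    exact AddSubgroup.zsmul_mem _ (hg t (Finset.mem_range.1 ht)) _
  obtain ⟨κ, hκ, w, hw, -, e⟩ := hCnr (n + 1) 0 (AddSubgroup.zero_mem _)
    ((rit F γ k r).bd (rI F γ k r u)) hφ (map_zero _) (by rw [hOK.bb, map_zero])
  rw [add_sub_cancel_right] at hw
  refine ⟨rI F γ k r u - w, AddSubgroup.sub_mem _ (hI n u hu) (hle' hle n hw), κ, hκ, ?_, ?_⟩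
  · rw [map_sub, e, add_sub_cancel_right]
  · rw [map_sub, hBI, sub_sub_cancel_left]
    refine AddSubgroup.neg_mem _ ?_
    have h1 := hB' n w hw
    rwa [trD_self] at h1

end HVx
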