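import Pool.Agent.Lib.MP_181146_gt.HV.SpecV

/-!
# Project HV (part V): FcOK, the product with a circle

Author helper69.
-/

set_option autoImplicit false

noncomputable section

namespace HVx

open scoped TensorProduct
open HEp HPx HRx HTx

private lemma fo_sum {Φ : Type} [AddCommGroup Φ] {Q : ℕ} [NeZero Q] (f : ZMod Q → Φ)
    (r : ZMod Q) : ∑ a : ZMod Q, f (a + r) = ∑ a : ZMod Q, f a :=
  Equiv.sum_comp (Equiv.addRight r) f

section

variable {ι : Type} {F : FC ι} {Q : ℕ} [NeZero Q] {ρ : ι → ZMod Q}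

private lemma fo_tt (h : F.OK) (φ : (F.fc Q ρ).Φ) : (F.fc Q ρ).tw ((F.fc Q ρ).tw φ) = φ := by
  refine Prod.ext ?_ ?_
  · funext j c
    exact h.tt _
  · funext j c
    change -F.tw (-F.tw (φ.2 j c)) = φ.2 j c
    rw [map_neg, neg_neg, h.tt]

private lemma fo_tb (h : F.OK) (φ : (F.fc Q ρ).Φ) :
    (F.fc Q ρ).tw ((F.fc Q ρ).bd φ) = -(F.fc Q ρ).bd ((F.fc Q ρ).tw φ) := by
  refine Prod.ext ?_ ?_
  · funext j c
    cases j with
    | zero =>
      change F.tw (F.bd (φ.1 0 c) + 0) = -(F.bd (F.tw (φ.1 0 c)) + 0)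
      rw [add_zero, add_zero, h.tb]
    | succ j =>
      change F.tw (F.bd (φ.1 (j + 1) c) + ∑ a : ZMod Q, F.tw (φ.2 j a)) =
        -(F.bd (F.tw (φ.1 (j + 1) c)) + ∑ a : ZMod Q, F.tw (-F.tw (φ.2 j a)))
      simp only [map_add, map_sum, map_neg, h.tt, h.tb, Finset.sum_neg_distrib]
      abel
  · funext j c
    change -F.tw (F.bd (φ.2 j c) + (F.tw (φ.1 j (c + 1)) - F.tw (φ.1 j c))) =
      -(F.bd (-F.tw (φ.2 j c)) + (F.tw (F.tw (φ.1 j (c + 1))) - F.tw (F.tw (φ.1 j c))))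
    simp only [map_add, map_sub, map_neg, h.tt, h.tb]

private lemma fo_bb (h : F.OK) (φ : (F.fc Q ρ).Φ) : (F.fc Q ρ).bd ((F.fc Q ρ).bd φ) = 0 := by
  refine Prod.ext ?_ ?_
  · funext j c
    cases j with
    | zero =>
      change F.bd (F.bd (φ.1 0 c) + 0) + 0 = 0
      rw [add_zero, add_zero, h.bb]
    | succ j =>
      change F.bd (F.bd (φ.1 (j + 1) c) + ∑ a : ZMod Q, F.tw (φ.2 j a)) +
        ∑ a : ZMod Q, F.tw (F.bd (φ.2 j a) + (F.tw (φ.1 j (a + 1)) - F.tw (φ.1 j a))) = 0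
      simp only [map_add, map_sub, map_sum, h.tt, h.tb, h.bb, Finset.sum_add_distrib,
        Finset.sum_neg_distrib, Finset.sum_sub_distrib, fo_sum (fun a => φ.1 j a) 1]
      abel
  · have key : ∀ (x y z s : F.Φ), F.bd (F.bd x + (F.tw y - F.tw z)) +
        (F.tw (F.bd y + s) - F.tw (F.bd z + s)) = 0 := by
      intro x y z s
      simp only [map_add, map_sub, h.tb, h.bb]
      abel
    funext j c
    cases j with
    | zero => exact key _ _ _ _
    | succ j => exact key _ _ _ _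

private lemma fo_gb (h : F.OK) (i : ι) (φ : (F.fc Q ρ).Φ) :
    (F.fc Q ρ).g i ((F.fc Q ρ).bd φ) = (F.fc Q ρ).bd ((F.fc Q ρ).g i φ) := by
  refine Prod.ext ?_ ?_
  · funext j c
    cases j with
    | zero =>
      change F.g i (F.bd (φ.1 0 (c + ρ i)) + 0) = F.bd (F.g i (φ.1 0 (c + ρ i))) + 0
      rw [add_zero, add_zero, h.gb]
    | succ j =>
      change F.g i (F.bd (φ.1 (j + 1) (c + ρ i)) + ∑ a : ZMod Q, F.tw (φ.2 j a)) =
        F.bd (F.g i (φ.1 (j + 1) (c + ρ i))) + ∑ a : ZMod Q, F.tw (F.g i (φ.2 j (a + ρ i)))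
      rw [fo_sum (fun a => F.tw (F.g i (φ.2 j a))) (ρ i), map_add, map_sum, h.gb]
      simp only [h.gt]
  · funext j c
    change F.g i (F.bd (φ.2 j (c + ρ i)) + (F.tw (φ.1 j (c + ρ i + 1)) -
        F.tw (φ.1 j (c + ρ i)))) = F.bd (F.g i (φ.2 j (c + ρ i))) +
        (F.tw (F.g i (φ.1 j (c + 1 + ρ i))) - F.tw (F.g i (φ.1 j (c + ρ i))))
    rw [map_add, map_sub, h.gb, h.gt, h.gt, add_right_comm c (ρ i) 1]

private lemma fo_OK (h : F.OK) : (F.fc Q ρ).OK where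
  tt := fo_tt h
  tb := fo_tb h
  bb := fo_bb h
  gt i φ := by
    refine Prod.ext ?_ ?_
    · funext j c
      exact h.gt _ _
    · funext j c
      change F.g i (-F.tw (φ.2 j (c + ρ i))) = -F.tw (F.g i (φ.2 j (c + ρ i)))
      rw [map_neg, h.gt]
  gb := fo_gb h
  gg i j φ := by
    refine Prod.ext ?_ ?_
    · funext l c
      change F.g i (F.g j (φ.1 l (c + ρ i + ρ j))) = F.g j (F.g i (φ.1 l (c + ρ j + ρ i)))
      rw [h.gg, add_right_comm]
    · funext l c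
      change F.g i (F.g j (φ.2 l (c + ρ i + ρ j))) = F.g j (F.g i (φ.2 l (c + ρ j + ρ i)))
      rw [h.gg, add_right_comm]

private lemma fo_s1 (d : ℤ) (j : ℕ) :
    ((d - 2 * (j : ℤ)).negOnePow : ℤ) = (d.negOnePow : ℤ) := by
  rw [Int.negOnePow_sub, Int.negOnePow_even _ (even_two_mul _), mul_one]

private lemma fo_s2 (d : ℤ) (j : ℕ) :
    ((d - 2 * (j : ℤ) - 1).negOnePow : ℤ) = -(d.negOnePow : ℤ) := by
  rw [Int.negOnePow_sub, Int.negOnePow_one, Units.val_mul, fo_s1]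
  simp

private lemma fo_D {D : ℤ → AddSubgroup F.Φ} (h : DOK F D) : DOK (F.fc Q ρ) (fD Q D) where
  neg d hd φ hφ := by
    refine Prod.ext ?_ ?_
    · funext j c
      exact h.neg _ (by omega) _ (hφ j c).1
    · funext j c
      exact h.neg _ (by omega) _ (hφ j c).2
  Dt d φ hφ := fun j c => ⟨h.Dt _ _ (hφ j c).1, (D _).neg_mem (h.Dt _ _ (hφ j c).2)⟩
  Ds d φ hφ := by
    refine Prod.ext ?_ ?_
    · funext j c
      change F.tw (φ.1 j c) = (d.negOnePow : ℤ) • φ.1 j c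
      rw [h.Ds _ _ (hφ j c).1, fo_s1]
    · funext j c
      change -F.tw (φ.2 j c) = (d.negOnePow : ℤ) • φ.2 j c
      rw [h.Ds _ _ (hφ j c).2, fo_s2, neg_smul, neg_neg]
  Db d φ hφ := by
    intro j c
    refine ⟨?_, ?_⟩
    · have h1 : F.bd (φ.1 j c) ∈ D (d + 1 - 2 * (j : ℤ)) := by
        have h := h.Db _ _ (hφ j c).1
        rwa [show d - 2 * (j : ℤ) + 1 = d + 1 - 2 * (j : ℤ) by ring] at h
      cases j with
      | zero =>
        change F.bd (φ.1 0 c) + 0 ∈ D _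
        rw [add_zero]
        exact h1
      | succ j =>
        change F.bd (φ.1 (j + 1) c) + ∑ a : ZMod Q, F.tw (φ.2 j a) ∈ D _
        refine (D _).add_mem h1 ((D _).sum_mem fun a _ => ?_)
        have h := h.Dt _ _ (hφ j a).2
        rwa [show d - 2 * (j : ℤ) - 1 = d + 1 - 2 * ((j + 1 : ℕ) : ℤ) by push_cast; ring] at h
    · change F.bd (φ.2 j c) + (F.tw (φ.1 j (c + 1)) - F.tw (φ.1 j c)) ∈ D (d + 1 - 2 * (j : ℤ) - 1)
      have h1 := h.Db _ _ (hφ j c).2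
      have h2 := h.Dt _ _ (hφ j c).1
      have h3 := h.Dt _ _ (hφ j (c + 1)).1
      rw [show d - 2 * (j : ℤ) - 1 + 1 = d + 1 - 2 * (j : ℤ) - 1 by ring] at h1
      rw [show d - 2 * (j : ℤ) = d + 1 - 2 * (j : ℤ) - 1 by ring] at h2 h3
      exact (D _).add_mem h1 ((D _).sub_mem h3 h2)
  Dg i d φ hφ := fun j c => ⟨h.Dg _ _ _ (hφ j (c + ρ i)).1, h.Dg _ _ _ (hφ j (c + ρ i)).2⟩

private lemma fo_pow (i : ι) (n : ℕ) : ∀ φ : (F.fc Q ρ).Φ, ((F.fc Q ρ).g i ^ n) φ =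
    ((fun j c => (F.g i ^ n) (φ.1 j (c + (n : ZMod Q) * ρ i)),
      fun j c => (F.g i ^ n) (φ.2 j (c + (n : ZMod Q) * ρ i))) : (F.fc Q ρ).Φ) := by
  induction n with
  | zero =>
    intro φ
    refine Prod.ext ?_ ?_
    · funext j c
      change φ.1 j c = φ.1 j (c + ((0 : ℕ) : ZMod Q) * ρ i)
      rw [Nat.cast_zero, zero_mul, add_zero]
    · funext j c
      change φ.2 j c = φ.2 j (c + ((0 : ℕ) : ZMod Q) * ρ i)
      rw [Nat.cast_zero, zero_mul, add_zero]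
  | succ n ih =>
    intro φ
    rw [pow_succ, AddMonoid.End.coe_mul, Function.comp_apply, ih]
    refine Prod.ext ?_ ?_
    · funext j c
      change (F.g i ^ n) (F.g i (φ.1 j (c + (n : ZMod Q) * ρ i + ρ i))) =
        (F.g i ^ (n + 1)) (φ.1 j (c + ((n + 1 : ℕ) : ZMod Q) * ρ i))
      rw [pow_succ, AddMonoid.End.coe_mul, Function.comp_apply, Nat.cast_succ, add_mul, one_mul, add_assoc]
    · funext j c
      change (F.g i ^ n) (F.g i (φ.2 j (c + (n : ZMod Q) * ρ i + ρ i))) =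
        (F.g i ^ (n + 1)) (φ.2 j (c + ((n + 1 : ℕ) : ZMod Q) * ρ i))
      rw [pow_succ, AddMonoid.End.coe_mul, Function.comp_apply, Nat.cast_succ, add_mul, one_mul, add_assoc]

end

/-- **FcOK.** -/
theorem sFcOK : S_FcOK := by
  intro ι F D Q _ ρ hF hD
  refine ⟨fo_OK hF, fo_D hD, fun i n h1 h2 => ?_, fun hT j φ hj h => ?_⟩
  · refine DFunLike.ext _ _ fun φ => (fo_pow i n φ).trans ?_
    rw [h1, h2]
    refine Prod.ext ?_ ?_
    · funext j c
      change φ.1 j (c + 0) = φ.1 j c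
      rw [add_zero]
    · funext j c
      change φ.2 j (c + 0) = φ.2 j c
      rw [add_zero]
  · refine Prod.ext ?_ ?_
    · funext l c
      exact hT j _ hj (congrFun (congrFun (congrArg Prod.fst h) l) c)
    · funext l c
      exact hT j _ hj (congrFun (congrFun (congrArg Prod.snd h) l) c)

end HVx
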