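import Pool.Agent.Lib.MP_181146_gt.HV.SpecV

/-!
# Project HV (part V): Fcm, the iterated product with circles

Author helper69.
-/

set_option autoImplicit false

noncomputable section

namespace HVx

open scoped TensorProduct
open HEp HPx HRx HTx

/-- **Fcm.** -/
theorem sFcm (h1 : S_FcOK) (h2 : S_FcI) : S_Fcm := by
  intro ι F D Q _ ρ ix n hF hD
  induction n with
  | zero =>
    exact ⟨hF, hD, fun _ _ h _ => h, fun h => h, ⟨fun _ => rfl, fun _ => rfl, fun _ _ h => h⟩,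
      fun _ _ => rfl, fun _ => rfl, fun _ _ h => h, fun _ => rfl⟩
  | succ n ih =>
    obtain ⟨a1, a2, a3, a4, a5, a6, a7, a8, a9⟩ := ih
    obtain ⟨b1, b2, b3, b4⟩ := h1 ι (fcm F Q ρ ix n) (fDs F Q ρ ix D n) Q (ρ (ix n)) a1 a2
    obtain ⟨c1, c2, c3⟩ := h2 ι (fcm F Q ρ ix n) (fDs F Q ρ ix D n) Q (ρ (ix n)) a1 a2
    refine ⟨b1, b2, fun j k' hj hk => b3 j k' (a3 j k' hj hk) (hk (ix n)), fun h => b4 (a4 h),
      ⟨fun φ => ?_, fun φ => ?_, fun d φ h => c1.fD d _ (a5.fD d φ h)⟩, fun i φ => ?_,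
      fun φ => ?_, fun d φ h => ?_, fun φ => ?_⟩
    · exact (congrArg (jc Q) (a5.ft φ)).trans (c1.ft _)
    · exact (congrArg (jc Q) (a5.fb φ)).trans (c1.fb _)
    · exact (c2 i _).trans (congrArg (jc Q) (a6 i φ))
    · exact (congrArg (fB F Q ρ ix n) (c3 φ)).trans (a7 _)
    · have h3 := (h 0 0).1
      rw [Nat.cast_zero, mul_zero, sub_zero] at h3
      exact a8 d _ h3
    · exact a9 φ

end HVx
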