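import Pool.Agent.Lib.MP_181146_gt.HV.SpecV2
import Pool.Agent.Lib.MP_181146_gt.HM.NMain

/-!
# Project HV, module Hp (helper80)
-/

set_option autoImplicit false

noncomputable section

namespace HVx

open HEp HPx HRx HTx

private lemma Hp_case (m : ℕ) (hm : 1 < m) (q j : ℕ) (hq : q.Prime) (hj : 1 ≤ j) (hmq : q ^ j = m)
    (r : ℕ) (k : Fin r → ℕ) (z : Fin r → ℤ) (hk : ∀ t, 0 < k t)
    (h : ∀ t, ∀ j, 0 < j → j < m → (k t : ℤ) ∣ z t * m.choose j) : ∃ c : Fin m → Fin r → ℤ,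
      MvPolynomial.aeval (fun i => ∑ t, MvPolynomial.C (c i t) * MvPolynomial.X t)
        (HMx.kapP (Polynomial.X ^ m - Polynomial.C (q : ℤ)) m) -
        ∑ t : Fin r, MvPolynomial.C (z t) * MvPolynomial.X t ^ m ∈
        Ideal.span (Set.range fun t : Fin r =>
          (MvPolynomial.C (k t : ℤ) * MvPolynomial.X t : MvPolynomial (Fin r) ℤ)) := by
  subst hmq
  exact HMx.nKap q j hq hj (Fin r) k hk z fun t =>
    (HMx.nPrim (k t) (q ^ j) (z t) hm (h t)).1 q j hq rfl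

theorem sHp : S_Hp := by
  intro m hm
  by_cases hp : ∃ q j : ℕ, q.Prime ∧ m = q ^ j
  · obtain ⟨q, j, hq, hmq⟩ := hp
    have hj : 1 ≤ j := by
      rcases Nat.eq_zero_or_pos j with h | h
      · rw [h, pow_zero] at hmq
        omega
      · exact h
    exact ⟨HMx.kapP (Polynomial.X ^ m - Polynomial.C (q : ℤ)) m, HMx.nHom _ m,
      Or.inl ⟨q, j, hq, hj, hmq, rfl⟩, fun r k z hk h =>
        Hp_case m hm q j hq hj hmq.symm r k z hk h⟩
  · have hne : ∀ q j : ℕ, q.Prime → m ≠ q ^ j := fun q j hq hmq => hp ⟨q, j, hq, hmq⟩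
    refine ⟨0, MvPolynomial.isHomogeneous_zero _ _ _, Or.inr ⟨rfl, hne⟩,
      fun r k z hk h => ⟨fun _ _ => 0, ?_⟩⟩
    rw [map_zero, zero_sub]
    refine Ideal.neg_mem_iff _ |>.2 (Ideal.sum_mem _ fun t _ => ?_)
    obtain ⟨w, hw⟩ := (HMx.nPrim (k t) m (z t) hm (h t)).2 hne
    have e : (MvPolynomial.C (z t) * MvPolynomial.X t ^ m : MvPolynomial (Fin r) ℤ) =
        MvPolynomial.C w * MvPolynomial.X t ^ (m - 1) *
          (MvPolynomial.C (k t : ℤ) * MvPolynomial.X t) := by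
      have h1 : (MvPolynomial.X t : MvPolynomial (Fin r) ℤ) ^ m =
          MvPolynomial.X t ^ (m - 1) * MvPolynomial.X t := by
        rw [← pow_succ, Nat.sub_add_cancel hm.le]
      rw [h1, hw, MvPolynomial.C_mul]
      ring
    rw [e]
    exact Ideal.mul_mem_left _ _ (Ideal.subset_span ⟨t, rfl⟩)

end HVx
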