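import Pool.Agent.Lib.MP_181146_gt.HV.RcOK

/-!
# Project HV (part V), task Inv1: removal of one resolution
-/

set_option autoImplicit false
set_option linter.unusedVariables false

namespace HVx

open HEp HPx HRx HTx

section

variable {Φ : Type} [AddCommGroup Φ]

/-- The endomorphisms which preserve a subgroup. -/
private def Inv1_st (S : AddSubgroup Φ) : Subring (AddMonoid.End Φ) where
  carrier := {f | ∀ φ ∈ S, f φ ∈ S}
  mul_mem' := fun {f g} hf hg φ h => hf _ (hg _ h)
  one_mem' := fun φ h => h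
  add_mem' := fun {f g} hf hg φ h => S.add_mem (hf _ h) (hg _ h)
  zero_mem' := fun φ _ => S.zero_mem
  neg_mem' := fun {f} hf φ h => S.neg_mem (hf _ h)

private lemma Inv1_tel (g E : AddMonoid.End Φ) (k : ℕ) (n : ℕ) :
    (g - 1) * ∑ a ∈ Finset.range n, g ^ a * E * ∑ b ∈ Finset.range (a + 1), g ^ (k - b) =
      g ^ n * E * ∑ b ∈ Finset.range n, g ^ (k - b) -
        ∑ a ∈ Finset.range n, g ^ a * E * g ^ (k - a) := by
  induction n with
  | zero => simp only [Finset.range_zero, Finset.sum_empty, mul_zero, sub_zero]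
  | succ n ih =>
    rw [Finset.sum_range_succ, mul_add, ih, Finset.sum_range_succ (fun b => g ^ (k - b)) n,
      Finset.sum_range_succ (fun a => g ^ a * E * g ^ (k - a)) n]
    simp only [pow_succ', sub_mul, mul_add, one_mul, mul_assoc]
    abel

private lemma Inv1_refl (g : AddMonoid.End Φ) (k : ℕ) (hg : g ^ k = 1) :
    ∑ b ∈ Finset.range k, g ^ (k - b) = ∑ b ∈ Finset.range k, g ^ b := by
  have h1 : ∑ b ∈ Finset.range k, g ^ (k - b) = ∑ b ∈ Finset.range k, g ^ (b + 1) := by
    rw [← Finset.sum_range_reflect (fun b => g ^ (b + 1)) k]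
    refine Finset.sum_congr rfl fun b hb => ?_
    have hb' := Finset.mem_range.1 hb
    have e : k - 1 - b + 1 = k - b := by omega
    rw [e]
  have h2 := Finset.sum_range_succ' (fun b => g ^ b) k
  rw [Finset.sum_range_succ, pow_zero, hg] at h2
  rw [h1]
  exact (add_right_cancel h2).symm

private lemma Inv1_sum (f : ℕ → AddMonoid.End Φ) (n : ℕ) (ψ : Φ) :
    (∑ a ∈ Finset.range n, f a) ψ = ∑ a ∈ Finset.range n, f a ψ := by
  induction n with
  | zero => rfl
  | succ n ih =>
    rw [Finset.sum_range_succ, Finset.sum_range_succ, ← ih]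
    rfl

private lemma Inv1_exa (g E : AddMonoid.End Φ) (k : ℕ) (hg : g ^ k = 1)
    (hE : ∑ a ∈ Finset.range k, g ^ a * E * g ^ (k - a) = 1) (l : ℕ) :
    ∃ C : AddMonoid.End Φ, (∀ R : Subring (AddMonoid.End Φ), g ∈ R → E ∈ R → C ∈ R) ∧
      ∀ ψ, tau g k (l + 1) ψ = 0 → tau g k l (C ψ) = ψ := by
  by_cases hl : Even l
  · refine ⟨E, fun R _ h => h, fun ψ h => ?_⟩
    have hl' : ¬ Even (l + 1) := by
      rw [Nat.even_add_one]
      exact not_not.2 hl
    rw [tau, if_neg hl'] at h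
    have h1 : g ψ = ψ := sub_eq_zero.1 h
    have hp : ∀ n : ℕ, (g ^ n) ψ = ψ := by
      intro n
      induction n with
      | zero => rfl
      | succ n ih =>
        rw [pow_succ']
        exact (congrArg g ih).trans h1
    rw [tau, if_pos hl]
    have h2 := DFunLike.congr_fun hE ψ
    rw [AddMonoid.End.one_apply] at h2
    refine Eq.trans ?_ h2
    rw [Inv1_sum, Inv1_sum]
    refine Finset.sum_congr rfl fun a _ => ?_
    exact congrArg (fun x => (g ^ a) (E x)) (hp (k - a)).symm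
  · refine ⟨-∑ a ∈ Finset.range k, g ^ a * E * ∑ b ∈ Finset.range (a + 1), g ^ (k - b),
      fun R h h' => R.neg_mem (R.sum_mem fun a _ => R.mul_mem (R.mul_mem (R.pow_mem h _) h')
        (R.sum_mem fun b _ => R.pow_mem h _)), fun ψ h => ?_⟩
    have hl' : Even (l + 1) := by
      rw [Nat.even_add_one]
      exact hl
    rw [tau, if_pos hl'] at h
    rw [tau, if_neg hl]
    have h1 := Inv1_tel g E k k
    rw [hE, hg, one_mul, Inv1_refl g k hg] at h1
    have h2 := DFunLike.congr_fun h1 ψ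
    have h3 : (E * ∑ b ∈ Finset.range k, g ^ b - 1) ψ = -ψ := by
      change E ((∑ b ∈ Finset.range k, g ^ b) ψ) - ψ = -ψ
      rw [h, map_zero, zero_sub]
    rw [h3] at h2
    have h4 := congrArg Neg.neg h2
    rw [neg_neg] at h4
    exact (map_neg (g - 1) _).trans h4

private lemma Inv1_com {g h : AddMonoid.End Φ} (k l : ℕ) (hc : ∀ φ, g (h φ) = h (g φ)) (φ : Φ) :
    tau g k l (h φ) = h (tau g k l φ) := by
  have hc' : Commute g h := AddMonoidHom.ext hc
  have h1 : Commute (tau g k l) h := by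
    unfold tau
    split_ifs
    · exact Commute.sum_left _ _ _ (fun a _ => hc'.pow_left a)
    · exact hc'.sub_left (Commute.one_left h)
  exact DFunLike.congr_fun h1.eq φ

private lemma Inv1_sq (l : ℕ) (φ : Φ) : (-1 : ℤ) ^ l • (-1 : ℤ) ^ l • φ = φ := by
  rw [smul_smul, ← mul_pow, neg_one_mul, neg_neg, one_pow, one_smul]

end

section

variable {ι : Type}

/-- The sequence with the value `w` at the place `L`. -/
private def Inv1_s (F : FC ι) (i : ι) (k L : ℕ) (w : F.Φ) : (F.rc i k).Φ :=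
  fun l : ℕ => if l = L then w else 0

private lemma Inv1_tw0 (F : FC ι) (i : ι) (k : ℕ) (hF : F.OK) (l l' : ℕ) (x : F.Φ)
    (h : tau (F.g i) k l ((-1 : ℤ) ^ l' • F.tw x) = 0) : tau (F.g i) k l x = 0 := by
  rw [map_zsmul, Inv1_com k l (hF.gt i)] at h
  have h1 : F.tw ((-1 : ℤ) ^ l' • ((-1 : ℤ) ^ l' • F.tw (tau (F.g i) k l x))) = 0 := by
    rw [h, smul_zero, map_zero]
  rw [Inv1_sq, hF.tt] at h1
  exact h1

private lemma Inv1_ind (F : FC ι) (D : ℤ → AddSubgroup F.Φ) (i : ι) (k : ℕ) (J : Set ι)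
    (E : AddMonoid.End F.Φ) (hF : F.OK) (hD : DOK F D) (hg : F.g i ^ k = 1)
    (hED : ∀ d, ∀ φ ∈ D d, E φ ∈ D d) (hEJ : ∀ j ∈ J, ∀ φ, E (F.g j φ) = F.g j (E φ))
    (hE : ∑ a ∈ Finset.range k, F.g i ^ a * E * F.g i ^ (k - a) = 1) (d : ℤ) (a : F.Φ) (L : ℕ) :
    ∀ φ : (F.rc i k).Φ, φ ∈ rD D d → (F.rc i k).bd φ = ic a →
      (∀ j ∈ J, ∀ l, F.g j (φ l) = φ l) → (∀ l, L + 1 ≤ l → φ l = 0) →
      ∃ a' ∈ D d, ∃ φ' ∈ rD D (d - 1), F.bd a' = a ∧ F.g i a' = a' ∧
        (∀ j ∈ J, F.g j a' = a') ∧ ∀ l, φ l = (ic a' : ℕ → F.Φ) l + (F.rc i k).bd φ' l := by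
  induction L with
  | zero =>
    intro φ hφ hb hJ h0
    refine ⟨φ 0, ?_, 0, (rD D (d - 1)).zero_mem, ?_, ?_, fun j hj => hJ j hj 0, ?_⟩
    · have h := hφ 0
      have e : d - ((0 : ℕ) : ℤ) = d := by
        rw [Nat.cast_zero, sub_zero]
      rw [e] at h
      exact h
    · have h := congrFun hb 0
      rw [rc_bd_zero, add_zero] at h
      exact h
    · have h := congrFun hb 1
      rw [rc_bd_succ, h0 1 le_rfl, map_zero, zero_add] at h
      have h1 := Inv1_tw0 F i k hF 1 0 (φ 0) h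
      rw [tau, if_neg (by decide)] at h1
      exact sub_eq_zero.1 h1
    · have hz : (F.rc i k).bd 0 = 0 := map_zero _
      intro l
      refine Eq.trans ?_ (congrArg (fun x => (ic (φ 0) : ℕ → F.Φ) l + x) (congrFun hz l).symm)
      cases l with
      | zero => exact (add_zero (φ 0)).symm
      | succ l =>
        rw [h0 (l + 1) (by omega)]
        exact (add_zero (0 : F.Φ)).symm
  | succ L ih =>
    intro φ hφ hb hJ h0
    have h1 : tau (F.g i) k (L + 1 + 1) (φ (L + 1)) = 0 := by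
      have h := congrFun hb (L + 1 + 1)
      rw [rc_bd_succ, h0 (L + 1 + 1) le_rfl, map_zero, zero_add] at h
      exact Inv1_tw0 F i k hF (L + 1 + 1) (L + 1) (φ (L + 1)) h
    obtain ⟨C, hC, hC'⟩ := Inv1_exa (F.g i) E k hg hE (L + 1)
    have h2 := hC' _ h1
    have hcD : C (φ (L + 1)) ∈ D (d - ((L + 1 : ℕ) : ℤ)) :=
      hC (Inv1_st (D (d - ((L + 1 : ℕ) : ℤ)))) (fun ψ hψ => hD.Dg i _ ψ hψ)
        (fun ψ hψ => hED _ ψ hψ) _ (hφ (L + 1))
    have hcJ : ∀ j ∈ J, F.g j (C (φ (L + 1))) = C (φ (L + 1)) := by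
      intro j hj
      have h3 : C ∈ Subring.centralizer {F.g j} := by
        refine hC _ ?_ ?_
        · rw [Subring.mem_centralizer_iff]
          intro x hx
          rw [Set.mem_singleton_iff] at hx
          subst hx
          exact AddMonoidHom.ext fun ψ => hF.gg j i ψ
        · rw [Subring.mem_centralizer_iff]
          intro x hx
          rw [Set.mem_singleton_iff] at hx
          subst hx
          exact AddMonoidHom.ext fun ψ => (hEJ j hj ψ).symm
      rw [Subring.mem_centralizer_iff] at h3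
      have h4 := DFunLike.congr_fun (h3 (F.g j) rfl) (φ (L + 1))
      refine h4.trans ?_
      exact congrArg C (hJ j hj (L + 1))
    obtain ⟨hOK, hDOK, -⟩ := sRcOK ι F D i k hF hD hg
    set c : F.Φ := C (φ (L + 1)) with hc
    set w : F.Φ := (-1 : ℤ) ^ L • F.tw c with hw
    set φ₁ : (F.rc i k).Φ := Inv1_s F i k L w with hφ₁
    have hφD : φ₁ ∈ rD D (d - 1) := by
      intro l
      change (if l = L then w else 0) ∈ D (d - 1 - (l : ℤ))
      split_ifs with hl
      · subst hl
        have e : d - 1 - (l : ℤ) = d - ((l + 1 : ℕ) : ℤ) := by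
          push_cast
          ring
        rw [e]
        exact (D _).zsmul_mem (hD.Dt _ _ hcD) _
      · exact (D _).zero_mem
    have hφJ : ∀ j ∈ J, (F.rc i k).g j φ₁ = φ₁ := by
      intro j hj
      funext l
      change F.g j (if l = L then w else 0) = if l = L then w else 0
      split_ifs with hl
      · rw [hw, map_zsmul, hF.gt, hcJ j hj]
      · exact map_zero _
    have hbd : ∀ l, L + 1 ≤ l → (F.rc i k).bd φ₁ l = φ l := by
      intro l hl
      obtain ⟨l', rfl⟩ : ∃ l', l = l' + 1 := ⟨l - 1, by omega⟩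
      rw [rc_bd_succ]
      have e1 : φ₁ (l' + 1) = 0 := if_neg (by omega)
      rw [e1, map_zero, zero_add]
      by_cases h : l' = L
      · have e2 : φ₁ l' = w := if_pos h
        rw [e2, h, hw, map_zsmul F.tw, hF.tt, Inv1_sq]
        exact h2
      · have e2 : φ₁ l' = 0 := if_neg h
        rw [e2, map_zero, smul_zero, map_zero, h0 (l' + 1) (by omega)]
    obtain ⟨a', ha', φ', hφ', h5, h6, h7, h8⟩ := ih (φ - (F.rc i k).bd φ₁) (by
      have h := hDOK.Db _ _ hφD
      rw [sub_add_cancel] at h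
      exact (rD D d).sub_mem hφ h) (by
      rw [map_sub, hOK.bb, hb]
      exact sub_zero _) (by
      intro j hj l
      have h := congrFun (hOK.gb j φ₁) l
      rw [hφJ j hj] at h
      change F.g j (φ l - (F.rc i k).bd φ₁ l) = φ l - (F.rc i k).bd φ₁ l
      rw [map_sub, hJ j hj l]
      exact congrArg (fun x => φ l - x) h) (by
      intro l hl
      change φ l - (F.rc i k).bd φ₁ l = 0
      rw [hbd l hl, sub_self])
    have hadd : ∀ x y : (F.rc i k).Φ, (F.rc i k).bd (x + y) = (F.rc i k).bd x + (F.rc i k).bd y :=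
      fun x y => map_add _ x y
    have h10 := hadd φ' φ₁
    refine ⟨a', ha', _, (rD D (d - 1)).add_mem hφ' hφD, h5, h6, h7, ?_⟩
    intro l
    have h9 : φ l - (F.rc i k).bd φ₁ l = (ic a' : ℕ → F.Φ) l + (F.rc i k).bd φ' l := h8 l
    rw [sub_eq_iff_eq_add] at h9
    refine h9.trans ?_
    rw [add_assoc]
    exact congrArg (fun x => (ic a' : ℕ → F.Φ) l + x) (congrFun h10 l).symm

end

theorem sInv1 : S_Inv1 := by
  intro ι F D i k J E hF hD hk hg hED hEJ hEt hE d a φ ha hba hφ hb hJ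
  refine Inv1_ind F D i k J E hF hD hg hED hEJ hE d a d.toNat φ hφ hb hJ ?_
  intro l hl
  exact hD.neg (d - l) (by omega) (φ l) (hφ l)

end HVx
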