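import Pool.Agent.Lib.MP_181146_gt.HV.SpecV

/-! # Project HV (part V): removal of all resolutions -/

set_option autoImplicit false
set_option linter.unusedVariables false

noncomputable section

namespace HVx

open HEp HPx HRx HTx

private lemma invR_self {A : Type} [AddCommGroup A] (S : AddSubgroup A) (x : A) : x - x ∈ S := by
  rw [sub_self]
  exact S.zero_mem

private lemma invR_tr (h2 : S_TRRc) {ι : Type} (F : FC ι) (D : ℤ → AddSubgroup F.Φ) (γ : ℕ → ι)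
    (k : ℕ → ℕ) (r : ℕ) (hT : TR F D γ k r) :
    ∀ t : ℕ, TR (rit F γ k t) (rDs F γ k D t) γ k r
  | 0 => hT
  | t + 1 => h2 ι (rit F γ k t) (rDs F γ k D t) γ k r (γ t) (k t) (invR_tr h2 F D γ k r hT t)

private lemma invR_aux (h1 : S_Inv1) (h2 : S_TRRc) (h3 : S_Rit) (h4 : S_RitI)
    {ι : Type} (F : FC ι) (D : ℤ → AddSubgroup F.Φ) (γ : ℕ → ι) (k : ℕ → ℕ) (r : ℕ)
    (hF : F.OK) (hD : DOK F D) (hk : ∀ t, 0 < k t) (hP : Per F γ k r) (hT : TR F D γ k r)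
    (d : ℤ) (a : F.Φ) (ha : a ∈ D (d + 1)) (hba : F.bd a = 0)
    (hga : ∀ t, t < r → F.g (γ t) a = a) :
    ∀ t : ℕ, t ≤ r → ∀ φ : (rit F γ k t).Φ, φ ∈ rDs F γ k D t d →
      (rit F γ k t).bd φ = rI F γ k t a →
      (∀ s, t ≤ s → s < r → (rit F γ k t).g (γ s) φ = φ) →
      ∃ a' ∈ D d, F.bd a' = a ∧ (∀ s, s < r → F.g (γ s) a' = a') ∧
        rB F γ k t φ - a' ∈ cob F D d := by
  intro t
  induction t with
  | zero =>
    intro _ φ hφ hb hg
    refine ⟨φ, hφ, hb, fun s hs => hg s (Nat.zero_le s) hs, ?_⟩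
    exact invR_self (cob F D d) φ
  | succ t ih =>
    intro htr φ hφ hb hg
    have htr' : t < r := htr
    have hPt : Per F γ k t := fun s hs => hP s (lt_trans hs htr')
    obtain ⟨hRF, hRD, hRg, -⟩ := h3.1 ι F D γ k t hF hD hPt
    obtain ⟨hI1, hI2, hI3, hI4, hI5, hI6, hI7, hI8, hI9⟩ := h4 ι F D γ k t hF hD
    obtain ⟨E, hE1, hE2, hE3, hE4⟩ := invR_tr h2 F D γ k r hT t t htr'
    have hbI : (rit F γ k t).bd (rI F γ k t a) = 0 := by
      rw [hI4 a, hba, map_zero, zero_add]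
      refine Finset.sum_eq_zero fun s hs => ?_
      have hs' : s < r := lt_trans (Finset.mem_range.mp hs) htr'
      rw [hF.gt, hga s hs', sub_self, map_zero]
    obtain ⟨a', ha', φ', hφ', hb1, hg1, hJ1, hl⟩ := h1 ι (rit F γ k t) (rDs F γ k D t) (γ t) (k t)
      {j | ∃ s, t < s ∧ s < r ∧ j = γ s} E hRF hRD (hk t) (hRg (γ t) (k t) (hP t htr')) hE1
      (by
        rintro j ⟨s, hts, hsr, rfl⟩ ψ
        exact hE2 s hsr (Nat.ne_of_gt hts) ψ)
      hE3 hE4 d (rI F γ k t a) φ (hI5 (d + 1) a ha) hbI hφ hb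
      (by
        rintro j ⟨s, hts, hsr, rfl⟩ l
        exact congrFun (hg s hts hsr) l)
    obtain ⟨a'', ha'', hb2, hg2, hc2⟩ := ih (le_of_lt htr') a' ha' hb1 (by
      intro s hts hsr
      rcases Nat.eq_or_lt_of_le hts with h | h
      · subst h
        exact hg1
      · exact hJ1 (γ s) ⟨s, h, hsr, rfl⟩)
    refine ⟨a'', ha'', hb2, hg2, ?_⟩
    have e0 : φ 0 = a' + ((rit F γ k t).bd (φ' 0) + 0) := hl 0
    have e1 : rB F γ k (t + 1) φ = rB F γ k t (φ 0) := rfl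
    have e2 : rB F γ k (t + 1) φ - a'' =
        (rB F γ k t a' - a'') + F.bd (rB F γ k t (φ' 0)) := by
      rw [e1, e0, add_zero, map_add, hI7]
      abel
    rw [e2]
    refine (cob F D d).add_mem hc2 ⟨rB F γ k t (φ' 0), hI8 (d - 1) (φ' 0) ?_, rfl⟩
    have h0 : φ' 0 ∈ rDs F γ k D t (d - 1 - ((0 : ℕ) : ℤ)) := hφ' 0
    rw [Nat.cast_zero, sub_zero] at h0
    exact h0

theorem sInvR (h1 : S_Inv1) (h2 : S_TRRc) (h3 : S_Rit) (h4 : S_RitI) : S_InvR := by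
  intro ι F D γ k r hF hD hk hP hT d a φ ha hba hga hφ hb
  obtain ⟨a', ha', hb', hg', hc'⟩ := invR_aux h1 h2 h3 h4 F D γ k r hF hD hk hP hT d a ha hba hga r
    (le_refl r) φ hφ hb (fun s hs hs' => absurd hs' (not_lt.mpr hs))
  exact ⟨a', ha', hb', hg', hc'⟩

end HVx
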