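import Pool.Agent.Lib.MP_181146_gt.HV.SpecV

/-!
# Project HV, module JAl: substitution modulo an ideal
-/

set_option autoImplicit false

noncomputable section

namespace HVx

open scoped TensorProduct
open HEp HPx HRx HTx

theorem sJAl : S_JAl := by
  intro N r m k a c p I h1 h2 h3
  let φ : MvPolynomial (Fin r) ℤ →ₐ[ℤ] MvPolynomial (Fin (N + r)) ℤ :=
    MvPolynomial.rename (Fin.natAdd N)
  have hφ : ∀ (b : ℤ) (t : Fin r), φ (MvPolynomial.C b * MvPolynomial.X t) =
      MvPolynomial.C b * MvPolynomial.X (Fin.natAdd N t) := by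
    intro b t
    rw [map_mul, MvPolynomial.rename_X, MvPolynomial.rename_C]
  have hle : Ideal.span (Set.range fun t : Fin r =>
      (MvPolynomial.C (k t) * MvPolynomial.X t : MvPolynomial (Fin r) ℤ)) ≤ I.comap φ := by
    rw [Ideal.span_le]
    rintro _ ⟨t, rfl⟩
    change φ (MvPolynomial.C (k t) * MvPolynomial.X t) ∈ I
    rw [hφ]
    exact h1 t
  have h4 : φ (MvPolynomial.aeval
      (fun i => ∑ t, MvPolynomial.C (c i t) * MvPolynomial.X t) p -
      ∑ t, MvPolynomial.C (a t) * MvPolynomial.X t ^ m) ∈ I := hle h3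
  have h5 : φ (∑ t, MvPolynomial.C (a t) * MvPolynomial.X t ^ m) =
      ∑ t, MvPolynomial.C (a t) * MvPolynomial.X (Fin.natAdd N t) ^ m := by
    rw [map_sum]
    refine Finset.sum_congr rfl fun t _ => ?_
    rw [map_mul, map_pow, MvPolynomial.rename_X, MvPolynomial.rename_C]
  rw [map_sub, h5] at h4
  have h6 : MvPolynomial.rename (Fin.castAdd r) p - φ (MvPolynomial.aeval
      (fun i => ∑ t, MvPolynomial.C (c i t) * MvPolynomial.X t) p) ∈ I := by
    have e : (Ideal.Quotient.mkₐ ℤ I).comp (MvPolynomial.rename (Fin.castAdd r)) =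
        (Ideal.Quotient.mkₐ ℤ I).comp (φ.comp (MvPolynomial.aeval
          (fun i : Fin N => ∑ t, MvPolynomial.C (c i t) * MvPolynomial.X t))) := by
      apply MvPolynomial.algHom_ext
      intro i
      rw [AlgHom.comp_apply, AlgHom.comp_apply, AlgHom.comp_apply, MvPolynomial.rename_X,
        MvPolynomial.aeval_X, map_sum, Ideal.Quotient.mkₐ_eq_mk, Ideal.Quotient.eq]
      simp only [hφ]
      exact h2 i
    exact Ideal.Quotient.eq.1 (DFunLike.congr_fun e p)
  have h7 := I.add_mem h6 h4
  rw [sub_add_sub_cancel] at h7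
  exact h7

end HVx
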