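import Pool.Agent.Lib.MP_181146_gt.HV.SpecV

/-!
# Project HV, module JId: the polynomials `p` with `InJ p` form an ideal
-/

set_option autoImplicit false
set_option linter.unusedVariables false

noncomputable section

namespace HVx

open scoped TensorProduct
open HEp HPx HRx HTx

private lemma JId_zero {M : ℕ} (l : ℕ) : cfl (0 : MvPolynomial (Fin M) ℤ) l = 0 := by
  funext a
  simp [cfl, cf]

private lemma JId_add {M : ℕ} (p q : MvPolynomial (Fin M) ℤ) (l : ℕ) :
    cfl (p + q) l = cfl p l + cfl q l := by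
  funext a
  simp only [cfl, cf, Pi.add_apply, MvPolynomial.coeff_add]
  split_ifs
  · rfl
  · rw [add_zero]

private lemma JId_C {M : ℕ} (c : ℤ) (p : MvPolynomial (Fin M) ℤ) (l : ℕ) :
    cfl (MvPolynomial.C c * p) l = c • cfl p l := by
  funext a
  simp only [cfl, cf, Pi.smul_apply, MvPolynomial.coeff_C_mul, smul_eq_mul]
  split_ifs
  · rfl
  · rw [mul_zero]

private lemma JId_X0 {M : ℕ} (j : Fin M) (p : MvPolynomial (Fin M) ℤ) :
    cfl (MvPolynomial.X j * p) 0 = 0 := by
  funext a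
  simp only [cfl, cf, Pi.zero_apply]
  split_ifs with h
  · rw [MvPolynomial.coeff_X_mul', if_neg]
    rw [Finsupp.mem_support_iff, not_not]
    exact (Finset.sum_eq_zero_iff.1 h) j (Finset.mem_univ j)
  · rfl

private lemma JId_upd {M : ℕ} (j : Fin M) (a : ℕ → ℕ) (v : ℕ) :
    (fun i : Fin M => Function.update a (j : ℕ) v (i : ℕ)) =
      Function.update (fun i : Fin M => a (i : ℕ)) j v := by
  funext i
  by_cases h : i = j
  · subst h
    rw [Function.update_self, Function.update_self]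
  · rw [Function.update_of_ne h, Function.update_of_ne (fun h' => h (Fin.ext h'))]

private lemma JId_sum {M : ℕ} (j : Fin M) (f : Fin M → ℕ) (hf : f j ≠ 0) :
    ∑ i, Function.update f j (f j - 1) i + 1 = ∑ i, f i := by
  have h1 := Finset.sum_update_of_mem (Finset.mem_univ j) f (f j - 1)
  have h2 := Finset.sum_update_of_mem (Finset.mem_univ j) f (f j)
  rw [Function.update_eq_self] at h2
  omega

private lemma JId_sub {M : ℕ} (j : Fin M) (f : Fin M → ℕ) :
    (Finsupp.equivFunOnFinite.symm (Function.update f j (f j - 1)) : Fin M →₀ ℕ) =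
      Finsupp.equivFunOnFinite.symm f - Finsupp.single j 1 := by
  ext i
  rw [Finsupp.tsub_apply]
  by_cases h : i = j
  · subst h
    rw [Finsupp.single_eq_same]
    exact Function.update_self _ _ _
  · rw [Finsupp.single_eq_of_ne h]
    exact Function.update_of_ne h _ _

private lemma JId_X {M : ℕ} (j : Fin M) (p : MvPolynomial (Fin M) ℤ) (l : ℕ) :
    cfl (MvPolynomial.X j * p) (l + 1) = shc j (cfl p l) := by
  funext a
  simp only [cfl, cf, shc]
  rw [MvPolynomial.coeff_X_mul', JId_upd j a]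
  by_cases h0 : a (j : ℕ) = 0
  · rw [if_pos h0]
    split_ifs with h1 h2
    · exact absurd h0 (Finsupp.mem_support_iff.1 h2)
    · rfl
    · rfl
  · rw [if_neg h0]
    have h2 : j ∈ (Finsupp.equivFunOnFinite.symm (fun i : Fin M => a (i : ℕ)) :
        Fin M →₀ ℕ).support := Finsupp.mem_support_iff.2 h0
    have h3 : Finset.univ.sum (Function.update (fun i : Fin M => a (i : ℕ)) j
        (a (j : ℕ) - 1)) + 1 = ∑ i : Fin M, a (i : ℕ) :=
      JId_sum j (fun i : Fin M => a (i : ℕ)) h0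
    have h4 := JId_sub j (fun i : Fin M => a (i : ℕ))
    rw [if_pos h2]
    rw [h4]
    by_cases h5 : ∑ i : Fin M, a (i : ℕ) = l + 1
    · rw [if_pos h5, if_pos (by omega)]
    · rw [if_neg h5, if_neg (by omega)]

theorem sJId (h1 : S_Kf1) (h2 : S_Yf1) (h3 : S_Yr1) (h4 : S_Fcm) : S_JId := by
  intro ι F D ε Q _ ρ ix N γ k r hF hD hε hbε hgε hix
  obtain ⟨k1, k2, k3, k4, k5, -, k7⟩ := h1 ι F D ε Q ρ ix N hF hD hε hbε hgε hix
  obtain ⟨hO, hDO, -, -, -, -, -, -, hfI⟩ := h4 ι F D Q ρ ix N hF hD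
  obtain ⟨y1, y2, y3, y4, y5, y6⟩ := h3 ι (fcm F Q ρ ix N) (fDs F Q ρ ix D N)
    (kfz F ε Q ρ ix N) (fun j => yf F Q ρ ix j N) γ k N r hO hDO k1 k2 k3 k4 k5 k7
    (fun j => (h2 ι F D Q ρ ix j N hF hD).1) (fun j => (h2 ι F D Q ρ ix j N hF hD).2.1)
    (fun j => (h2 ι F D Q ρ ix j N hF hD).2.2.1) (fun j => (h2 ι F D Q ρ ix j N hF hD).2.2.2.1)
  have z0 : zzK F ε Q ρ ix N γ k r 0 = 0 := by
    have h := y2 0 0
    rw [zero_smul, zero_smul] at h
    exact h
  have hB : ∀ (j : ℕ) (φ : (zz F Q ρ ix N γ k r).Φ),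
      zzB F Q ρ ix N γ k r (yr (fcm F Q ρ ix N) (yf F Q ρ ix j N) γ k N j r φ) = 0 := by
    intro j φ
    have h := y6 j φ ((fI F Q ρ ix N).comp (fB F Q ρ ix N)) (fun ψ => by
      rw [AddMonoidHom.comp_apply, (h2 ι F D Q ρ ix j N hF hD).2.2.2.2, map_zero])
    have h' := congrArg (fB F Q ρ ix N) h
    rw [AddMonoidHom.comp_apply, hfI, map_zero] at h'
    exact h'
  have hz : InJ F D ε Q ρ ix N γ k r 0 := by
    intro l
    refine ⟨0, AddSubgroup.zero_mem _, map_zero _, ?_⟩
    rw [map_zero, JId_zero, z0]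
  have ha : ∀ p q, InJ F D ε Q ρ ix N γ k r p → InJ F D ε Q ρ ix N γ k r q →
      InJ F D ε Q ρ ix N γ k r (p + q) := by
    intro p q hp hq l
    obtain ⟨w, w1, w2, w3⟩ := hp l
    obtain ⟨w', w1', w2', w3'⟩ := hq l
    refine ⟨w + w', AddSubgroup.add_mem _ w1 w1', ?_, ?_⟩
    · rw [map_add, w2, w2', add_zero]
    · rw [map_add, w3, w3', JId_add]
      exact (y1 _ _).symm
  have hC : ∀ (c : ℤ) p, InJ F D ε Q ρ ix N γ k r p →
      InJ F D ε Q ρ ix N γ k r (MvPolynomial.C c * p) := by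
    intro c p hp l
    obtain ⟨w, w1, w2, w3⟩ := hp l
    refine ⟨c • w, AddSubgroup.zsmul_mem _ w1 c, ?_, ?_⟩
    · rw [map_zsmul, w2, smul_zero]
    · rw [map_zsmul, w3, JId_C]
      exact (y2 _ _).symm
  have hX : ∀ (j : Fin (N + r)) p, InJ F D ε Q ρ ix N γ k r p →
      InJ F D ε Q ρ ix N γ k r (MvPolynomial.X j * p) := by
    intro j p hp l
    cases l with
    | zero =>
      refine ⟨0, AddSubgroup.zero_mem _, map_zero _, ?_⟩
      rw [map_zero, JId_X0, z0]
    | succ l =>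
      obtain ⟨w, w1, w2, w3⟩ := hp l
      refine ⟨yr (fcm F Q ρ ix N) (yf F Q ρ ix j N) γ k N j r w, ?_, hB j w, ?_⟩
      · have h := y5 j _ w w1
        have e : (2 * ((l + 1 : ℕ) : ℤ) - 1) = 2 * (l : ℤ) - 1 + 2 := by
          push_cast
          ring
        rw [e]
        exact h
      · rw [y4 j w, w3, JId_X]
        exact (y3 j _).symm
  have hM : ∀ a p, InJ F D ε Q ρ ix N γ k r p → InJ F D ε Q ρ ix N γ k r (a * p) := by
    intro a
    induction a using MvPolynomial.induction_on with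
    | C c => exact hC c
    | add a b iha ihb =>
      intro p hp
      rw [add_mul]
      exact ha _ _ (iha p hp) (ihb p hp)
    | mul_X a j ih =>
      intro p hp
      rw [mul_assoc]
      exact ih _ (hX j p hp)
  exact ⟨{ carrier := {p | InJ F D ε Q ρ ix N γ k r p}
           add_mem' := fun {p q} hp hq => ha p q hp hq
           zero_mem' := hz
           smul_mem' := fun a p hp => hM a p hp }, fun p => Iff.rfl⟩

end HVx
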