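import Pool.Agent.Lib.MP_181146_gt.HV.KxB

/-!
# Project HV (part V): the element `y_i - ∑ c_t y'_t`
-/

set_option autoImplicit false
set_option linter.unusedVariables false

noncomputable section

namespace HVx

open HEp HPx HRx HTx

namespace JNx

section

variable {ι : Type}

/-- `rI e + ∑ ins t (v t)`, defined by recursion. -/
def TT (F : FC ι) (γ : ℕ → ι) (k : ℕ → ℕ) (e : F.Φ) (v : ℕ → F.Φ) : ∀ s : ℕ, (rit F γ k s).Φ
  | 0 => e
  | s + 1 => fun l => if l = 0 then TT F γ k e v s else if l = 1 then rI F γ k s (v s) else 0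

theorem TT_add (F : FC ι) (γ : ℕ → ι) (k : ℕ → ℕ) (e e' : F.Φ) (v v' : ℕ → F.Φ) (s : ℕ) :
    TT F γ k e v s + TT F γ k e' v' s = TT F γ k (e + e') (fun t => v t + v' t) s := by
  induction s with
  | zero => rfl
  | succ s ih =>
    funext l
    change (if l = 0 then TT F γ k e v s else if l = 1 then rI F γ k s (v s) else 0) +
      (if l = 0 then TT F γ k e' v' s else if l = 1 then rI F γ k s (v' s) else 0) =
      if l = 0 then TT F γ k (e + e') (fun t => v t + v' t) s else
      if l = 1 then rI F γ k s (v s + v' s) else 0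
    split_ifs
    · exact ih
    · exact (map_add _ _ _).symm
    · exact add_zero _

theorem TT_neg (F : FC ι) (γ : ℕ → ι) (k : ℕ → ℕ) (e : F.Φ) (v : ℕ → F.Φ) (s : ℕ) :
    -TT F γ k e v s = TT F γ k (-e) (fun t => -v t) s := by
  induction s with
  | zero => rfl
  | succ s ih =>
    funext l
    change -(if l = 0 then TT F γ k e v s else if l = 1 then rI F γ k s (v s) else 0) =
      if l = 0 then TT F γ k (-e) (fun t => -v t) s else
      if l = 1 then rI F γ k s (-v s) else 0
    split_ifs
    · exact ih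
    · exact (map_neg _ _).symm
    · exact neg_zero

theorem TT_zero (F : FC ι) (γ : ℕ → ι) (k : ℕ → ℕ) (e : F.Φ) (v : ℕ → F.Φ) (s : ℕ) (he : e = 0)
    (hv : ∀ t, t < s → v t = 0) : TT F γ k e v s = 0 := by
  induction s with
  | zero => exact he
  | succ s ih =>
    funext l
    change (if l = 0 then TT F γ k e v s else if l = 1 then rI F γ k s (v s) else 0) = 0
    rw [ih (fun t ht => hv t (by omega)), hv s (by omega), map_zero, ite_self, ite_self]

theorem TT_g (h1 : S_RitI) (F : FC ι) (D : ℤ → AddSubgroup F.Φ) (hF : F.OK) (hD : DOK F D)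
    (γ : ℕ → ι) (k : ℕ → ℕ) (e : F.Φ) (v : ℕ → F.Φ) (i : ι) (s : ℕ) :
    (rit F γ k s).g i (TT F γ k e v s) = TT F γ k (F.g i e) (fun t => F.g i (v t)) s := by
  induction s with
  | zero => rfl
  | succ s ih =>
    funext l
    change (rit F γ k s).g i (if l = 0 then TT F γ k e v s else
      if l = 1 then rI F γ k s (v s) else 0) =
      if l = 0 then TT F γ k (F.g i e) (fun t => F.g i (v t)) s else
      if l = 1 then rI F γ k s (F.g i (v s)) else 0
    split_ifs
    · exact ih
    · exact (h1 ι F D γ k s hF hD).2.1 i (v s)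
    · exact map_zero _

theorem TT_tw (h1 : S_RitI) (F : FC ι) (D : ℤ → AddSubgroup F.Φ) (hF : F.OK) (hD : DOK F D)
    (γ : ℕ → ι) (k : ℕ → ℕ) (e : F.Φ) (v : ℕ → F.Φ) (s : ℕ) :
    (rit F γ k s).tw (TT F γ k e v s) = TT F γ k (F.tw e) (fun t => -F.tw (v t)) s := by
  induction s with
  | zero => rfl
  | succ s ih =>
    funext l
    change (-1 : ℤ) ^ l • (rit F γ k s).tw (if l = 0 then TT F γ k e v s else
      if l = 1 then rI F γ k s (v s) else 0) =
      if l = 0 then TT F γ k (F.tw e) (fun t => -F.tw (v t)) s else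
      if l = 1 then rI F γ k s (-F.tw (v s)) else 0
    split_ifs with h h'
    · rw [ih, h, pow_zero, one_smul]
    · rw [(h1 ι F D γ k s hF hD).1 (v s), h', pow_one, neg_smul, one_smul, map_neg]
    · rw [map_zero, smul_zero]

theorem TT_D (h1 : S_RitI) (F : FC ι) (D : ℤ → AddSubgroup F.Φ) (hF : F.OK) (hD : DOK F D)
    (γ : ℕ → ι) (k : ℕ → ℕ) (e : F.Φ) (v : ℕ → F.Φ) (he : e ∈ D 1) (hv : ∀ t, v t ∈ D 0) (s : ℕ) :
    TT F γ k e v s ∈ rDs F γ k D s 1 := by
  induction s with
  | zero => exact he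
  | succ s ih =>
    intro l
    change (if l = 0 then TT F γ k e v s else if l = 1 then rI F γ k s (v s) else 0) ∈
      rDs F γ k D s (1 - (l : ℤ))
    split_ifs with h h'
    · rw [h, Nat.cast_zero, sub_zero]
      exact ih
    · rw [h', Nat.cast_one, sub_self]
      exact (h1 ι F D γ k s hF hD).2.2.2.2.1 0 _ (hv s)
    · exact (rDs F γ k D s _).zero_mem

theorem TT_B (F : FC ι) (γ : ℕ → ι) (k : ℕ → ℕ) (e : F.Φ) (v : ℕ → F.Φ) (s : ℕ) :
    rB F γ k s (TT F γ k e v s) = e := by
  induction s with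
  | zero => rfl
  | succ s ih => exact ih

theorem bd_rI (h1 : S_RitI) (F : FC ι) (D : ℤ → AddSubgroup F.Φ) (hF : F.OK) (hD : DOK F D)
    (γ : ℕ → ι) (k : ℕ → ℕ) (x : F.Φ) (s : ℕ) :
    (rit F γ k s).bd (rI F γ k s x) =
      TT F γ k (F.bd x) (fun t => F.g (γ t) (F.tw x) - F.tw x) s := by
  induction s with
  | zero => rfl
  | succ s ih =>
    have hI := h1 ι F D γ k s hF hD
    funext l
    cases l with
    | zero => exact (add_zero _).trans ih
    | succ l =>
      change (rit F γ k s).bd (if l + 1 = 0 then rI F γ k s x else 0) +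
        tau ((rit F γ k s).g (γ s)) (k s) (l + 1) ((-1 : ℤ) ^ l • (rit F γ k s).tw
          (if l = 0 then rI F γ k s x else 0)) =
        if l + 1 = 0 then TT F γ k (F.bd x) (fun t => F.g (γ t) (F.tw x) - F.tw x) s else
        if l + 1 = 1 then rI F γ k s (F.g (γ s) (F.tw x) - F.tw x) else 0
      rw [if_neg (show ¬ l + 1 = 0 by omega), if_neg (show ¬ l + 1 = 0 by omega), map_zero,
        zero_add]
      by_cases hl : l = 0
      · subst hl
        rw [if_pos rfl, if_pos (by omega), pow_zero, one_smul, hI.1]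
        rw [show (0 : ℕ) + 1 = 1 from rfl, Kx.tau_one, hI.2.1, map_sub]
      · rw [if_neg hl, if_neg (by omega), map_zero, smul_zero, map_zero]

theorem tau_sum {Φ : Type} [AddCommGroup Φ] (g : AddMonoid.End Φ) (k : ℕ) (x : Φ) :
    tau g k 2 x = ∑ a ∈ Finset.range k, (g ^ a) x := by
  have e : tau g k 2 = ∑ a ∈ Finset.range k, g ^ a := if_pos even_two
  have e' : (∑ a ∈ Finset.range k, g ^ a) x = ∑ a ∈ Finset.range k, (g ^ a) x :=
    map_sum (AddMonoidHom.mk' (fun f : AddMonoid.End Φ => f x) (fun _ _ => rfl)) _ _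
  rw [e, e']

theorem pow_rI (h1 : S_RitI) (F : FC ι) (D : ℤ → AddSubgroup F.Φ) (hF : F.OK) (hD : DOK F D)
    (γ : ℕ → ι) (k : ℕ → ℕ) (s : ℕ) (i : ι) (a : ℕ) (x : F.Φ) :
    (((rit F γ k s).g i) ^ a) (rI F γ k s x) = rI F γ k s ((F.g i ^ a) x) := by
  induction a generalizing x with
  | zero => rfl
  | succ a ih =>
    rw [pow_succ, pow_succ]
    change (((rit F γ k s).g i) ^ a) ((rit F γ k s).g i (rI F γ k s x)) =
      rI F γ k s ((F.g i ^ a) (F.g i x))
    rw [(h1 ι F D γ k s hF hD).2.1, ih]

theorem bd_TT (h1 : S_RitI) (F : FC ι) (D : ℤ → AddSubgroup F.Φ) (hF : F.OK) (hD : DOK F D)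
    (γ : ℕ → ι) (k : ℕ → ℕ) (r : ℕ) (e x : F.Φ) (v : ℕ → F.Φ) (c : ℕ → ℤ)
    (ha : ∀ s, s < r → F.bd (v s) + (F.g (γ s) (F.tw e) - F.tw e) = 0)
    (hb : ∀ t s, t < s → s < r → F.g (γ t) (F.tw (v s)) - F.tw (v s) =
      F.g (γ s) (F.tw (v t)) - F.tw (v t))
    (hc : ∀ s, s < r → ∑ a ∈ Finset.range (k s), (F.g (γ s) ^ a) (F.tw (v s)) = c s • x)
    (s : ℕ) (hs : s ≤ r) :
    (rit F γ k s).bd (TT F γ k e v s) = rI F γ k s (F.bd e) - Kx.DD F x γ k 1 c s := by
  induction s with
  | zero => exact (sub_zero _).symm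
  | succ s ih =>
    have hI := h1 ι F D γ k s hF hD
    have ih' := ih (by omega)
    funext l
    cases l with
    | zero => exact (add_zero _).trans ih'
    | succ l =>
      change (rit F γ k s).bd (if l + 1 = 0 then TT F γ k e v s else
        if l + 1 = 1 then rI F γ k s (v s) else 0) +
        tau ((rit F γ k s).g (γ s)) (k s) (l + 1) ((-1 : ℤ) ^ l • (rit F γ k s).tw
          (if l = 0 then TT F γ k e v s else if l = 1 then rI F γ k s (v s) else 0)) =
        (if l + 1 = 0 then rI F γ k s (F.bd e) else 0) -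
        (if l + 1 = 0 then Kx.DD F x γ k 1 c s else
          if l + 1 = 2 * 1 then rI F γ k s (c s • x) else 0)
      rw [if_neg (show ¬ l + 1 = 0 by omega), if_neg (show ¬ l + 1 = 0 by omega),
        if_neg (show ¬ l + 1 = 0 by omega), zero_sub]
      by_cases hl : l = 0
      · subst hl
        rw [if_pos (by omega), if_pos rfl, if_neg (by omega), neg_zero, pow_zero, one_smul]
        rw [show (0 : ℕ) + 1 = 1 from rfl, Kx.tau_one, bd_rI h1 F D hF hD, TT_tw h1 F D hF hD,
          TT_g h1 F D hF hD, sub_eq_add_neg, TT_neg, TT_add, TT_add]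
        apply TT_zero
        · rw [← sub_eq_add_neg]
          exact ha s (by omega)
        · intro t ht
          have := hb t s ht (by omega)
          rw [this, map_neg]
          abel
      · rw [if_neg (show ¬ l + 1 = 1 by omega), map_zero, zero_add, if_neg hl]
        by_cases hl' : l = 1
        · subst hl'
          rw [if_pos rfl, if_pos (by omega), pow_one, neg_smul, one_smul, map_neg, hI.1]
          rw [show (1 : ℕ) + 1 = 2 from rfl, tau_sum]
          apply congrArg
          rw [← hc s (by omega), map_sum]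
          apply Finset.sum_congr rfl
          intro a _
          exact pow_rI h1 F D hF hD γ k s (γ s) a _
        · rw [if_neg hl', if_neg (by omega), map_zero, smul_zero, map_zero, neg_zero]

/-! ## The functionals `eE`, `eV` -/

variable (F : FC ι) (ε : F.Φ) (Q : ℕ) [NeZero Q] (ρ : ℕ → ι → ZMod Q) (ix : ℕ → ℕ) (i : ℕ)

theorem eE_sub (f g : ZMod Q → ℤ) (n : ℕ) :
    eE F ε Q ρ ix i f n - eE F ε Q ρ ix i g n = eE F ε Q ρ ix i (fun c => f c - g c) n := by
  induction n with
  | zero => exact sub_zero _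
  | succ n ih =>
    by_cases h : ix n = i
    · have e : ∀ f : ZMod Q → ℤ, eE F ε Q ρ ix i f (n + 1) =
          ((0, fun j c => if j = 0 then f c • fI F Q ρ ix n ε else 0) :
          (ℕ → ZMod Q → (fcm F Q ρ ix n).Φ) × (ℕ → ZMod Q → (fcm F Q ρ ix n).Φ)) :=
        fun f => if_pos h
      rw [e, e, e]
      refine Prod.ext (sub_zero _) ?_
      funext j c
      change (if j = 0 then f c • fI F Q ρ ix n ε else 0) -
        (if j = 0 then g c • fI F Q ρ ix n ε else 0) =
        if j = 0 then (f c - g c) • fI F Q ρ ix n ε else 0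
      split_ifs
      · exact (sub_smul _ _ _).symm
      · exact sub_zero _
    · have e : ∀ f : ZMod Q → ℤ, eE F ε Q ρ ix i f (n + 1) =
          (jc Q (eE F ε Q ρ ix i f n) : (ℕ → ZMod Q → (fcm F Q ρ ix n).Φ) ×
            (ℕ → ZMod Q → (fcm F Q ρ ix n).Φ)) :=
        fun f => if_neg h
      rw [e, e, e, ← ih]
      exact (map_sub (jc (Φ := (fcm F Q ρ ix n).Φ) Q) _ _).symm

theorem eV_sub (f g : ZMod Q → ℤ) (n : ℕ) :
    eV F ε Q ρ ix i f n - eV F ε Q ρ ix i g n = eV F ε Q ρ ix i (fun c => f c - g c) n := by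
  induction n with
  | zero => exact sub_zero _
  | succ n ih =>
    by_cases h : ix n = i
    · have e : ∀ f : ZMod Q → ℤ, eV F ε Q ρ ix i f (n + 1) =
          ((fun j c => if j = 0 then f c • fI F Q ρ ix n ε else 0, 0) :
          (ℕ → ZMod Q → (fcm F Q ρ ix n).Φ) × (ℕ → ZMod Q → (fcm F Q ρ ix n).Φ)) :=
        fun f => if_pos h
      rw [e, e, e]
      refine Prod.ext ?_ (sub_zero _)
      funext j c
      change (if j = 0 then f c • fI F Q ρ ix n ε else 0) -
        (if j = 0 then g c • fI F Q ρ ix n ε else 0) =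
        if j = 0 then (f c - g c) • fI F Q ρ ix n ε else 0
      split_ifs
      · exact (sub_smul _ _ _).symm
      · exact sub_zero _
    · have e : ∀ f : ZMod Q → ℤ, eV F ε Q ρ ix i f (n + 1) =
          (jc Q (eV F ε Q ρ ix i f n) : (ℕ → ZMod Q → (fcm F Q ρ ix n).Φ) ×
            (ℕ → ZMod Q → (fcm F Q ρ ix n).Φ)) :=
        fun f => if_neg h
      rw [e, e, e, ← ih]
      exact (map_sub (jc (Φ := (fcm F Q ρ ix n).Φ) Q) _ _).symm

theorem eV_const (a : ℤ) (n : ℕ) (h : ∃ m, m < n ∧ ix m = i) :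
    eV F ε Q ρ ix i (fun _ => a) n = a • fI F Q ρ ix n ε := by
  induction n with
  | zero =>
    obtain ⟨m, hm, _⟩ := h
    omega
  | succ n ih =>
    by_cases h' : ix n = i
    · have e : eV F ε Q ρ ix i (fun _ => a) (n + 1) =
          ((fun j c => if j = 0 then a • fI F Q ρ ix n ε else 0, 0) :
          (ℕ → ZMod Q → (fcm F Q ρ ix n).Φ) × (ℕ → ZMod Q → (fcm F Q ρ ix n).Φ)) := if_pos h'
      rw [e]
      exact map_zsmul (jc Q) a (fI F Q ρ ix n ε)
    · have e : eV F ε Q ρ ix i (fun _ => a) (n + 1) =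
          (jc Q (eV F ε Q ρ ix i (fun _ => a) n) : (ℕ → ZMod Q → (fcm F Q ρ ix n).Φ) ×
            (ℕ → ZMod Q → (fcm F Q ρ ix n).Φ)) := if_neg h'
      rw [e, ih]
      · exact map_zsmul (jc Q) a (fI F Q ρ ix n ε)
      · obtain ⟨m, hm, hm'⟩ := h
        refine ⟨m, ?_, hm'⟩
        rcases Nat.lt_succ_iff_lt_or_eq.mp hm with h1 | h1
        · exact h1
        · rw [h1] at hm'
          exact absurd hm' h'

theorem eV_zero (n : ℕ) : eV F ε Q ρ ix i (fun _ => 0) n = 0 := by
  have := eV_sub F ε Q ρ ix i (fun _ => 0) (fun _ => 0) n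
  rw [sub_self] at this
  exact this.symm

theorem eV_add (f g : ZMod Q → ℤ) (n : ℕ) :
    eV F ε Q ρ ix i f n + eV F ε Q ρ ix i g n = eV F ε Q ρ ix i (fun c => f c + g c) n := by
  have := eV_sub F ε Q ρ ix i (fun c => f c + g c) g n
  simp only [add_sub_cancel_right] at this
  rw [← this, sub_add_cancel]

theorem eV_sum (K : ℕ) (H : ℕ → ZMod Q → ℤ) (n : ℕ) :
    ∑ a ∈ Finset.range K, eV F ε Q ρ ix i (H a) n =
      eV F ε Q ρ ix i (fun c => ∑ a ∈ Finset.range K, H a c) n := by
  induction K with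
  | zero =>
    simp only [Finset.range_zero, Finset.sum_empty]
    exact (eV_zero F ε Q ρ ix i n).symm
  | succ K ih =>
    rw [Finset.sum_range_succ, ih, eV_add]
    simp only [Finset.sum_range_succ]

/-! ## Families of coefficients -/

theorem kfz_sub (κ κ' : (ℕ → ℕ) → ℤ) (n : ℕ) :
    kfz F ε Q ρ ix n (fun a => κ a - κ' a) = kfz F ε Q ρ ix n κ - kfz F ε Q ρ ix n κ' := by
  induction n generalizing κ κ' with
  | zero => exact sub_smul _ _ _
  | succ n ih =>
    refine Prod.ext ?_ (sub_zero _).symm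
    funext j c
    exact ih _ _

omit [NeZero Q] in
theorem krz_sub (b : ((ℕ → ℕ) → ℤ) → F.Φ) (hb : ∀ κ κ', b (fun a => κ a - κ' a) = b κ - b κ')
    (γ : ℕ → ι) (k : ℕ → ℕ) (N s : ℕ) (κ κ' : (ℕ → ℕ) → ℤ) :
    krz F b γ k N s (fun a => κ a - κ' a) = krz F b γ k N s κ - krz F b γ k N s κ' := by
  induction s generalizing κ κ' with
  | zero => exact hb κ κ'
  | succ s ih =>
    funext l
    change (if Even l then krz F b γ k N s (fun a => κ (Function.update a (N + s) (l / 2)) -
      κ' (Function.update a (N + s) (l / 2))) else 0) =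
      (if Even l then krz F b γ k N s (fun a => κ (Function.update a (N + s) (l / 2))) else 0) -
      (if Even l then krz F b γ k N s (fun a => κ' (Function.update a (N + s) (l / 2))) else 0)
    split_ifs
    · exact ih _ _
    · exact (sub_zero _).symm

omit [NeZero Q] in
theorem krz_ext (b : ((ℕ → ℕ) → ℤ) → F.Φ) (h0 : b (fun _ => 0) = 0)
    (γ : ℕ → ι) (k : ℕ → ℕ) (N : ℕ) (κ : (ℕ → ℕ) → ℤ)
    (hκ : ∀ a j v, N ≤ j → κ (Function.update a j v) = κ a) (s : ℕ) :
    krz F b γ k N s (fun a => if ∀ j, N ≤ j → j < N + s → a j = 0 then κ a else 0) =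
      rI F γ k s (b κ) := by
  induction s with
  | zero =>
    change b _ = b κ
    apply congrArg
    funext a
    exact if_pos (fun j h h' => by omega)
  | succ s ih =>
    funext l
    change (if Even l then krz F b γ k N s (fun a => if ∀ j, N ≤ j → j < N + (s + 1) →
      Function.update a (N + s) (l / 2) j = 0 then κ (Function.update a (N + s) (l / 2)) else 0)
      else 0) = if l = 0 then rI F γ k s (b κ) else 0
    by_cases hl : l = 0
    · rw [if_pos hl, if_pos (by rw [hl]; exact Even.zero), ← ih]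
      apply congrArg
      funext a
      rw [hκ a (N + s) _ (by omega)]
      apply if_congr _ rfl rfl
      constructor
      · intro h j hj hj'
        have := h j hj (by omega)
        rwa [Function.update_of_ne (by omega)] at this
      · intro h j hj hj'
        by_cases h1 : j = N + s
        · rw [h1, Function.update_self, hl]
        · rw [Function.update_of_ne h1]
          exact h j hj (by omega)
    · rw [if_neg hl]
      by_cases he : Even l
      · rw [if_pos he]
        refine Eq.trans ?_ (Kx.krz_zero F b γ k N s h0)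
        apply congrArg
        funext a
        apply if_neg
        intro h
        have := h (N + s) (by omega) (by omega)
        rw [Function.update_self] at this
        obtain ⟨j, hj⟩ := he
        omega
      · rw [if_neg he]

end

/-- The coefficients of a variable of the circles. -/
theorem cfl_X (N r : ℕ) (ix : ℕ → ℕ) (h1 : ∀ a, a < N → ix a < N)
    (h2 : ∀ a b, a < N → b < N → ix a = ix b → a = b) (i : Fin N) :
    cfl (MvPolynomial.X (Fin.castAdd r i) : MvPolynomial (Fin (N + r)) ℤ) 1 =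
      fun a => if ∀ j, N ≤ j → j < N + r → a j = 0 then
        (if a i = 1 ∧ ∑ j ∈ Finset.range N, a (ix j) = 1 then (1 : ℤ) else 0) else 0 := by
  classical
  funext a
  have hsum : ∑ j ∈ Finset.range N, a (ix j) = ∑ j ∈ Finset.range N, a j := by
    apply Finset.sum_bij (fun j _ => ix j)
    · intro j hj
      exact Finset.mem_range.mpr (h1 j (Finset.mem_range.mp hj))
    · intro j hj j' hj' h
      exact h2 j j' (Finset.mem_range.mp hj) (Finset.mem_range.mp hj') h
    · intro j hj
      obtain ⟨j', hj', h⟩ := Kx.surj N ix h1 h2 j (Finset.mem_range.mp hj)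
      exact ⟨j', Finset.mem_range.mpr hj', h⟩
    · intro j hj
      rfl
  rw [hsum]
  have key : Finsupp.single (Fin.castAdd r i) 1 =
      Finsupp.equivFunOnFinite.symm (fun j : Fin (N + r) => a j) ↔
      (a i = 1 ∧ ∀ j, j < N + r → j ≠ (i : ℕ) → a j = 0) := by
    constructor
    · intro h
      refine ⟨?_, fun j hj hj' => ?_⟩
      · have := DFunLike.congr_fun h (Fin.castAdd r i)
        rw [Finsupp.single_eq_same] at this
        exact this.symm
      · have := DFunLike.congr_fun h ⟨j, hj⟩
        rw [Finsupp.single_apply, if_neg] at this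
        · exact this.symm
        · intro h3
          exact hj' (congrArg Fin.val h3).symm
    · intro h
      apply Finsupp.ext
      intro j
      rw [Finsupp.single_apply]
      change _ = a j
      by_cases hj : Fin.castAdd r i = j
      · rw [if_pos hj, ← hj]
        exact h.1.symm
      · rw [if_neg hj]
        exact (h.2 j j.2 (fun h3 => hj (Fin.ext h3.symm))).symm
  have key2 : (a i = 1 ∧ ∀ j, j < N + r → j ≠ (i : ℕ) → a j = 0) ↔
      ((∀ j, N ≤ j → j < N + r → a j = 0) ∧ (a i = 1 ∧ ∑ j ∈ Finset.range N, a j = 1)) := by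
    have hiN := i.2
    constructor
    · rintro ⟨h, h'⟩
      refine ⟨fun j hj hj' => h' j hj' (by omega), h, ?_⟩
      rw [Finset.sum_eq_single (i : ℕ)]
      · exact h
      · intro j hj hj'
        exact h' j (by have := Finset.mem_range.mp hj; omega) hj'
      · intro h3
        exact absurd (Finset.mem_range.mpr i.2) h3
    · rintro ⟨h, h', h''⟩
      refine ⟨h', fun j hj hj' => ?_⟩
      by_cases hjN : j < N
      · have h3 := Finset.add_sum_erase (Finset.range N) a (Finset.mem_range.mpr i.2)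
        rw [h'', h'] at h3
        have h4 : ∑ x ∈ (Finset.range N).erase (i : ℕ), a x = 0 := by omega
        exact (Finset.sum_eq_zero_iff.mp h4) j (Finset.mem_erase.mpr ⟨hj',
          Finset.mem_range.mpr hjN⟩)
      · exact h j (by omega) hj
  have hs : (a i = 1 ∧ ∀ j, j < N + r → j ≠ (i : ℕ) → a j = 0) →
      ∑ j : Fin (N + r), a j = 1 := by
    intro h
    rw [Finset.sum_eq_single (Fin.castAdd r i)]
    · exact h.1
    · intro j _ hj
      exact h.2 j j.2 (fun h3 => hj (Fin.ext h3))
    · intro h3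
      exact absurd (Finset.mem_univ _) h3
  unfold cfl cf
  rw [MvPolynomial.coeff_X]
  by_cases hA : (a i = 1 ∧ ∀ j, j < N + r → j ≠ (i : ℕ) → a j = 0)
  · rw [if_pos (hs hA), if_pos (key.mpr hA), if_pos (key2.mp hA).1, if_pos (key2.mp hA).2]
  · rw [if_neg (fun h => hA (key.mp h)), ite_self]
    by_cases hB : ∀ j, N ≤ j → j < N + r → a j = 0
    · rw [if_pos hB, if_neg (fun h => hA (key2.mpr ⟨hB, h⟩))]
    · rw [if_neg hB]

theorem exH (Q : ℕ) [NeZero Q] : ∃ H : ℤ → ZMod Q → ℤ, ∀ (a : ℤ) (c : ZMod Q),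
    (Q : ℤ) * H a c = a - ((ZMod.val (c + (a : ZMod Q)) : ℤ) - (ZMod.val c : ℤ)) := by
  refine ⟨fun a c => (a - ((ZMod.val (c + (a : ZMod Q)) : ℤ) - (ZMod.val c : ℤ))) / Q, ?_⟩
  intro a c
  apply Int.mul_ediv_cancel'
  rw [← ZMod.intCast_zmod_eq_zero_iff_dvd]
  push_cast
  rw [ZMod.natCast_zmod_val, ZMod.natCast_zmod_val]
  ring

end JNx

open JNx in
/-- The element `y_i - ∑ c_t y'_t`. -/
theorem sJN (h0 : S_EV) (h1 : S_RitI) (h2 : S_Rit) (h3 : S_Fcm) (h4 : S_JW) (h5 : S_Kf1) :
    S_JN := by
  intro ι F D ε Q _ ρ ix N γ k r hF hD hTF hε hbε hgε hix hinj i c s hρ hsc l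
  have hfc := h3 ι F D Q ρ ix N hF hD
  obtain ⟨hb, ht, hg, hx⟩ := Kx.fIe h3 F D ε Q ρ ix N hF hD hε hbε hgε
  by_cases hl : l = 1
  · subst hl
    have EV := fun f => h0 ι F D ε Q ρ ix i N f hF hD hε hbε hgε hinj
    obtain ⟨H, hH⟩ := exH Q
    have hQ : (Q : ℤ) ≠ 0 := by
      have := NeZero.ne Q
      exact_mod_cast this
    have hHeq : ∀ x y : ℤ, (Q : ℤ) * x = Q * y → x = y := fun x y h => mul_left_cancel₀ hQ h
    obtain ⟨s', hs'⟩ : ∃ s' : ℕ → ℤ, ∀ t : Fin r, s' t = s t :=
      ⟨fun t => if h : t < r then s ⟨t, h⟩ else 0, fun t => dif_pos t.2⟩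
    obtain ⟨c', hc'⟩ : ∃ c' : ℕ → ℤ, ∀ t : Fin r, c' t = c t :=
      ⟨fun t => if h : t < r then c ⟨t, h⟩ else 0, fun t => dif_pos t.2⟩
    have hρ' : ∀ t, t < r → ρ i (γ t) = (s' t : ZMod Q) := fun t h => by
      rw [hs' ⟨t, h⟩]
      exact hρ ⟨t, h⟩
    have hsc' : ∀ t, t < r → s' t * k t = Q * c' t := fun t h => by
      rw [hs' ⟨t, h⟩, hc' ⟨t, h⟩]
      exact hsc ⟨t, h⟩
    refine ⟨TT (fcm F Q ρ ix N) γ k (eE F ε Q ρ ix i (H 1) N)
      (fun t => eV F ε Q ρ ix i (H (s' t)) N) r, ?_, ?_, ?_⟩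
    · rw [show (2 * ((1 : ℕ) : ℤ) - 1) = 1 by norm_num]
      exact TT_D h1 _ _ hfc.1 hfc.2.1 γ k _ _ (EV _).2.2.2.2.2.2.2.1
        (fun t => (EV _).2.2.2.2.2.2.1) r
    · change fB F Q ρ ix N (rB (fcm F Q ρ ix N) γ k r _) = 0
      rw [TT_B]
      exact (EV _).2.2.2.2.2.2.2.2
    · have hsum : ∑ a, H 1 a = 1 := by
        apply hHeq
        rw [Finset.mul_sum, Finset.sum_congr rfl (fun a _ => hH 1 a), Finset.sum_sub_distrib,
          Finset.sum_sub_distrib, Int.cast_one]
        have e : ∑ a : ZMod Q, ((ZMod.val (a + 1) : ℕ) : ℤ) = ∑ a : ZMod Q, ((ZMod.val a : ℕ) : ℤ) :=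
          Equiv.sum_comp (Equiv.addRight (1 : ZMod Q)) (fun a => ((ZMod.val a : ℕ) : ℤ))
        rw [e, sub_self, sub_zero, Finset.sum_const, Finset.card_univ, ZMod.card]
        simp
      have hmain := bd_TT h1 (fcm F Q ρ ix N) _ hfc.1 hfc.2.1 γ k r
        (eE F ε Q ρ ix i (H 1) N) (fI F Q ρ ix N ε) (fun t => eV F ε Q ρ ix i (H (s' t)) N) c'
        ?_ ?_ ?_ r le_rfl
      · rw [hmain, (EV _).2.1, hsum, one_smul]
        have hcf : cfl (MvPolynomial.X (Fin.castAdd r i) -
            ∑ t, MvPolynomial.C (c t) * MvPolynomial.X (Fin.natAdd N t)) 1 =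
            fun a => cfl (MvPolynomial.X (Fin.castAdd r i) : MvPolynomial (Fin (N + r)) ℤ) 1 a -
              Kx.fam N r 1 c' a := by
          rw [← Kx.cfl_sum N r 1 c']
          funext a
          unfold cfl cf
          split_ifs
          · rw [MvPolynomial.coeff_sub]
            apply congrArg
            apply congrArg
            apply Finset.sum_congr rfl
            intro t _
            rw [hc' t, pow_one]
          · exact (sub_zero _).symm
        change _ = krz (fcm F Q ρ ix N) (kfz F ε Q ρ ix N) γ k N r _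
        rw [hcf, krz_sub (fcm F Q ρ ix N) (kfz F ε Q ρ ix N)
          (fun κ κ' => kfz_sub F ε Q ρ ix κ κ' N), cfl_X N r ix hix hinj i]
        apply congrArg₂
        · symm
          apply krz_ext (fcm F Q ρ ix N) (kfz F ε Q ρ ix N) (Kx.kfz_zero F ε Q ρ ix N) γ k N
            (fun a => if a i = 1 ∧ ∑ j ∈ Finset.range N, a (ix j) = 1 then 1 else 0)
          intro a j v hj
          have hiN := i.2
          change (if Function.update a j v i = 1 ∧
            ∑ j' ∈ Finset.range N, Function.update a j v (ix j') = 1 then (1 : ℤ) else 0) = _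
          rw [Function.update_of_ne (by omega)]
          rw [Finset.sum_congr rfl (g := fun j' => a (ix j')) (fun j' hj' => by
            have h6 := hix j' (Finset.mem_range.mp hj')
            rw [Function.update_of_ne (by omega)])]
        · symm
          apply Kx.krz_fam _ _ γ k N r 1 _ _ one_pos (Kx.kfz_zero F ε Q ρ ix N)
          intro c
          rw [Kx.kfz_cst F ε Q ρ ix c N hix hinj]
          exact map_zsmul (fI F Q ρ ix N) c ε
      · intro t htr
        change (fcm F Q ρ ix N).bd (eV F ε Q ρ ix i (H (s' t)) N) + _ = 0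
        rw [(EV _).1, (EV _).2.2.2.1, map_neg, (EV _).2.2.2.2.2.1, hρ' t htr]
        have e : (fun c => H (s' t) (c + 1) - H (s' t) c) =
            fun c => H 1 (c + (s' t : ZMod Q)) - H 1 c := by
          funext a
          apply hHeq
          rw [mul_sub, mul_sub, hH, hH, hH, hH, Int.cast_one]
          rw [add_right_comm a 1 (s' t : ZMod Q)]
          ring
        rw [e, ← eE_sub]
        abel
      · intro t u htu hur
        change (fcm F Q ρ ix N).g (γ t) ((fcm F Q ρ ix N).tw (eV F ε Q ρ ix i (H (s' u)) N)) -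
          (fcm F Q ρ ix N).tw (eV F ε Q ρ ix i (H (s' u)) N) =
          (fcm F Q ρ ix N).g (γ u) ((fcm F Q ρ ix N).tw (eV F ε Q ρ ix i (H (s' t)) N)) -
          (fcm F Q ρ ix N).tw (eV F ε Q ρ ix i (H (s' t)) N)
        rw [(EV _).2.2.1, (EV _).2.2.2.2.1, (EV _).2.2.1, (EV _).2.2.2.2.1, eV_sub, eV_sub,
          hρ' t (by omega), hρ' u hur]
        have e : (fun c => H (s' u) (c + (s' t : ZMod Q)) - H (s' u) c) =
            fun c => H (s' t) (c + (s' u : ZMod Q)) - H (s' t) c := by
          funext a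
          apply hHeq
          rw [mul_sub, mul_sub, hH, hH, hH, hH]
          rw [add_right_comm a (s' t : ZMod Q) (s' u : ZMod Q)]
          ring
        rw [e]
      · intro t htr
        change ∑ a ∈ Finset.range (k t), ((fcm F Q ρ ix N).g (γ t) ^ a)
          ((fcm F Q ρ ix N).tw (eV F ε Q ρ ix i (H (s' t)) N)) = c' t • fI F Q ρ ix N ε
        rw [(EV _).2.2.1]
        have hpow : ∀ (a : ℕ) (f : ZMod Q → ℤ), ((fcm F Q ρ ix N).g (γ t) ^ a)
            (eV F ε Q ρ ix i f N) =
            eV F ε Q ρ ix i (fun c => f (c + (a : ZMod Q) * (s' t : ZMod Q))) N := by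
          intro a
          induction a with
          | zero =>
            intro f
            rw [pow_zero, Nat.cast_zero]
            simp only [zero_mul, add_zero]
            rfl
          | succ a ih =>
            intro f
            rw [pow_succ]
            change ((fcm F Q ρ ix N).g (γ t) ^ a)
              ((fcm F Q ρ ix N).g (γ t) (eV F ε Q ρ ix i f N)) = _
            rw [(EV _).2.2.2.2.1, ih, hρ' t htr]
            have e : (fun c : ZMod Q => f (c + (a : ZMod Q) * (s' t : ZMod Q) + (s' t : ZMod Q))) =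
                fun c => f (c + ((a + 1 : ℕ) : ZMod Q) * (s' t : ZMod Q)) := by
              funext c
              push_cast
              congr 1
              ring
            rw [e]
        rw [Finset.sum_congr rfl (fun a _ => hpow a _), eV_sum]
        rw [← eV_const F ε Q ρ ix i (c' t) N (Kx.surj N ix hix hinj i i.2)]
        have e : (fun c : ZMod Q => ∑ a ∈ Finset.range (k t),
            H (s' t) (c + (a : ZMod Q) * (s' t : ZMod Q))) = fun _ => c' t := by
          funext a
          apply hHeq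
          rw [Finset.mul_sum, Finset.sum_congr rfl (fun b _ => hH (s' t) _),
            Finset.sum_sub_distrib]
          have e2 : ∀ K : ℕ, ∑ b ∈ Finset.range K,
              ((ZMod.val (a + (b : ZMod Q) * (s' t : ZMod Q) + (s' t : ZMod Q)) : ℤ) -
                (ZMod.val (a + (b : ZMod Q) * (s' t : ZMod Q)) : ℤ)) =
              (ZMod.val (a + (K : ZMod Q) * (s' t : ZMod Q)) : ℤ) - (ZMod.val a : ℤ) := by
            intro K
            induction K with
            | zero =>
              simp only [Finset.range_zero, Finset.sum_empty, Nat.cast_zero, zero_mul, add_zero,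
                sub_self]
            | succ K ih =>
              rw [Finset.sum_range_succ, ih]
              have e3 : a + (K : ZMod Q) * (s' t : ZMod Q) + (s' t : ZMod Q) =
                  a + ((K + 1 : ℕ) : ZMod Q) * (s' t : ZMod Q) := by
                push_cast
                ring
              rw [e3]
              ring
          have e4 : (k t : ZMod Q) * (s' t : ZMod Q) = 0 := by
            have := hsc' t htr
            have h7 := congrArg (fun z : ℤ => (z : ZMod Q)) this
            simp only [Int.cast_mul, Int.cast_natCast, ZMod.natCast_self, zero_mul] at h7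
            rw [mul_comm]
            exact h7
          rw [e2, e4, add_zero, sub_self, sub_zero, Finset.sum_const, Finset.card_range,
            nsmul_eq_mul, ← hsc' t htr, mul_comm]
        rw [e]
  · refine ⟨0, (zzD F Q ρ ix N γ k r D _).zero_mem, map_zero _, ?_⟩
    rw [map_zero, Kx.cfl_hom _ 1 l _ hl]
    · exact (Kx.krz_zero _ _ γ k N r (Kx.kfz_zero F ε Q ρ ix N)).symm
    · apply (MvPolynomial.isHomogeneous_X ℤ _).sub
      apply MvPolynomial.IsHomogeneous.sum
      intro t _
      have := (MvPolynomial.isHomogeneous_C (Fin (N + r)) (c t)).mul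
        (MvPolynomial.isHomogeneous_X ℤ (Fin.natAdd N t))
      rwa [zero_add] at this

end HVx
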