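import Pool.Agent.Lib.MP_181146_gt.HV.KxB

/-!
# Project HV (part V): the element `k_t y'_t`
-/

set_option autoImplicit false
set_option linter.unusedVariables false

noncomputable section

namespace HVx

open HEp HPx HRx HTx

private theorem jw_pol (N r : ℕ) (k : ℕ → ℕ) (t : Fin r) :
    (MvPolynomial.C (k t : ℤ) * MvPolynomial.X (Fin.natAdd N t) : MvPolynomial (Fin (N + r)) ℤ) =
      ∑ s : Fin r, MvPolynomial.C ((fun s : ℕ => if s = (t : ℕ) then (k t : ℤ) else 0) s) *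
        MvPolynomial.X (Fin.natAdd N s) ^ 1 := by
  rw [Finset.sum_eq_single t]
  · change _ = MvPolynomial.C (if (t : ℕ) = (t : ℕ) then (k t : ℤ) else 0) * _
    rw [if_pos rfl, pow_one]
  · intro s _ hs
    change MvPolynomial.C (if (s : ℕ) = (t : ℕ) then (k t : ℤ) else 0) * _ = _
    rw [if_neg (fun h => hs (Fin.ext h)), map_zero, zero_mul]
  · intro h
    exact absurd (Finset.mem_univ _) h

/-- The element `k_t y'_t`. -/
theorem sJW (h1 : S_RitI) (h2 : S_Rit) (h3 : S_Fcm) (h4 : S_Kf1) : S_JW := by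
  intro ι F D ε Q _ ρ ix N γ k r hF hD hε hbε hgε hix hinj t l
  have hfc := h3 ι F D Q ρ ix N hF hD
  obtain ⟨hb, ht, hg, hx⟩ := Kx.fIe h3 F D ε Q ρ ix N hF hD hε hbε hgε
  have hI := h1 ι (fcm F Q ρ ix N) (fDs F Q ρ ix D N) γ k r hfc.1 hfc.2.1
  by_cases hl : l = 1
  · subst hl
    refine ⟨-ins (fcm F Q ρ ix N) γ k t r (fI F Q ρ ix N ε), ?_, ?_, ?_⟩
    · have := hI.2.2.2.2.2.1 t 0 _ hx
      rw [show (2 * ((1 : ℕ) : ℤ) - 1) = 0 + 1 by norm_num]
      exact (rDs (fcm F Q ρ ix N) γ k (fDs F Q ρ ix D N) r (0 + 1)).neg_mem this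
    · rw [map_neg]
      change -(fB F Q ρ ix N (rB (fcm F Q ρ ix N) γ k r _)) = 0
      rw [Kx.rB_ins, map_zero, neg_zero]
    · rw [map_neg, Kx.bd_ins h1 _ _ hfc.1 hfc.2.1 γ k t r _ hb ht hg, neg_neg, jw_pol N r k t]
      refine Eq.trans ?_ (congrArg (zzK F ε Q ρ ix N γ k r) (Kx.cfl_sum N r 1
        (fun s : ℕ => if s = (t : ℕ) then (k t : ℤ) else 0)).symm)
      symm
      apply Kx.krz_fam _ _ γ k N r 1 _ _ one_pos (Kx.kfz_zero F ε Q ρ ix N)
      intro c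
      rw [Kx.kfz_cst F ε Q ρ ix c N hix hinj]
      exact map_zsmul (fI F Q ρ ix N) c ε
  · refine ⟨0, (zzD F Q ρ ix N γ k r D _).zero_mem, map_zero _, ?_⟩
    rw [map_zero, Kx.cfl_hom _ 1 l _ hl]
    · exact (Kx.krz_zero _ _ γ k N r (Kx.kfz_zero F ε Q ρ ix N)).symm
    · have := (MvPolynomial.isHomogeneous_C (Fin (N + r)) (k t : ℤ)).mul
        (MvPolynomial.isHomogeneous_X ℤ (Fin.natAdd N t))
      rwa [zero_add] at this

end HVx
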