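import Pool.Agent.Lib.MP_181146_gt.HV.KxA

/-!
# Project HV (part V): the diagonal functional
-/

set_option autoImplicit false
set_option linter.unusedVariables false

noncomputable section

namespace HVx

open HEp HPx HRx HTx

private theorem kdg_aux (h3 : S_RitB) {ι : Type} (F : FC ι) (ε : F.Φ) (Q : ℕ) [NeZero Q]
    (ρ : ℕ → ι → ZMod Q) (ix : ℕ → ℕ) (N : ℕ) (γ : ℕ → ι) (k : ℕ → ℕ) (m : ℕ) (z : ℕ → ℤ)
    (r : ℕ) :
    ritF (F := F) (F' := fcm F Q ρ ix N) (fI F Q ρ ix N) γ k γ k r (eR F ε γ k r (dg z m k r)) =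
      Kx.DD (fcm F Q ρ ix N) (fI F Q ρ ix N ε) γ k m z r := by
  induction r with
  | zero =>
    change fI F Q ρ ix N ((0 : ℤ) • ε) = 0
    rw [zero_smul, map_zero]
  | succ r ih =>
    funext l
    change ritF (F := F) (F' := fcm F Q ρ ix N) (fI F Q ρ ix N) γ k γ k r (eR F ε γ k r
      (if l = 0 then dg z m k r else if l = 2 * m then rI zc (fun _ => ()) k r (z r) else 0)) =
      if l = 0 then Kx.DD (fcm F Q ρ ix N) (fI F Q ρ ix N ε) γ k m z r else
      if l = 2 * m then rI (fcm F Q ρ ix N) γ k r (z r • fI F Q ρ ix N ε) else 0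
    split_ifs
    · exact ih
    · have e1 := (h3 Unit ι zc F (em ε) (fun _ => ()) γ k k r).2.1 (z r)
      rw [show eR F ε γ k r (rI zc (fun _ => ()) k r (z r)) = rI F γ k r (em ε (z r)) from e1,
        (h3 ι ι F (fcm F Q ρ ix N) (fI F Q ρ ix N) γ γ k k r).2.1]
      apply congrArg
      exact map_zsmul (fI F Q ρ ix N) (z r) ε
    · rw [map_zero, map_zero]

/-- The diagonal functional. -/
theorem sKDg (h1 : S_Kf1) (h2 : S_Yr1) (h3 : S_RitB) : S_KDg := by
  intro ι F ε Q _ ρ ix N γ k r m z hm hix hinj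
  rw [kdg_aux h3 F ε Q ρ ix N γ k m z r, Kx.cfl_sum N r m z]
  symm
  apply Kx.krz_fam _ _ γ k N r m z _ hm (Kx.kfz_zero F ε Q ρ ix N)
  intro c
  rw [Kx.kfz_cst F ε Q ρ ix c N hix hinj]
  exact map_zsmul (fI F Q ρ ix N) c ε

end HVx
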