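import Pool.Agent.Lib.MP_181146_gt.HV.SpecV

set_option autoImplicit false

namespace HVx

open HEp HPx HRx HTx

section

variable {ι : Type} (F : FC ι) (D : ℤ → AddSubgroup F.Φ) (ε : F.Φ) (Q : ℕ) [NeZero Q]
  (ρ : ℕ → ι → ZMod Q) (ix : ℕ → ℕ)

private theorem Kf1_add (n : ℕ) : ∀ κ κ' : (ℕ → ℕ) → ℤ, kfz F ε Q ρ ix n (κ + κ') =
    kfz F ε Q ρ ix n κ + kfz F ε Q ρ ix n κ' := by
  induction n with
  | zero => exact fun κ κ' => add_smul (κ 0) (κ' 0) ε
  | succ n ih =>
    intro κ κ'
    refine Prod.ext ?_ ?_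
    · funext j c
      exact ih (fun a => κ (Function.update a (ix n) j)) (fun a => κ' (Function.update a (ix n) j))
    · funext j c
      exact (add_zero (0 : (fcm F Q ρ ix n).Φ)).symm

private theorem Kf1_smul (n : ℕ) : ∀ (z : ℤ) (κ : (ℕ → ℕ) → ℤ), kfz F ε Q ρ ix n (z • κ) =
    z • kfz F ε Q ρ ix n κ := by
  induction n with
  | zero => exact fun z κ => mul_smul z (κ 0) ε
  | succ n ih =>
    intro z κ
    refine Prod.ext ?_ ?_
    · funext j c
      exact ih z (fun a => κ (Function.update a (ix n) j))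
    · funext j c
      exact (smul_zero (A := (fcm F Q ρ ix n).Φ) z).symm

variable {F D ε}

private theorem Kf1_bd (hb : F.bd ε = 0) (n : ℕ) : ∀ κ : (ℕ → ℕ) → ℤ,
    (fcm F Q ρ ix n).bd (kfz F ε Q ρ ix n κ) = 0 := by
  induction n with
  | zero =>
    intro κ
    change F.bd (κ 0 • ε) = 0
    rw [map_zsmul, hb, smul_zero]
  | succ n ih =>
    intro κ
    refine Prod.ext ?_ ?_
    · funext j c
      change (fcm F Q ρ ix n).bd (kfz F ε Q ρ ix n (fun a => κ (Function.update a (ix n) j))) +
        prv (fun _ => ∑ _a : ZMod Q, (fcm F Q ρ ix n).tw 0) j = 0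
      rw [ih, zero_add]
      cases j with
      | zero => rfl
      | succ j =>
        change ∑ _a : ZMod Q, (fcm F Q ρ ix n).tw 0 = 0
        rw [map_zero, Finset.sum_const_zero]
    · funext j c
      change (fcm F Q ρ ix n).bd 0 +
        ((fcm F Q ρ ix n).tw (kfz F ε Q ρ ix n (fun a => κ (Function.update a (ix n) j))) -
          (fcm F Q ρ ix n).tw (kfz F ε Q ρ ix n (fun a => κ (Function.update a (ix n) j)))) = 0
      rw [map_zero, sub_self, add_zero]

private theorem Kf1_tw (ht : F.tw ε = ε) (n : ℕ) : ∀ κ : (ℕ → ℕ) → ℤ,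
    (fcm F Q ρ ix n).tw (kfz F ε Q ρ ix n κ) = kfz F ε Q ρ ix n κ := by
  induction n with
  | zero =>
    intro κ
    change F.tw (κ 0 • ε) = κ 0 • ε
    rw [map_zsmul, ht]
  | succ n ih =>
    intro κ
    refine Prod.ext ?_ ?_
    · funext j c
      exact ih (fun a => κ (Function.update a (ix n) j))
    · funext j c
      change -(fcm F Q ρ ix n).tw 0 = 0
      rw [map_zero, neg_zero]

private theorem Kf1_g (i : ι) (hg : F.g i ε = ε) (n : ℕ) : ∀ κ : (ℕ → ℕ) → ℤ,
    (fcm F Q ρ ix n).g i (kfz F ε Q ρ ix n κ) = kfz F ε Q ρ ix n κ := by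
  induction n with
  | zero =>
    intro κ
    change F.g i (κ 0 • ε) = κ 0 • ε
    rw [map_zsmul, hg]
  | succ n ih =>
    intro κ
    refine Prod.ext ?_ ?_
    · funext j c
      exact ih (fun a => κ (Function.update a (ix n) j))
    · funext j c
      change (fcm F Q ρ ix n).g i 0 = 0
      rw [map_zero]

private theorem Kf1_deg (hε : ε ∈ D 0) (n : ℕ) : (∀ a b, a < n → b < n → ix a = ix b → a = b) →
    ∀ (l : ℤ) (κ : (ℕ → ℕ) → ℤ),
    (∀ a, κ a ≠ 0 → ((∑ i ∈ Finset.range n, a (ix i) : ℕ) : ℤ) = l) →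
      kfz F ε Q ρ ix n κ ∈ fDs F Q ρ ix D n (2 * l) := by
  induction n with
  | zero =>
    intro _ l κ h
    change κ 0 • ε ∈ D (2 * l)
    by_cases h0 : κ 0 = 0
    · rw [h0, zero_smul]
      exact (D (2 * l)).zero_mem
    · have h1 := h 0 h0
      rw [Finset.range_zero, Finset.sum_empty, Nat.cast_zero] at h1
      rw [← h1, mul_zero]
      exact (D 0).zsmul_mem hε _
  | succ n ih =>
    intro hi l κ h j c
    refine ⟨?_, (fDs F Q ρ ix D n _).zero_mem⟩
    have h1 := ih (fun a b ha hb => hi a b (by omega) (by omega)) (l - j)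
      (fun a => κ (Function.update a (ix n) j)) (fun a ha => by
        have h2 := h _ ha
        rw [Finset.sum_range_succ, Function.update_self] at h2
        have h3 : ∑ i ∈ Finset.range n, Function.update a (ix n) j (ix i) =
            ∑ i ∈ Finset.range n, a (ix i) := by
          refine Finset.sum_congr rfl (fun i hin => ?_)
          have hin' : i < n := Finset.mem_range.mp hin
          refine Function.update_of_ne (fun he => ?_) _ _
          have := hi i n (by omega) (by omega) he
          omega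
        rw [h3] at h2
        push_cast at h2 ⊢
        linarith)
    have e : 2 * (l - (j : ℤ)) = 2 * l - 2 * (j : ℤ) := by ring
    rw [e] at h1
    exact h1

private theorem Kf1_shc_ne {j m : ℕ} (h : m ≠ j) (κ : (ℕ → ℕ) → ℤ) (i : ℕ) :
    (fun a => shc j κ (Function.update a m i)) = shc j (fun a => κ (Function.update a m i)) := by
  funext a
  unfold shc
  rw [Function.update_of_ne h.symm, Function.update_comm h]

private theorem Kf1_shc_zero (j : ℕ) (κ : (ℕ → ℕ) → ℤ) :
    (fun a => shc j κ (Function.update a j 0)) = 0 := by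
  funext a
  unfold shc
  rw [Function.update_self, if_pos rfl]
  rfl

private theorem Kf1_shc_succ (j : ℕ) (κ : (ℕ → ℕ) → ℤ) (i : ℕ) :
    (fun a => shc j κ (Function.update a j (i + 1))) = fun a => κ (Function.update a j i) := by
  funext a
  unfold shc
  rw [Function.update_self, if_neg (Nat.succ_ne_zero i), Nat.add_sub_cancel,
    Function.update_idem]

private theorem Kf1_shc (j n : ℕ) : ∀ κ : (ℕ → ℕ) → ℤ,
    kfz F ε Q ρ ix n (shc j κ) = yf F Q ρ ix j n (kfz F ε Q ρ ix n κ) := by
  induction n with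
  | zero =>
    intro κ
    change shc j κ 0 • ε = 0
    have h : shc j κ 0 = 0 := if_pos rfl
    rw [h, zero_smul]
  | succ n ih =>
    intro κ
    by_cases h : ix n = j
    · have hy : yf F Q ρ ix j (n + 1) (kfz F ε Q ρ ix (n + 1) κ) =
          ((fun i _ => prv (fun i => kfz F ε Q ρ ix n (fun a => κ (Function.update a (ix n) i))) i,
            fun i _ => prv (fun _ => (0 : (fcm F Q ρ ix n).Φ)) i) :
          (ℕ → ZMod Q → (fcm F Q ρ ix n).Φ) × (ℕ → ZMod Q → (fcm F Q ρ ix n).Φ)) := by
        exact DFunLike.congr_fun (show yf F Q ρ ix j (n + 1) = _ from if_pos h)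
          (kfz F ε Q ρ ix (n + 1) κ)
      refine Eq.trans ?_ hy.symm
      refine Prod.ext ?_ ?_
      · funext i c
        change kfz F ε Q ρ ix n (fun a => shc j κ (Function.update a (ix n) i)) = _
        rw [h]
        cases i with
        | zero =>
          rw [Kf1_shc_zero]
          have h0 := Kf1_smul F ε Q ρ ix n 0 0
          rw [zero_smul, zero_smul] at h0
          exact h0
        | succ i =>
          rw [Kf1_shc_succ]
          rfl
      · funext i c
        cases i with
        | zero => rfl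
        | succ i => rfl
    · have hy : yf F Q ρ ix j (n + 1) (kfz F ε Q ρ ix (n + 1) κ) =
          ((fun i _ => yf F Q ρ ix j n (kfz F ε Q ρ ix n (fun a =>
            κ (Function.update a (ix n) i))), fun _ _ => yf F Q ρ ix j n 0) :
          (ℕ → ZMod Q → (fcm F Q ρ ix n).Φ) × (ℕ → ZMod Q → (fcm F Q ρ ix n).Φ)) := by
        exact DFunLike.congr_fun (show yf F Q ρ ix j (n + 1) = _ from if_neg h)
          (kfz F ε Q ρ ix (n + 1) κ)
      refine Eq.trans ?_ hy.symm
      refine Prod.ext ?_ ?_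
      · funext i c
        change kfz F ε Q ρ ix n (fun a => shc j κ (Function.update a (ix n) i)) = _
        rw [Kf1_shc_ne h]
        exact ih _
      · funext i c
        exact (map_zero (yf F Q ρ ix j n)).symm

end

theorem sKf1 : S_Kf1 := by
  intro ι F D ε Q _ ρ ix n hF hD hε hb hg hi
  have ht : F.tw ε = ε := by
    have h := hD.Ds 0 ε hε
    rw [Int.negOnePow_zero, Units.val_one, one_smul] at h
    exact h
  exact ⟨Kf1_add F ε Q ρ ix n, Kf1_smul F ε Q ρ ix n, Kf1_bd Q ρ ix hb n, Kf1_tw Q ρ ix ht n,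
    fun i => Kf1_g Q ρ ix i (hg i) n, Kf1_deg Q ρ ix hε n hi, fun j => Kf1_shc Q ρ ix j n⟩

end HVx
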