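import Pool.Agent.Lib.MP_181146_gt.HV.SpecV

set_option autoImplicit false

namespace HVx

open HEp HPx HRx HTx

theorem sOne (h1 : S_Ex) : S_One := by
  intro ι F D m ε i k u hF hD hm hA hper hu hbu hg
  have hn : (0 : ℤ) < 2 * m - 1 := by
    have : (1 : ℤ) ≤ m := by exact_mod_cast hm
    linarith
  obtain ⟨v, hv, κ, hκ, hbv, hrv⟩ := h1 ι F D (2 * m - 1) ε (fun _ => i) (fun _ => k) 1 u hF hD hn
    hA (fun t _ => hper) hu hbu (fun t _ => hg)
  let κ' : ℕ → ℤ := κ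
  have hκ0 : ∀ l : ℕ, l ≠ 2 * m → κ' l = 0 := by
    intro l hl
    have h2 : κ' l ∈ zD ((2 * m - 1 : ℤ) + 1 - l) := hκ l
    have h3 : ¬((2 * m - 1 : ℤ) + 1 - l = 0) := by
      intro h4
      apply hl
      have h5 : (l : ℤ) = 2 * m := by linarith
      exact_mod_cast h5
    unfold zD at h2
    rw [if_neg h3] at h2
    exact AddSubgroup.mem_bot.mp h2
  refine ⟨κ' (2 * m), v, hv, ?_, hrv⟩
  refine hbv.trans ?_
  funext l
  change κ' l • ε = if l = 2 * m then κ' (2 * m) • ε else 0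
  split_ifs with h
  · rw [h]
  · rw [hκ0 l h, zero_smul]

end HVx
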