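import Pool.Agent.Lib.MP_181146_gt.HV.SpecV

/-!
# Project HV (part V), task RcOK: products with periodic resolutions
-/

set_option autoImplicit false

namespace HVx

open HEp HPx HRx HTx

section

variable {Φ : Type} [AddCommGroup Φ]

private lemma RcOK_comm {g h : AddMonoid.End Φ} (k l : ℕ) (hc : ∀ φ, g (h φ) = h (g φ)) (φ : Φ) :
    tau g k l (h φ) = h (tau g k l φ) := by
  have hc' : Commute g h := AddMonoidHom.ext hc
  have h1 : Commute (tau g k l) h := by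
    unfold tau
    split_ifs
    · exact Commute.sum_left _ _ _ (fun a _ => hc'.pow_left a)
    · exact hc'.sub_left (Commute.one_left h)
  exact DFunLike.congr_fun h1.eq φ

private lemma RcOK_tt {g : AddMonoid.End Φ} {k : ℕ} (hg : g ^ k = 1) (l : ℕ) (φ : Φ) :
    tau g k (l + 1) (tau g k l φ) = 0 := by
  have h1 : tau g k (l + 1) * tau g k l = 0 := by
    unfold tau
    by_cases hl : Even l
    · rw [if_pos hl, if_neg (by rw [Nat.even_add_one]; exact not_not.2 hl), mul_geom_sum, hg, sub_self]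
    · rw [if_neg hl, if_pos (by rw [Nat.even_add_one]; exact hl), geom_sum_mul, hg, sub_self]
  exact DFunLike.congr_fun h1 φ

private lemma RcOK_mem {g : AddMonoid.End Φ} (S : AddSubgroup Φ) (hS : ∀ φ ∈ S, g φ ∈ S) (k l : ℕ)
    {φ : Φ} (hφ : φ ∈ S) : tau g k l φ ∈ S := by
  have hp : ∀ a : ℕ, (g ^ a) φ ∈ S := by
    intro a
    induction a with
    | zero => exact hφ
    | succ a ih =>
      rw [pow_succ']
      exact hS _ ih
  have hs : ∀ n : ℕ, (∑ a ∈ Finset.range n, g ^ a) φ ∈ S := by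
    intro n
    induction n with
    | zero => exact S.zero_mem
    | succ n ih =>
      rw [Finset.sum_range_succ]
      exact S.add_mem ih (hp n)
  unfold tau
  split_ifs
  · exact hs k
  · exact S.sub_mem (hS φ hφ) hφ

private lemma RcOK_sq (l : ℕ) (φ : Φ) : (-1 : ℤ) ^ l • (-1 : ℤ) ^ l • φ = φ := by
  rw [smul_smul, ← mul_pow, neg_one_mul, neg_neg, one_pow, one_smul]

private lemma RcOK_sq' (l : ℕ) (φ : Φ) : (-1 : ℤ) ^ (l + 1) • (-1 : ℤ) ^ l • φ = -φ := by
  rw [pow_succ, mul_neg_one, neg_smul, RcOK_sq]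

end

private lemma RcOK_sgn (d : ℤ) (l : ℕ) :
    (-1 : ℤ) ^ l * (((d - l).negOnePow : ℤˣ) : ℤ) = ((d.negOnePow : ℤˣ) : ℤ) := by
  rw [Int.negOnePow_sub, Units.val_mul, Int.coe_negOnePow_natCast, mul_left_comm, ← mul_pow,
    neg_one_mul, neg_neg, one_pow, mul_one]

theorem sRcOK : S_RcOK := by
  intro ι F D i k hF hD hg
  refine ⟨⟨?_, ?_, ?_, ?_, ?_, ?_⟩, ⟨?_, ?_, ?_, ?_, ?_⟩, ?_⟩
  · intro φ
    funext l
    change (-1 : ℤ) ^ l • F.tw ((-1 : ℤ) ^ l • F.tw (φ l)) = φ l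
    rw [map_zsmul, hF.tt, RcOK_sq]
  · intro φ
    funext l
    cases l with
    | zero =>
      change (-1 : ℤ) ^ 0 • F.tw (F.bd (φ 0) + 0) = -(F.bd ((-1 : ℤ) ^ 0 • F.tw (φ 0)) + 0)
      rw [pow_zero, one_smul, one_smul, add_zero, add_zero, hF.tb]
    | succ l =>
      change (-1 : ℤ) ^ (l + 1) • F.tw (F.bd (φ (l + 1)) +
        tau (F.g i) k (l + 1) ((-1 : ℤ) ^ l • F.tw (φ l))) =
        -(F.bd ((-1 : ℤ) ^ (l + 1) • F.tw (φ (l + 1))) +
        tau (F.g i) k (l + 1) ((-1 : ℤ) ^ l • F.tw ((-1 : ℤ) ^ l • F.tw (φ l))))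
      rw [map_add, smul_add, hF.tb, ← RcOK_comm k (l + 1) (hF.gt i), map_zsmul F.tw, hF.tt,
        RcOK_sq, map_zsmul (tau (F.g i) k (l + 1)), RcOK_sq', map_zsmul F.bd, smul_neg, neg_add]
  · intro φ
    funext l
    match l with
    | 0 =>
      change F.bd (F.bd (φ 0) + 0) + 0 = 0
      rw [add_zero, add_zero, hF.bb]
    | 1 =>
      change F.bd (F.bd (φ 1) + tau (F.g i) k 1 ((-1 : ℤ) ^ 0 • F.tw (φ 0))) +
        tau (F.g i) k 1 ((-1 : ℤ) ^ 0 • F.tw (F.bd (φ 0) + 0)) = 0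
      rw [map_add, hF.bb, zero_add, ← RcOK_comm k 1 (hF.gb i), ← map_add, pow_zero, one_smul,
        one_smul, add_zero, hF.tb, add_neg_cancel, map_zero]
    | l + 2 =>
      change F.bd (F.bd (φ (l + 2)) + tau (F.g i) k (l + 2) ((-1 : ℤ) ^ (l + 1) • F.tw (φ (l + 1)))) +
        tau (F.g i) k (l + 2) ((-1 : ℤ) ^ (l + 1) • F.tw (F.bd (φ (l + 1)) +
          tau (F.g i) k (l + 1) ((-1 : ℤ) ^ l • F.tw (φ l)))) = 0
      rw [map_add, hF.bb, zero_add, ← RcOK_comm k (l + 2) (hF.gb i), map_add F.tw,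
        ← RcOK_comm k (l + 1) (hF.gt i), smul_add, map_add (tau (F.g i) k (l + 2)),
        ← map_zsmul (tau (F.g i) k (l + 1)), RcOK_tt hg, add_zero, ← map_add, map_zsmul F.bd,
        ← smul_add, hF.tb, add_neg_cancel, smul_zero, map_zero]
  · intro j φ
    funext l
    change F.g j ((-1 : ℤ) ^ l • F.tw (φ l)) = (-1 : ℤ) ^ l • F.tw (F.g j (φ l))
    rw [map_zsmul, hF.gt]
  · intro j φ
    funext l
    cases l with
    | zero =>
      change F.g j (F.bd (φ 0) + 0) = F.bd (F.g j (φ 0)) + 0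
      rw [add_zero, add_zero, hF.gb]
    | succ l =>
      change F.g j (F.bd (φ (l + 1)) + tau (F.g i) k (l + 1) ((-1 : ℤ) ^ l • F.tw (φ l))) =
        F.bd (F.g j (φ (l + 1))) + tau (F.g i) k (l + 1) ((-1 : ℤ) ^ l • F.tw (F.g j (φ l)))
      rw [map_add, hF.gb, ← RcOK_comm k (l + 1) (hF.gg i j), map_zsmul, hF.gt]
  · intro j j' φ
    funext l
    exact hF.gg j j' (φ l)
  · intro d hd φ hφ
    funext l
    exact hD.neg (d - l) (by omega) (φ l) (hφ l)
  · intro d φ hφ l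
    exact (D _).zsmul_mem (hD.Dt _ _ (hφ l)) _
  · intro d φ hφ
    funext l
    change (-1 : ℤ) ^ l • F.tw (φ l) = (d.negOnePow : ℤ) • φ l
    rw [hD.Ds _ _ (hφ l), smul_smul, RcOK_sgn]
  · intro d φ hφ l
    cases l with
    | zero =>
      change F.bd (φ 0) + 0 ∈ D (d + 1 - (0 : ℕ))
      have h := hD.Db _ _ (hφ 0)
      have e : d - ((0 : ℕ) : ℤ) + 1 = d + 1 - ((0 : ℕ) : ℤ) := by ring
      rw [e] at h
      rw [add_zero]
      exact h
    | succ l =>
      change F.bd (φ (l + 1)) + tau (F.g i) k (l + 1) ((-1 : ℤ) ^ l • F.tw (φ l)) ∈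
        D (d + 1 - ((l + 1 : ℕ) : ℤ))
      refine (D _).add_mem ?_ ?_
      · have h := hD.Db _ _ (hφ (l + 1))
        have e : d - ((l + 1 : ℕ) : ℤ) + 1 = d + 1 - ((l + 1 : ℕ) : ℤ) := by ring
        rw [e] at h
        exact h
      · have e : d + 1 - ((l + 1 : ℕ) : ℤ) = d - (l : ℤ) := by
          push_cast
          ring
        rw [e]
        exact RcOK_mem _ (fun ψ hψ => hD.Dg i _ ψ hψ) k (l + 1)
          ((D _).zsmul_mem (hD.Dt _ _ (hφ l)) _)
  · intro j d φ hφ l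
    exact hD.Dg j _ _ (hφ l)
  · intro j k' hj
    have h : ∀ (n : ℕ) (φ : (F.rc i k).Φ) (l : ℕ),
        (((F.rc i k).g j ^ n) φ) l = (F.g j ^ n) (φ l) := by
      intro n
      induction n with
      | zero => exact fun φ l => rfl
      | succ n ih =>
        intro φ l
        rw [pow_succ, pow_succ]
        exact ih ((F.rc i k).g j φ) l
    refine AddMonoidHom.ext (fun φ => ?_)
    funext l
    refine (h k' φ l).trans ?_
    rw [hj]
    rfl

end HVx
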