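import Pool.Agent.Lib.MP_181146_gt.HV.SpecV

/-!
# Project HV (part V): `S_Rit`
-/

set_option autoImplicit false

noncomputable section

namespace HVx

open HEp HPx HRx HTx

private lemma Rit_g {ι ι' : Type} (A : FC ι) (F : FC ι') (f : A.Φ →+ F.Φ) (γ : ℕ → ι)
    (γ' : ℕ → ι') (k : ℕ → ℕ) (i : ι) (i' : ι') (h : ∀ φ, f (A.g i φ) = F.g i' (f φ)) :
    ∀ (r : ℕ) (φ : (rit A γ k r).Φ),
      ritF f γ k γ' k r ((rit A γ k r).g i φ) = (rit F γ' k r).g i' (ritF f γ k γ' k r φ)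
  | 0, φ => h φ
  | r + 1, φ => by
    funext l
    exact Rit_g A F f γ γ' k i i' h r (φ l)

private lemma Rit_inj {ι ι' : Type} (A : FC ι) (F : FC ι') (f : A.Φ →+ F.Φ) (γ : ℕ → ι)
    (γ' : ℕ → ι') (k : ℕ → ℕ) (h : ∀ φ, f φ = 0 → φ = 0) :
    ∀ (r : ℕ) (φ : (rit A γ k r).Φ), ritF f γ k γ' k r φ = 0 → φ = 0
  | 0, φ => h φ
  | r + 1, φ => fun e => by
    funext l
    exact Rit_inj A F f γ γ' k h r (φ l) (congrFun e l)

private lemma Rit_TF {ι : Type} (F : FC ι) (γ : ℕ → ι) (k : ℕ → ℕ) (h : TF F.Φ) :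
    ∀ r : ℕ, TF (rit F γ k r).Φ
  | 0 => h
  | r + 1 => fun j φ hj e => by
    funext l
    exact Rit_TF F γ k h r j (φ l) hj (congrFun e l)

private lemma Rit_OK (h1 : S_RcOK) {ι : Type} (F : FC ι) (D : ℤ → AddSubgroup F.Φ) (γ : ℕ → ι)
    (k : ℕ → ℕ) (hF : F.OK) (hD : DOK F D) : ∀ r : ℕ, Per F γ k r →
    (rit F γ k r).OK ∧ DOK (rit F γ k r) (rDs F γ k D r) ∧
      (∀ j k', F.g j ^ k' = 1 → (rit F γ k r).g j ^ k' = 1)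
  | 0 => fun _ => ⟨hF, hD, fun _ _ h => h⟩
  | r + 1 => fun hp => by
    obtain ⟨a, b, c⟩ := Rit_OK h1 F D γ k hF hD r (fun t ht => hp t (Nat.lt_succ_of_lt ht))
    obtain ⟨a', b', c'⟩ := h1 ι (rit F γ k r) (rDs F γ k D r) (γ r) (k r) a b
      (c _ _ (hp r (Nat.lt_succ_self r)))
    exact ⟨a', b', fun j k' h => c' j k' (c j k' h)⟩

private lemma Rit_Mp (h1 : S_RcOK) (h2 : S_CnRc) {ι ι' : Type} (A : FC ι) (F : FC ι')
    (DA : ℤ → AddSubgroup A.Φ) (DF : ℤ → AddSubgroup F.Φ) (f : A.Φ →+ F.Φ) (γ : ℕ → ι)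
    (γ' : ℕ → ι') (k : ℕ → ℕ) (hA : A.OK) (hF : F.OK) (hDA : DOK A DA) (hDF : DOK F DF)
    (hf : Mp A F DA DF f) : ∀ r : ℕ, Per A γ k r → Per F γ' k r →
    (∀ t, t < r → ∀ φ, f (A.g (γ t) φ) = F.g (γ' t) (f φ)) →
    Mp (rit A γ k r) (rit F γ' k r) (rDs A γ k DA r) (rDs F γ' k DF r) (ritF f γ k γ' k r) ∧
    (Cn A F DA DF f → Cn (rit A γ k r) (rit F γ' k r) (rDs A γ k DA r) (rDs F γ' k DF r)
      (ritF f γ k γ' k r))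
  | 0 => fun _ _ _ => ⟨hf, fun h => h⟩
  | r + 1 => fun pA pF hg => by
    have pA' : Per A γ k r := fun t ht => pA t (Nat.lt_succ_of_lt ht)
    have pF' : Per F γ' k r := fun t ht => pF t (Nat.lt_succ_of_lt ht)
    obtain ⟨m, c⟩ := Rit_Mp h1 h2 A F DA DF f γ γ' k hA hF hDA hDF hf r pA' pF'
      (fun t ht => hg t (Nat.lt_succ_of_lt ht))
    obtain ⟨a1, a2, a3⟩ := Rit_OK h1 A DA γ k hA hDA r pA'
    obtain ⟨b1, b2, b3⟩ := Rit_OK h1 F DF γ' k hF hDF r pF'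
    obtain ⟨m', c'⟩ := h2 ι ι' (rit A γ k r) (rit F γ' k r) (rDs A γ k DA r) (rDs F γ' k DF r)
      (ritF f γ k γ' k r) (γ r) (γ' r) (k r) a1 b1 a2 b2 (a3 _ _ (pA r (Nat.lt_succ_self r)))
      (b3 _ _ (pF r (Nat.lt_succ_self r))) m
      (Rit_g A F f γ γ' k (γ r) (γ' r) (hg r (Nat.lt_succ_self r)) r)
    exact ⟨m', fun h => c' (c h)⟩

theorem sRit (h1 : S_RcOK) (h2 : S_CnRc) : S_Rit := by
  refine ⟨?_, ?_⟩
  · intro ι F D γ k r hF hD hp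
    obtain ⟨a, b, c⟩ := Rit_OK h1 F D γ k hF hD r hp
    exact ⟨a, b, c, fun h => Rit_TF F γ k h r⟩
  · intro ι ι' A F DA DF f γ γ' k r hA hF hDA hDF pA pF hf hg
    obtain ⟨m, c⟩ := Rit_Mp h1 h2 A F DA DF f γ γ' k hA hF hDA hDF hf r pA pF hg
    exact ⟨m, c, fun h => Rit_inj A F f γ γ' k h r, fun i i' h => Rit_g A F f γ γ' k i i' h r⟩

end HVx
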