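import Pool.Agent.Lib.MP_181146_gt.HV.SpecV

/-!
# Project HV: `S_RitB`, naturality of `rI`, `rB`, `ins`
-/

set_option autoImplicit false

namespace HVx

open HEp HPx HRx HTx

private theorem ritB_ic_ne {Φ : Type} [AddCommGroup Φ] (x : Φ) {l : ℕ} (h : l ≠ 0) :
    (ic x : ℕ → Φ) l = 0 := by
  change (if l = 0 then x else 0) = 0
  rw [if_neg h]

private theorem ritB_ic_zero {Φ : Type} [AddCommGroup Φ] (x : Φ) :
    (ic x : ℕ → Φ) 0 = x := rfl

private theorem ritB_pw_ic {Φ Ψ : Type} [AddCommGroup Φ] [AddCommGroup Ψ] (f : Φ →+ Ψ) (x : Φ) :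
    pw f (ic x) = ic (f x) := by
  funext l
  change f (if l = 0 then x else 0) = (if l = 0 then f x else 0)
  split_ifs
  · rfl
  · exact map_zero f

private theorem ritB_ins_eq {ι : Type} (F : FC ι) (γ : ℕ → ι) (k : ℕ → ℕ) (t s : ℕ) (h : t = s)
    (x : F.Φ) (l : ℕ) :
    (ins F γ k t (s + 1) x : ℕ → (rit F γ k s).Φ) l = if l = 1 then rI F γ k s x else 0 := by
  change ((if t = s then _ else _ : F.Φ →+ (rit F γ k (s + 1)).Φ) x : ℕ → (rit F γ k s).Φ) l = _
  rw [if_pos h]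
  rfl

private theorem ritB_ins_ne {ι : Type} (F : FC ι) (γ : ℕ → ι) (k : ℕ → ℕ) (t s : ℕ) (h : t ≠ s)
    (x : F.Φ) :
    (ins F γ k t (s + 1) x : ℕ → (rit F γ k s).Φ) = ic (ins F γ k t s x) := by
  change ((if t = s then _ else _ : F.Φ →+ (rit F γ k (s + 1)).Φ) x : ℕ → (rit F γ k s).Φ) = _
  rw [if_neg h]
  rfl

theorem sRitB : S_RitB := by
  intro ι ι' A F f γ γ' k k' r
  induction r with
  | zero =>
    refine ⟨fun φ => rfl, fun φ => rfl, fun t φ => ?_, fun φ => rfl, fun t φ => rfl⟩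
    change f 0 = 0
    exact map_zero f
  | succ s ih =>
    obtain ⟨h1, h2, h3, h4, h5⟩ := ih
    refine ⟨fun φ => ?_, fun φ => ?_, fun t φ => ?_, fun φ => ?_, fun t φ => ?_⟩
    · exact h1 (φ 0)
    · change pw (ritF f γ k γ' k' s) (ic (rI A γ k s φ)) = ic (rI F γ' k' s (f φ))
      rw [ritB_pw_ic, h2]
    · by_cases h : t = s
      · funext l
        change ritF f γ k γ' k' s ((ins A γ k t (s + 1) φ : ℕ → (rit A γ k s).Φ) l) =
          (ins F γ' k' t (s + 1) (f φ) : ℕ → (rit F γ' k' s).Φ) l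
        rw [ritB_ins_eq A γ k t s h, ritB_ins_eq F γ' k' t s h]
        split_ifs
        · exact h2 φ
        · exact map_zero _
      · change pw (ritF f γ k γ' k' s) (ins A γ k t (s + 1) φ : ℕ → (rit A γ k s).Φ) =
          (ins F γ' k' t (s + 1) (f φ) : ℕ → (rit F γ' k' s).Φ)
        rw [ritB_ins_ne A γ k t s h, ritB_ins_ne F γ' k' t s h, ritB_pw_ic, h3]
    · exact h4 φ
    · by_cases h : t = s
      · change rB A γ k s ((ins A γ k t (s + 1) φ : ℕ → (rit A γ k s).Φ) 0) = 0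
        rw [ritB_ins_eq A γ k t s h, if_neg (by decide)]
        exact map_zero _
      · change rB A γ k s ((ins A γ k t (s + 1) φ : ℕ → (rit A γ k s).Φ) 0) = 0
        rw [ritB_ins_ne A γ k t s h]
        exact h5 t φ

end HVx
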