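import Pool.Agent.Lib.MP_181146_gt.HV.SpecV

/-!
# Project HV, statement RitI: the inclusions `rI`, `ins`

All statements are proved by induction on the number of resolutions.
-/

set_option autoImplicit false

noncomputable section

namespace HVx

open HEp HPx HRx HTx

section

variable {ι : Type}

private lemma riti_same (F : FC ι) (γ : ℕ → ι) (k : ℕ → ℕ) (s : ℕ) (x : F.Φ) (l : ℕ) :
    ins F γ k s (s + 1) x l = if l = 1 then rI F γ k s x else 0 := by
  have e : ins F γ k s (s + 1) = AddMonoidHom.mk' (fun x l => if l = 1 then rI F γ k s x else 0)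
      (by
        intro x y
        funext l
        change (if l = 1 then rI F γ k s (x + y) else 0) = (if l = 1 then rI F γ k s x else 0) +
          (if l = 1 then rI F γ k s y else 0)
        split_ifs
        · rw [map_add]
        · rw [add_zero]) := if_pos rfl
  exact congrFun (DFunLike.congr_fun e x) l

private lemma riti_diff (F : FC ι) (γ : ℕ → ι) (k : ℕ → ℕ) (t s : ℕ) (h : t ≠ s) (x : F.Φ)
    (l : ℕ) : ins F γ k t (s + 1) x l = if l = 0 then ins F γ k t s x else 0 := by
  have e : ins F γ k t (s + 1) = ic.comp (ins F γ k t s) := if_neg h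
  exact congrFun (DFunLike.congr_fun e x) l

private lemma riti_sum (F : FC ι) (γ : ℕ → ι) (k : ℕ → ℕ) (s n : ℕ)
    (f : ℕ → (rit F γ k (s + 1)).Φ) (l : ℕ) :
    (∑ t ∈ Finset.range n, f t) l = ∑ t ∈ Finset.range n, (f t l : (rit F γ k s).Φ) := by
  induction n with
  | zero => rfl
  | succ n ih =>
    rw [Finset.sum_range_succ, Finset.sum_range_succ, ← ih]
    rfl

private lemma riti_tw (F : FC ι) (γ : ℕ → ι) (k : ℕ → ℕ) (r : ℕ) (φ : F.Φ) :
    (rit F γ k r).tw (rI F γ k r φ) = rI F γ k r (F.tw φ) := by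
  induction r with
  | zero => rfl
  | succ r ih =>
    funext l
    change (-1 : ℤ) ^ l • (rit F γ k r).tw (if l = 0 then rI F γ k r φ else 0) =
      if l = 0 then rI F γ k r (F.tw φ) else 0
    by_cases hl : l = 0
    · rw [if_pos hl, if_pos hl, hl, pow_zero, one_smul, ih]
    · rw [if_neg hl, if_neg hl, map_zero, smul_zero]

private lemma riti_g (F : FC ι) (γ : ℕ → ι) (k : ℕ → ℕ) (r : ℕ) (i : ι) (φ : F.Φ) :
    (rit F γ k r).g i (rI F γ k r φ) = rI F γ k r (F.g i φ) := by
  induction r with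
  | zero => rfl
  | succ r ih =>
    funext l
    change (rit F γ k r).g i (if l = 0 then rI F γ k r φ else 0) =
      if l = 0 then rI F γ k r (F.g i φ) else 0
    by_cases hl : l = 0
    · rw [if_pos hl, if_pos hl, ih]
    · rw [if_neg hl, if_neg hl, map_zero]

private lemma riti_ins (F : FC ι) (γ : ℕ → ι) (k : ℕ → ℕ) (r : ℕ) (i : ι) (t : ℕ) (φ : F.Φ) :
    (rit F γ k r).g i (ins F γ k t r φ) = ins F γ k t r (F.g i φ) := by
  induction r with
  | zero => exact map_zero _
  | succ r ih =>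
    funext l
    change (rit F γ k r).g i (ins F γ k t (r + 1) φ l) = ins F γ k t (r + 1) (F.g i φ) l
    by_cases ht : t = r
    · subst ht
      rw [riti_same, riti_same]
      by_cases hl : l = 1
      · rw [if_pos hl, if_pos hl, riti_g]
      · rw [if_neg hl, if_neg hl, map_zero]
    · rw [riti_diff F γ k t r ht, riti_diff F γ k t r ht]
      by_cases hl : l = 0
      · rw [if_pos hl, if_pos hl, ih]
      · rw [if_neg hl, if_neg hl, map_zero]

private lemma riti_bd (F : FC ι) (γ : ℕ → ι) (k : ℕ → ℕ) (r : ℕ) (φ : F.Φ) :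
    (rit F γ k r).bd (rI F γ k r φ) = rI F γ k r (F.bd φ) +
      ∑ t ∈ Finset.range r, ins F γ k t r (F.g (γ t) (F.tw φ) - F.tw φ) := by
  induction r with
  | zero => exact (add_zero _).symm
  | succ r ih =>
    rw [Finset.sum_range_succ]
    funext l
    rcases l with _ | _ | l
    · change (rit F γ k r).bd (rI F γ k r φ) + 0 = rI F γ k r (F.bd φ) +
        ((∑ t ∈ Finset.range r, ins F γ k t (r + 1) (F.g (γ t) (F.tw φ) - F.tw φ)) 0 +
          ins F γ k r (r + 1) (F.g (γ r) (F.tw φ) - F.tw φ) 0)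
      rw [riti_sum, riti_same, if_neg (by decide), add_zero, add_zero, ih]
      refine congrArg _ (Finset.sum_congr rfl fun t ht => ?_)
      rw [riti_diff F γ k t r (Finset.mem_range.1 ht).ne, if_pos rfl]
    · change (rit F γ k r).bd 0 + tau ((rit F γ k r).g (γ r)) (k r) 1
        ((-1 : ℤ) ^ 0 • (rit F γ k r).tw (rI F γ k r φ)) = 0 +
        ((∑ t ∈ Finset.range r, ins F γ k t (r + 1) (F.g (γ t) (F.tw φ) - F.tw φ)) 1 +
          ins F γ k r (r + 1) (F.g (γ r) (F.tw φ) - F.tw φ) 1)
      rw [riti_sum, riti_same, if_pos rfl, map_zero, zero_add, zero_add, pow_zero, one_smul,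
        riti_tw]
      have e0 : ∑ t ∈ Finset.range r, (ins F γ k t (r + 1) (F.g (γ t) (F.tw φ) - F.tw φ) 1 :
          (rit F γ k r).Φ) = 0 := by
        refine Finset.sum_eq_zero fun t ht => ?_
        rw [riti_diff F γ k t r (Finset.mem_range.1 ht).ne, if_neg (by decide)]
      rw [e0, zero_add]
      change (rit F γ k r).g (γ r) (rI F γ k r (F.tw φ)) - rI F γ k r (F.tw φ) = _
      rw [riti_g, map_sub]
    · change (rit F γ k r).bd 0 + tau ((rit F γ k r).g (γ r)) (k r) (l + 1 + 1)
        ((-1 : ℤ) ^ (l + 1) • (rit F γ k r).tw 0) = 0 +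
        ((∑ t ∈ Finset.range r, ins F γ k t (r + 1) (F.g (γ t) (F.tw φ) - F.tw φ)) (l + 1 + 1) +
          ins F γ k r (r + 1) (F.g (γ r) (F.tw φ) - F.tw φ) (l + 1 + 1))
      rw [riti_sum, riti_same, if_neg (by omega), map_zero, map_zero, smul_zero, map_zero]
      have e0 : ∑ t ∈ Finset.range r, (ins F γ k t (r + 1) (F.g (γ t) (F.tw φ) - F.tw φ)
          (l + 1 + 1) : (rit F γ k r).Φ) = 0 := by
        refine Finset.sum_eq_zero fun t ht => ?_
        rw [riti_diff F γ k t r (Finset.mem_range.1 ht).ne, if_neg (by omega)]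
      rw [e0, add_zero, add_zero]

private lemma riti_mI (F : FC ι) (D : ℤ → AddSubgroup F.Φ) (γ : ℕ → ι) (k : ℕ → ℕ) (r : ℕ)
    (d : ℤ) (φ : F.Φ) (h : φ ∈ D d) : rI F γ k r φ ∈ rDs F γ k D r d := by
  induction r with
  | zero => exact h
  | succ r ih =>
    intro l
    change (if l = 0 then rI F γ k r φ else 0) ∈ rDs F γ k D r (d - l)
    by_cases hl : l = 0
    · rw [if_pos hl, hl, Nat.cast_zero, sub_zero]
      exact ih
    · rw [if_neg hl]
      exact zero_mem _

private lemma riti_mins (F : FC ι) (D : ℤ → AddSubgroup F.Φ) (γ : ℕ → ι) (k : ℕ → ℕ) (r t : ℕ)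
    (d : ℤ) (φ : F.Φ) (h : φ ∈ D d) : ins F γ k t r φ ∈ rDs F γ k D r (d + 1) := by
  induction r with
  | zero => exact zero_mem _
  | succ r ih =>
    intro l
    by_cases ht : t = r
    · subst ht
      rw [riti_same]
      by_cases hl : l = 1
      · rw [if_pos hl, hl, Nat.cast_one, add_sub_cancel_right]
        exact riti_mI F D γ k t d φ h
      · rw [if_neg hl]
        exact zero_mem _
    · rw [riti_diff F γ k t r ht]
      by_cases hl : l = 0
      · rw [if_pos hl, hl, Nat.cast_zero, sub_zero]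
        exact ih
      · rw [if_neg hl]
        exact zero_mem _

private lemma riti_Bbd (F : FC ι) (γ : ℕ → ι) (k : ℕ → ℕ) (r : ℕ) (φ : (rit F γ k r).Φ) :
    rB F γ k r ((rit F γ k r).bd φ) = F.bd (rB F γ k r φ) := by
  induction r with
  | zero => rfl
  | succ r ih =>
    change rB F γ k r ((rit F γ k r).bd (φ 0) + 0) = F.bd (rB F γ k r (φ 0))
    rw [add_zero]
    exact ih (φ 0)

private lemma riti_BD (F : FC ι) (D : ℤ → AddSubgroup F.Φ) (γ : ℕ → ι) (k : ℕ → ℕ) (r : ℕ)
    (d : ℤ) (φ : (rit F γ k r).Φ) (h : φ ∈ rDs F γ k D r d) : rB F γ k r φ ∈ D d := by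
  induction r with
  | zero => exact h
  | succ r ih =>
    have h0 : φ 0 ∈ rDs F γ k D r (d - ((0 : ℕ) : ℤ)) := h 0
    rw [Nat.cast_zero, sub_zero] at h0
    exact ih (φ 0) h0

private lemma riti_Bg (F : FC ι) (γ : ℕ → ι) (k : ℕ → ℕ) (r : ℕ) (i : ι)
    (φ : (rit F γ k r).Φ) : rB F γ k r ((rit F γ k r).g i φ) = F.g i (rB F γ k r φ) := by
  induction r with
  | zero => rfl
  | succ r ih => exact ih (φ 0)

end

theorem sRitI : S_RitI := fun _ F D γ k r _ _ =>
  ⟨riti_tw F γ k r, riti_g F γ k r, riti_ins F γ k r, riti_bd F γ k r, riti_mI F D γ k r,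
    riti_mins F D γ k r, riti_Bbd F γ k r, riti_BD F D γ k r, riti_Bg F γ k r⟩

end HVx
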