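import Pool.Agent.Lib.MP_181146_gt.HV.SpecV

/-!
# Project HV: TAc, the cohomology of the functionals on the tensor square
-/

set_option autoImplicit false

namespace HVx

open scoped TensorProduct
open HEp HPx HRx HTx

section Aux

variable {k : Type} [CommRing k] {K : SS}

private lemma TAc_ind {n : ℕ} {M : Type} [AddCommGroup M]
    [Module k M] (f : Ch k K →ₗ[k] M) (S : Submodule k M) (h : ∀ x : K.K n, f (sx k x) ∈ S)
    (x : Ch k K) (hx : x ∈ gr k K n) : f x ∈ S := by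
  have h1 : gr k K n ≤ S.comap f := by
    rw [gr, Finsupp.supported_eq_span_single, Submodule.span_le]
    rintro _ ⟨⟨m, y⟩, hm, rfl⟩
    change m = n at hm
    subst hm
    exact h y
  exact h1 hx

private lemma TAc_od (n : ℕ) (x : Ch k K) (hx : x ∈ gr k K n) :
    od k K x ∈ gr k K n := by
  refine TAc_ind (od k K) (gr k K n) (fun x => ?_) x hx
  rw [od_sx]
  split_ifs
  · exact sx_mem_gr k x
  · exact Submodule.zero_mem _

private lemma TAc_bd0 (x : Ch k K) (hx : x ∈ gr k K 0) : bd k K x = 0 := by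
  have h1 := TAc_ind (bd k K) ⊥ (fun x => by
    rw [bd_sx_zero]
    exact Submodule.zero_mem _) x hx
  exact (Submodule.mem_bot k).1 h1

private lemma TAc_bd (n : ℕ) (x : Ch k K) (hx : x ∈ gr k K (n + 1)) : bd k K x ∈ gr k K n := by
  refine TAc_ind (bd k K) (gr k K n) (fun x => ?_) x hx
  rw [bd_sx]
  exact Submodule.sum_mem _ fun i _ => Submodule.smul_mem _ _ (sx_mem_gr k _)

private lemma TAc_aug (n : ℕ) (hn : 0 < n) (x : Ch k K) (hx : x ∈ gr k K n) :
    aug k K x = 0 := by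
  obtain ⟨m, rfl⟩ : ∃ m, n = m + 1 := ⟨n - 1, by omega⟩
  have h1 := TAc_ind (aug k K) ⊥ (fun x => by
    rw [aug_sx_succ]
    exact Submodule.zero_mem _) x hx
  exact (Submodule.mem_bot k).1 h1

private lemma TAc_sg (n : ℕ) (x : Ch k K) (hx : x ∈ gr k K n) :
    (chDG k K).sg x ∈ gr k K n := by
  rw [DG.sg_apply]
  exact Submodule.sub_mem _ hx (Submodule.smul_mem _ _ (TAc_od n x hx))

private lemma TAc_tind {n : ℕ} {M : Type} [AddCommMonoid M] [Module k M]
    (f : Ch k K ⊗[k] Ch k K →ₗ[k] M) (S : Submodule k M)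
    (h : ∀ (p q : ℕ) (x y : Ch k K), p + q = n → x ∈ gr k K p → y ∈ gr k K q →
      f (x ⊗ₜ y) ∈ S) (z : Ch k K ⊗[k] Ch k K) (hz : z ∈ tgr (gr k K) (gr k K) n) :
    f z ∈ S := by
  have h1 : tgr (gr k K) (gr k K) n ≤ S.comap f := by
    rw [tgr, Submodule.span_le]
    rintro _ ⟨i, j, x, y, hij, hx, hy, rfl⟩
    exact h i j x y hij hx hy
  exact h1 hz

private lemma TAc_mem {n p q : ℕ} {x y : Ch k K} (h : p + q = n) (hx : x ∈ gr k K p)
    (hy : y ∈ gr k K q) : x ⊗ₜ[k] y ∈ tgr (gr k K) (gr k K) n :=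
  Submodule.subset_span ⟨p, q, x, y, h, hx, hy, rfl⟩

private lemma TAc_ext {M : Type} [AddCommGroup M] [Module k M]
    (f g : Ch k K ⊗[k] Ch k K →ₗ[k] M)
    (h : ∀ i : ℕ, ∀ z ∈ tgr (gr k K) (gr k K) i, f z = g z) : f = g := by
  apply TensorProduct.ext
  apply ch_ext
  intro p x
  apply ch_ext
  intro q y
  exact h (p + q) _ (TAc_mem rfl (sx_mem_gr k x) (sx_mem_gr k y))

private lemma TAc_D0 (z : Ch k K ⊗[k] Ch k K) (hz : z ∈ tgr (gr k K) (gr k K) 0) :
    ((chDG k K).tens (chDG k K)).d z = 0 := by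
  have h := TAc_tind ((chDG k K).tens (chDG k K)).d ⊥ (fun p q x y hpq hx hy => by
    obtain rfl : p = 0 := by omega
    obtain rfl : q = 0 := by omega
    have : ((chDG k K).tens (chDG k K)).d (x ⊗ₜ[k] y) = 0 := by
      change bd k K x ⊗ₜ[k] y + (chDG k K).sg x ⊗ₜ[k] bd k K y = 0
      rw [TAc_bd0 x hx, TAc_bd0 y hy, TensorProduct.zero_tmul, TensorProduct.tmul_zero, add_zero]
    rw [this]
    exact Submodule.zero_mem _) z hz
  exact (Submodule.mem_bot k).1 h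

private lemma TAc_D (n : ℕ) (z : Ch k K ⊗[k] Ch k K) (hz : z ∈ tgr (gr k K) (gr k K) (n + 1)) :
    ((chDG k K).tens (chDG k K)).d z ∈ tgr (gr k K) (gr k K) n := by
  refine TAc_tind ((chDG k K).tens (chDG k K)).d _ (fun p q x y hpq hx hy => ?_) z hz
  change bd k K x ⊗ₜ[k] y + (chDG k K).sg x ⊗ₜ[k] bd k K y ∈ _
  refine Submodule.add_mem _ ?_ ?_
  · cases p with
    | zero =>
      rw [TAc_bd0 x hx, TensorProduct.zero_tmul]
      exact Submodule.zero_mem _
    | succ p => exact TAc_mem (by omega) (TAc_bd p x hx) hy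
  · cases q with
    | zero =>
      rw [TAc_bd0 y hy, TensorProduct.tmul_zero]
      exact Submodule.zero_mem _
    | succ q => exact TAc_mem (by omega) (TAc_sg p x hx) (TAc_bd q y hy)

private lemma TAc_augi (i : ℕ) (hi : i ≠ 0) (z : Ch k K ⊗[k] Ch k K)
    (hz : z ∈ tgr (gr k K) (gr k K) i) : augT (aug k K) (aug k K) z = 0 := by
  have h := TAc_tind (augT (aug k K) (aug k K)) ⊥ (fun p q x y hpq hx hy => by
    rw [augT_tmul]
    rcases Nat.eq_zero_or_pos p with hp | hp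
    · rw [TAc_aug q (by omega) y hy, mul_zero]
      exact Submodule.zero_mem _
    · rw [TAc_aug p hp x hx, zero_mul]
      exact Submodule.zero_mem _) z hz
  exact (Submodule.mem_bot k).1 h

private lemma TAc_augD : augT (aug k K) (aug k K) ∘ₗ ((chDG k K).tens (chDG k K)).d = 0 := by
  apply TensorProduct.ext'
  intro x y
  change augT (aug k K) (aug k K) (bd k K x ⊗ₜ[k] y + (chDG k K).sg x ⊗ₜ[k] bd k K y) = 0
  rw [map_add, augT_tmul, augT_tmul, aug_bd, aug_bd, zero_mul, mul_zero, add_zero]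

private lemma TAc_augc (f g : SSHom K K) :
    augT (aug k K) (aug k K) ∘ₗ TensorProduct.map (cmap k f) (cmap k g) =
      augT (aug k K) (aug k K) := by
  apply TensorProduct.ext'
  intro x y
  rw [LinearMap.comp_apply, TensorProduct.map_tmul, augT_tmul, augT_tmul, aug_cmap, aug_cmap]

end Aux

theorem sTAc (h1 : S_TSc) (_h2 : S_TOK) : S_TAc := by
  intro G _ E _ act v n hn hE
  obtain ⟨S, hS, hS0, hSi⟩ := h1 E v n hn hE
  have hvv : augT (aug ℤ (Sing E)) (aug ℤ (Sing E)) (sx ℤ v ⊗ₜ[ℤ] sx ℤ v) = 1 := by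
    rw [augT_tmul, aug_sx_zero, mul_one]
  refine ⟨?_, ?_, ?_, ?_, ?_, ?_⟩
  · intro i hi z hz
    exact TAc_augi i (by exact_mod_cast hi) z hz
  · exact TAc_augD
  · intro g
    exact TAc_augc _ _
  · intro j hj
    have h3 : v2 (j • e2 act) (sx ℤ v ⊗ₜ[ℤ] sx ℤ v) = 0 := by
      rw [hj]
      rfl
    have h4 : v2 (j • e2 act) (sx ℤ v ⊗ₜ[ℤ] sx ℤ v) =
        j * augT (aug ℤ (Sing E)) (aug ℤ (Sing E)) (sx ℤ v ⊗ₜ[ℤ] sx ℤ v) := rfl
    rw [h4, hvv, mul_one] at h3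
    exact h3
  · intro φ hφ hb
    have hb' : ∀ z, v2 φ (((cz (Sing E)).tens (cz (Sing E))).d z) = 0 := fun z =>
      LinearMap.congr_fun (show v2 φ ∘ₗ ((cz (Sing E)).tens (cz (Sing E))).d = 0 from hb) z
    refine ⟨v2 φ (sx ℤ v ⊗ₜ[ℤ] sx ℤ v), TAc_ext (v2 φ)
      (v2 (v2 φ (sx ℤ v ⊗ₜ[ℤ] sx ℤ v) • e2 act)) (fun i z hz => ?_)⟩
    have h4 : v2 (v2 φ (sx ℤ v ⊗ₜ[ℤ] sx ℤ v) • e2 act) z =
      v2 φ (sx ℤ v ⊗ₜ[ℤ] sx ℤ v) * augT (aug ℤ (Sing E)) (aug ℤ (Sing E)) z := rfl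
    refine Eq.trans ?_ h4.symm
    rcases Nat.eq_zero_or_pos i with hi | hi
    · subst hi
      have h5 := hb' (S z)
      rw [hS0 z hz, map_sub, map_smul, sub_eq_zero, smul_eq_mul] at h5
      exact h5.trans (mul_comm _ _)
    · have h6 : v2 φ (sx ℤ v ⊗ₜ[ℤ] sx ℤ v) * augT (aug ℤ (Sing E)) (aug ℤ (Sing E)) z = 0 := by
        rw [TAc_augi i (by omega) z hz, mul_zero]
      exact (hφ i (by exact_mod_cast (by omega : i ≠ 0)) z hz).trans h6.symm
  · intro d hd0 hdn φ hφ hb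
    have hb' : ∀ z, v2 φ (((cz (Sing E)).tens (cz (Sing E))).d z) = 0 := fun z =>
      LinearMap.congr_fun (show v2 φ ∘ₗ ((cz (Sing E)).tens (cz (Sing E))).d = 0 from hb) z
    refine ⟨(v2 φ ∘ₗ S : Ch ℤ (Sing E) ⊗[ℤ] Ch ℤ (Sing E) →ₗ[ℤ] ℤ), ?_, ?_⟩
    · intro i hi z hz
      exact hφ (i + 1) (by push_cast; omega) (S z) (hS i z hz)
    · refine TAc_ext (v2 φ) ((v2 φ ∘ₗ S) ∘ₗ ((cz (Sing E)).tens (cz (Sing E))).d)
        (fun i z hz => ?_)
      rw [LinearMap.comp_apply, LinearMap.comp_apply]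
      by_cases hi : (i : ℤ) = d
      · have h5 := hSi i (by omega) (by omega) z hz
        have h6 := congrArg (v2 φ) h5
        rw [map_add, hb', zero_add] at h6
        exact h6.symm
      · have h7 : v2 φ z = 0 := hφ i hi z hz
        refine h7.trans ?_
        cases i with
        | zero =>
          have h8 : v2 φ (S (((cz (Sing E)).tens (cz (Sing E))).d z)) =
              v2 φ (S (0 : Ch ℤ (Sing E) ⊗[ℤ] Ch ℤ (Sing E))) :=
            congrArg (fun w => v2 φ (S w)) (TAc_D0 z hz)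
          exact (h8.trans ((congrArg (v2 φ) (map_zero S)).trans (map_zero (v2 φ)))).symm
        | succ i => exact (hφ (i + 1) hi _ (hS i _ (TAc_D i z hz))).symm

end HVx
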