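import Pool.Agent.Lib.MP_181146_gt.HV.SpecV
import Pool.Agent.Lib.MP_181146_gt.HE.NabD
import Pool.Agent.Lib.MP_181146_gt.HE.NabG
import Pool.Agent.Lib.MP_181146_gt.HE.NabN
import Pool.Agent.Lib.MP_181146_gt.HE.NabU

/-!
# Project HV: TMp, the three maps to the functionals on the tensor square
-/

set_option autoImplicit false

namespace HVx

open scoped TensorProduct
open HEp HPx HRx HTx

section Aux

variable {k : Type} [CommRing k] {K L : SS}

private lemma TMp_ind {n : ℕ} {M : Type} [AddCommGroup M] [Module k M] (f : Ch k K →ₗ[k] M)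
    (S : Submodule k M) (h : ∀ x : K.K n, f (sx k x) ∈ S) (x : Ch k K) (hx : x ∈ gr k K n) :
    f x ∈ S := by
  have h1 : gr k K n ≤ S.comap f := by
    rw [gr, Finsupp.supported_eq_span_single, Submodule.span_le]
    rintro _ ⟨⟨m, y⟩, hm, rfl⟩
    change m = n at hm
    subst hm
    exact h y
  exact h1 hx

private lemma TMp_bd (n : ℕ) (x : Ch k K) (hx : x ∈ gr k K (n + 1)) : bd k K x ∈ gr k K n := by
  refine TMp_ind (bd k K) (gr k K n) (fun x => ?_) x hx
  rw [bd_sx]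
  exact Submodule.sum_mem _ fun i _ => Submodule.smul_mem _ _ (sx_mem_gr k _)

private lemma TMp_aug (n : ℕ) (hn : 0 < n) (x : Ch k K) (hx : x ∈ gr k K n) : aug k K x = 0 := by
  obtain ⟨m, rfl⟩ : ∃ m, n = m + 1 := ⟨n - 1, by omega⟩
  have h1 := TMp_ind (aug k K) ⊥ (fun x => by
    rw [aug_sx_succ]
    exact Submodule.zero_mem _) x hx
  exact (Submodule.mem_bot k).1 h1

private lemma TMp_cm (f : SSHom K L) (n : ℕ) (x : Ch k K) (hx : x ∈ gr k K n) :
    cmap k f x ∈ gr k L n := by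
  refine TMp_ind (cmap k f) (gr k L n) (fun x => ?_) x hx
  rw [cmap_sx]
  exact sx_mem_gr k _

private lemma TMp_cs (f : SSHom K L) (a : Ch k K) :
    cmap k f ((chDG k K).sg a) = (chDG k L).sg (cmap k f a) := by
  change cmap k f (a - (2 : k) • od k K a) = cmap k f a - (2 : k) • od k L (cmap k f a)
  rw [map_sub, map_smul, cmap_od]

private lemma TMp_augsg (x : Ch k K) : aug k K ((chDG k K).sg x) = aug k K x := by
  have h : aug k K ∘ₗ (chDG k K).sg = aug k K := ch_ext fun n x => by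
    rw [LinearMap.comp_apply, DG.sg_apply, map_sub, map_smul]
    change aug k K (sx k x) - (2 : k) • aug k K (od k K (sx k x)) = _
    cases n with
    | zero => rw [od_sx, if_neg (by decide), map_zero, smul_zero, sub_zero]
    | succ n =>
      rw [od_sx, aug_sx_succ]
      split_ifs
      · rw [aug_sx_succ, smul_zero, sub_zero]
      · rw [map_zero, smul_zero, sub_zero]
  exact LinearMap.congr_fun h x

private lemma TMp_tind {n : ℕ} {M : Type} [AddCommMonoid M] [Module k M]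
    (f : Ch k K ⊗[k] Ch k K →ₗ[k] M) (S : Submodule k M)
    (h : ∀ (p q : ℕ) (x y : Ch k K), p + q = n → x ∈ gr k K p → y ∈ gr k K q →
      f (x ⊗ₜ y) ∈ S) (z : Ch k K ⊗[k] Ch k K) (hz : z ∈ tgr (gr k K) (gr k K) n) :
    f z ∈ S := by
  have h1 : tgr (gr k K) (gr k K) n ≤ S.comap f := by
    rw [tgr, Submodule.span_le]
    rintro _ ⟨i, j, x, y, hij, hx, hy, rfl⟩
    exact h i j x y hij hx hy
  exact h1 hz

/-- The differential of the tensor square. -/
private noncomputable def tD (k : Type) [CommRing k] (K : SS) :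
    Ch k K ⊗[k] Ch k K →ₗ[k] Ch k K ⊗[k] Ch k K := ((chDG k K).tens (chDG k K)).d

/-- The parity of the tensor square. -/
private noncomputable def tP (k : Type) [CommRing k] (K : SS) :
    Ch k K ⊗[k] Ch k K →ₗ[k] Ch k K ⊗[k] Ch k K := ((chDG k K).tens (chDG k K)).P

/-- The sign operator of the tensor square. -/
private noncomputable def tS (k : Type) [CommRing k] (K : SS) :
    Ch k K ⊗[k] Ch k K →ₗ[k] Ch k K ⊗[k] Ch k K := ((chDG k K).tens (chDG k K)).sg

private lemma tD_tmul (x y : Ch k K) : tD k K (x ⊗ₜ y) =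
    bd k K x ⊗ₜ[k] y + (chDG k K).sg x ⊗ₜ[k] bd k K y := rfl

private lemma tS_tmul (x y : Ch k K) : tS k K (x ⊗ₜ y) =
    (chDG k K).sg x ⊗ₜ[k] (chDG k K).sg y := DG.tens_sg _ _ _ _

private lemma tS_eq (z : Ch k K ⊗[k] Ch k K) : tS k K z = z - (2 : k) • tP k K z := rfl

/-! ### The multiplication -/

private lemma mu_d (e : ∀ p q : ℕ, Ch ℤ ((De p).prod (De q))) (he : EZ e)
    (m : SSHom (K.prod K) K) (z : Ch k K ⊗[k] Ch k K) :
    mu k e m (tD k K z) = bd k K (mu k e m z) := by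
  rw [mu, LinearMap.comp_apply, LinearMap.comp_apply, ← cmap_bd]
  exact congrArg _ (sNabD e he k K K z)

private lemma mu_s (e : ∀ p q : ℕ, Ch ℤ ((De p).prod (De q))) (he : EZ e)
    (m : SSHom (K.prod K) K) (z : Ch k K ⊗[k] Ch k K) :
    mu k e m (tS k K z) = (chDG k K).sg (mu k e m z) := by
  have h : nab k e K K (tP k K z) = od k (K.prod K) (nab k e K K z) := (sNabG e he k K K).2 z
  rw [mu, LinearMap.comp_apply, LinearMap.comp_apply, ← TMp_cs, tS_eq, map_sub, map_smul, h]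
  rfl

private lemma mu_g (e : ∀ p q : ℕ, Ch ℤ ((De p).prod (De q))) (he : EZ e)
    (m : SSHom (K.prod K) K) (n : ℕ) (z : Ch k K ⊗[k] Ch k K)
    (hz : z ∈ tgr (gr k K) (gr k K) n) : mu k e m z ∈ gr k K n := by
  refine TMp_tind (mu k e m) _ (fun p q x y hpq hx hy => ?_) z hz
  rw [mu, LinearMap.comp_apply, ← hpq]
  exact TMp_cm _ _ _ ((sNabG e he k K K).1 p q x hx y hy)

private lemma mu_a (e : ∀ p q : ℕ, Ch ℤ ((De p).prod (De q))) (he : EZ e)
    (m : SSHom (K.prod K) K) (z : Ch k K ⊗[k] Ch k K) :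
    aug k K (mu k e m z) = augT (aug k K) (aug k K) z := by
  rw [mu, LinearMap.comp_apply, aug_cmap]
  exact (sNabU e he k K K).2.2 z

private lemma mu_c (e : ∀ p q : ℕ, Ch ℤ ((De p).prod (De q)))
    (m : SSHom (K.prod K) K) (a b c : SSHom K K) (h : m.comp (a.prod b) = c.comp m)
    (z : Ch k K ⊗[k] Ch k K) :
    mu k e m (TensorProduct.map (cmap k a) (cmap k b) z) = cmap k c (mu k e m z) := by
  rw [mu, LinearMap.comp_apply, LinearMap.comp_apply, sNabN e k K K K K a b z, ← cmap_comp, h,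
    cmap_comp]

/-! ### The projections -/

/-- `1 ⊗ aug`. -/
private noncomputable def r1 (k : Type) [CommRing k] (K : SS) : Ch k K ⊗[k] Ch k K →ₗ[k] Ch k K :=
  (TensorProduct.rid k (Ch k K)).toLinearMap ∘ₗ TensorProduct.map LinearMap.id (aug k K)

/-- `aug ⊗ 1`. -/
private noncomputable def r2 (k : Type) [CommRing k] (K : SS) : Ch k K ⊗[k] Ch k K →ₗ[k] Ch k K :=
  (TensorProduct.lid k (Ch k K)).toLinearMap ∘ₗ TensorProduct.map (aug k K) LinearMap.id

private lemma r1_tmul (x y : Ch k K) : r1 k K (x ⊗ₜ y) = aug k K y • x := by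
  exact TensorProduct.rid_tmul x (aug k K y)

private lemma r2_tmul (x y : Ch k K) : r2 k K (x ⊗ₜ y) = aug k K x • y := by
  exact TensorProduct.lid_tmul y (aug k K x)

private lemma r1_d (z : Ch k K ⊗[k] Ch k K) : r1 k K (tD k K z) = bd k K (r1 k K z) := by
  have h : r1 k K ∘ₗ tD k K = bd k K ∘ₗ r1 k K := by
    apply TensorProduct.ext'
    intro x y
    rw [LinearMap.comp_apply, LinearMap.comp_apply, tD_tmul, map_add, r1_tmul, r1_tmul, r1_tmul,
      aug_bd, zero_smul, add_zero, map_smul]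
  exact LinearMap.congr_fun h z

private lemma r2_d (z : Ch k K ⊗[k] Ch k K) : r2 k K (tD k K z) = bd k K (r2 k K z) := by
  have h : r2 k K ∘ₗ tD k K = bd k K ∘ₗ r2 k K := by
    apply TensorProduct.ext'
    intro x y
    rw [LinearMap.comp_apply, LinearMap.comp_apply, tD_tmul, map_add, r2_tmul, r2_tmul, r2_tmul,
      aug_bd, zero_smul, zero_add, TMp_augsg, map_smul]
  exact LinearMap.congr_fun h z

private lemma r1_s (z : Ch k K ⊗[k] Ch k K) :
    r1 k K (tS k K z) = (chDG k K).sg (r1 k K z) := by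
  have h : r1 k K ∘ₗ tS k K = (chDG k K).sg ∘ₗ r1 k K := by
    apply TensorProduct.ext'
    intro x y
    rw [LinearMap.comp_apply, LinearMap.comp_apply, tS_tmul, r1_tmul, r1_tmul, TMp_augsg,
      map_smul]
  exact LinearMap.congr_fun h z

private lemma r2_s (z : Ch k K ⊗[k] Ch k K) :
    r2 k K (tS k K z) = (chDG k K).sg (r2 k K z) := by
  have h : r2 k K ∘ₗ tS k K = (chDG k K).sg ∘ₗ r2 k K := by
    apply TensorProduct.ext'
    intro x y
    rw [LinearMap.comp_apply, LinearMap.comp_apply, tS_tmul, r2_tmul, r2_tmul, TMp_augsg,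
      map_smul]
  exact LinearMap.congr_fun h z

private lemma r1_g (n : ℕ) (z : Ch k K ⊗[k] Ch k K) (hz : z ∈ tgr (gr k K) (gr k K) n) :
    r1 k K z ∈ gr k K n := by
  refine TMp_tind (r1 k K) _ (fun p q x y hpq hx hy => ?_) z hz
  rw [r1_tmul]
  rcases Nat.eq_zero_or_pos q with hq | hq
  · obtain rfl : p = n := by omega
    exact Submodule.smul_mem _ _ hx
  · rw [TMp_aug q hq y hy, zero_smul]
    exact Submodule.zero_mem _

private lemma r2_g (n : ℕ) (z : Ch k K ⊗[k] Ch k K) (hz : z ∈ tgr (gr k K) (gr k K) n) :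
    r2 k K z ∈ gr k K n := by
  refine TMp_tind (r2 k K) _ (fun p q x y hpq hx hy => ?_) z hz
  rw [r2_tmul]
  rcases Nat.eq_zero_or_pos p with hp | hp
  · obtain rfl : q = n := by omega
    exact Submodule.smul_mem _ _ hy
  · rw [TMp_aug p hp x hx, zero_smul]
    exact Submodule.zero_mem _

private lemma r1_a (z : Ch k K ⊗[k] Ch k K) :
    aug k K (r1 k K z) = augT (aug k K) (aug k K) z := by
  have h : aug k K ∘ₗ r1 k K = augT (aug k K) (aug k K) := by
    apply TensorProduct.ext'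
    intro x y
    rw [LinearMap.comp_apply, r1_tmul, augT_tmul, map_smul, smul_eq_mul, mul_comm]
  exact LinearMap.congr_fun h z

private lemma r2_a (z : Ch k K ⊗[k] Ch k K) :
    aug k K (r2 k K z) = augT (aug k K) (aug k K) z := by
  have h : aug k K ∘ₗ r2 k K = augT (aug k K) (aug k K) := by
    apply TensorProduct.ext'
    intro x y
    rw [LinearMap.comp_apply, r2_tmul, augT_tmul, map_smul, smul_eq_mul]
  exact LinearMap.congr_fun h z

private lemma r1_c (a b : SSHom K K) (z : Ch k K ⊗[k] Ch k K) :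
    r1 k K (TensorProduct.map (cmap k a) (cmap k b) z) = cmap k a (r1 k K z) := by
  have h : r1 k K ∘ₗ TensorProduct.map (cmap k a) (cmap k b) = cmap k a ∘ₗ r1 k K := by
    apply TensorProduct.ext'
    intro x y
    rw [LinearMap.comp_apply, LinearMap.comp_apply, TensorProduct.map_tmul, r1_tmul, r1_tmul,
      aug_cmap, map_smul]
  exact LinearMap.congr_fun h z

private lemma r2_c (a b : SSHom K K) (z : Ch k K ⊗[k] Ch k K) :
    r2 k K (TensorProduct.map (cmap k a) (cmap k b) z) = cmap k b (r2 k K z) := by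
  have h : r2 k K ∘ₗ TensorProduct.map (cmap k a) (cmap k b) = cmap k b ∘ₗ r2 k K := by
    apply TensorProduct.ext'
    intro x y
    rw [LinearMap.comp_apply, LinearMap.comp_apply, TensorProduct.map_tmul, r2_tmul, r2_tmul,
      aug_cmap, map_smul]
  exact LinearMap.congr_fun h z

end Aux

/-! ### The functionals on the chains -/

section PX

variable {G : Type} [CommGroup G] {X : AX G} {E : Type} [TopologicalSpace E] {act : G → C(E, E)}

private lemma pX_sx (Λ : Lk X E act) (φ : (fX X).Φ) {n : ℕ} (x : (Sing E).K n) :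
    pX Λ φ (sx ℤ x) = φ n (Λ.f' n (sx ℤ x)) := by
  refine (Finsupp.linearCombination_single ℤ (1 : ℤ) (⟨n, x⟩ : Σ n, (Sing E).K n)).trans ?_
  exact one_smul ℤ _

private lemma pX_gr (Λ : Lk X E act) (φ : (fX X).Φ) (n : ℕ) (c : Ch ℤ (Sing E))
    (hc : c ∈ gr ℤ (Sing E) n) : pX Λ φ c = φ n (Λ.f' n c) := by
  have h := TMp_ind (pX Λ φ - ((φ n).comp (Λ.f' n)).toIntLinearMap) ⊥ (fun x => by
    rw [Submodule.mem_bot, LinearMap.sub_apply, pX_sx]
    exact sub_self _) c hc
  rw [Submodule.mem_bot, LinearMap.sub_apply] at h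
  exact sub_eq_zero.1 h

private lemma pX_tw (Λ : Lk X E act) (φ : (fX X).Φ) (c : Ch ℤ (Sing E)) :
    pX Λ ((fX X).tw φ) c = pX Λ φ ((cz (Sing E)).sg c) := by
  have h : pX Λ ((fX X).tw φ) = pX Λ φ ∘ₗ (cz (Sing E)).sg := ch_ext fun n x => by
    rw [LinearMap.comp_apply, pX_sx]
    have e : (cz (Sing E)).sg (sx ℤ x) = (-1 : ℤ) ^ n • sx ℤ x := by
      change sx ℤ x - (2 : ℤ) • od ℤ (Sing E) (sx ℤ x) = _
      rw [od_sx]
      by_cases h : Odd n
      · rw [if_pos h, h.neg_one_pow]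
        module
      · rw [if_neg h, (Nat.not_odd_iff_even.1 h).neg_one_pow]
        module
    rw [e, map_smul, pX_sx]
    rfl
  exact LinearMap.congr_fun h c

private lemma pX_bd (Λ : Lk X E act) (φ : (fX X).Φ) (c : Ch ℤ (Sing E)) :
    pX Λ ((fX X).bd φ) c = pX Λ φ (bd ℤ (Sing E) c) := by
  have h : pX Λ ((fX X).bd φ) = pX Λ φ ∘ₗ bd ℤ (Sing E) := ch_ext fun n x => by
    rw [LinearMap.comp_apply, pX_sx]
    cases n with
    | zero =>
      rw [bd_sx_zero, map_zero]
      rfl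
    | succ n =>
      rw [pX_gr Λ φ n _ (TMp_bd n _ (sx_mem_gr ℤ x)), Λ.f'd]
      rfl
  exact LinearMap.congr_fun h c

private lemma pX_g (Λ : Lk X E act) (g : G) (φ : (fX X).Φ) (c : Ch ℤ (Sing E)) :
    pX Λ ((fX X).g g φ) c = pX Λ φ (cmap ℤ (SingMap (act g)) c) := by
  have h : pX Λ ((fX X).g g φ) = pX Λ φ ∘ₗ cmap ℤ (SingMap (act g)) := ch_ext fun n x => by
    rw [LinearMap.comp_apply, pX_sx, pX_gr Λ φ n _ (TMp_cm _ n _ (sx_mem_gr ℤ x)), Λ.f'g]
    rfl
  exact LinearMap.congr_fun h c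

private lemma pX_e (Λ : Lk X E act) (c : Ch ℤ (Sing E)) :
    pX Λ (eX X) c = aug ℤ (Sing E) c := by
  have h : pX Λ (eX X) = aug ℤ (Sing E) := ch_ext fun n x => by
    rw [pX_sx]
    cases n with
    | zero => exact Λ.f'ε _
    | succ n =>
      rw [aug_sx_succ]
      rfl
  exact LinearMap.congr_fun h c

private lemma mkMp (Λ : Lk X E act)
    (A : Ch ℤ (Sing E) ⊗[ℤ] Ch ℤ (Sing E) →ₗ[ℤ] Ch ℤ (Sing E))
    (hd : ∀ z, A (((cz (Sing E)).tens (cz (Sing E))).d z) = bd ℤ (Sing E) (A z))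
    (hs : ∀ z, A (((cz (Sing E)).tens (cz (Sing E))).sg z) = (cz (Sing E)).sg (A z))
    (hg : ∀ i, ∀ z ∈ tgr (gr ℤ (Sing E)) (gr ℤ (Sing E)) i, A z ∈ gr ℤ (Sing E) i) :
    Mp (fX X) (f2 act) (dX X) (d2 act) (pb2 Λ A) := by
  refine ⟨?_, ?_, ?_⟩
  · intro φ
    refine LinearMap.ext fun z => ?_
    exact (pX_tw Λ φ (A z)).trans (congrArg (pX Λ φ) (hs z).symm)
  · intro φ
    refine LinearMap.ext fun z => ?_
    exact (pX_bd Λ φ (A z)).trans (congrArg (pX Λ φ) (hd z).symm)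
  · intro d φ hφ i hi z hz
    refine (pX_gr Λ φ i (A z) (hg i z hz)).trans ?_
    rw [hφ i hi]
    rfl

private lemma mkg (Λ : Lk X E act)
    (A : Ch ℤ (Sing E) ⊗[ℤ] Ch ℤ (Sing E) →ₗ[ℤ] Ch ℤ (Sing E)) (a b c : G)
    (h : ∀ z, A (TensorProduct.map (cmap ℤ (SingMap (act a))) (cmap ℤ (SingMap (act b))) z) =
      cmap ℤ (SingMap (act c)) (A z)) (φ : (fX X).Φ) :
    pb2 Λ A ((fX X).g c φ) = (f2 act).g (a, b) (pb2 Λ A φ) := by
  refine LinearMap.ext fun z => ?_
  exact (pX_g Λ c φ (A z)).trans (congrArg (pX Λ φ) (h z).symm)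

private lemma mke (Λ : Lk X E act)
    (A : Ch ℤ (Sing E) ⊗[ℤ] Ch ℤ (Sing E) →ₗ[ℤ] Ch ℤ (Sing E))
    (h : ∀ z, aug ℤ (Sing E) (A z) = augT (aug ℤ (Sing E)) (aug ℤ (Sing E)) z) :
    pb2 Λ A (eX X) = e2 act := by
  refine LinearMap.ext fun z => ?_
  exact (pX_e Λ (A z)).trans (h z)

end PX

theorem sTMp : S_TMp := by
  intro e he G _ X E _ act Λ m hm1 hm2 hact1 hact
  have hc : ∀ a b : G, (SingMul m).comp ((SingMap (act a)).prod (SingMap (act b))) =
      (SingMap (act (a * b))).comp (SingMul m) := by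
    intro a b
    unfold SSHom.comp SSHom.prod SingMul SingMap
    congr 1
    funext n x
    refine ContinuousMap.ext fun t => ?_
    have h : ∀ u w : E, m (act a u, act b w) = act (a * b) (m (u, w)) := by
      intro u w
      rw [hm1, hm2, hact]
      rfl
    exact h _ _
  refine ⟨mkMp Λ _ (fun z => mu_d e he _ z) (fun z => mu_s e he _ z) (fun i z hz => mu_g e he _ i z hz),
    mkMp Λ _ (fun z => r1_d z) (fun z => r1_s z) (fun i z hz => r1_g i z hz),
    mkMp Λ _ (fun z => r2_d z) (fun z => r2_s z) (fun i z hz => r2_g i z hz),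
    fun a b φ => mkg Λ _ a b (a * b) (fun z => mu_c e _ _ _ _ (hc a b) z) φ,
    fun a b φ => mkg Λ _ a b a (fun z => r1_c _ _ z) φ,
    fun a b φ => mkg Λ _ a b b (fun z => r2_c _ _ z) φ,
    mke Λ _ (fun z => mu_a e he _ z), mke Λ _ (fun z => r1_a z), mke Λ _ (fun z => r2_a z)⟩

end HVx
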