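import Pool.Agent.Lib.MP_181146_gt.HV.SpecV

/-!
# Project HV: TOK, the functionals on the tensor square of the chains
-/

set_option autoImplicit false

namespace HVx

open scoped TensorProduct
open HEp HPx HRx HTx

section Aux

variable {k : Type} [CommRing k] {K : SS}

private lemma TOK_ind {n : ℕ} {M : Type} [AddCommGroup M] [Module k M] (f : Ch k K →ₗ[k] M)
    (S : Submodule k M) (h : ∀ x : K.K n, f (sx k x) ∈ S) (x : Ch k K) (hx : x ∈ gr k K n) :
    f x ∈ S := by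
  have h1 : gr k K n ≤ S.comap f := by
    rw [gr, Finsupp.supported_eq_span_single, Submodule.span_le]
    rintro _ ⟨⟨m, y⟩, hm, rfl⟩
    change m = n at hm
    subst hm
    exact h y
  exact h1 hx

private lemma TOK_sg1 (n : ℕ) (x : Ch k K) (hx : x ∈ gr k K n) :
    (chDG k K).sg x = (-1 : k) ^ n • x := by
  have h1 := TOK_ind ((chDG k K).sg - (-1 : k) ^ n • LinearMap.id) ⊥ (fun x => by
    rw [Submodule.mem_bot, LinearMap.sub_apply, LinearMap.smul_apply, LinearMap.id_apply,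
      DG.sg_apply]
    change sx k x - (2 : k) • od k K (sx k x) - (-1 : k) ^ n • sx k x = 0
    rw [od_sx]
    by_cases h : Odd n
    · rw [if_pos h, h.neg_one_pow]
      module
    · rw [if_neg h, (Nat.not_odd_iff_even.1 h).neg_one_pow]
      module) x hx
  rw [Submodule.mem_bot, LinearMap.sub_apply, LinearMap.smul_apply, LinearMap.id_apply] at h1
  exact sub_eq_zero.1 h1

private lemma TOK_bd0 (x : Ch k K) (hx : x ∈ gr k K 0) : bd k K x = 0 := by
  have h1 := TOK_ind (bd k K) ⊥ (fun x => by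
    rw [bd_sx_zero]
    exact Submodule.zero_mem _) x hx
  exact (Submodule.mem_bot k).1 h1

private lemma TOK_bd (n : ℕ) (x : Ch k K) (hx : x ∈ gr k K (n + 1)) : bd k K x ∈ gr k K n := by
  refine TOK_ind (bd k K) (gr k K n) (fun x => ?_) x hx
  rw [bd_sx]
  exact Submodule.sum_mem _ fun i _ => Submodule.smul_mem _ _ (sx_mem_gr k _)

private lemma TOK_cm (f : SSHom K K) (n : ℕ) (x : Ch k K) (hx : x ∈ gr k K n) :
    cmap k f x ∈ gr k K n := by
  refine TOK_ind (cmap k f) (gr k K n) (fun x => ?_) x hx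
  rw [cmap_sx]
  exact sx_mem_gr k _

private lemma TOK_tind {n : ℕ} {M : Type} [AddCommMonoid M] [Module k M]
    (f : Ch k K ⊗[k] Ch k K →ₗ[k] M) (S : Submodule k M)
    (h : ∀ (p q : ℕ) (x y : Ch k K), p + q = n → x ∈ gr k K p → y ∈ gr k K q →
      f (x ⊗ₜ y) ∈ S) (z : Ch k K ⊗[k] Ch k K) (hz : z ∈ tgr (gr k K) (gr k K) n) :
    f z ∈ S := by
  have h1 : tgr (gr k K) (gr k K) n ≤ S.comap f := by
    rw [tgr, Submodule.span_le]
    rintro _ ⟨i, j, x, y, hij, hx, hy, rfl⟩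
    exact h i j x y hij hx hy
  exact h1 hz

private lemma TOK_teq {n : ℕ} {M : Type} [AddCommMonoid M] [Module k M]
    (f g : Ch k K ⊗[k] Ch k K →ₗ[k] M)
    (h : ∀ (p q : ℕ) (x y : Ch k K), p + q = n → x ∈ gr k K p → y ∈ gr k K q →
      f (x ⊗ₜ y) = g (x ⊗ₜ y)) (z : Ch k K ⊗[k] Ch k K) (hz : z ∈ tgr (gr k K) (gr k K) n) :
    f z = g z := by
  have h1 : tgr (gr k K) (gr k K) n ≤ LinearMap.eqLocus f g := by
    rw [tgr, Submodule.span_le]
    rintro _ ⟨i, j, x, y, hij, hx, hy, rfl⟩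
    exact h i j x y hij hx hy
  exact h1 hz

private lemma TOK_mem {n p q : ℕ} {x y : Ch k K} (h : p + q = n) (hx : x ∈ gr k K p)
    (hy : y ∈ gr k K q) : x ⊗ₜ[k] y ∈ tgr (gr k K) (gr k K) n :=
  Submodule.subset_span ⟨p, q, x, y, h, hx, hy, rfl⟩

/-- The differential of the tensor square. -/
private noncomputable def tD (k : Type) [CommRing k] (K : SS) :
    Ch k K ⊗[k] Ch k K →ₗ[k] Ch k K ⊗[k] Ch k K := ((chDG k K).tens (chDG k K)).d

/-- The sign operator of the tensor square. -/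
private noncomputable def tS (k : Type) [CommRing k] (K : SS) :
    Ch k K ⊗[k] Ch k K →ₗ[k] Ch k K ⊗[k] Ch k K := ((chDG k K).tens (chDG k K)).sg

private lemma tD_tmul (x y : Ch k K) : tD k K (x ⊗ₜ y) =
    bd k K x ⊗ₜ[k] y + (chDG k K).sg x ⊗ₜ[k] bd k K y := rfl

private lemma tS_tmul (x y : Ch k K) : tS k K (x ⊗ₜ y) =
    (chDG k K).sg x ⊗ₜ[k] (chDG k K).sg y := DG.tens_sg _ _ _ _

private lemma TOK_sg (n : ℕ) (z : Ch k K ⊗[k] Ch k K) (hz : z ∈ tgr (gr k K) (gr k K) n) :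
    tS k K z = (-1 : k) ^ n • z :=
  TOK_teq (tS k K) ((-1 : k) ^ n • LinearMap.id) (fun p q x y hpq hx hy => by
    rw [LinearMap.smul_apply, LinearMap.id_apply, tS_tmul, TOK_sg1 p x hx, TOK_sg1 q y hy,
      TensorProduct.smul_tmul_smul, ← pow_add, hpq]) z hz

private lemma TOK_d0 (z : Ch k K ⊗[k] Ch k K) (hz : z ∈ tgr (gr k K) (gr k K) 0) :
    tD k K z = 0 :=
  TOK_teq (tD k K) 0 (fun p q x y hpq hx hy => by
    obtain rfl : p = 0 := by omega
    obtain rfl : q = 0 := by omega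
    rw [tD_tmul, TOK_bd0 x hx, TOK_bd0 y hy, TensorProduct.zero_tmul, TensorProduct.tmul_zero,
      add_zero, LinearMap.zero_apply]) z hz

private lemma TOK_d (n : ℕ) (z : Ch k K ⊗[k] Ch k K) (hz : z ∈ tgr (gr k K) (gr k K) (n + 1)) :
    tD k K z ∈ tgr (gr k K) (gr k K) n := by
  refine TOK_tind (tD k K) _ (fun p q x y hpq hx hy => ?_) z hz
  rw [tD_tmul]
  refine Submodule.add_mem _ ?_ ?_
  · cases p with
    | zero =>
      rw [TOK_bd0 x hx, TensorProduct.zero_tmul]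
      exact Submodule.zero_mem _
    | succ p => exact TOK_mem (by omega) (TOK_bd p x hx) hy
  · cases q with
    | zero =>
      rw [TOK_bd0 y hy, TensorProduct.tmul_zero]
      exact Submodule.zero_mem _
    | succ q =>
      refine TOK_mem (p := p) (by omega) ?_ (TOK_bd q y hy)
      rw [TOK_sg1 p x hx]
      exact Submodule.smul_mem _ _ hx

private lemma TOK_ext {M : Type} [AddCommGroup M] [Module k M]
    {f g : Ch k K ⊗[k] Ch k K →ₗ[k] M}
    (h : ∀ (n : ℕ), ∀ z ∈ tgr (gr k K) (gr k K) n, f z = g z) : f = g := by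
  apply TensorProduct.ext
  apply ch_ext
  intro p x
  apply ch_ext
  intro q y
  exact h (p + q) _ (TOK_mem rfl (sx_mem_gr k x) (sx_mem_gr k y))

/-- The action on the tensor square. -/
private noncomputable def TOKM (k : Type) [CommRing k] {G : Type} [CommGroup G] {E : Type}
    [TopologicalSpace E] (act : G → C(E, E)) (h : G × G) :
    Ch k (Sing E) ⊗[k] Ch k (Sing E) →ₗ[k] Ch k (Sing E) ⊗[k] Ch k (Sing E) :=
  TensorProduct.map (cmap k (SingMap (act h.1))) (cmap k (SingMap (act h.2)))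

private lemma TOKM_tmul {G : Type} [CommGroup G] {E : Type} [TopologicalSpace E]
    (act : G → C(E, E)) (h : G × G) (x y : Ch k (Sing E)) : TOKM k act h (x ⊗ₜ y) =
      cmap k (SingMap (act h.1)) x ⊗ₜ[k] cmap k (SingMap (act h.2)) y := rfl

private lemma TOKM_mul {G : Type} [CommGroup G] {E : Type} [TopologicalSpace E]
    (act : G → C(E, E)) (hact : ∀ a b, act (a * b) = (act a).comp (act b)) (h h' : G × G)
    (x : Ch k (Sing E) ⊗[k] Ch k (Sing E)) :
    TOKM k act h (TOKM k act h' x) = TOKM k act (h * h') x := by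
  have e1 : ∀ (a b : G) (x : Ch k (Sing E)),
      cmap k (SingMap (act a)) (cmap k (SingMap (act b)) x) =
      cmap k (SingMap (act (a * b))) x := by
    intro a b x
    rw [hact, ← cmap_comp]
    rfl
  have e2 : TOKM k act h ∘ₗ TOKM k act h' = TOKM k act (h * h') := by
    apply TensorProduct.ext'
    intro a b
    rw [LinearMap.comp_apply, TOKM_tmul, TOKM_tmul, TOKM_tmul, e1, e1]
    rfl
  exact LinearMap.congr_fun e2 x

private lemma TOKM_one {G : Type} [CommGroup G] {E : Type} [TopologicalSpace E]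
    (act : G → C(E, E)) (hact1 : act 1 = ContinuousMap.id E)
    (x : Ch k (Sing E) ⊗[k] Ch k (Sing E)) : TOKM k act 1 x = x := by
  have e1 : ∀ x : Ch k (Sing E), cmap k (SingMap (act 1)) x = x := by
    intro x
    rw [hact1]
    exact cmap_id k x
  have e2 : TOKM k act 1 = LinearMap.id := by
    apply TensorProduct.ext'
    intro a b
    rw [TOKM_tmul, LinearMap.id_apply]
    exact congrArg₂ (fun x y => x ⊗ₜ[k] y) (e1 a) (e1 b)
  rw [e2]
  rfl

private lemma TOK_cs (f : SSHom K K) (a : Ch k K) :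
    cmap k f ((chDG k K).sg a) = (chDG k K).sg (cmap k f a) := by
  change cmap k f (a - (2 : k) • od k K a) = cmap k f a - (2 : k) • od k K (cmap k f a)
  rw [map_sub, map_smul, cmap_od]

private lemma TOKM_d {G : Type} [CommGroup G] {E : Type} [TopologicalSpace E]
    (act : G → C(E, E)) (h : G × G) (x : Ch k (Sing E) ⊗[k] Ch k (Sing E)) :
    TOKM k act h (tD k (Sing E) x) = tD k (Sing E) (TOKM k act h x) := by
  have e2 : TOKM k act h ∘ₗ tD k (Sing E) = tD k (Sing E) ∘ₗ TOKM k act h := by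
    apply TensorProduct.ext'
    intro a b
    rw [LinearMap.comp_apply, LinearMap.comp_apply, tD_tmul, TOKM_tmul, tD_tmul, map_add,
      TOKM_tmul, TOKM_tmul, cmap_bd, cmap_bd, TOK_cs]
  exact LinearMap.congr_fun e2 x

private lemma TOKM_g {G : Type} [CommGroup G] {E : Type} [TopologicalSpace E]
    (act : G → C(E, E)) (h : G × G) (n : ℕ) (z : Ch k (Sing E) ⊗[k] Ch k (Sing E))
    (hz : z ∈ tgr (gr k (Sing E)) (gr k (Sing E)) n) :
    TOKM k act h z ∈ tgr (gr k (Sing E)) (gr k (Sing E)) n := by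
  refine TOK_tind (TOKM k act h) _ (fun p q x y hpq hx hy => ?_) z hz
  exact TOK_mem hpq (TOK_cm _ p x hx) (TOK_cm _ q y hy)

private lemma TOKM_sg {G : Type} [CommGroup G] {E : Type} [TopologicalSpace E]
    (act : G → C(E, E)) (h : G × G) (x : Ch k (Sing E) ⊗[k] Ch k (Sing E)) :
    TOKM k act h (tS k (Sing E) x) = tS k (Sing E) (TOKM k act h x) := by
  have e : TOKM k act h ∘ₗ tS k (Sing E) = tS k (Sing E) ∘ₗ TOKM k act h := by
    apply TensorProduct.ext'
    intro a b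
    rw [LinearMap.comp_apply, LinearMap.comp_apply, tS_tmul, TOKM_tmul, TOKM_tmul, tS_tmul,
      TOK_cs, TOK_cs]
  exact LinearMap.congr_fun e x

private lemma F_tt (A : DG k) (φ : A.V →ₗ[k] k) (x : A.V) : φ (A.sg (A.sg x)) = φ x := by
  rw [A.sg_sg]

private lemma F_tb (A : DG k) (φ : A.V →ₗ[k] k) (x : A.V) :
    φ (A.d (A.sg x)) = -φ (A.sg (A.d x)) := by
  rw [A.sg_d, map_neg, neg_neg]

private lemma F_bb (A : DG k) (φ : A.V →ₗ[k] k) (x : A.V) : φ (A.d (A.d x)) = 0 := by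
  rw [A.dd, map_zero]

private lemma F_ds (φ : Ch k K ⊗[k] Ch k K →ₗ[k] k) (i : ℕ) (z : Ch k K ⊗[k] Ch k K)
    (hz : z ∈ tgr (gr k K) (gr k K) i) : φ (tS k K z) = (-1 : k) ^ i * φ z := by
  rw [TOK_sg i z hz, map_smul, smul_eq_mul]

private lemma F_dz (φ : Ch k K ⊗[k] Ch k K →ₗ[k] k) (i : ℕ) (z : Ch k K ⊗[k] Ch k K)
    (hz : z ∈ tgr (gr k K) (gr k K) i) (h : φ z = 0) : φ (tS k K z) = 0 := by
  rw [F_ds φ i z hz, h, mul_zero]

private lemma F_dc (φ : Ch k K ⊗[k] Ch k K →ₗ[k] k) (c : k) (i : ℕ) (z : Ch k K ⊗[k] Ch k K)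
    (hz : z ∈ tgr (gr k K) (gr k K) i) (h : φ z = 0 ∨ c = (-1 : k) ^ i) :
    φ (tS k K z) = c * φ z := by
  rcases h with h | h
  · rw [F_ds φ i z hz, h, mul_zero, mul_zero]
  · rw [F_ds φ i z hz, h]

private lemma F_db0 (φ : Ch k K ⊗[k] Ch k K →ₗ[k] k) (z : Ch k K ⊗[k] Ch k K)
    (hz : z ∈ tgr (gr k K) (gr k K) 0) : φ (tD k K z) = 0 := by
  rw [TOK_d0 z hz, map_zero]

private lemma F_gg {G : Type} [CommGroup G] {E : Type} [TopologicalSpace E]
    (act : G → C(E, E)) (hact : ∀ a b, act (a * b) = (act a).comp (act b)) (h h' : G × G)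
    (φ : Ch k (Sing E) ⊗[k] Ch k (Sing E) →ₗ[k] k) (x : Ch k (Sing E) ⊗[k] Ch k (Sing E)) :
    φ (TOKM k act h' (TOKM k act h x)) = φ (TOKM k act h (TOKM k act h' x)) := by
  rw [TOKM_mul act hact, TOKM_mul act hact, mul_comm]

private lemma F_gp {G : Type} [CommGroup G] {E : Type} [TopologicalSpace E]
    (act : G → C(E, E)) (hact : ∀ a b, act (a * b) = (act a).comp (act b)) (a : G × G) (n : ℕ)
    (φ : Ch k (Sing E) ⊗[k] Ch k (Sing E) →ₗ[k] k) (x : Ch k (Sing E) ⊗[k] Ch k (Sing E)) :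
    φ (TOKM k act a (TOKM k act (a ^ n) x)) = φ (TOKM k act (a ^ (n + 1)) x) := by
  rw [TOKM_mul act hact, pow_succ']

private lemma F_g1 {G : Type} [CommGroup G] {E : Type} [TopologicalSpace E]
    (act : G → C(E, E)) (hact1 : act 1 = ContinuousMap.id E) (a : G × G) (ha : a = 1)
    (φ : Ch k (Sing E) ⊗[k] Ch k (Sing E) →ₗ[k] k) (x : Ch k (Sing E) ⊗[k] Ch k (Sing E)) :
    φ (TOKM k act a x) = φ x := by
  rw [ha, TOKM_one act hact1]

end Aux

theorem sTOK : S_TOK := by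
  intro G _ E _ act hact1 hact
  refine ⟨⟨?_, ?_, ?_, ?_, ?_, ?_⟩, ⟨?_, ?_, ?_, ?_, ?_⟩, ?_⟩
  · intro φ
    refine LinearMap.ext fun x => ?_
    exact F_tt ((cz (Sing E)).tens (cz (Sing E))) (v2 φ) x
  · intro φ
    refine LinearMap.ext fun x => ?_
    exact F_tb ((cz (Sing E)).tens (cz (Sing E))) (v2 φ) x
  · intro φ
    refine LinearMap.ext fun x => ?_
    exact F_bb ((cz (Sing E)).tens (cz (Sing E))) (v2 φ) x
  · intro h φ
    refine LinearMap.ext fun x => ?_
    exact congrArg (v2 φ) (TOKM_sg act h x).symm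
  · intro h φ
    refine LinearMap.ext fun x => ?_
    exact congrArg (v2 φ) (TOKM_d act h x).symm
  · intro h h' φ
    refine LinearMap.ext fun x => ?_
    exact F_gg act hact h h' (v2 φ) x
  · intro d hd φ hφ
    exact TOK_ext (f := v2 φ) (g := 0) fun n z hz => hφ n (by omega) z hz
  · intro d φ hφ i hi z hz
    exact F_dz (v2 φ) i z hz (hφ i hi z hz)
  · intro d φ hφ
    refine TOK_ext (f := v2 ((f2 act).tw φ)) (g := v2 ((d.negOnePow : ℤ) • φ)) fun n z hz => ?_
    refine F_dc (v2 φ) (d.negOnePow : ℤ) n z hz ?_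
    by_cases h : (n : ℤ) = d
    · right
      rw [← h, Int.coe_negOnePow_natCast]
    · exact Or.inl (hφ n h z hz)
  · intro d φ hφ i hi z hz
    cases i with
    | zero => exact F_db0 (v2 φ) z hz
    | succ i => exact hφ i (fun h => hi (by push_cast; omega)) _ (TOK_d i z hz)
  · intro h d φ hφ i hi z hz
    exact hφ i hi _ (TOKM_g act h i z hz)
  · intro a k hk
    have hp : ∀ (k : ℕ) (φ : (f2 act).Φ) (x : Ch ℤ (Sing E) ⊗[ℤ] Ch ℤ (Sing E)),
        v2 (((f2 act).g a ^ k) φ) x = v2 φ (TOKM ℤ act (a ^ k) x) := by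
      intro k
      induction k with
      | zero =>
        intro φ x
        rw [pow_zero]
        exact (F_g1 act hact1 (a ^ 0) (pow_zero a) (v2 φ) x).symm
      | succ k ih =>
        intro φ x
        rw [pow_succ]
        exact (ih ((f2 act).g a φ) x).trans (F_gp act hact a k (v2 φ) x)
    refine AddMonoidHom.ext fun φ => LinearMap.ext fun x => ?_
    exact (hp k φ x).trans (F_g1 act hact1 (a ^ k) hk (v2 φ) x)

end HVx
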