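import Pool.Agent.Lib.MP_181146_gt.HV.SpecV

set_option autoImplicit false

/-!
# Project HV, module TRFc: trace one operators act componentwise on the product with a circle
-/

namespace HVx

open HEp HPx HRx HTx

private theorem TRFc_sum {Φ : Type} [AddCommGroup Φ] (s : Finset ℕ) (f : ℕ → AddMonoid.End Φ)
    (x : Φ) : (∑ i ∈ s, f i) x = ∑ i ∈ s, f i x := by
  classical
  induction s using Finset.induction_on with
  | empty => rfl
  | insert a s ha ih =>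
    rw [Finset.sum_insert ha, Finset.sum_insert ha, ← ih]
    rfl

private theorem TRFc_comp {ι : Type} (F : FC ι) (Q : ℕ) [NeZero Q] (ρ : ι → ZMod Q)
    (s : Finset ℕ) (ψ : ℕ → (F.fc Q ρ).Φ) (j : ℕ) (c : ZMod Q) :
    (∑ i ∈ s, ψ i).1 j c = ∑ i ∈ s, (ψ i).1 j c ∧
    (∑ i ∈ s, ψ i).2 j c = ∑ i ∈ s, (ψ i).2 j c := by
  classical
  induction s using Finset.induction_on with
  | empty => exact ⟨rfl, rfl⟩
  | insert a s ha ih =>
    rw [Finset.sum_insert ha, Finset.sum_insert ha, Finset.sum_insert ha, ← ih.1, ← ih.2]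
    exact ⟨rfl, rfl⟩

private theorem TRFc_pow {ι : Type} (F : FC ι) (Q : ℕ) [NeZero Q] (ρ : ι → ZMod Q) (h : ι)
    (a : ℕ) (φ : (F.fc Q ρ).Φ) : ∀ (j : ℕ) (c : ZMod Q),
    (((F.fc Q ρ).g h ^ a) φ).1 j c = (F.g h ^ a) (φ.1 j (c + a * ρ h)) ∧
    (((F.fc Q ρ).g h ^ a) φ).2 j c = (F.g h ^ a) (φ.2 j (c + a * ρ h)) := by
  induction a with
  | zero =>
    intro j c
    rw [pow_zero, pow_zero, Nat.cast_zero, zero_mul, add_zero]
    exact ⟨rfl, rfl⟩
  | succ a ih =>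
    intro j c
    have e : c + ((a + 1 : ℕ) : ZMod Q) * ρ h = c + ρ h + a * ρ h := by
      push_cast
      ring
    rw [pow_succ', pow_succ', e]
    constructor
    · change F.g h ((((F.fc Q ρ).g h ^ a) φ).1 j (c + ρ h)) = F.g h ((F.g h ^ a) _)
      rw [(ih j (c + ρ h)).1]
    · change F.g h ((((F.fc Q ρ).g h ^ a) φ).2 j (c + ρ h)) = F.g h ((F.g h ^ a) _)
      rw [(ih j (c + ρ h)).2]

theorem sTRFc : S_TRFc := by
  intro ι F D Q _ ρ γ k r hρ hT t ht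
  obtain ⟨E, hE1, hE2, hE3, hE4⟩ := hT t ht
  let E' : AddMonoid.End (F.fc Q ρ).Φ := pc Q E
  have e1 : ∀ (φ : (F.fc Q ρ).Φ) (j : ℕ) (c : ZMod Q), (E' φ).1 j c = E (φ.1 j c) ∧
      (E' φ).2 j c = E (φ.2 j c) := fun φ j c => ⟨rfl, rfl⟩
  refine ⟨E', ?_, ?_, ?_, ?_⟩
  · intro d φ hφ j c
    exact ⟨hE1 _ _ (hφ j c).1, hE1 _ _ (hφ j c).2⟩
  · intro s hs hst φ
    refine Prod.ext ?_ ?_
    · funext j c
      exact hE2 s hs hst _
    · funext j c
      exact hE2 s hs hst _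
  · intro φ
    refine Prod.ext ?_ ?_
    · funext j c
      exact hE3 _
    · funext j c
      change E (-(F.tw (φ.2 j c))) = -(F.tw (E (φ.2 j c)))
      rw [map_neg, hE3]
  · have key : ∀ (i : ℕ), i ∈ Finset.range (k t) → ∀ (φ : (F.fc Q ρ).Φ) (j : ℕ) (c : ZMod Q),
        (((F.fc Q ρ).g (γ t) ^ i * E' * (F.fc Q ρ).g (γ t) ^ (k t - i)) φ).1 j c =
          (F.g (γ t) ^ i * E * F.g (γ t) ^ (k t - i)) (φ.1 j c) ∧
        (((F.fc Q ρ).g (γ t) ^ i * E' * (F.fc Q ρ).g (γ t) ^ (k t - i)) φ).2 j c =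
          (F.g (γ t) ^ i * E * F.g (γ t) ^ (k t - i)) (φ.2 j c) := by
      intro i hi φ j c
      have hi' := (Finset.mem_range.1 hi).le
      have e2 : c + i * ρ (γ t) + ((k t - i : ℕ) : ZMod Q) * ρ (γ t) = c := by
        rw [Nat.cast_sub hi']
        have h := hρ t ht
        linear_combination h
      constructor
      · change (((F.fc Q ρ).g (γ t) ^ i) (E' (((F.fc Q ρ).g (γ t) ^ (k t - i)) φ))).1 j c =
          (F.g (γ t) ^ i) (E ((F.g (γ t) ^ (k t - i)) (φ.1 j c)))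
        rw [(TRFc_pow F Q ρ (γ t) i _ j c).1, (e1 _ _ _).1,
          (TRFc_pow F Q ρ (γ t) (k t - i) φ j _).1, e2]
      · change (((F.fc Q ρ).g (γ t) ^ i) (E' (((F.fc Q ρ).g (γ t) ^ (k t - i)) φ))).2 j c =
          (F.g (γ t) ^ i) (E ((F.g (γ t) ^ (k t - i)) (φ.2 j c)))
        rw [(TRFc_pow F Q ρ (γ t) i _ j c).2, (e1 _ _ _).2,
          (TRFc_pow F Q ρ (γ t) (k t - i) φ j _).2, e2]
    ext φ
    rw [TRFc_sum]
    have hs : ∀ x : F.Φ, ∑ i ∈ Finset.range (k t),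
        (F.g (γ t) ^ i * E * F.g (γ t) ^ (k t - i)) x = x := by
      intro x
      rw [← TRFc_sum, hE4]
      rfl
    refine Prod.ext ?_ ?_
    · funext j c
      exact (TRFc_comp F Q ρ _ _ j c).1.trans
        ((Finset.sum_congr rfl fun i hi => (key i hi φ j c).1).trans (hs _))
    · funext j c
      exact (TRFc_comp F Q ρ _ _ j c).2.trans
        ((Finset.sum_congr rfl fun i hi => (key i hi φ j c).2).trans (hs _))

end HVx
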