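import Pool.Agent.Lib.MP_181146_gt.HV.SpecV
import Pool.Agent.Lib.MP_181146_gt.HE.NabG
import Pool.Agent.Lib.MP_181146_gt.HX.DefsX

/-!
# Project HV, module TZt: primitivity
-/

set_option autoImplicit false

noncomputable section

namespace HVx

open scoped TensorProduct
open HEp HPx HRx HTx

private lemma tz_ext {K : SS} {f g : Ch ℤ K ⊗[ℤ] Ch ℤ K →ₗ[ℤ] ℤ}
    (h : ∀ (p q : ℕ) (x : K.K p) (y : K.K q), f (sx ℤ x ⊗ₜ sx ℤ y) = g (sx ℤ x ⊗ₜ sx ℤ y)) :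
    f = g := by
  apply TensorProduct.ext
  apply ch_ext
  intro p x
  apply ch_ext
  intro q y
  exact h p q x y

private lemma tz_aug {K : SS} {m : ℕ} {x : Ch ℤ K} (hx : x ∈ gr ℤ K (m + 1)) : aug ℤ K x = 0 :=
  HXx.gr_eq (f := aug ℤ K) (g := 0) (fun σ => aug_sx_succ ℤ σ) hx

/-- Linear maps which respect the degrees of tensors respect the degrees. -/
private lemma tz_gr {K : SS} {A : Ch ℤ K ⊗[ℤ] Ch ℤ K →ₗ[ℤ] Ch ℤ K}
    (hA : ∀ i j, ∀ x ∈ gr ℤ K i, ∀ y ∈ gr ℤ K j, A (x ⊗ₜ y) ∈ gr ℤ K (i + j)) (n : ℕ)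
    (z : Ch ℤ K ⊗[ℤ] Ch ℤ K) (hz : z ∈ tgr (gr ℤ K) (gr ℤ K) n) : A z ∈ gr ℤ K n := by
  induction hz using Submodule.span_induction with
  | mem z hz =>
    obtain ⟨i, j, x, y, hij, hx, hy, rfl⟩ := hz
    rw [← hij]
    exact hA i j x hx y hy
  | zero =>
    rw [map_zero]
    exact Submodule.zero_mem _
  | add a b _ _ ha hb =>
    rw [map_add]
    exact Submodule.add_mem _ ha hb
  | smul c a _ ha =>
    rw [map_smul]
    exact Submodule.smul_mem _ _ ha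

private lemma tz_q1 {K : SS} (i j : ℕ) (x : Ch ℤ K) (hx : x ∈ gr ℤ K i) (y : Ch ℤ K)
    (hy : y ∈ gr ℤ K j) : q1 K (x ⊗ₜ y) ∈ gr ℤ K (i + j) := by
  have h : q1 K (x ⊗ₜ y) = aug ℤ K y • x := by
    change TensorProduct.rid ℤ (Ch ℤ K) (TensorProduct.map LinearMap.id (aug ℤ K) (x ⊗ₜ y)) = _
    rw [TensorProduct.map_tmul, TensorProduct.rid_tmul, LinearMap.id_apply]
  rw [h]
  cases j with
  | zero => exact Submodule.smul_mem _ _ hx
  | succ j =>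
    rw [tz_aug hy, zero_smul]
    exact Submodule.zero_mem _

private lemma tz_q2 {K : SS} (i j : ℕ) (x : Ch ℤ K) (hx : x ∈ gr ℤ K i) (y : Ch ℤ K)
    (hy : y ∈ gr ℤ K j) : q2 K (x ⊗ₜ y) ∈ gr ℤ K (i + j) := by
  have h : q2 K (x ⊗ₜ y) = aug ℤ K x • y := by
    change TensorProduct.lid ℤ (Ch ℤ K) (TensorProduct.map (aug ℤ K) LinearMap.id (x ⊗ₜ y)) = _
    rw [TensorProduct.map_tmul, TensorProduct.lid_tmul, LinearMap.id_apply]
  rw [h]
  cases i with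
  | zero =>
    rw [zero_add]
    exact Submodule.smul_mem _ _ hy
  | succ i =>
    rw [tz_aug hx, zero_smul]
    exact Submodule.zero_mem _

/-- `pX Λ φ` for `φ` of degree `n`. -/
private lemma tz_pX {G : Type} [CommGroup G] {X : AX G} {E : Type} [TopologicalSpace E]
    {act : G → C(E, E)} (Λ : Lk X E act) (n : ℕ) (φ : (fX X).Φ) (hφ : φ ∈ dX X n)
    (c : Ch ℤ (Sing E)) : pX Λ φ c = φ n (Λ.f' n c) := by
  induction c using Finsupp.induction_linear with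
  | zero => rw [map_zero, map_zero, map_zero]
  | add a b ha hb => rw [map_add, map_add, map_add, ha, hb]
  | single x r =>
    have h1 : pX Λ φ (Finsupp.single x r) = r • φ x.1 (Λ.f' x.1 (Finsupp.single x 1)) :=
      Finsupp.linearCombination_single _ _ _
    have h2 : (Finsupp.single x r : Ch ℤ (Sing E)) = r • Finsupp.single x 1 := by
      rw [Finsupp.smul_single, smul_eq_mul, mul_one]
    rw [h1, h2, map_zsmul, map_zsmul]
    by_cases h : x.1 = n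
    · rw [h]
    · have h3 : φ x.1 = 0 := hφ x.1 (fun e => h (by exact_mod_cast e))
      have h4 : Λ.f' n (Finsupp.single x 1) = 0 :=
        Λ.f'_gr x.1 n (Ne.symm h) _ (Finsupp.single_mem_supported ℤ 1 rfl)
      rw [h3, h4, map_zero]
      rfl

theorem sTZt (h1 : HPx.S_Zet) (h2 : S_TSc) (_h3 : S_TOK) : S_TZt := by
  intro e he G _ X E _ act Λ v m hA hB n hn hE φ hφ hb
  obtain ⟨S, hS1, hS2, hS3⟩ := h2 E (vtx v) n hn hE
  obtain ⟨q, rfl⟩ : ∃ q, n = q + 1 := ⟨n - 1, by omega⟩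
  have hmu : ∀ i, ∀ z ∈ tgr (gr ℤ (Sing E)) (gr ℤ (Sing E)) i,
      mu ℤ e (SingMul m) z ∈ gr ℤ (Sing E) i := fun i z hz =>
    tz_gr (fun a b x hx y hy => HXx.cmap_gr (SingMul m) ((sNabG e he ℤ _ _).1 a b x hx y hy)) i z hz
  have hq1 : ∀ i, ∀ z ∈ tgr (gr ℤ (Sing E)) (gr ℤ (Sing E)) i, q1 (Sing E) z ∈ gr ℤ (Sing E) i :=
    fun i z hz => tz_gr tz_q1 i z hz
  have hq2 : ∀ i, ∀ z ∈ tgr (gr ℤ (Sing E)) (gr ℤ (Sing E)) i, q2 (Sing E) z ∈ gr ℤ (Sing E) i :=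
    fun i z hz => tz_gr tz_q2 i z hz
  set η : (f2 act).Φ := pb2 Λ (mu ℤ e (SingMul m)) φ - pb2 Λ (q1 (Sing E)) φ -
    pb2 Λ (q2 (Sing E)) φ with hη
  have hval : ∀ z, v2 η z = φ (q + 1) (Λ.f' (q + 1) (mu ℤ e (SingMul m) z)) -
      φ (q + 1) (Λ.f' (q + 1) (q1 (Sing E) z)) - φ (q + 1) (Λ.f' (q + 1) (q2 (Sing E) z)) := by
    intro z
    rw [← tz_pX Λ (q + 1) φ hφ, ← tz_pX Λ (q + 1) φ hφ, ← tz_pX Λ (q + 1) φ hφ]
    rfl
  have hη0 : ∀ i, i ≠ q + 1 → ∀ z ∈ tgr (gr ℤ (Sing E)) (gr ℤ (Sing E)) i, v2 η z = 0 := by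
    intro i hi z hz
    rw [hval, Λ.f'_gr i (q + 1) (Ne.symm hi) _ (hmu i z hz),
      Λ.f'_gr i (q + 1) (Ne.symm hi) _ (hq1 i z hz), Λ.f'_gr i (q + 1) (Ne.symm hi) _ (hq2 i z hz),
      map_zero, sub_zero, sub_zero]
  have hcoc : X.Coc (φ (q + 1)) := fun y => by
    have h3 := DFunLike.congr_fun (congrFun hb (q + 1 + 1)) y
    exact h3
  have hcyc : ∀ w ∈ tgr (gr ℤ (Sing E)) (gr ℤ (Sing E)) (q + 1),
      ((cz (Sing E)).tens (cz (Sing E))).d w = 0 → v2 η w = 0 := by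
    intro w hw hDw
    have h3 := h1 e he G X E act Λ v m hA hB q hE (φ (q + 1)) (φ (q + 1)) (φ (q + 1)) hcoc
      (fun _ _ => rfl) (fun _ _ => rfl) w hw hDw
    rw [hval, h3]
    change φ (q + 1) (Λ.f' (q + 1) (p1 w)) + φ (q + 1) (Λ.f' (q + 1) (p2 w)) -
      φ (q + 1) (Λ.f' (q + 1) (p1 w)) - φ (q + 1) (Λ.f' (q + 1) (p2 w)) = 0
    ring
  have hmain : ∀ i, ∀ z ∈ tgr (gr ℤ (Sing E)) (gr ℤ (Sing E)) i,
      v2 η (S (((cz (Sing E)).tens (cz (Sing E))).d z)) = v2 η z := by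
    intro i z hz
    by_cases hi : i = q + 1
    · subst hi
      have hD := HXx.tens_gr hz
      have hSD := hS1 _ _ hD
      have hcy : ((cz (Sing E)).tens (cz (Sing E))).d
          (z - S (((cz (Sing E)).tens (cz (Sing E))).d z)) = 0 := by
        rw [map_sub, sub_eq_zero]
        rcases Nat.eq_zero_or_pos q with hq | hq
        · subst hq
          rw [hS2 _ hD, HXx.augT_d, zero_smul, sub_zero]
        · have h3 := hS3 q hq (Nat.lt_succ_self q) _ hD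
          rw [((cz (Sing E)).tens (cz (Sing E))).dd, map_zero, add_zero] at h3
          exact h3.symm
      have h4 := hcyc _ (Submodule.sub_mem _ hz hSD) hcy
      have h5 : v2 η (z - S (((cz (Sing E)).tens (cz (Sing E))).d z)) =
          v2 η z - v2 η (S (((cz (Sing E)).tens (cz (Sing E))).d z)) := map_sub (v2 η) _ _
      rw [h5] at h4
      exact (sub_eq_zero.1 h4).symm
    · rw [hη0 i hi z hz]
      cases i with
      | zero => rw [HXx.tens_gr0 hz, map_zero, map_zero]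
      | succ i => exact hη0 (i + 1) hi _ (hS1 _ _ (HXx.tens_gr hz))
  refine AddSubgroup.mem_map.2 ⟨(v2 η ∘ₗ S : Ch ℤ (Sing E) ⊗[ℤ] Ch ℤ (Sing E) →ₗ[ℤ] ℤ), ?_, ?_⟩
  · intro i hi z hz
    exact hη0 (i + 1) (fun h => hi (by push_cast; omega)) _ (hS1 i z hz)
  · refine tz_ext (f := v2 ((f2 act).bd _)) (g := v2 η) fun a b x y => ?_
    exact hmain (a + b) _ (Submodule.subset_span
      ⟨a, b, _, _, rfl, sx_mem_gr ℤ x, sx_mem_gr ℤ y, rfl⟩)

end HVx
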