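import Pool.Agent.Lib.MP_181146_gt.HV.SpecV

/-!
# Project HV, module TrM: the truncation and the products with periodic resolutions
-/

set_option autoImplicit false

noncomputable section

namespace HVx

open HEp HPx HRx HTx

section

variable {ι : Type} (F : FC ι) (D : ℤ → AddSubgroup F.Φ) (n : ℤ) (γ : ℕ → ι) (k : ℕ → ℕ)

private theorem TrM_lt (r : ℕ) : ∀ d, d < n → ∀ φ ∈ rDs F γ k D r d,
    φ ∈ rDs F γ k (trD F D n) r d := by
  induction r with
  | zero =>
    intro d hd φ hφ
    change φ ∈ trD F D n d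
    rw [trD, if_pos hd]
    exact hφ
  | succ r ih =>
    intro d hd φ hφ l
    exact ih (d - l) (by omega) (φ l) (hφ l)

private theorem TrM_eq (r : ℕ) : ∀ φ ∈ rDs F γ k D r n, rB F γ k r φ ∈ cob F D n →
    φ ∈ rDs F γ k (trD F D n) r n := by
  induction r with
  | zero =>
    intro φ _ hc
    change φ ∈ trD F D n n
    rw [trD, if_neg (lt_irrefl n), if_pos rfl]
    exact hc
  | succ r ih =>
    intro φ hφ hc l
    rcases Nat.eq_zero_or_pos l with rfl | hl
    · have h0 := hφ 0
      have e : n - ((0 : ℕ) : ℤ) = n := by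
        rw [Nat.cast_zero, sub_zero]
      rw [e] at h0 ⊢
      exact ih (φ 0) h0 hc
    · exact TrM_lt F D n γ k r (n - l) (by omega) (φ l) (hφ l)

private theorem TrM_le (h : ∀ d, trD F D n d ≤ D d) (r : ℕ) :
    ∀ d, rDs F γ k (trD F D n) r d ≤ rDs F γ k D r d := by
  induction r with
  | zero => exact h
  | succ r ih =>
    intro d φ hφ l
    exact ih (d - l) (hφ l)

end

/-- **TrM.** -/
theorem sTrM : S_TrM := by
  intro ι F D n γ k r
  exact ⟨TrM_lt F D n γ k r, TrM_eq F D n γ k r, fun h => TrM_le F D n γ k h r⟩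

end HVx
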