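import Pool.Agent.Lib.MP_181146_gt.HV.SpecV

/-!
# Project HV: TrOK (the truncation)
-/

set_option autoImplicit false

noncomputable section

namespace HVx

open HEp HPx HRx HTx

section

variable {ι : Type} {F : FC ι} {D : ℤ → AddSubgroup F.Φ} {n : ℤ} {ε : F.Φ}

private lemma TrOK_lt {d : ℤ} (h : d < n) : trD F D n d = D d := by
  unfold trD
  rw [if_pos h]

private lemma TrOK_eq : trD F D n n = cob F D n := by
  unfold trD
  rw [if_neg (lt_irrefl n), if_pos rfl]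

private lemma TrOK_gt {d : ℤ} (h : n < d) : trD F D n d = ⊥ := by
  unfold trD
  rw [if_neg (not_lt.2 h.le), if_neg h.ne']

private lemma TrOK_cob {φ : F.Φ} : φ ∈ cob F D n ↔ ∃ ψ ∈ D (n - 1), F.bd ψ = φ := Iff.rfl

private lemma TrOK_zD0 (a : ℤ) : a ∈ zD 0 := by
  unfold zD
  rw [if_pos rfl]
  exact AddSubgroup.mem_top a

private lemma TrOK_zD {d : ℤ} (h : d ≠ 0) {a : ℤ} (ha : a ∈ zD d) : a = 0 := by
  unfold zD at ha
  rw [if_neg h] at ha
  exact (AddSubgroup.mem_bot).1 ha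

private lemma TrOK_zc : zc.OK where
  tt _ := rfl
  tb _ := (neg_zero (G := ℤ)).symm
  bb _ := rfl
  gt _ _ := rfl
  gb _ _ := rfl
  gg _ _ _ := rfl

private lemma TrOK_zcD : DOK zc zD where
  neg d hd φ hφ := TrOK_zD hd.ne hφ
  Dt d φ hφ := hφ
  Ds d φ hφ := by
    change (φ : ℤ) = (d.negOnePow : ℤ) • (φ : ℤ)
    by_cases h : d = 0
    · subst h
      rw [Int.negOnePow_zero, Units.val_one, one_smul]
    · have h1 : (φ : ℤ) = 0 := TrOK_zD h hφ
      rw [h1, smul_zero]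
  Db d φ hφ := (zD (d + 1)).zero_mem
  Dg i d φ hφ := hφ

private lemma TrOK_le (hD : DOK F D) (d : ℤ) : trD F D n d ≤ D d := by
  rcases lt_trichotomy d n with h | h | h
  · rw [TrOK_lt h]
  · subst h
    rw [TrOK_eq]
    intro φ hφ
    obtain ⟨ψ, hψ, rfl⟩ := TrOK_cob.1 hφ
    have h1 := hD.Db _ ψ hψ
    rw [sub_add_cancel] at h1
    exact h1
  · rw [TrOK_gt h]
    exact bot_le

private lemma TrOK_D (hF : F.OK) (hD : DOK F D) (hn : 0 < n) : DOK F (trD F D n) where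
  neg d hd φ hφ := by
    rw [TrOK_lt (hd.trans hn)] at hφ
    exact hD.neg d hd φ hφ
  Dt d φ hφ := by
    rcases lt_trichotomy d n with h | h | h
    · rw [TrOK_lt h] at hφ ⊢
      exact hD.Dt d φ hφ
    · subst h
      rw [TrOK_eq] at hφ ⊢
      obtain ⟨ψ, hψ, rfl⟩ := TrOK_cob.1 hφ
      refine TrOK_cob.2 ⟨-F.tw ψ, (D _).neg_mem (hD.Dt _ ψ hψ), ?_⟩
      rw [map_neg, hF.tb]
    · rw [TrOK_gt h] at hφ ⊢
      rw [(AddSubgroup.mem_bot).1 hφ, map_zero]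
      exact (⊥ : AddSubgroup F.Φ).zero_mem
  Ds d φ hφ := hD.Ds d φ (TrOK_le hD d hφ)
  Db d φ hφ := by
    rcases lt_trichotomy d n with h | h | h
    · rw [TrOK_lt h] at hφ
      rcases (Int.add_one_le_iff.2 h).lt_or_eq with h1 | h1
      · rw [TrOK_lt h1]
        exact hD.Db d φ hφ
      · rw [h1, TrOK_eq]
        refine TrOK_cob.2 ⟨φ, ?_, rfl⟩
        have h2 : n - 1 = d := by omega
        rw [h2]
        exact hφ
    · subst h
      rw [TrOK_eq] at hφ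
      obtain ⟨ψ, hψ, rfl⟩ := TrOK_cob.1 hφ
      rw [hF.bb]
      exact (trD F D d (d + 1)).zero_mem
    · rw [TrOK_gt h] at hφ
      rw [(AddSubgroup.mem_bot).1 hφ, map_zero]
      exact (trD F D n (d + 1)).zero_mem
  Dg i d φ hφ := by
    rcases lt_trichotomy d n with h | h | h
    · rw [TrOK_lt h] at hφ ⊢
      exact hD.Dg i d φ hφ
    · subst h
      rw [TrOK_eq] at hφ ⊢
      obtain ⟨ψ, hψ, rfl⟩ := TrOK_cob.1 hφ
      exact TrOK_cob.2 ⟨F.g i ψ, hD.Dg i _ ψ hψ, (hF.gb i ψ).symm⟩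
    · rw [TrOK_gt h] at hφ ⊢
      rw [(AddSubgroup.mem_bot).1 hφ, map_zero]
      exact (⊥ : AddSubgroup F.Φ).zero_mem

private lemma TrOK_Mp (hD : DOK F D) (hε : F.bd ε = 0) (h0 : ε ∈ D 0)
    {D' : ℤ → AddSubgroup F.Φ} (h0' : ε ∈ D' 0) : Mp zc F zD D' (em ε) := by
  have h1 : F.tw ε = ε := by
    rw [hD.Ds 0 ε h0, Int.negOnePow_zero, Units.val_one, one_smul]
  have ht : ∀ j : ℤ, j • ε = F.tw (j • ε) := fun j => by rw [map_zsmul, h1]
  have hb : ∀ j : ℤ, (0 : ℤ) • ε = F.bd (j • ε) := fun j => by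
    rw [map_zsmul, hε, zero_smul, smul_zero]
  have hd : ∀ d : ℤ, ∀ j ∈ zD d, j • ε ∈ D' d := fun d j hj => by
    by_cases h : d = 0
    · subst h
      exact (D' 0).zsmul_mem h0' _
    · rw [TrOK_zD h hj, zero_smul]
      exact (D' d).zero_mem
  exact ⟨ht, hb, hd⟩

private lemma TrOK_Cn1 (hD : DOK F D) (hn : 0 < n) (hA : Acy F D n ε) (d a : ℤ)
    (ha : a ∈ zD (d + 1)) (φ : F.Φ) (hφ : φ ∈ trD F D n d) (hb : F.bd φ = a • ε) :
    ∃ a' ∈ zD d, ∃ φ' ∈ trD F D n (d - 1), (0 : ℤ) = a ∧ φ = a' • ε + F.bd φ' := by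
  have key : φ = 0 → a = 0 → ∃ a' ∈ zD d, ∃ φ' ∈ trD F D n (d - 1), (0 : ℤ) = a ∧
      φ = a' • ε + F.bd φ' := fun h h' =>
    ⟨0, (zD d).zero_mem, 0, (trD F D n (d - 1)).zero_mem, h'.symm, by
      rw [h, zero_smul, map_zero, add_zero]⟩
  by_cases h1 : d + 1 = 0
  · have hd : d < 0 := by omega
    have hφ0 : φ = 0 := by
      rw [TrOK_lt (hd.trans hn)] at hφ
      exact hD.neg d hd φ hφ
    refine key hφ0 ?_
    rw [hφ0, map_zero] at hb
    exact hA.inj a hb.symm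
  · have ha0 : a = 0 := TrOK_zD h1 ha
    have hb0 : F.bd φ = 0 := by
      rw [hb, ha0, zero_smul]
    rcases lt_trichotomy d n with h | h | h
    · rw [TrOK_lt h] at hφ
      rcases lt_trichotomy d 0 with h2 | h2 | h2
      · exact key (hD.neg d h2 φ hφ) ha0
      · subst h2
        obtain ⟨j, hj⟩ := hA.H0 φ hφ hb0
        refine ⟨j, TrOK_zD0 j, 0, (trD F D n (0 - 1)).zero_mem, ha0.symm, ?_⟩
        rw [map_zero, add_zero]
        exact hj
      · obtain ⟨φ', hφ', e⟩ := hA.Hd d h2 h φ hφ hb0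
        refine ⟨0, (zD d).zero_mem, φ', ?_, ha0.symm, ?_⟩
        · rw [TrOK_lt (by omega)]
          exact hφ'
        · rw [zero_smul, zero_add]
          exact e
    · subst h
      rw [TrOK_eq] at hφ
      obtain ⟨ψ, hψ, e⟩ := TrOK_cob.1 hφ
      refine ⟨0, (zD d).zero_mem, ψ, ?_, ha0.symm, ?_⟩
      · rw [TrOK_lt (by omega)]
        exact hψ
      · rw [zero_smul, zero_add]
        exact e.symm
    · rw [TrOK_gt h] at hφ
      exact key ((AddSubgroup.mem_bot).1 hφ) ha0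

private lemma TrOK_Cn (hD : DOK F D) (hn : 0 < n) (hA : Acy F D n ε) :
    Cn zc F zD (trD F D n) (em ε) := fun d a ha φ hφ _ hb =>
  TrOK_Cn1 hD hn hA d a ha φ hφ hb

end

theorem sTrOK : S_TrOK := by
  intro ι F D n ε hF hD hn hA
  refine ⟨TrOK_zc, TrOK_zcD, TrOK_D hF hD hn, TrOK_le hD, TrOK_Mp hD hA.bde hA.deg ?_,
    TrOK_Mp hD hA.bde hA.deg hA.deg, TrOK_Cn hD hn hA, hA.inj⟩
  rw [TrOK_lt hn]
  exact hA.deg

end HVx
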