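import Pool.Agent.Lib.MP_181146_gt.HV.SpecV2

set_option autoImplicit false

/-!
# Project HV, module VF: the final statement of part V
-/

namespace HVx

open HEp HPx HRx HTx

private theorem VF_pX {G : Type} [CommGroup G] {X : AX G} {E : Type} [TopologicalSpace E]
    {act : G → C(E, E)} (Λ : Lk X E act) (φ : (fX X).Φ) (n : ℕ) (y : Ch ℤ (Sing E))
    (hy : y ∈ gr ℤ (Sing E) n) : pX Λ φ y = φ n (Λ.f' n y) := by
  rw [gr, Finsupp.supported_eq_span_single] at hy
  refine Submodule.span_induction (p := fun y _ => pX Λ φ y = φ n (Λ.f' n y)) ?_ ?_ ?_ ?_ hy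
  · rintro _ ⟨⟨m, σ⟩, hm, rfl⟩
    change m = n at hm
    subst hm
    change Finsupp.linearCombination ℤ _ (Finsupp.single (⟨m, σ⟩ : Σ n, (Sing E).K n) (1 : ℤ)) = _
    rw [Finsupp.linearCombination_single, one_smul]
  · rw [map_zero, map_zero, map_zero]
  · intro x y _ _ hx hy
    rw [map_add, map_add, map_add, hx, hy]
  · intro a x _ hx
    rw [map_smul, map_zsmul, map_zsmul, hx]

theorem sVF (h1 : S_VG) (h2 : S_Cv) (h3 : S_Hp) : S_VF := by
  intro e he G _ _ _ E _ _ D X hN Λ m hm hX hE Q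
  obtain ⟨p, hph, hpc, hp⟩ := h3 m hm
  let u : (fX X).Φ := fun i => Q.x.toAddMonoidHom.comp (Λ.f i)
  have hn : ((2 * m - 1 : ℕ) : ℤ) = 2 * m - 1 := by
    rw [Nat.cast_sub (by omega)]
    push_cast
    ring
  have hu : u ∈ dX X (2 * m - 1) := by
    intro i hi
    ext x
    exact Q.x_sup i (fun h => hi (by rw [h, hn])) _ (Λ.f_gr i x)
  have hb : (fX X).bd u = 0 := by
    funext i
    cases i with
    | zero => rfl
    | succ i =>
      ext x
      change Q.x (Λ.f i (X.d i x)) = 0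
      rw [Λ.fd, Q.x_bd]
  obtain ⟨χ, v, hvD, hvg, hvb, hvu⟩ := h1 e he G E D X hN Λ.toLk m hm hX hE u hu hb p hph hp
  obtain ⟨-, c2, c3, c4, c5, c6, c7⟩ := h2 G X E D.act Λ.toLk (Nat.card G) χ (rv m) m
  refine ⟨p, hph, hpc, χ, cv Λ.toLk (Nat.card G) χ (rv m) m v, ?_, c5 v,
    fun h => (c3 h v).symm.trans (congrArg _ (hvg h.1.1)),
    ((c2 v).symm.trans (congrArg _ hvb)).trans (c6 (cf p)), ?_⟩
  · rw [hn]
    exact c4 _ v hvD
  · intro y hy hby
    obtain ⟨ξ, hξ, hξb⟩ := hvu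
    rw [c7 v]
    have e1 : fB (fX X) (Nat.card G) (rot χ) (rv m) m v = u + (fX X).bd ξ :=
      sub_eq_iff_eq_add'.1 hξb.symm
    have e2 : pX Λ.toLk ((fX X).bd ξ) y = 0 := by
      have h := (h2 G X E D.act Λ.toLk (Nat.card G) χ (rv m) 0).2.1 ξ
      have h' : pX Λ.toLk ((fX X).bd ξ) y = pX Λ.toLk ξ (bd ℤ (Sing E) y) :=
        LinearMap.congr_fun h y
      rw [h', hby, map_zero]
    have e3 : pX Λ.toLk u y = Q.x y := by
      rw [VF_pX Λ.toLk u _ y hy]
      change Q.x (Λ.f _ (Λ.f' _ y)) = Q.x y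
      have h := Λ.ht _ y hy
      rw [hby, map_zero, add_zero, sub_eq_iff_eq_add] at h
      rw [h, map_add, Q.x_bd, zero_add]
    rw [e1, map_add, LinearMap.add_apply, e2, e3, add_zero]

end HVx
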