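import Pool.Agent.Lib.MP_181146_gt.HV.SpecV

/-!
# Project HV: VG, the functional on `X` and the circles for a norm form
-/

set_option autoImplicit false
set_option linter.unusedVariables false

noncomputable section

namespace HVx

open scoped TensorProduct
open HEp HPx HRx HTx

section Grp

variable {G : Type} [CommGroup G]

/-- The rotation numbers are additive. -/
private lemma VG_rot_mul {Q : ℕ} (χ : ℕ → G →* Multiplicative (ZMod Q)) (i : ℕ) (a b : G) :
    rot χ i (a * b) = rot χ i a + rot χ i b := by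
  unfold rot
  rw [map_mul, toAdd_mul]

private lemma VG_rot_one {Q : ℕ} (χ : ℕ → G →* Multiplicative (ZMod Q)) (i : ℕ) :
    rot χ i 1 = 0 := by
  unfold rot
  rw [map_one, toAdd_one]

private lemma VG_rot_pow {Q : ℕ} (χ : ℕ → G →* Multiplicative (ZMod Q)) (i : ℕ) (a : G) (k : ℕ) :
    rot χ i (a ^ k) = (k : ZMod Q) * rot χ i a := by
  unfold rot
  rw [map_pow, toAdd_pow, nsmul_eq_mul]

/-- The operator of the neutral element. -/
private lemma VG_one (F : FC G) (Q : ℕ) [NeZero Q] (χ : ℕ → G →* Multiplicative (ZMod Q))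
    (ix : ℕ → ℕ) (h : ∀ φ, F.g 1 φ = φ) (n : ℕ) :
    ∀ φ, (fcm F Q (rot χ) ix n).g 1 φ = φ := by
  induction n with
  | zero => exact h
  | succ n ih =>
    intro φ
    refine Prod.ext ?_ ?_
    · funext j c
      change (fcm F Q (rot χ) ix n).g 1 (φ.1 j (c + rot χ (ix n) 1)) = φ.1 j c
      rw [ih, VG_rot_one, add_zero]
    · funext j c
      change (fcm F Q (rot χ) ix n).g 1 (φ.2 j (c + rot χ (ix n) 1)) = φ.2 j c
      rw [ih, VG_rot_one, add_zero]

/-- The operator of a product. -/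
private lemma VG_mul (F : FC G) (Q : ℕ) [NeZero Q] (χ : ℕ → G →* Multiplicative (ZMod Q))
    (ix : ℕ → ℕ) (h : ∀ a b φ, F.g (a * b) φ = F.g a (F.g b φ)) (n : ℕ) :
    ∀ a b φ, (fcm F Q (rot χ) ix n).g (a * b) φ =
      (fcm F Q (rot χ) ix n).g a ((fcm F Q (rot χ) ix n).g b φ) := by
  induction n with
  | zero => exact h
  | succ n ih =>
    intro a b φ
    refine Prod.ext ?_ ?_
    · funext j c
      change (fcm F Q (rot χ) ix n).g (a * b) (φ.1 j (c + rot χ (ix n) (a * b))) =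
        (fcm F Q (rot χ) ix n).g a ((fcm F Q (rot χ) ix n).g b
          (φ.1 j (c + rot χ (ix n) a + rot χ (ix n) b)))
      rw [ih, VG_rot_mul, add_assoc]
    · funext j c
      change (fcm F Q (rot χ) ix n).g (a * b) (φ.2 j (c + rot χ (ix n) (a * b))) =
        (fcm F Q (rot χ) ix n).g a ((fcm F Q (rot χ) ix n).g b
          (φ.2 j (c + rot χ (ix n) a + rot χ (ix n) b)))
      rw [ih, VG_rot_mul, add_assoc]

/-- Invariance under all elements. -/
private lemma VG_inv {Φ : Type} (g : G → Φ → Φ) (v : Φ) (h1 : g 1 v = v)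
    (hm : ∀ a b, g (a * b) v = g a (g b v)) (r : ℕ) (γ : ℕ → G) (k : ℕ → ℕ) (hB : Bs G r γ k)
    (hγ : ∀ t, t < r → g (γ t) v = v) (h : G) : g h v = v := by
  let M : Submonoid G :=
    { carrier := {a | g a v = v}
      one_mem' := h1
      mul_mem' := fun {a b} ha hb => by
        change g (a * b) v = v
        rw [hm, show g b v = v from hb, show g a v = v from ha] }
  obtain ⟨a, rfl⟩ := hB.bij.2 h
  have : (∏ t : Fin r, γ t ^ (a t : ℕ)) ∈ M :=
    Submonoid.prod_mem M (fun t _ => M.pow_mem (hγ t t.2) _)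
  exact this

end Grp

theorem sVG (h1 : S_DgX) (h2 : S_Asm) (h3 : S_BsE) (h4 : S_XOK) (h5 : S_XAc) (h6 : S_XTR)
    (h7 : S_Fcm) : S_VG := by
  intro e he G _ _ _ E _ _ D X hN Λ m hm hX hE u hu hb p hph hp
  obtain ⟨r, γ, k, hB, hkG, hχ⟩ := h3 G
  obtain ⟨z, hz, hv⟩ := h1 e he G E D X hN Λ m hm hX hE r γ k hB u hu hb
  obtain ⟨c, hc⟩ := hp r (fun t => k t) (fun t => z t) (fun t => hB.pos t) (fun t => hz t)
  obtain ⟨xOK, xD, xTF, x1, xm, xp⟩ := h4 G X
  have hacy := h5 G X (2 * m - 1) (by omega) hX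
  -- the rotation numbers
  have hs : ∀ (i : Fin m) (t : Fin r),
      ((Nat.card G / k t : ℕ) : ℤ) * c i t * k t = (Nat.card G : ℤ) * c i t := by
    intro i t
    have h8 : ((Nat.card G / k t : ℕ) : ℤ) * (k t : ℤ) = (Nat.card G : ℤ) := by
      rw [← Nat.cast_mul, Nat.div_mul_cancel (hkG t)]
    linear_combination (c i t) * h8
  have hex : ∀ i : Fin m, ∃ χ : G →* Multiplicative (ZMod (Nat.card G)), ∀ t : Fin r,
      Multiplicative.toAdd (χ (γ t)) =
        ((((Nat.card G / k t : ℕ) : ℤ) * c i t : ℤ) : ZMod (Nat.card G)) := by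
    intro i
    obtain ⟨χ, hχ'⟩ := hχ (Nat.card G)
      (fun t => if h : t < r then ((Nat.card G / k t : ℕ) : ℤ) * c i ⟨t, h⟩ else 0) (by
        intro t ht
        rw [dif_pos ht, hs i ⟨t, ht⟩]
        push_cast
        rw [ZMod.natCast_self, zero_mul])
    refine ⟨χ, fun t => ?_⟩
    have h8 := hχ' t t.2
    rw [dif_pos t.2] at h8
    exact h8
  choose χ₀ hχ₀ using hex
  let χ : ℕ → G →* Multiplicative (ZMod (Nat.card G)) :=
    fun i => if h : i < m then χ₀ ⟨i, h⟩ else 1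
  have hχi : ∀ i : Fin m, χ i = χ₀ i := fun i => by
    change (if h : (i : ℕ) < m then χ₀ ⟨i, h⟩ else 1) = χ₀ i
    rw [dif_pos i.2]
  have hρ : ∀ (i : Fin m) (t : Fin r), rot χ i (γ t) =
      ((((Nat.card G / k t : ℕ) : ℤ) * c i t : ℤ) : ZMod (Nat.card G)) := by
    intro i t
    unfold rot
    rw [hχi]
    exact hχ₀ i t
  have hrv : ∀ a, a < m → rv m a < m := by
    intro a ha
    unfold rv
    rw [if_pos ha]
    omega
  have hrv' : ∀ a b, a < m → b < m → rv m a = rv m b → a = b := by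
    intro a b ha hb' hab
    unfold rv at hab
    rw [if_pos ha, if_pos hb'] at hab
    omega
  obtain ⟨v, hvD, hvg, hvb, hvB⟩ := h2 G (fX X) (dX X) (eX X) u (Nat.card G) (rot χ) (rv m) m γ k r
    m z xOK xD xTF hacy.deg hacy.bde hacy.ge (by omega) hrv hrv' hB.pos
    (fun t _ => xp (γ t) (k t) (hB.per t))
    (fun t _ i => by rw [← VG_rot_pow, hB.per t, VG_rot_one]) (h6 G X r γ k hB) hv p c
    (fun i t => ((Nat.card G / k t : ℕ) : ℤ) * c i t) hph hρ hs hc
  refine ⟨χ, v, hvD, fun h => ?_, hvb, hvB⟩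
  exact VG_inv (fun a φ => (fcm (fX X) (Nat.card G) (rot χ) (rv m) m).g a φ) v
    (VG_one (fX X) (Nat.card G) χ (rv m) x1 m v)
    (fun a b => VG_mul (fX X) (Nat.card G) χ (rv m) xm m a b v) r γ k hB hvg h

end HVx
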