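import Pool.Agent.Lib.MP_181146_gt.HV.SpecV

/-!
# Project HV, statement XAc: the functionals on `X` are acyclic in the degrees `0 < d < n`
-/

set_option autoImplicit false

namespace HVx

open HEp HPx HRx HTx

section

variable {G : Type} [CommGroup G] (X : AX G)

private lemma xbd1 (φ : (fX X).Φ) (i : ℕ) (x : X.P (i + 1)) :
    (fX X).bd φ (i + 1) x = φ i (X.d i x) := rfl

private lemma xext {φ ψ : (fX X).Φ} (h : ∀ i x, φ i x = ψ i x) : φ = ψ := by
  funext i
  exact AddMonoidHom.ext (h i)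

private lemma xsm (j : ℤ) (φ : (fX X).Φ) (i : ℕ) (x : X.P i) : (j • φ) i x = j * φ i x := by
  change (j • φ i) x = _
  rw [AddMonoidHom.smul_apply, smul_eq_mul]

private lemma xz {φ : (fX X).Φ} {d : ℤ} (h : φ ∈ dX X d) (i : ℕ) (hi : (i : ℤ) ≠ d) (x : X.P i) :
    φ i x = 0 := by
  have h1 : φ i = 0 := h i hi
  rw [h1]
  rfl

private lemma xmem {φ : (fX X).Φ} {d : ℤ} (h : ∀ i : ℕ, (i : ℤ) ≠ d → ∀ x, φ i x = 0) :
    φ ∈ dX X d := by
  intro i hi
  exact AddMonoidHom.ext (h i hi)

private lemma xcoc {φ : (fX X).Φ} (h : (fX X).bd φ = 0) (i : ℕ) (y : X.P (i + 1)) :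
    φ i (X.d i y) = 0 := by
  rw [← xbd1, h]
  rfl

private lemma e0 (x : X.P 0) : eX X 0 x = X.ε x := rfl

private lemma e1 (i : ℕ) (x : X.P (i + 1)) : eX X (i + 1) x = 0 := rfl

end

theorem sXAc (h1 : HPx.S_CobI) : S_XAc := by
  intro G _ _ X n hn hX
  obtain ⟨-, c2, c3⟩ := h1 G X n hX
  refine ⟨?_, ?_, ?_, ?_, ?_, ?_⟩
  · apply xmem
    intro i hi x
    cases i with
    | zero => exact absurd rfl hi
    | succ i => rfl
  · apply xext
    intro i x
    cases i with
    | zero => rfl
    | succ i =>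
      cases i with
      | zero => exact X.εd x
      | succ i => rfl
  · intro g
    apply xext
    intro i x
    cases i with
    | zero => exact X.εg g x
    | succ i => rfl
  · intro j hj
    obtain ⟨v, hv⟩ := hX.1
    have h2 : (j • eX X) 0 v = 0 := by
      rw [hj]
      rfl
    rw [xsm, e0, hv, mul_one] at h2
    exact h2
  · intro φ hφ hb
    obtain ⟨j, hj⟩ := c3 hn (φ 0) (xcoc X hb 0)
    refine ⟨j, ?_⟩
    apply xext
    intro i x
    rw [xsm]
    cases i with
    | zero => exact hj x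
    | succ i =>
      rw [e1, mul_zero]
      exact xz X hφ _ (by push_cast; omega) x
  · intro d hd0 hdn φ hφ hb
    obtain ⟨i, rfl⟩ : ∃ i : ℕ, d = i + 1 := ⟨(d - 1).toNat, by omega⟩
    obtain ⟨ξ, hξ⟩ := c2 i (by exact_mod_cast hdn) (φ (i + 1)) (xcoc X hb (i + 1))
    refine ⟨(Pi.single i ξ : ∀ i, X.P i →+ ℤ), ?_, ?_⟩
    · apply xmem
      intro l hl x
      have h2 : l ≠ i := by
        rintro rfl
        exact hl (by ring)
      rw [Pi.single_eq_of_ne h2]
      rfl
    · apply xext
      intro l x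
      cases l with
      | zero =>
        rw [xz X hφ 0 (by push_cast; omega)]
        rfl
      | succ l =>
        change φ (l + 1) x = (Pi.single i ξ : ∀ i, X.P i →+ ℤ) l (X.d l x)
        by_cases h2 : l = i
        · subst h2
          rw [Pi.single_eq_same]
          exact hξ x
        · rw [Pi.single_eq_of_ne h2]
          exact xz X hφ _ (by push_cast; omega) x

end HVx
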