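import Pool.Agent.Lib.MP_181146_gt.HV.SpecV

/-!
# Project HV, statement XOK: the functionals on `X`
-/

set_option autoImplicit false

namespace HVx

open HEp HPx HRx HTx

section

variable {G : Type} [CommGroup G] (X : AX G)

private lemma xtw (φ : (fX X).Φ) (i : ℕ) (x : X.P i) :
    (fX X).tw φ i x = (-1 : ℤ) ^ i * φ i x := by
  change ((-1 : ℤ) ^ i • φ i) x = _
  rw [AddMonoidHom.smul_apply, smul_eq_mul]

private lemma xbd0 (φ : (fX X).Φ) (x : X.P 0) : (fX X).bd φ 0 x = 0 := rfl

private lemma xbd1 (φ : (fX X).Φ) (i : ℕ) (x : X.P (i + 1)) :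
    (fX X).bd φ (i + 1) x = φ i (X.d i x) := rfl

private lemma xg (h : G) (φ : (fX X).Φ) (i : ℕ) (x : X.P i) :
    (fX X).g h φ i x = φ i (MonoidAlgebra.of ℤ G h • x) := rfl

private lemma xneg (φ : (fX X).Φ) (i : ℕ) (x : X.P i) : (-φ) i x = -(φ i x) := rfl

private lemma xext {φ ψ : (fX X).Φ} (h : ∀ i x, φ i x = ψ i x) : φ = ψ := by
  funext i
  exact AddMonoidHom.ext (h i)

private lemma xsm (j : ℤ) (φ : (fX X).Φ) (i : ℕ) (x : X.P i) : (j • φ) i x = j * φ i x := by
  change (j • φ i) x = _
  rw [AddMonoidHom.smul_apply, smul_eq_mul]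

private lemma xss (a b : G) {i : ℕ} (x : X.P i) :
    MonoidAlgebra.of ℤ G a • MonoidAlgebra.of ℤ G b • x = MonoidAlgebra.of ℤ G (a * b) • x := by
  rw [smul_smul, ← map_mul]

private lemma xmul (a b : G) (φ : (fX X).Φ) : (fX X).g (a * b) φ = (fX X).g a ((fX X).g b φ) := by
  apply xext
  intro i x
  rw [xg, xg, xg, xss, mul_comm a b]

private lemma xone (φ : (fX X).Φ) : (fX X).g 1 φ = φ := by
  apply xext
  intro i x
  rw [xg, map_one, one_smul]

private lemma xpow (a : G) (k : ℕ) (φ : (fX X).Φ) : ((fX X).g a ^ k) φ = (fX X).g (a ^ k) φ := by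
  induction k generalizing φ with
  | zero =>
    rw [pow_zero, pow_zero, xone]
    rfl
  | succ k ih =>
    rw [pow_succ, pow_succ, xmul, ← ih]
    rfl

private lemma xOK : (fX X).OK where
  tt φ := by
    apply xext
    intro i x
    rw [xtw, xtw, ← mul_assoc, ← mul_pow]
    norm_num
  tb φ := by
    apply xext
    intro i x
    cases i with
    | zero =>
      rw [xtw, xneg, xbd0, xbd0, mul_zero, neg_zero]
    | succ i =>
      rw [xtw, xneg, xbd1, xbd1, xtw, pow_succ]
      ring
  bb φ := by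
    apply xext
    intro i x
    cases i with
    | zero => rfl
    | succ i =>
      cases i with
      | zero => rfl
      | succ i =>
        rw [xbd1, xbd1, X.dd, map_zero]
        rfl
  gt h φ := by
    apply xext
    intro i x
    rw [xg, xtw, xtw, xg]
  gb h φ := by
    apply xext
    intro i x
    cases i with
    | zero => rfl
    | succ i =>
      rw [xg, xbd1, xbd1, xg, map_smul]
  gg a b φ := by
    rw [← xmul, ← xmul, mul_comm]

private lemma xz {φ : (fX X).Φ} {d : ℤ} (h : φ ∈ dX X d) (i : ℕ) (hi : (i : ℤ) ≠ d) (x : X.P i) :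
    φ i x = 0 := by
  have h1 : φ i = 0 := h i hi
  rw [h1]
  rfl

private lemma xmem {φ : (fX X).Φ} {d : ℤ} (h : ∀ i : ℕ, (i : ℤ) ≠ d → ∀ x, φ i x = 0) :
    φ ∈ dX X d := by
  intro i hi
  exact AddMonoidHom.ext (h i hi)

private lemma xDOK : DOK (fX X) (dX X) where
  neg d hd φ hφ := by
    apply xext
    intro i x
    rw [xz X hφ i (by omega) x]
    rfl
  Dt d φ hφ := by
    apply xmem
    intro i hi x
    rw [xtw, xz X hφ i hi x, mul_zero]
  Ds d φ hφ := by
    apply xext
    intro i x
    rw [xtw, xsm]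
    by_cases hi : (i : ℤ) = d
    · subst hi
      congr 1
    · rw [xz X hφ i hi x, mul_zero, mul_zero]
  Db d φ hφ := by
    apply xmem
    intro i hi x
    cases i with
    | zero => rfl
    | succ i =>
      rw [xbd1]
      apply xz X hφ i
      intro h
      apply hi
      push_cast
      rw [h]
  Dg h d φ hφ := by
    apply xmem
    intro i hi x
    rw [xg]
    exact xz X hφ i hi _

end

theorem sXOK : S_XOK := by
  intro G _ X
  refine ⟨xOK X, xDOK X, ?_, xone X, xmul X, ?_⟩
  · intro j φ hj h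
    apply xext
    intro i x
    have h1 : (j • φ) i x = 0 := by
      rw [h]
      rfl
    rw [xsm] at h1
    exact (mul_eq_zero.1 h1).resolve_left hj
  · intro a k h
    apply AddMonoidHom.ext
    intro φ
    exact (xpow X a k φ).trans (by rw [h]; exact xone X φ)

end HVx
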