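import Pool.Agent.Lib.MP_181146_gt.HV.SpecV
import Pool.Agent.Lib.MP_181146_gt.HP.SpecQ

/-!
# Project HV: XPN, `g φ - φ` is a coboundary for a cocycle `φ` of degree `n` on `X`
-/

set_option autoImplicit false

namespace HVx

open scoped TensorProduct
open HEp HPx HRx HTx

theorem sXPN (h1 : HPx.S_CobI) : S_XPN := by
  intro G _ _ X n hn hA hP φ hφ hb g
  obtain ⟨i, rfl⟩ : ∃ i, n = i + 1 := ⟨n - 1, by omega⟩
  have hz : ∀ y, φ (i + 1) (X.d (i + 1) y) = 0 := fun y =>
    DFunLike.congr_fun (congrFun hb (i + 2)) y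
  obtain ⟨h, -, hh⟩ := hP g
  obtain ⟨ξ, hξ⟩ := (h1 G X (i + 1) hA).1 i (Nat.lt_succ_self i)
    ((φ (i + 1)).comp (aX X g (i + 1)) - φ (i + 1)) (fun y hy => by
      change φ (i + 1) (MonoidAlgebra.of ℤ G g • y) - φ (i + 1) y = 0
      rw [← map_sub, ← hh i y, hy, map_zero, add_zero]
      exact hz _)
  refine ⟨(Pi.single i ξ : ∀ i, X.P i →+ ℤ), ?_, ?_⟩
  · intro j hj
    have hj' : j ≠ i := fun h => hj (by rw [h]; push_cast; ring)
    exact Pi.single_eq_of_ne hj' _
  · funext j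
    cases j with
    | zero =>
      have h0 : φ 0 = 0 := hφ 0 (by push_cast; omega)
      change (0 : X.P 0 →+ ℤ) = (φ 0).comp (aX X g 0) - φ 0
      rw [h0, AddMonoidHom.zero_comp, sub_zero]
    | succ j =>
      change ((Pi.single i ξ : ∀ i, X.P i →+ ℤ) j).comp (X.d j).toAddMonoidHom =
        (φ (j + 1)).comp (aX X g (j + 1)) - φ (j + 1)
      by_cases hj : j = i
      · subst hj
        rw [Pi.single_eq_same]
        exact AddMonoidHom.ext fun x => (hξ x).symm
      · have h0 : φ (j + 1) = 0 := hφ (j + 1) (fun h => hj (by push_cast at h; omega))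
        rw [Pi.single_eq_of_ne hj, h0, AddMonoidHom.zero_comp, AddMonoidHom.zero_comp, sub_zero]

end HVx
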