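import Pool.Agent.Lib.MP_181146_gt.HV.SpecV

/-!
# Project HV, statement XTR: trace one operators on the functionals on `X`
-/

set_option autoImplicit false
set_option linter.unusedVariables false

noncomputable section

namespace HVx

open HEp HPx HRx HTx

section Coord

variable {G : Type} [CommGroup G]

/-- The elements with coordinate `0` (number `t`) with respect to a basis. -/
private lemma xtr_coord {r : ℕ} {γ : ℕ → G} {k : ℕ → ℕ} (hB : Bs G r γ k) (t : ℕ) (ht : t < r) :
    ∃ H : G → Prop, (∀ s, s < r → s ≠ t → ∀ x, H (γ s * x) ↔ H x) ∧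
      ∀ x, ∃ a, a < k t ∧ ∀ b, b < k t → (H (γ t ^ b * x) ↔ b = a) := by
  classical
  have hk : ∀ u : ℕ, NeZero (k u) := fun u => ⟨(hB.pos u).ne'⟩
  have hadd : ∀ a b : (∀ u : Fin r, Fin (k u)),
      (∏ u : Fin r, γ u ^ ((a + b) u : ℕ)) =
        (∏ u : Fin r, γ u ^ (a u : ℕ)) * ∏ u : Fin r, γ u ^ (b u : ℕ) := by
    intro a b
    rw [← Finset.prod_mul_distrib]
    refine Finset.prod_congr rfl fun u _ => ?_
    rw [Pi.add_apply, Fin.val_add, ← pow_eq_pow_mod _ (hB.per u), pow_add]
  obtain ⟨c, hc⟩ := hB.bij.2.hasRightInverse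
  have hcm : ∀ x y, c (x * y) = c x + c y := by
    intro x y
    apply hB.bij.1
    rw [hc]
    change x * y = ∏ u : Fin r, γ u ^ ((c x + c y) u : ℕ)
    rw [hadd]
    exact (congrArg₂ (· * ·) (hc x) (hc y)).symm
  have hcg : ∀ s : Fin r, c (γ s) = Pi.single s 1 := by
    intro s
    apply hB.bij.1
    rw [hc]
    change γ s = ∏ u : Fin r, γ u ^ ((Pi.single s 1 : ∀ u : Fin r, Fin (k u)) u : ℕ)
    rw [Finset.prod_eq_single s]
    · rw [Pi.single_eq_same, Fin.val_one', ← pow_eq_pow_mod _ (hB.per s), pow_one]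
    · intro u _ hu
      rw [Pi.single_eq_of_ne hu]
      exact pow_zero _
    · intro h
      exact absurd (Finset.mem_univ _) h
  have hcp : ∀ (b : ℕ) (x : G), (c (γ t ^ b * x) ⟨t, ht⟩ : ℕ) = (b + (c x ⟨t, ht⟩ : ℕ)) % k t := by
    intro b x
    induction b with
    | zero => rw [pow_zero, one_mul, zero_add, Nat.mod_eq_of_lt (c x ⟨t, ht⟩).2]
    | succ b ih =>
      rw [pow_succ', mul_assoc, hcm, Pi.add_apply, Fin.val_add, ih, hcg ⟨t, ht⟩,
        Pi.single_eq_same, Fin.val_one', ← Nat.add_mod, ← add_assoc, add_comm 1 b]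
  refine ⟨fun x => (c x ⟨t, ht⟩ : ℕ) = 0, ?_, ?_⟩
  · intro s hs hst x
    have h0 : c (γ s) ⟨t, ht⟩ = 0 := by
      rw [hcg ⟨s, hs⟩]
      apply Pi.single_eq_of_ne
      intro h
      exact hst (congrArg Fin.val h).symm
    change ((c (γ s * x) ⟨t, ht⟩ : Fin (k t)) : ℕ) = 0 ↔ ((c x ⟨t, ht⟩ : Fin (k t)) : ℕ) = 0
    rw [hcm, Pi.add_apply, h0, zero_add]
  · intro x
    have hv := (c x ⟨t, ht⟩).2
    have hkt := hB.pos t
    change ((c x ⟨t, ht⟩ : ℕ)) < k t at hv
    simp only [hcp]
    generalize ((c x ⟨t, ht⟩ : ℕ)) = v at hv ⊢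
    rcases Nat.eq_zero_or_pos v with h0 | h0
    · refine ⟨0, hkt, fun b hb => ?_⟩
      rw [h0, add_zero, Nat.mod_eq_of_lt hb]
    · refine ⟨k t - v, by omega, fun b hb => ?_⟩
      rcases lt_or_ge (b + v) (k t) with h1 | h1
      · rw [Nat.mod_eq_of_lt h1]
        omega
      · rw [Nat.mod_eq_sub_mod h1, Nat.mod_eq_of_lt (by omega)]
        omega

end Coord

section Trace

variable {G : Type} [CommGroup G]

private lemma xtr_of_mul (g : G) (a : ZG G) :
    (MonoidAlgebra.of ℤ G g * a).coeff 1 = a.coeff g⁻¹ := by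
  rw [MonoidAlgebra.of_apply, MonoidAlgebra.coeff_single_mul_eq_mul_coeff g⁻¹, one_mul]
  intro m _
  exact mul_eq_one_iff_inv_eq.trans eq_comm

variable [Fintype G]

private lemma xtr_dec {A : Type} [AddCommGroup A] (F : ZG G →+ A) (a : ZG G) :
    F a = ∑ g : G, a.coeff g • F (MonoidAlgebra.of ℤ G g) := by
  let L : ZG G →+ A := AddMonoidHom.mk'
    (fun a : ZG G => ∑ g : G, a.coeff g • F (MonoidAlgebra.of ℤ G g)) (by
      intro a b
      rw [← Finset.sum_add_distrib]
      refine Finset.sum_congr rfl fun g _ => ?_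
      rw [← add_smul]
      rfl)
  have h : F = L := by
    apply MonoidAlgebra.addMonoidHom_ext
    intro x m
    change F (MonoidAlgebra.single x m) =
      ∑ g : G, (MonoidAlgebra.single x m : ZG G).coeff g • F (MonoidAlgebra.of ℤ G g)
    rw [Finset.sum_eq_single x]
    · have h1 : (MonoidAlgebra.single x m : ZG G).coeff x = m := by simp
      have h2 : (MonoidAlgebra.single x m : ZG G) = m • MonoidAlgebra.of ℤ G x := by
        rw [MonoidAlgebra.of_apply, MonoidAlgebra.smul_single, smul_eq_mul, mul_one]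
      rw [h1, h2, map_zsmul]
    · intro g _ hg
      have h1 : (MonoidAlgebra.single x m : ZG G).coeff g = 0 := by
        simp [Ne.symm hg]
      rw [h1, zero_smul]
    · intro h
      exact absurd (Finset.mem_univ _) h
  exact DFunLike.congr_fun h a

/-- A trace one operator on a projective module. -/
private lemma xtr_one (P : Type) [AddCommGroup P] [Module (ZG G) P]
    [Module.Projective (ZG G) P] :
    ∃ e : P →+ P, ∀ x, ∑ g : G, MonoidAlgebra.of ℤ G g • e (MonoidAlgebra.of ℤ G g⁻¹ • x) = x := by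
  classical
  obtain ⟨σ, hσ⟩ := (Module.projective_def' (R := ZG G) (P := P)).1 inferInstance
  let th : (P →₀ ZG G) →+ P := Finsupp.liftAddHom (fun m : P =>
    AddMonoidHom.mk' (fun c : ZG G => (c.coeff 1 : ℤ) • m) (fun c c' => by
      rw [← add_smul]
      rfl))
  have hth : ∀ (m : P) (c : ZG G), th (Finsupp.single m c) = (c.coeff 1 : ℤ) • m := by
    intro m c
    exact Finsupp.liftAddHom_apply_single _ _ _
  have key : ∀ f : P →₀ ZG G, ∑ g : G, MonoidAlgebra.of ℤ G g • th (MonoidAlgebra.of ℤ G g⁻¹ • f) =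
      Finsupp.linearCombination (ZG G) id f := by
    intro f
    induction f using Finsupp.induction_linear with
    | zero =>
      simp only [smul_zero, map_zero, Finset.sum_const_zero]
    | add f f' h h' =>
      simp only [smul_add, map_add, Finset.sum_add_distrib]
      rw [h, h']
    | single m c =>
      rw [Finsupp.linearCombination_single, id]
      have h1 := xtr_dec (AddMonoidHom.mk' (fun c : ZG G => c • m) (fun c c' => add_smul c c' m)) c
      refine Eq.trans (Finset.sum_congr rfl fun g _ => ?_) h1.symm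
      rw [Finsupp.smul_single, smul_eq_mul, hth, xtr_of_mul, inv_inv]
      exact (smul_comm _ _ _)
  refine ⟨th.comp σ.toAddMonoidHom, fun x => ?_⟩
  have h := key (σ x)
  rw [show Finsupp.linearCombination (ZG G) id (σ x) = x from LinearMap.congr_fun hσ x] at h
  refine Eq.trans (Finset.sum_congr rfl fun g _ => ?_) h
  exact congrArg (fun z => MonoidAlgebra.of ℤ G g • th z)
    (σ.map_smul (MonoidAlgebra.of ℤ G g⁻¹) x)

end Trace

section Main

variable {G : Type} [CommGroup G] (X : AX G)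

private lemma xtr_aX_apply (g : G) (i : ℕ) (x : X.P i) :
    aX X g i x = MonoidAlgebra.of ℤ G g • x := rfl

private lemma xtr_aX_mul (g h : G) (i : ℕ) (x : X.P i) :
    aX X (g * h) i x = aX X g i (aX X h i x) := by
  rw [xtr_aX_apply, xtr_aX_apply, xtr_aX_apply, map_mul, mul_smul]

private lemma xtr_aX_one (i : ℕ) (x : X.P i) : aX X (1 : G) i x = x := by
  rw [xtr_aX_apply, map_one, one_smul]

private lemma xtr_g_pow (g : G) (a : ℕ) (φ : (fX X).Φ) (i : ℕ) (x : X.P i) :
    (((fX X).g g ^ a) φ : ∀ i, X.P i →+ ℤ) i x = φ i (aX X (g ^ a) i x) := by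
  induction a generalizing φ x with
  | zero =>
    rw [pow_zero, pow_zero, xtr_aX_one]
    rfl
  | succ a ih =>
    rw [pow_succ', pow_succ]
    change (((fX X).g g ^ a) φ : ∀ i, X.P i →+ ℤ) i (aX X g i x) = _
    rw [ih, xtr_aX_mul]

/-- The conjugate `h e h⁻¹`. -/
private def xtr_cj (i : ℕ) (e : X.P i →+ X.P i) (h : G) : X.P i →+ X.P i :=
  (aX X h i).comp (e.comp (aX X h⁻¹ i))

private lemma xtr_cj_mul (i : ℕ) (e : X.P i →+ X.P i) (g h : G) (x : X.P i) :
    xtr_cj X i e (g * h) (aX X g i x) = aX X g i (xtr_cj X i e h x) := by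
  change aX X (g * h) i (e (aX X (g * h)⁻¹ i (aX X g i x))) =
    aX X g i (aX X h i (e (aX X h⁻¹ i x)))
  rw [← xtr_aX_mul, xtr_aX_mul, mul_inv_rev, mul_assoc, inv_mul_cancel, mul_one]

variable [Fintype G]

open Classical in
/-- The sum of the conjugates by the elements of `H`. -/
private def xtr_ee (i : ℕ) (e : X.P i →+ X.P i) (H : G → Prop) : X.P i →+ X.P i :=
  ∑ h : G, if H h then xtr_cj X i e h else 0

private lemma xtr_ee_apply (i : ℕ) (e : X.P i →+ X.P i) (H : G → Prop) [DecidablePred H]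
    (x : X.P i) : xtr_ee X i e H x = ∑ h : G, if H h then xtr_cj X i e h x else 0 := by
  unfold xtr_ee
  rw [AddMonoidHom.finsetSum_apply]
  refine Finset.sum_congr rfl fun h _ => ?_
  by_cases hh : H h
  · rw [if_pos hh, if_pos hh]
  · rw [if_neg hh, if_neg hh]
    rfl

private lemma xtr_ee_g (i : ℕ) (e : X.P i →+ X.P i) (H : G → Prop) (g : G)
    (x : X.P i) : xtr_ee X i e H (aX X g i x) =
      aX X g i (xtr_ee X i e (fun h => H (g * h)) x) := by
  classical
  rw [xtr_ee_apply, xtr_ee_apply, map_sum]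
  rw [← Equiv.sum_comp (Equiv.mulLeft g)]
  refine Finset.sum_congr rfl fun h _ => ?_
  rw [Equiv.coe_mulLeft]
  by_cases hh : H (g * h)
  · rw [if_pos hh, if_pos hh, xtr_cj_mul]
  · rw [if_neg hh, if_neg hh, map_zero]

end Main

theorem sXTR : S_XTR := by
  classical
  intro G _ _ X r γ k hB t ht
  have := Fintype.ofFinite G
  obtain ⟨H, hH1, hH2⟩ := xtr_coord hB t ht
  have he : ∀ i, ∃ e : X.P i →+ X.P i, ∀ x, ∑ g : G, xtr_cj X i e g x = x :=
    fun i => xtr_one (X.P i)
  choose e he using he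
  let E : AddMonoid.End (fX X).Φ := AddMonoidHom.mk' (fun φ i => (φ i).comp (xtr_ee X i (e i) H))
    (fun φ ψ => by
      funext i
      rfl)
  have hE : ∀ (φ : (fX X).Φ) (i : ℕ) (x : X.P i),
      (E φ : ∀ i, X.P i →+ ℤ) i x = φ i (xtr_ee X i (e i) H x) := fun φ i x => rfl
  refine ⟨E, ?_, ?_, ?_, ?_⟩
  · intro d φ hφ i hi
    change (φ i).comp (xtr_ee X i (e i) H) = 0
    rw [hφ i hi]
    rfl
  · intro s hs hst φ
    funext i
    refine AddMonoidHom.ext fun x => ?_
    change φ i (aX X (γ s) i (xtr_ee X i (e i) H x)) = φ i (xtr_ee X i (e i) H (aX X (γ s) i x))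
    rw [xtr_ee_g]
    have h1 : (fun h => H (γ s * h)) = H := funext fun h => propext (hH1 s hs hst h)
    rw [h1]
  · intro φ
    funext i
    refine AddMonoidHom.ext fun x => ?_
    rfl
  · refine AddMonoidHom.ext fun φ => ?_
    funext i
    refine AddMonoidHom.ext fun x => ?_
    let ev : AddMonoid.End (fX X).Φ →+ ℤ := AddMonoidHom.mk'
      (fun F => (F φ : ∀ i, X.P i →+ ℤ) i x) (fun _ _ => rfl)
    change ev (∑ a ∈ Finset.range (k t), (fX X).g (γ t) ^ a * E * (fX X).g (γ t) ^ (k t - a)) =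
      φ i x
    rw [map_sum]
    have hterm : ∀ a ∈ Finset.range (k t),
        ev ((fX X).g (γ t) ^ a * E * (fX X).g (γ t) ^ (k t - a)) =
          φ i (xtr_ee X i (e i) (fun h => H (γ t ^ a * h)) x) := by
      intro a ha
      have ha' := (Finset.mem_range.1 ha).le
      change (((fX X).g (γ t) ^ a) (E (((fX X).g (γ t) ^ (k t - a)) φ)) : ∀ i, X.P i →+ ℤ) i x = _
      rw [xtr_g_pow, hE, xtr_g_pow, xtr_ee_g, ← xtr_aX_mul, ← pow_add, Nat.sub_add_cancel ha',
        hB.per t, xtr_aX_one]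
    rw [Finset.sum_congr rfl hterm, ← map_sum]
    congr 1
    simp only [xtr_ee_apply]
    rw [Finset.sum_comm]
    conv_rhs => rw [← he i x]
    refine Finset.sum_congr rfl fun h _ => ?_
    obtain ⟨a, ha, hab⟩ := hH2 h
    rw [Finset.sum_eq_single a]
    · rw [if_pos ((hab a ha).2 rfl)]
    · intro b hb hba
      rw [if_neg fun hh => hba ((hab b (Finset.mem_range.1 hb)).1 hh)]
    · intro h'
      exact absurd (Finset.mem_range.2 ha) h'

end HVx
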