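import Pool.Agent.Lib.MP_181146_gt.HV.SpecV

/-!
# Project HV (part V), module Yr1: properties of `krz` and `yr`
-/

set_option autoImplicit false

noncomputable section

namespace HVx

open HEp HPx HRx HTx

namespace Yr1Aux

variable {ι : Type}

lemma tau_add_two {Φ : Type} [AddCommGroup Φ] (g : AddMonoid.End Φ) (k l : ℕ) :
    tau g k (l + 2) = tau g k l := by
  unfold tau
  have h : Even (l + 2) ↔ Even l := by
    rw [Nat.even_add]
    simp
  by_cases hl : Even l
  · rw [if_pos hl, if_pos (h.2 hl)]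
  · rw [if_neg hl, if_neg (fun h' => hl (h.1 h'))]

lemma tau_comm {Φ : Type} [AddCommGroup Φ] (g y : AddMonoid.End Φ) (k l : ℕ)
    (h : ∀ φ, g (y φ) = y (g φ)) (φ : Φ) : tau g k l (y φ) = y (tau g k l φ) := by
  have hc : Commute g y := by
    ext φ
    exact h φ
  have hc2 : Commute (tau g k l) y := by
    unfold tau
    split_ifs
    · exact Commute.sum_left _ _ _ fun a _ => hc.pow_left a
    · exact hc.sub_left (Commute.one_left y)
  exact DFunLike.congr_fun hc2.eq φ

variable (F : FC ι) (Y : AddMonoid.End F.Φ) (γ : ℕ → ι) (k : ℕ → ℕ) (N j : ℕ)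

lemma yr_pos {s : ℕ} (h : N + s = j) (φ : ℕ → (rit F γ k s).Φ) :
    (yr F Y γ k N j (s + 1) φ : ℕ → (rit F γ k s).Φ) = fun l => prv (prv φ) l := by
  have e : yr F Y γ k N j (s + 1) = AddMonoidHom.mk' (fun φ l => prv (prv φ) l) (by
        intro φ ψ
        funext l
        cases l with
        | zero => exact (add_zero 0).symm
        | succ l =>
          cases l with
          | zero => exact (add_zero 0).symm
          | succ l => rfl) := if_pos h
  rw [e]
  rfl

lemma yr_neg {s : ℕ} (h : N + s ≠ j) (φ : ℕ → (rit F γ k s).Φ) :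
    (yr F Y γ k N j (s + 1) φ : ℕ → (rit F γ k s).Φ) = fun l => yr F Y γ k N j s (φ l) := by
  have e : yr F Y γ k N j (s + 1) = pw (yr F Y γ k N j s) := if_neg h
  rw [e]
  rfl

lemma krz_succ (b : ((ℕ → ℕ) → ℤ) → F.Φ) (s : ℕ) (κ : (ℕ → ℕ) → ℤ) :
    (krz F b γ k N (s + 1) κ : ℕ → (rit F γ k s).Φ) = fun l => if Even l then
      krz F b γ k N s (fun a => κ (Function.update a (N + s) (l / 2))) else 0 := rfl

lemma krz_add (b : ((ℕ → ℕ) → ℤ) → F.Φ) (hb : ∀ κ κ', b (κ + κ') = b κ + b κ') (s : ℕ) :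
    ∀ κ κ', krz F b γ k N s (κ + κ') = krz F b γ k N s κ + krz F b γ k N s κ' := by
  induction s with
  | zero => exact hb
  | succ s ih =>
    intro κ κ'
    funext l
    change (if Even l then krz F b γ k N s ((fun a => κ (Function.update a (N + s) (l / 2))) +
        (fun a => κ' (Function.update a (N + s) (l / 2)))) else 0) =
      (if Even l then krz F b γ k N s (fun a => κ (Function.update a (N + s) (l / 2))) else 0) +
      (if Even l then krz F b γ k N s (fun a => κ' (Function.update a (N + s) (l / 2))) else 0)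
    split_ifs
    · exact ih _ _
    · exact (add_zero 0).symm

lemma krz_smul (b : ((ℕ → ℕ) → ℤ) → F.Φ) (hb : ∀ (c : ℤ) κ, b (c • κ) = c • b κ) (s : ℕ) :
    ∀ (c : ℤ) κ, krz F b γ k N s (c • κ) = c • krz F b γ k N s κ := by
  induction s with
  | zero => exact hb
  | succ s ih =>
    intro c κ
    funext l
    change (if Even l then krz F b γ k N s (c • (fun a => κ (Function.update a (N + s) (l / 2)))) else 0) =
      c • (if Even l then krz F b γ k N s (fun a => κ (Function.update a (N + s) (l / 2))) else 0)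
    split_ifs
    · exact ih _ _
    · exact (smul_zero c).symm

lemma krz_zero (b : ((ℕ → ℕ) → ℤ) → F.Φ) (hb : ∀ κ κ', b (κ + κ') = b κ + b κ') (s : ℕ) :
    krz F b γ k N s 0 = 0 := by
  have h := krz_add F γ k N b hb s 0 0
  rw [add_zero] at h
  exact left_eq_add.1 h

lemma shc_upd_self (κ : (ℕ → ℕ) → ℤ) (m : ℕ) :
    (fun a => shc j κ (Function.update a j m)) =
      if m = 0 then 0 else fun a => κ (Function.update a j (m - 1)) := by
  funext a
  unfold shc
  by_cases hm : m = 0
  · rw [if_pos hm, if_pos (by rw [Function.update_self]; exact hm)]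
    rfl
  · rw [if_neg hm, if_neg (by rw [Function.update_self]; exact hm), Function.update_self,
      Function.update_idem]

lemma shc_upd_ne (κ : (ℕ → ℕ) → ℤ) {n : ℕ} (m : ℕ) (h : n ≠ j) :
    (fun a => shc j κ (Function.update a n m)) = shc j (fun a => κ (Function.update a n m)) := by
  funext a
  unfold shc
  rw [Function.update_of_ne h.symm, Function.update_comm h]

lemma krz_shc (b : ((ℕ → ℕ) → ℤ) → F.Φ) (hb : ∀ κ κ', b (κ + κ') = b κ + b κ')
    (hY : ∀ κ, b (shc j κ) = Y (b κ)) (s : ℕ) :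
    ∀ κ, krz F b γ k N s (shc j κ) = yr F Y γ k N j s (krz F b γ k N s κ) := by
  induction s with
  | zero => exact hY
  | succ s ih =>
    intro κ
    by_cases h : N + s = j
    · refine Eq.trans ?_ (yr_pos F Y γ k N j h (krz F b γ k N (s + 1) κ)).symm
      funext l
      change (if Even l then krz F b γ k N s (fun a => shc j κ (Function.update a (N + s) (l / 2))) else 0)
        = _
      rw [h, shc_upd_self]
      match l with
      | 0 =>
        rw [if_pos (by simp), if_pos (by simp)]
        exact krz_zero F γ k N b hb s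
      | 1 =>
        rw [if_neg (by simp)]
        rfl
      | l + 2 =>
        change _ = (if Even l then krz F b γ k N s (fun a => κ (Function.update a (N + s) (l / 2))) else 0)
        have he : Even (l + 2) ↔ Even l := by
          rw [Nat.even_add]
          simp
        have h1 : (l + 2) / 2 = l / 2 + 1 := by omega
        rw [h1, if_neg (Nat.succ_ne_zero _), Nat.add_sub_cancel, h]
        by_cases hl : Even l
        · rw [if_pos hl, if_pos (he.2 hl)]
        · rw [if_neg hl, if_neg (fun h' => hl (he.1 h'))]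
    · refine Eq.trans ?_ (yr_neg F Y γ k N j h (krz F b γ k N (s + 1) κ)).symm
      funext l
      change (if Even l then krz F b γ k N s (fun a => shc j κ (Function.update a (N + s) (l / 2))) else 0)
        = yr F Y γ k N j s
          (if Even l then krz F b γ k N s (fun a => κ (Function.update a (N + s) (l / 2))) else 0)
      by_cases hl : Even l
      · rw [if_pos hl, if_pos hl, shc_upd_ne j κ _ h]
        exact ih _
      · rw [if_neg hl, if_neg hl, map_zero]

lemma yr_tw (hY : ∀ φ, F.tw (Y φ) = Y (F.tw φ)) (s : ℕ) :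
    ∀ φ, (rit F γ k s).tw (yr F Y γ k N j s φ) = yr F Y γ k N j s ((rit F γ k s).tw φ) := by
  induction s with
  | zero => exact hY
  | succ s ih =>
    intro φ
    by_cases h : N + s = j
    · rw [yr_pos F Y γ k N j h φ]
      refine Eq.trans ?_ (yr_pos F Y γ k N j h ((rit F γ k (s + 1)).tw φ)).symm
      funext l
      match l with
      | 0 =>
        change (-1 : ℤ) ^ 0 • (rit F γ k s).tw 0 = 0
        rw [map_zero, smul_zero]
      | 1 =>
        change (-1 : ℤ) ^ 1 • (rit F γ k s).tw 0 = 0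
        rw [map_zero, smul_zero]
      | l + 2 =>
        change (-1 : ℤ) ^ (l + 2) • (rit F γ k s).tw (φ l) = (-1 : ℤ) ^ l • (rit F γ k s).tw (φ l)
        rw [pow_add]
        norm_num
    · rw [yr_neg F Y γ k N j h φ]
      refine Eq.trans ?_ (yr_neg F Y γ k N j h ((rit F γ k (s + 1)).tw φ)).symm
      funext l
      change (-1 : ℤ) ^ l • (rit F γ k s).tw (yr F Y γ k N j s (φ l)) =
        yr F Y γ k N j s ((-1 : ℤ) ^ l • (rit F γ k s).tw (φ l))
      rw [map_zsmul, ih]

lemma yr_g (i : ι) (hY : ∀ φ, F.g i (Y φ) = Y (F.g i φ)) (s : ℕ) :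
    ∀ φ, (rit F γ k s).g i (yr F Y γ k N j s φ) = yr F Y γ k N j s ((rit F γ k s).g i φ) := by
  induction s with
  | zero => exact hY
  | succ s ih =>
    intro φ
    by_cases h : N + s = j
    · rw [yr_pos F Y γ k N j h φ]
      refine Eq.trans ?_ (yr_pos F Y γ k N j h ((rit F γ k (s + 1)).g i φ)).symm
      funext l
      match l with
      | 0 => exact map_zero ((rit F γ k s).g i)
      | 1 => exact map_zero ((rit F γ k s).g i)
      | l + 2 => rfl
    · rw [yr_neg F Y γ k N j h φ]
      refine Eq.trans ?_ (yr_neg F Y γ k N j h ((rit F γ k (s + 1)).g i φ)).symm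
      funext l
      exact ih _

lemma yr_bd (ht : ∀ φ, F.tw (Y φ) = Y (F.tw φ)) (hg : ∀ i φ, F.g i (Y φ) = Y (F.g i φ))
    (hY : ∀ φ, F.bd (Y φ) = Y (F.bd φ)) (s : ℕ) :
    ∀ φ, (rit F γ k s).bd (yr F Y γ k N j s φ) = yr F Y γ k N j s ((rit F γ k s).bd φ) := by
  induction s with
  | zero => exact hY
  | succ s ih =>
    intro φ
    by_cases h : N + s = j
    · rw [yr_pos F Y γ k N j h φ]
      refine Eq.trans ?_ (yr_pos F Y γ k N j h ((rit F γ k (s + 1)).bd φ)).symm
      funext l
      match l with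
      | 0 =>
        change (rit F γ k s).bd 0 + 0 = 0
        rw [map_zero, add_zero]
      | 1 =>
        change (rit F γ k s).bd 0 + tau ((rit F γ k s).g (γ s)) (k s) (0 + 1)
          ((-1 : ℤ) ^ 0 • (rit F γ k s).tw 0) = 0
        rw [map_zero, map_zero, smul_zero, map_zero, add_zero]
      | 2 =>
        change (rit F γ k s).bd (φ 0) + tau ((rit F γ k s).g (γ s)) (k s) (1 + 1)
          ((-1 : ℤ) ^ 1 • (rit F γ k s).tw 0) = (rit F γ k s).bd (φ 0) + 0
        rw [map_zero, smul_zero, map_zero]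
      | l + 3 =>
        change (rit F γ k s).bd (φ (l + 1)) + tau ((rit F γ k s).g (γ s)) (k s) (l + 2 + 1)
          ((-1 : ℤ) ^ (l + 2) • (rit F γ k s).tw (φ l)) =
          (rit F γ k s).bd (φ (l + 1)) + tau ((rit F γ k s).g (γ s)) (k s) (l + 1)
          ((-1 : ℤ) ^ l • (rit F γ k s).tw (φ l))
        have h1 : l + 2 + 1 = (l + 1) + 2 := by omega
        have h2 : (-1 : ℤ) ^ (l + 2) = (-1 : ℤ) ^ l := by
          rw [pow_add]
          norm_num
        rw [h1, tau_add_two, h2]
    · rw [yr_neg F Y γ k N j h φ]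
      refine Eq.trans ?_ (yr_neg F Y γ k N j h ((rit F γ k (s + 1)).bd φ)).symm
      funext l
      match l with
      | 0 =>
        change (rit F γ k s).bd (yr F Y γ k N j s (φ 0)) + 0 =
          yr F Y γ k N j s ((rit F γ k s).bd (φ 0) + 0)
        rw [add_zero, add_zero, ih]
      | l + 1 =>
        change (rit F γ k s).bd (yr F Y γ k N j s (φ (l + 1))) +
          tau ((rit F γ k s).g (γ s)) (k s) (l + 1)
          ((-1 : ℤ) ^ l • (rit F γ k s).tw (yr F Y γ k N j s (φ l))) =
          yr F Y γ k N j s ((rit F γ k s).bd (φ (l + 1)) +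
            tau ((rit F γ k s).g (γ s)) (k s) (l + 1) ((-1 : ℤ) ^ l • (rit F γ k s).tw (φ l)))
        rw [map_add, ih, yr_tw F Y γ k N j ht s, ← map_zsmul,
          tau_comm _ _ _ _ (yr_g F Y γ k N j (γ s) (hg (γ s)) s)]

lemma yr_D (D : ℤ → AddSubgroup F.Φ) (hY : ∀ d, ∀ φ ∈ D d, Y φ ∈ D (d + 2)) (s : ℕ) :
    ∀ d, ∀ φ ∈ rDs F γ k D s d, yr F Y γ k N j s φ ∈ rDs F γ k D s (d + 2) := by
  induction s with
  | zero => exact hY
  | succ s ih =>
    intro d φ hφ
    by_cases h : N + s = j
    · rw [yr_pos F Y γ k N j h φ]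
      intro l
      match l with
      | 0 => exact (rDs F γ k D s _).zero_mem
      | 1 => exact (rDs F γ k D s _).zero_mem
      | l + 2 =>
        have h1 : d + 2 - ((l + 2 : ℕ) : ℤ) = d - (l : ℤ) := by push_cast; ring
        change φ l ∈ rDs F γ k D s (d + 2 - ((l + 2 : ℕ) : ℤ))
        rw [h1]
        exact hφ l
    · rw [yr_neg F Y γ k N j h φ]
      intro l
      have h1 : d + 2 - (l : ℤ) = d - (l : ℤ) + 2 := by ring
      change yr F Y γ k N j s (φ l) ∈ rDs F γ k D s (d + 2 - (l : ℤ))
      rw [h1]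
      exact ih _ _ (hφ l)

lemma yr_B (β : F.Φ →+ F.Φ) (hY : ∀ ψ, β (Y ψ) = 0) (s : ℕ) :
    ∀ φ, β (rB F γ k s (yr F Y γ k N j s φ)) = 0 := by
  induction s with
  | zero => exact hY
  | succ s ih =>
    intro φ
    by_cases h : N + s = j
    · rw [yr_pos F Y γ k N j h φ]
      change β (rB F γ k s 0) = 0
      rw [map_zero, map_zero]
    · rw [yr_neg F Y γ k N j h φ]
      exact ih _

end Yr1Aux

open Yr1Aux in
/-- **Yr1.** Properties of `krz`, `yr`. -/
theorem sYr1 : S_Yr1 := by
  intro ι F D b Y γ k N r hF hD hadd hsmul hbd htw hg hsh hYb hYt hYg hYD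
  refine ⟨krz_add F γ k N b hadd r, krz_smul F γ k N b hsmul r,
    fun j => krz_shc F (Y j) γ k N j b hadd (hsh j) r,
    fun j => yr_bd F (Y j) γ k N j (hYt j) (hYg j) (hYb j) r,
    fun j => yr_D F (Y j) γ k N j D (hYD j) r,
    fun j φ β hβ => yr_B F (Y j) γ k N j β hβ r φ⟩

end HVx
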