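import Pool.Agent.Lib.MP_181146_gt.HV.Asm
import Pool.Agent.Lib.MP_181146_gt.HV.BsE
import Pool.Agent.Lib.MP_181146_gt.HV.CnRc
import Pool.Agent.Lib.MP_181146_gt.HV.Conc
import Pool.Agent.Lib.MP_181146_gt.HV.Cv
import Pool.Agent.Lib.MP_181146_gt.HV.DStep
import Pool.Agent.Lib.MP_181146_gt.HV.DgX
import Pool.Agent.Lib.MP_181146_gt.HV.Div
import Pool.Agent.Lib.MP_181146_gt.HV.EV
import Pool.Agent.Lib.MP_181146_gt.HV.Ex
import Pool.Agent.Lib.MP_181146_gt.HV.FcI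
import Pool.Agent.Lib.MP_181146_gt.HV.FcOK
import Pool.Agent.Lib.MP_181146_gt.HV.Fcm
import Pool.Agent.Lib.MP_181146_gt.HV.Hp
import Pool.Agent.Lib.MP_181146_gt.HV.Inv1
import Pool.Agent.Lib.MP_181146_gt.HV.InvR
import Pool.Agent.Lib.MP_181146_gt.HV.JAl
import Pool.Agent.Lib.MP_181146_gt.HV.JId
import Pool.Agent.Lib.MP_181146_gt.HV.JN
import Pool.Agent.Lib.MP_181146_gt.HV.JW
import Pool.Agent.Lib.MP_181146_gt.HV.KDg
import Pool.Agent.Lib.MP_181146_gt.HV.KRn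
import Pool.Agent.Lib.MP_181146_gt.HV.Kf1
import Pool.Agent.Lib.MP_181146_gt.HV.One
import Pool.Agent.Lib.MP_181146_gt.HV.RcOK
import Pool.Agent.Lib.MP_181146_gt.HV.Rit
import Pool.Agent.Lib.MP_181146_gt.HV.RitB
import Pool.Agent.Lib.MP_181146_gt.HV.RitI
import Pool.Agent.Lib.MP_181146_gt.HV.TAc
import Pool.Agent.Lib.MP_181146_gt.HV.TMp
import Pool.Agent.Lib.MP_181146_gt.HV.TOK
import Pool.Agent.Lib.MP_181146_gt.HV.TRFc
import Pool.Agent.Lib.MP_181146_gt.HV.TRRc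
import Pool.Agent.Lib.MP_181146_gt.HV.TSc
import Pool.Agent.Lib.MP_181146_gt.HV.TZt
import Pool.Agent.Lib.MP_181146_gt.HV.TrM
import Pool.Agent.Lib.MP_181146_gt.HV.TrOK
import Pool.Agent.Lib.MP_181146_gt.HV.VF
import Pool.Agent.Lib.MP_181146_gt.HV.VG
import Pool.Agent.Lib.MP_181146_gt.HV.XAc
import Pool.Agent.Lib.MP_181146_gt.HV.XOK
import Pool.Agent.Lib.MP_181146_gt.HV.XPN
import Pool.Agent.Lib.MP_181146_gt.HV.XTR
import Pool.Agent.Lib.MP_181146_gt.HV.Yf1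
import Pool.Agent.Lib.MP_181146_gt.HV.Yr1
import Pool.Agent.Lib.MP_181146_gt.HP.All

/-!
# Project HV (part V): assembly of all modules

All 45 statements of `SpecV.lean` and `SpecV2.lean`: `vX : S_X`.  The output of part V is
`vVF : S_VF` (functionals on the based chains of an action with Euler number one).
-/

set_option autoImplicit false

namespace HVx

theorem vRcOK : S_RcOK := sRcOK

theorem vCnRc : S_CnRc := sCnRc

theorem vRit : S_Rit := sRit vRcOK vCnRc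

theorem vRitB : S_RitB := sRitB

theorem vRitI : S_RitI := sRitI

theorem vTrOK : S_TrOK := sTrOK

theorem vTrM : S_TrM := sTrM

theorem vEx : S_Ex := sEx vRit vRitI vRitB vTrOK vTrM

theorem vCon : S_Con := sCon vRit vTrOK vTrM

theorem vOne : S_One := sOne vEx

theorem vDiv : S_Div := sDiv vCon vRit vRitI

theorem vDStep : S_DStep := sDStep vEx vCon vRit vRitI vRitB

theorem vFcOK : S_FcOK := sFcOK

theorem vFcI : S_FcI := sFcI

theorem vFcm : S_Fcm := sFcm vFcOK vFcI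

theorem vTRRc : S_TRRc := sTRRc

theorem vTRFc : S_TRFc := sTRFc

theorem vInv1 : S_Inv1 := sInv1

theorem vInvR : S_InvR := sInvR vInv1 vTRRc vRit vRitI

theorem vKf1 : S_Kf1 := sKf1

theorem vYf1 : S_Yf1 := sYf1

theorem vYr1 : S_Yr1 := sYr1

theorem vJId : S_JId := sJId vKf1 vYf1 vYr1 vFcm

theorem vJW : S_JW := sJW vRitI vRit vFcm vKf1

theorem vEV : S_EV := sEV vFcOK vFcm vKf1

theorem vJN : S_JN := sJN vEV vRitI vRit vFcm vJW vKf1

theorem vJAl : S_JAl := sJAl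

theorem vKDg : S_KDg := sKDg vKf1 vYr1 vRitB

theorem vKRn : S_KRn := sKRn

theorem vAsm : S_Asm := sAsm vJId vJW vJN vJAl vKDg vKRn vInvR vTRFc vFcm vKf1 vRit vRitB vRitI vYr1

theorem vXOK : S_XOK := sXOK

theorem vXAc : S_XAc := sXAc HPx.pCobI

theorem vXPN : S_XPN := sXPN HPx.pCobI

theorem vXTR : S_XTR := sXTR

theorem vTOK : S_TOK := sTOK

theorem vTSc : S_TSc := sTSc HPx.pRho

theorem vTAc : S_TAc := sTAc vTSc vTOK

theorem vTMp : S_TMp := sTMp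

theorem vTZt : S_TZt := sTZt HPx.pZet vTSc vTOK

theorem vDgX : S_DgX := sDgX vOne vDiv vDStep vXOK vXAc vXPN vTOK vTAc vTMp vTZt

theorem vBsE : S_BsE := sBsE

theorem vVG : S_VG := sVG vDgX vAsm vBsE vXOK vXAc vXTR vFcm

theorem vCv : S_Cv := sCv

theorem vHp : S_Hp := sHp

theorem vVF : S_VF := sVF vVG vCv vHp

end HVx
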