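import Pool.Agent.Lib.MP_181146_gt.HV.SpecV
import Pool.Agent.Lib.MP_181146_gt.HA.DefsA2

/-!
# Project HV (part V): conversion to the functionals of part R, final statement

`cv`: from the functionals on `X` and circles indexed by `ZMod Q` to the functionals on the chains
and circles indexed by `ℤ`.
-/

set_option autoImplicit false
set_option linter.unusedVariables false

noncomputable section

namespace HVx

open scoped TensorProduct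
open HEp HPx HRx HTx

section

variable {G : Type} [CommGroup G] {X : AX G} {E : Type} [TopologicalSpace E] {act : G → C(E, E)}

/-- The functionals of part R on the chains of `E` and `n` circles. -/
abbrev fitE (act : G → C(E, E)) (Q : ℕ) (χ : ℕ → G →* Multiplicative (ZMod Q)) (ix : ℕ → ℕ)
    (n : ℕ) : FS (Gam Q χ) :=
  fit (fs0 (Sing E) (fun h : Gam Q χ => SingMap (act h.1.1))) Q ix (rho Q χ) n

/-- The conversion. -/
def cv (Λ : Lk X E act) (Q : ℕ) [NeZero Q] (χ : ℕ → G →* Multiplicative (ZMod Q)) (ix : ℕ → ℕ) :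
    ∀ n : ℕ, (fcm (fX X) Q (rot χ) ix n).Φ →+ (fitE act Q χ ix n).Φ
  | 0 => pX Λ
  | n + 1 => AddMonoidHom.mk' (fun φ => (fun j c => cv Λ Q χ ix n (φ.1 j (c : ZMod Q)),
      fun j c => cv Λ Q χ ix n (φ.2 j (c : ZMod Q)))) (fun _ _ => Prod.ext (by
      funext j c
      exact (cv Λ Q χ ix n).map_add _ _) (by
      funext j c
      exact (cv Λ Q χ ix n).map_add _ _))

/-- The vertex component on the chains. -/
def vxE (Q : ℕ) (χ : ℕ → G →* Multiplicative (ZMod Q)) (ix : ℕ → ℕ) (n : ℕ)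
    (φ : (fitE act Q χ ix n).Φ) : Ch ℤ (Sing E) →ₗ[ℤ] ℤ :=
  toF (K := Sing E) (α := fun h : Gam Q χ => SingMap (act h.1.1))
    (vx (F := fs0 (Sing E) (fun h : Gam Q χ => SingMap (act h.1.1))) Q ix (rho Q χ) n φ)

end

/-- **Cv.** The conversion commutes with everything.  Proof.  Base: `pX Λ (tw φ) = pX Λ φ ∘ sgC`,
`pX Λ (bd φ) = pX Λ φ ∘ bd` (`Λ.f'd`), `pX Λ (g h φ) = pX Λ φ ∘ cmap (act h)` (`Λ.f'g`), `pX Λ (eX
X) = aug` (`Λ.f'ε`), degrees (`Λ.f'_gr`).  Circles: `∑ a ∈ range Q, F ((c + a : ℤ) : ZMod Q) = ∑ a :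
ZMod Q, F a`; rotation: `((c + rho Q χ i h : ℤ) : ZMod Q) = c + rot χ i h.1.1` (definition of
`Gam`); `Pr`: the cast of `c + Q` is the cast of `c`; `kfz` and `Kf` have the same recursion. -/
def S_Cv : Prop :=
  ∀ (G : Type) [CommGroup G] (X : AX G) (E : Type) [TopologicalSpace E] (act : G → C(E, E))
    (Λ : Lk X E act) (Q : ℕ) [NeZero Q] (χ : ℕ → G →* Multiplicative (ZMod Q)) (ix : ℕ → ℕ)
    (n : ℕ),
    (∀ φ, cv Λ Q χ ix n ((fcm (fX X) Q (rot χ) ix n).tw φ) =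
      (fitE act Q χ ix n).tw (cv Λ Q χ ix n φ)) ∧
    (∀ φ, cv Λ Q χ ix n ((fcm (fX X) Q (rot χ) ix n).bd φ) =
      (fitE act Q χ ix n).bd (cv Λ Q χ ix n φ)) ∧
    (∀ (h : Gam Q χ) φ, cv Λ Q χ ix n ((fcm (fX X) Q (rot χ) ix n).g h.1.1 φ) =
      (fitE act Q χ ix n).tr h (cv Λ Q χ ix n φ)) ∧
    (∀ d, ∀ φ ∈ fDs (fX X) Q (rot χ) ix (dX X) n d, cv Λ Q χ ix n φ ∈ (fitE act Q χ ix n).Dg d) ∧
    (∀ φ, cv Λ Q χ ix n φ ∈ (fitE act Q χ ix n).Pr) ∧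
    (∀ κ, cv Λ Q χ ix n (kfz (fX X) (eX X) Q (rot χ) ix n κ) =
      Kf (F := fs0 (Sing E) (fun h : Gam Q χ => SingMap (act h.1.1))) (aug ℤ (Sing E)) Q ix
        (rho Q χ) n κ) ∧
    (∀ φ, vxE Q χ ix n (cv Λ Q χ ix n φ) = pX Λ (fB (fX X) Q (rot χ) ix n φ))

/-- **Hp** (from HMx.nKap, HMx.nPrim, HMx.nHom in `HM/NMain.lean`; import it).  The norm form. -/
def S_Hp : Prop :=
  ∀ m : ℕ, 1 < m → ∃ p : MvPolynomial (Fin m) ℤ, p.IsHomogeneous m ∧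
    ((∃ q j : ℕ, q.Prime ∧ 1 ≤ j ∧ m = q ^ j ∧
      p = HMx.kapP (Polynomial.X ^ m - Polynomial.C (q : ℤ)) m) ∨
      (p = 0 ∧ ∀ q j : ℕ, q.Prime → m ≠ q ^ j)) ∧
    ∀ (r : ℕ) (k : Fin r → ℕ) (z : Fin r → ℤ), (∀ t, 0 < k t) →
      (∀ t, ∀ j, 0 < j → j < m → (k t : ℤ) ∣ z t * m.choose j) → ∃ c : Fin m → Fin r → ℤ,
      MvPolynomial.aeval (fun i => ∑ t, MvPolynomial.C (c i t) * MvPolynomial.X t) p -
        ∑ t : Fin r, MvPolynomial.C (z t) * MvPolynomial.X t ^ m ∈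
        Ideal.span (Set.range fun t : Fin r =>
          (MvPolynomial.C (k t : ℤ) * MvPolynomial.X t : MvPolynomial (Fin r) ℤ))

/-- **VF** (from VG, Cv, Hp, HPx.CobI is not needed).  The final statement of part V: the functional
`v` of the structure `HRx.GD`.  Proof.  `u i = Q.x ∘ Λ.f i` (`= 0` for `i ≠ 2 m - 1` since `Q.x` is
supported in degree `2 m - 1`), `bd u = 0` (`Λ.fd`, `Q.x_bd`).  VG gives `vX`; `v = cv vX`
(`Λ.toLk`).  `vxE v = pX Λ (fB vX) = pX Λ u + pX Λ ξ ∘ bd`; on a cycle `y` of `gr (2 m - 1)`: `pX Λ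
u y = Q.x (f (f' y)) = Q.x (y + bd (t y) + t (bd y)) = Q.x y` (`Λ.ht`). -/
def S_VF : Prop :=
  ∀ (e : ∀ p q : ℕ, Ch ℤ ((De p).prod (De q))) (he : EZ e) (G : Type) [CommGroup G] [Finite G]
    [NeZero (Nat.card G)] (E : Type) [TopologicalSpace E] [PathConnectedSpace E] (D : Mlt G E)
    (X : AX G) (hN : X.PN) (Λ : LT X E D.act) (m : ℕ) (hm : 1 < m) (hX : X.Ac (2 * m - 1))
    (hE : AcE E (vtx D.v) (2 * m - 1)) (Q : Cl E D.v (2 * m - 1)),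
    ∃ p : MvPolynomial (Fin m) ℤ, p.IsHomogeneous m ∧
    ((∃ q j : ℕ, q.Prime ∧ 1 ≤ j ∧ m = q ^ j ∧
      p = HMx.kapP (Polynomial.X ^ m - Polynomial.C (q : ℤ)) m) ∨
      (p = 0 ∧ ∀ q j : ℕ, q.Prime → m ≠ q ^ j)) ∧
    ∃ (χ : ℕ → G →* Multiplicative (ZMod (Nat.card G)))
      (v : (fitE D.act (Nat.card G) χ (rv m) m).Φ),
      v ∈ (fitE D.act (Nat.card G) χ (rv m) m).Dg ((2 * m - 1 : ℕ) : ℤ) ∧
      v ∈ (fitE D.act (Nat.card G) χ (rv m) m).Pr ∧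
      (∀ h, (fitE D.act (Nat.card G) χ (rv m) m).tr h v = v) ∧
      (fitE D.act (Nat.card G) χ (rv m) m).bd v =
        Kf (F := fs0 (Sing E) (fun h : Gam (Nat.card G) χ => SingMap (D.act h.1.1)))
          (aug ℤ (Sing E)) (Nat.card G) (rv m) (rho (Nat.card G) χ) m (HAx.kcf p) ∧
      ∀ y ∈ gr ℤ (Sing E) (2 * m - 1), bd ℤ (Sing E) y = 0 →
        Q.x y = vxE (Nat.card G) χ (rv m) m v y

end HVx
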