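import Pool.Agent.Lib.MP_181146_gt.HV.SpecV

/-!
# Project HV (part V), module Asm: assembly of the functional on the circles
-/

set_option autoImplicit false
set_option linter.unusedVariables false

noncomputable section

namespace HVx

open scoped TensorProduct
open HEp HPx HRx HTx

/-- `krz` is additive if `b` is. -/
private lemma Asm_krz_add {ι : Type} (F : FC ι) (b : ((ℕ → ℕ) → ℤ) → F.Φ) (γ : ℕ → ι) (k : ℕ → ℕ)
    (N : ℕ) (hb : ∀ κ κ', b (κ + κ') = b κ + b κ') :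
    ∀ (s : ℕ) (κ κ' : (ℕ → ℕ) → ℤ),
      krz F b γ k N s (κ + κ') = krz F b γ k N s κ + krz F b γ k N s κ' := by
  intro s
  induction s with
  | zero => exact hb
  | succ s ih =>
    intro κ κ'
    funext l
    change (if Even l then
      krz F b γ k N s (fun a => (κ + κ') (Function.update a (N + s) (l / 2))) else 0) =
      (if Even l then krz F b γ k N s (fun a => κ (Function.update a (N + s) (l / 2))) else 0) +
      (if Even l then krz F b γ k N s (fun a => κ' (Function.update a (N + s) (l / 2))) else 0)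
    by_cases h : Even l
    · rw [if_pos h, if_pos h, if_pos h]
      exact ih _ _
    · rw [if_neg h, if_neg h, if_neg h, add_zero]

private lemma Asm_cfl_add {M : ℕ} (p q : MvPolynomial (Fin M) ℤ) (l : ℕ) :
    cfl (p + q) l = cfl p l + cfl q l := by
  funext a
  change (if ∑ i : Fin M, a i = l then cf (p + q) a else 0) =
    (if ∑ i : Fin M, a i = l then cf p a else 0) + (if ∑ i : Fin M, a i = l then cf q a else 0)
  by_cases h : ∑ i : Fin M, a i = l
  · rw [if_pos h, if_pos h, if_pos h]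
    exact MvPolynomial.coeff_add _ _ _
  · rw [if_neg h, if_neg h, if_neg h, add_zero]

private lemma Asm_cfl_hom {M : ℕ} (p : MvPolynomial (Fin M) ℤ) (m : ℕ) (hp : p.IsHomogeneous m) :
    cfl p m = cf p := by
  funext a
  change (if ∑ i : Fin M, a i = m then cf p a else 0) = cf p a
  by_cases h : ∑ i : Fin M, a i = m
  · rw [if_pos h]
  · rw [if_neg h]
    refine (hp.coeff_eq_zero ?_).symm
    rw [Finsupp.degree_eq_sum]
    exact h

private lemma Asm_sum (N : ℕ) (ix : ℕ → ℕ) (h1 : ∀ a, a < N → ix a < N)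
    (h2 : ∀ a b, a < N → b < N → ix a = ix b → a = b) (a : ℕ → ℕ) :
    ∑ i ∈ Finset.range N, a (ix i) = ∑ i : Fin N, a i := by
  have hinj : Set.InjOn ix (Finset.range N : Set ℕ) := by
    intro x hx y hy h
    exact h2 x y (Finset.mem_range.1 (Finset.mem_coe.1 hx)) (Finset.mem_range.1
      (Finset.mem_coe.1 hy)) h
  have himg : Finset.image ix (Finset.range N) = Finset.range N := by
    refine Finset.eq_of_subset_of_card_le ?_ ?_
    · intro x hx
      obtain ⟨y, hy, rfl⟩ := Finset.mem_image.1 hx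
      exact Finset.mem_range.2 (h1 y (Finset.mem_range.1 hy))
    · rw [Finset.card_image_of_injOn hinj]
  rw [Fin.sum_univ_eq_sum_range a N]
  conv_rhs => rw [← himg]
  rw [Finset.sum_image hinj]

private lemma Asm_TR {ι : Type} (h8 : S_TRFc) (F : FC ι) (D : ℤ → AddSubgroup F.Φ) (Q : ℕ)
    [NeZero Q] (ρ : ℕ → ι → ZMod Q) (ix : ℕ → ℕ) (γ : ℕ → ι) (k : ℕ → ℕ) (r : ℕ)
    (hρ : ∀ t, t < r → ∀ i, (k t : ZMod Q) * ρ i (γ t) = 0) (h : TR F D γ k r) :
    ∀ n : ℕ, TR (fcm F Q ρ ix n) (fDs F Q ρ ix D n) γ k r := by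
  intro n
  induction n with
  | zero => exact h
  | succ n ih =>
    exact h8 ι (fcm F Q ρ ix n) (fDs F Q ρ ix D n) Q (ρ (ix n)) γ k r
      (fun t ht => hρ t ht (ix n)) ih

theorem sAsm (h1 : S_JId) (h2 : S_JW) (h3 : S_JN) (h4 : S_JAl) (h5 : S_KDg) (h6 : S_KRn)
    (h7 : S_InvR) (h8 : S_TRFc) (h9 : S_Fcm) (h10 : S_Kf1) (h11 : S_Rit) (h12 : S_RitB)
    (h13 : S_RitI) (h14 : S_Yr1) : S_Asm := by
  intro ι F D ε u Q _ ρ ix N γ k r m z hF hD hTF hε hbε hgε hm hix1 hix2 hk hPer hρ hTR hv p c s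
    hp hs hsc hpz
  obtain ⟨v, hv1, hv2, hv3⟩ := hv
  -- the ideal
  obtain ⟨I, hI⟩ := h1 ι F D ε Q ρ ix N γ k r hF hD hε hbε hgε hix2
  have hmem := h4 N r m (fun t => (k t : ℤ)) (fun t => z t) c p I
    (fun t => (hI _).2 (h2 ι F D ε Q ρ ix N γ k r hF hD hε hbε hgε hix1 hix2 t))
    (fun i => (hI _).2 (h3 ι F D ε Q ρ ix N γ k r hF hD hTF hε hbε hgε hix1 hix2 i (c i) (s i)
      (hs i) (hsc i))) hpz
  obtain ⟨w, hw1, hw2, hw3⟩ := (hI _).1 hmem m
  -- properties of the circles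
  obtain ⟨hF', hD', hg', hTF', hM', hgI', hB1', hB2', hB3'⟩ := h9 ι F D Q ρ ix N hF hD
  obtain ⟨k1, k2, k3, k4, k5, k6, k7⟩ := h10 ι F D ε Q ρ ix N hF hD hε hbε hgε hix2
  have hPer' : Per (fcm F Q ρ ix N) γ k r := fun t ht =>
    hg' (γ t) (k t) (hPer t ht) (fun i => hρ t ht i)
  have hTR' := Asm_TR h8 F D Q ρ ix γ k r hρ hTR N
  obtain ⟨hMr, -, -, -⟩ := h11.2 ι ι F (fcm F Q ρ ix N) D (fDs F Q ρ ix D N) (fI F Q ρ ix N)
    γ γ k r hF hF' hD hD' hPer hPer' hM' (fun t ht φ => (hgI' (γ t) φ).symm)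
  -- the functional with the resolutions
  have hb1 : (rit (fcm F Q ρ ix N) γ k r).bd
      (ritF (F := F) (F' := fcm F Q ρ ix N) (fI F Q ρ ix N) γ k γ k r v + w) =
      rI (fcm F Q ρ ix N) γ k r (kfz F ε Q ρ ix N (cfl p m)) := by
    rw [map_add, ← hMr.fb, hv2, h5 ι F ε Q ρ ix N γ k r m z hm hix1 hix2,
      ← h6 ι F ε Q ρ ix N γ k r m p hix1]
    refine (congrArg (fun x => zzK F ε Q ρ ix N γ k r (cfl (∑ t : Fin r, MvPolynomial.C (z t) *
        MvPolynomial.X (Fin.natAdd N t) ^ m : MvPolynomial (Fin (N + r)) ℤ) m) + x) hw3).trans ?_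
    rw [← Asm_krz_add (fcm F Q ρ ix N) (kfz F ε Q ρ ix N) γ k N k1 r, ← Asm_cfl_add,
      add_sub_cancel]
  have ha : kfz F ε Q ρ ix N (cfl p m) ∈ fDs F Q ρ ix D N (2 * (m : ℤ) - 1 + 1) := by
    rw [sub_add_cancel]
    refine k6 m (cfl p m) fun a ha => ?_
    rw [Asm_sum N ix hix1 hix2 a]
    by_contra h
    apply ha
    refine if_neg fun h' => h ?_
    rw [h']
  obtain ⟨a', ha1, ha2, ha3, ha4⟩ := h7 ι (fcm F Q ρ ix N) (fDs F Q ρ ix D N) γ k r hF' hD' hk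
    hPer' hTR' (2 * (m : ℤ) - 1) (kfz F ε Q ρ ix N (cfl p m))
    (ritF (F := F) (F' := fcm F Q ρ ix N) (fI F Q ρ ix N) γ k γ k r v + w) ha (k3 _)
    (fun t ht => k5 _ _) (AddSubgroup.add_mem _ (hMr.fD _ v hv1) hw1) hb1
  refine ⟨a', ha1, ha3, ?_, ?_⟩
  · rw [ha2, Asm_cfl_hom p m hp]
  · obtain ⟨x, hx, hxe⟩ := ha4
    have e1 : fB F Q ρ ix N (rB (fcm F Q ρ ix N) γ k r
        (ritF (F := F) (F' := fcm F Q ρ ix N) (fI F Q ρ ix N) γ k γ k r v + w)) =
        rB F γ k r v := by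
      rw [map_add, map_add, (h12 ι ι F (fcm F Q ρ ix N) (fI F Q ρ ix N) γ γ k k r).1 v, hB3']
      have hw2' : fB F Q ρ ix N (rB (fcm F Q ρ ix N) γ k r w) = 0 := hw2
      rw [hw2', add_zero]
    have e2 : rB F γ k r v - fB F Q ρ ix N a' ∈ cob F D (2 * (m : ℤ) - 1) := by
      refine ⟨fB F Q ρ ix N x, hB2' _ x hx, (hB1' x).symm.trans
        ((congrArg (fB F Q ρ ix N) hxe).trans ?_)⟩
      rw [map_sub, e1]
    have e3 := AddSubgroup.sub_mem _ hv3 e2
    rwa [sub_sub_sub_cancel_left] at e3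

end HVx
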