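import Pool.Agent.Lib.MP_181146_gt.HR.DefsR
import Pool.Agent.Lib.MP_181146_gt.HT.SpecT
import Pool.Agent.Lib.MP_181146_gt.HM.DefsM

/-!
# Project HV (part V): existence of the functional

`FC ι`: cochain complexes with a sign operator `tw` and operators `g i`.  `FC.rc F i k`: the product
with the periodic resolution for the operator `g i` of period `k` (sequences `φ l`, `l` the degree
in the resolution); `FC.fc F Q ρ`: the product with a circle with `Q` vertices (pairs of families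
indexed by `ℕ` and `ZMod Q`), `ρ i` the rotation number of `g i`.  `rit`, `fcm`: the iterated
constructions. `fX`: the functionals on the complex `X`; `f2`: the functionals on the tensor square
of the chains.
-/

set_option autoImplicit false
set_option linter.unusedVariables false

noncomputable section

namespace HVx

open scoped TensorProduct
open HEp HPx HRx HTx

/-! ## A. Complexes of functionals -/

/-- A cochain complex with a sign operator and operators `g i`. -/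
structure FC (ι : Type) where
  Φ : Type
  [ac : AddCommGroup Φ]
  tw : AddMonoid.End Φ
  bd : AddMonoid.End Φ
  g : ι → AddMonoid.End Φ

attribute [instance] FC.ac

/-- Properties: `tw` is an involution, anticommutes with the differential; the operators commute. -/
structure FC.OK {ι : Type} (F : FC ι) : Prop where
  tt : ∀ φ, F.tw (F.tw φ) = φ
  tb : ∀ φ, F.tw (F.bd φ) = -F.bd (F.tw φ)
  bb : ∀ φ, F.bd (F.bd φ) = 0
  gt : ∀ i φ, F.g i (F.tw φ) = F.tw (F.g i φ)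
  gb : ∀ i φ, F.g i (F.bd φ) = F.bd (F.g i φ)
  gg : ∀ i j φ, F.g i (F.g j φ) = F.g j (F.g i φ)

/-- A family of subgroups (elements of degree `d`) compatible with the operators. -/
structure DOK {ι : Type} (F : FC ι) (D : ℤ → AddSubgroup F.Φ) : Prop where
  neg : ∀ d, d < 0 → ∀ φ ∈ D d, φ = 0
  Dt : ∀ d, ∀ φ ∈ D d, F.tw φ ∈ D d
  Ds : ∀ d, ∀ φ ∈ D d, F.tw φ = (d.negOnePow : ℤ) • φ
  Db : ∀ d, ∀ φ ∈ D d, F.bd φ ∈ D (d + 1)
  Dg : ∀ i d, ∀ φ ∈ D d, F.g i φ ∈ D d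

/-- The norm `1 + g + … + g ^ (k - 1)` for even `l`, `g - 1` for odd `l`. -/
def tau {Φ : Type} [AddCommGroup Φ] (g : AddMonoid.End Φ) (k l : ℕ) :
    AddMonoid.End Φ :=
  if Even l then ∑ a ∈ Finset.range k, g ^ a else g - 1

section

variable {ι : Type}

/-- The product with the periodic resolution for the operator `g i`, of period `k`. -/
def FC.rc (F : FC ι) (i : ι) (k : ℕ) : FC ι where
  Φ := ℕ → F.Φ
  tw := AddMonoidHom.mk' (fun φ l => (-1 : ℤ) ^ l • F.tw (φ l)) (by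
    intro φ ψ
    funext l
    change (-1 : ℤ) ^ l • F.tw (φ l + ψ l) = (-1 : ℤ) ^ l • F.tw (φ l) + (-1 : ℤ) ^ l • F.tw (ψ l)
    rw [map_add, smul_add])
  bd := AddMonoidHom.mk' (fun φ l => F.bd (φ l) +
      prv (fun j => tau (F.g i) k (j + 1) ((-1 : ℤ) ^ j • F.tw (φ j))) l) (by
    intro φ ψ
    funext l
    cases l with
    | zero =>
      change F.bd (φ 0 + ψ 0) + 0 = F.bd (φ 0) + 0 + (F.bd (ψ 0) + 0)
      rw [map_add, add_zero, add_zero, add_zero]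
    | succ l =>
      change F.bd (φ (l + 1) + ψ (l + 1)) +
        tau (F.g i) k (l + 1) ((-1 : ℤ) ^ l • F.tw (φ l + ψ l)) =
        F.bd (φ (l + 1)) + tau (F.g i) k (l + 1) ((-1 : ℤ) ^ l • F.tw (φ l)) +
        (F.bd (ψ (l + 1)) + tau (F.g i) k (l + 1) ((-1 : ℤ) ^ l • F.tw (ψ l)))
      rw [map_add, map_add, smul_add, map_add]
      abel)
  g := fun h => AddMonoidHom.mk' (fun φ l => F.g h (φ l)) (by
    intro φ ψ
    funext l
    exact (F.g h).map_add _ _)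

/-- The elements of degree `d` of `F.rc i k`. -/
def rD {Φ : Type} [AddCommGroup Φ] (D : ℤ → AddSubgroup Φ) (d : ℤ) : AddSubgroup (ℕ → Φ) where
  carrier := {φ | ∀ l : ℕ, φ l ∈ D (d - l)}
  add_mem' := fun {φ ψ} h h' l => (D _).add_mem (h l) (h' l)
  zero_mem' := fun l => (D _).zero_mem
  neg_mem' := fun {φ} h l => (D _).neg_mem (h l)

/-- The product with a circle with `Q` vertices, `ρ i` the rotation number of `g i`. -/
def FC.fc (F : FC ι) (Q : ℕ) [NeZero Q] (ρ : ι → ZMod Q) : FC ι where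
  Φ := (ℕ → ZMod Q → F.Φ) × (ℕ → ZMod Q → F.Φ)
  tw := AddMonoidHom.mk' (fun φ => (fun j c => F.tw (φ.1 j c), fun j c => -F.tw (φ.2 j c))) (by
    intro φ ψ
    refine Prod.ext ?_ ?_
    · funext j c
      exact F.tw.map_add _ _
    · funext j c
      change -F.tw (φ.2 j c + ψ.2 j c) = -F.tw (φ.2 j c) + -F.tw (ψ.2 j c)
      rw [map_add, neg_add])
  bd := AddMonoidHom.mk' (fun φ => (fun j c => F.bd (φ.1 j c) +
      prv (fun j => ∑ a : ZMod Q, F.tw (φ.2 j a)) j,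
    fun j c => F.bd (φ.2 j c) + (F.tw (φ.1 j (c + 1)) - F.tw (φ.1 j c)))) (by
    intro φ ψ
    refine Prod.ext ?_ ?_
    · funext j c
      cases j with
      | zero =>
        change F.bd (φ.1 0 c + ψ.1 0 c) + 0 = F.bd (φ.1 0 c) + 0 + (F.bd (ψ.1 0 c) + 0)
        rw [map_add, add_zero, add_zero, add_zero]
      | succ j =>
        change F.bd (φ.1 (j + 1) c + ψ.1 (j + 1) c) + ∑ a : ZMod Q, F.tw (φ.2 j a + ψ.2 j a) =
          F.bd (φ.1 (j + 1) c) + ∑ a : ZMod Q, F.tw (φ.2 j a) +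
          (F.bd (ψ.1 (j + 1) c) + ∑ a : ZMod Q, F.tw (ψ.2 j a))
        simp only [map_add, Finset.sum_add_distrib]
        abel
    · funext j c
      change F.bd (φ.2 j c + ψ.2 j c) + (F.tw (φ.1 j (c + 1) + ψ.1 j (c + 1)) -
        F.tw (φ.1 j c + ψ.1 j c)) = F.bd (φ.2 j c) + (F.tw (φ.1 j (c + 1)) - F.tw (φ.1 j c)) +
        (F.bd (ψ.2 j c) + (F.tw (ψ.1 j (c + 1)) - F.tw (ψ.1 j c)))
      simp only [map_add]
      abel)
  g := fun h => AddMonoidHom.mk' (fun φ => (fun j c => F.g h (φ.1 j (c + ρ h)),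
      fun j c => F.g h (φ.2 j (c + ρ h)))) (by
    intro φ ψ
    refine Prod.ext ?_ ?_
    · funext j c
      exact (F.g h).map_add _ _
    · funext j c
      exact (F.g h).map_add _ _)

/-- The elements of degree `d` of `F.fc Q ρ`. -/
def fD {Φ : Type} [AddCommGroup Φ] (Q : ℕ) (D : ℤ → AddSubgroup Φ) (d : ℤ) :
    AddSubgroup ((ℕ → ZMod Q → Φ) × (ℕ → ZMod Q → Φ)) where
  carrier := {φ | ∀ (j : ℕ) (c : ZMod Q), φ.1 j c ∈ D (d - 2 * (j : ℤ)) ∧
    φ.2 j c ∈ D (d - 2 * (j : ℤ) - 1)}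
  add_mem' := fun {φ ψ} h h' j c =>
    ⟨(D _).add_mem (h j c).1 (h' j c).1, (D _).add_mem (h j c).2 (h' j c).2⟩
  zero_mem' := fun j c => ⟨(D _).zero_mem, (D _).zero_mem⟩
  neg_mem' := fun {φ} h j c => ⟨(D _).neg_mem (h j c).1, (D _).neg_mem (h j c).2⟩

lemma rc_tw (F : FC ι) (i : ι) (k : ℕ) (φ : (F.rc i k).Φ) (l : ℕ) :
    (F.rc i k).tw φ l = (-1 : ℤ) ^ l • F.tw (φ l) := rfl

lemma rc_bd_zero (F : FC ι) (i : ι) (k : ℕ) (φ : (F.rc i k).Φ) :
    (F.rc i k).bd φ 0 = F.bd (φ 0) + 0 := rfl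

lemma rc_bd_succ (F : FC ι) (i : ι) (k : ℕ) (φ : (F.rc i k).Φ) (l : ℕ) :
    (F.rc i k).bd φ (l + 1) = F.bd (φ (l + 1)) +
      tau (F.g i) k (l + 1) ((-1 : ℤ) ^ l • F.tw (φ l)) := rfl

lemma rc_g (F : FC ι) (i : ι) (k : ℕ) (h : ι) (φ : (F.rc i k).Φ) (l : ℕ) :
    (F.rc i k).g h φ l = F.g h (φ l) := rfl

/-! ## B. Iteration -/

/-- The iterated product with the periodic resolutions for `g (γ 0), …, g (γ (s - 1))`. -/
def rit (F : FC ι) (γ : ℕ → ι) (k : ℕ → ℕ) : ℕ → FC ι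
  | 0 => F
  | s + 1 => (rit F γ k s).rc (γ s) (k s)

/-- The iterated product with circles; the circle number `n` has the rotation numbers `ρ (ix n)`. -/
def fcm (F : FC ι) (Q : ℕ) [NeZero Q] (ρ : ℕ → ι → ZMod Q) (ix : ℕ → ℕ) : ℕ → FC ι
  | 0 => F
  | n + 1 => (fcm F Q ρ ix n).fc Q (ρ (ix n))

/-- Degrees on `rit`. -/
def rDs (F : FC ι) (γ : ℕ → ι) (k : ℕ → ℕ) (D : ℤ → AddSubgroup F.Φ) :
    ∀ s : ℕ, ℤ → AddSubgroup (rit F γ k s).Φ
  | 0 => D
  | s + 1 => rD (rDs F γ k D s)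

/-- Degrees on `fcm`. -/
def fDs (F : FC ι) (Q : ℕ) [NeZero Q] (ρ : ℕ → ι → ZMod Q) (ix : ℕ → ℕ)
    (D : ℤ → AddSubgroup F.Φ) : ∀ n : ℕ, ℤ → AddSubgroup (fcm F Q ρ ix n).Φ
  | 0 => D
  | n + 1 => fD Q (fDs F Q ρ ix D n)

/-- A map, applied to all components. -/
def pw {Φ Ψ : Type} [AddCommGroup Φ] [AddCommGroup Ψ] (f : Φ →+ Ψ) : (ℕ → Φ) →+ (ℕ → Ψ) :=
  AddMonoidHom.mk' (fun φ l => f (φ l)) (fun _ _ => by
    funext l
    exact f.map_add _ _)

/-- A map, applied to all components. -/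
def pc {Φ Ψ : Type} [AddCommGroup Φ] [AddCommGroup Ψ] (Q : ℕ) (f : Φ →+ Ψ) :
    ((ℕ → ZMod Q → Φ) × (ℕ → ZMod Q → Φ)) →+ ((ℕ → ZMod Q → Ψ) × (ℕ → ZMod Q → Ψ)) :=
  AddMonoidHom.mk' (fun φ => (fun j c => f (φ.1 j c), fun j c => f (φ.2 j c))) (fun _ _ =>
    Prod.ext (by
      funext j c
      exact f.map_add _ _) (by
      funext j c
      exact f.map_add _ _))

/-- A map, applied to all components of `rit`. -/
def ritF {ι' : Type} {F : FC ι} {F' : FC ι'} (f : F.Φ →+ F'.Φ) (γ : ℕ → ι)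
    (k : ℕ → ℕ) (γ' : ℕ → ι') (k' : ℕ → ℕ) : ∀ s : ℕ, (rit F γ k s).Φ →+ (rit F' γ' k' s).Φ
  | 0 => f
  | s + 1 => pw (ritF f γ k γ' k' s)

/-- A map, applied to all components of `fcm`. -/
def fcmF {ι' : Type} {F : FC ι} {F' : FC ι'} (f : F.Φ →+ F'.Φ) (Q : ℕ) [NeZero Q]
    (ρ : ℕ → ι → ZMod Q) (ρ' : ℕ → ι' → ZMod Q) (ix : ℕ → ℕ) :
    ∀ n : ℕ, (fcm F Q ρ ix n).Φ →+ (fcm F' Q ρ' ix n).Φ
  | 0 => f
  | n + 1 => pc Q (fcmF f Q ρ ρ' ix n)

/-- The inclusion of the component of degree `0` in the periodic resolution. -/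
def ic {Φ : Type} [AddCommGroup Φ] : Φ →+ (ℕ → Φ) :=
  AddMonoidHom.mk' (fun φ l => if l = 0 then φ else 0) (fun φ ψ => by
    funext l
    change (if l = 0 then φ + ψ else 0) = (if l = 0 then φ else 0) + (if l = 0 then ψ else 0)
    split_ifs
    · rfl
    · rw [add_zero])

/-- The inclusion of the functionals which do not depend on the circle. -/
def jc {Φ : Type} [AddCommGroup Φ] (Q : ℕ) :
    Φ →+ ((ℕ → ZMod Q → Φ) × (ℕ → ZMod Q → Φ)) :=
  AddMonoidHom.mk' (fun φ => (fun j _ => if j = 0 then φ else 0, 0)) (fun φ ψ => by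
    refine Prod.ext ?_ ?_
    · funext j c
      change (if j = 0 then φ + ψ else 0) = (if j = 0 then φ else 0) + (if j = 0 then ψ else 0)
      split_ifs
      · rfl
      · rw [add_zero]
    · exact (add_zero 0).symm)

/-- The iterated inclusion. -/
def rI (F : FC ι) (γ : ℕ → ι) (k : ℕ → ℕ) : ∀ s : ℕ, F.Φ →+ (rit F γ k s).Φ
  | 0 => AddMonoidHom.id _
  | s + 1 => ic.comp (rI F γ k s)

/-- The iterated inclusion. -/
def fI (F : FC ι) (Q : ℕ) [NeZero Q] (ρ : ℕ → ι → ZMod Q) (ix : ℕ → ℕ) :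
    ∀ n : ℕ, F.Φ →+ (fcm F Q ρ ix n).Φ
  | 0 => AddMonoidHom.id _
  | n + 1 => (jc Q).comp (fI F Q ρ ix n)

/-- The component at the base point. -/
def rB (F : FC ι) (γ : ℕ → ι) (k : ℕ → ℕ) : ∀ s : ℕ, (rit F γ k s).Φ →+ F.Φ
  | 0 => AddMonoidHom.id _
  | s + 1 => (rB F γ k s).comp (Pi.evalAddMonoidHom (fun _ : ℕ => (rit F γ k s).Φ) 0)

/-- The component at the base point. -/
def fB (F : FC ι) (Q : ℕ) [NeZero Q] (ρ : ℕ → ι → ZMod Q) (ix : ℕ → ℕ) :
    ∀ n : ℕ, (fcm F Q ρ ix n).Φ →+ F.Φ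
  | 0 => AddMonoidHom.id _
  | n + 1 => (fB F Q ρ ix n).comp (AddMonoidHom.mk' (fun φ => φ.1 0 0) (fun _ _ => rfl))

/-! ## C. Maps and the comparison property -/

/-- `f` is compatible with `tw`, `bd` and the degrees. -/
structure Mp {ι' : Type} (A : FC ι) (F : FC ι') (DA : ℤ → AddSubgroup A.Φ)
    (DF : ℤ → AddSubgroup F.Φ) (f : A.Φ →+ F.Φ) : Prop where
  ft : ∀ φ, f (A.tw φ) = F.tw (f φ)
  fb : ∀ φ, f (A.bd φ) = F.bd (f φ)
  fD : ∀ d, ∀ φ ∈ DA d, f φ ∈ DF d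

/-- The cone of `f` is acyclic. -/
def Cn {ι' : Type} (A : FC ι) (F : FC ι') (DA : ℤ → AddSubgroup A.Φ) (DF : ℤ → AddSubgroup F.Φ)
    (f : A.Φ →+ F.Φ) : Prop :=
  ∀ (d : ℤ), ∀ a ∈ DA (d + 1), ∀ φ ∈ DF d, A.bd a = 0 → F.bd φ = f a →
    ∃ a' ∈ DA d, ∃ φ' ∈ DF (d - 1), A.bd a' = a ∧ φ = f a' + F.bd φ'

/-- The integers, in degree `0`. -/
def zc : FC Unit where
  Φ := ℤ
  tw := AddMonoidHom.id _
  bd := 0
  g := fun _ => AddMonoidHom.id _

/-- The degrees of `zc`. -/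
def zD (d : ℤ) : AddSubgroup ℤ := if d = 0 then ⊤ else ⊥

/-- The functionals on the product of the periodic resolutions. -/
abbrev zit (k : ℕ → ℕ) (s : ℕ) : FC Unit := rit zc (fun _ => ()) k s

/-- The degrees of `zit`. -/
abbrev zDs (k : ℕ → ℕ) (s : ℕ) : ℤ → AddSubgroup (zit k s).Φ := rDs zc (fun _ => ()) k zD s

/-- Multiples of `ε`. -/
def em {Φ : Type} [AddCommGroup Φ] (ε : Φ) : ℤ →+ Φ :=
  AddMonoidHom.mk' (fun j => j • ε) (fun i j => add_smul i j ε)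

/-- The cohomology of `F` vanishes in the degrees `0 < d < n` and is generated by `ε` in degree `0`.
-/
structure Acy (F : FC ι) (D : ℤ → AddSubgroup F.Φ) (n : ℤ) (ε : F.Φ) : Prop where
  deg : ε ∈ D 0
  bde : F.bd ε = 0
  ge : ∀ i, F.g i ε = ε
  inj : ∀ j : ℤ, j • ε = 0 → j = 0
  H0 : ∀ φ ∈ D 0, F.bd φ = 0 → ∃ j : ℤ, φ = j • ε
  Hd : ∀ d, 0 < d → d < n → ∀ φ ∈ D d, F.bd φ = 0 → ∃ φ' ∈ D (d - 1), φ = F.bd φ'

/-- The coboundaries of degree `n`. -/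
def cob (F : FC ι) (D : ℤ → AddSubgroup F.Φ) (n : ℤ) : AddSubgroup F.Φ := (D (n - 1)).map F.bd

/-- The truncation: degrees `< n` and the coboundaries in degree `n`. -/
def trD (F : FC ι) (D : ℤ → AddSubgroup F.Φ) (n : ℤ) (d : ℤ) : AddSubgroup F.Φ :=
  if d < n then D d else if d = n then cob F D n else ⊥

/-- The functional with value `z t` on the element of degree `2 m` of the resolution number `t`. -/
def dg (z : ℕ → ℤ) (m : ℕ) (k : ℕ → ℕ) : ∀ s : ℕ, (zit k s).Φ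
  | 0 => (0 : ℤ)
  | s + 1 => fun l => if l = 0 then dg z m k s else
      if l = 2 * m then rI zc (fun _ => ()) k s (z s) else 0

/-- The functional `x` on the edge of the resolution number `t`. -/
def ins (F : FC ι) (γ : ℕ → ι) (k : ℕ → ℕ) (t : ℕ) :
    ∀ s : ℕ, F.Φ →+ (rit F γ k s).Φ
  | 0 => 0
  | s + 1 => if t = s then AddMonoidHom.mk' (fun x l => if l = 1 then rI F γ k s x else 0) (by
        intro x y
        funext l
        change (if l = 1 then rI F γ k s (x + y) else 0) = (if l = 1 then rI F γ k s x else 0) +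
          (if l = 1 then rI F γ k s y else 0)
        split_ifs
        · rw [map_add]
        · rw [add_zero])
      else ic.comp (ins F γ k t s)

/-- Trace one operators for `g (γ t)`, `t < r`, which commute with the `g (γ s)`, `s ≠ t`. -/
def TR (F : FC ι) (D : ℤ → AddSubgroup F.Φ) (γ : ℕ → ι) (k : ℕ → ℕ) (r : ℕ) : Prop :=
  ∀ t, t < r → ∃ E : AddMonoid.End F.Φ, (∀ d, ∀ φ ∈ D d, E φ ∈ D d) ∧
    (∀ s, s < r → s ≠ t → ∀ φ, E (F.g (γ s) φ) = F.g (γ s) (E φ)) ∧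
    (∀ φ, E (F.tw φ) = F.tw (E φ)) ∧
    ∑ i ∈ Finset.range (k t), F.g (γ t) ^ i * E * F.g (γ t) ^ (k t - i) = 1

/-- `p₁`, `p₂`, `μ : F → F₂`: the two projections and the multiplication. -/
structure P2 {ι₂ : Type} (F : FC ι) (F₂ : FC ι₂) (D : ℤ → AddSubgroup F.Φ)
    (D₂ : ℤ → AddSubgroup F₂.Φ) (γ : ℕ → ι) (γ₂ : ℕ → ι₂) (s : ℕ) (μ p₁ p₂ : F.Φ →+ F₂.Φ) : Prop where
  mm : Mp F F₂ D D₂ μ
  m1 : Mp F F₂ D D₂ p₁
  m2 : Mp F F₂ D D₂ p₂
  gm : ∀ t, t ≤ s → ∀ φ, μ (F.g (γ t) φ) = F₂.g (γ₂ t) (μ φ)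
  g1 : ∀ t, t < s → ∀ φ, p₁ (F.g (γ t) φ) = F₂.g (γ₂ t) (p₁ φ)
  g1s : ∀ φ, F₂.g (γ₂ s) (p₁ φ) = p₁ φ
  g2 : ∀ t, t < s → ∀ φ, F₂.g (γ₂ t) (p₂ φ) = p₂ φ
  g2s : ∀ φ, p₂ (F.g (γ s) φ) = F₂.g (γ₂ s) (p₂ φ)

/-! ## D. Polynomials -/

/-- The functional with coefficients `κ a` on `∏ t_i^(a_i)` (for the circles); compare `HRx.Kf`. -/
def kfz (F : FC ι) (ε : F.Φ) (Q : ℕ) [NeZero Q] (ρ : ℕ → ι → ZMod Q) (ix : ℕ → ℕ) :
    ∀ n : ℕ, ((ℕ → ℕ) → ℤ) → (fcm F Q ρ ix n).Φ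
  | 0, κ => κ 0 • ε
  | n + 1, κ => (fun j _ => kfz F ε Q ρ ix n (fun a => κ (Function.update a (ix n) j)), fun _ _ => 0)

/-- The same for the periodic resolutions; the variable of the resolution number `t` is `N + t`. -/
def krz (F : FC ι) (b : ((ℕ → ℕ) → ℤ) → F.Φ) (γ : ℕ → ι) (k : ℕ → ℕ) (N : ℕ) :
    ∀ s : ℕ, ((ℕ → ℕ) → ℤ) → (rit F γ k s).Φ
  | 0, κ => b κ
  | s + 1, κ => fun l => if Even l then
      krz F b γ k N s (fun a => κ (Function.update a (N + s) (l / 2))) else 0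

/-- The coefficients of a polynomial in `M` variables. -/
def cf {M : ℕ} (p : MvPolynomial (Fin M) ℤ) (a : ℕ → ℕ) : ℤ :=
  p.coeff (Finsupp.equivFunOnFinite.symm (fun i : Fin M => a i))

/-- The coefficients of the part of degree `l`. -/
def cfl {M : ℕ} (p : MvPolynomial (Fin M) ℤ) (l : ℕ) (a : ℕ → ℕ) : ℤ :=
  if ∑ i : Fin M, a i = l then cf p a else 0

/-- `N` circles and `r` periodic resolutions. -/
abbrev zz (F : FC ι) (Q : ℕ) [NeZero Q] (ρ : ℕ → ι → ZMod Q) (ix : ℕ → ℕ) (N : ℕ)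
    (γ : ℕ → ι) (k : ℕ → ℕ) (r : ℕ) : FC ι := rit (fcm F Q ρ ix N) γ k r

/-- The degrees. -/
abbrev zzD (F : FC ι) (Q : ℕ) [NeZero Q] (ρ : ℕ → ι → ZMod Q) (ix : ℕ → ℕ) (N : ℕ)
    (γ : ℕ → ι) (k : ℕ → ℕ) (r : ℕ) (D : ℤ → AddSubgroup F.Φ) :
    ℤ → AddSubgroup (zz F Q ρ ix N γ k r).Φ :=
  rDs (fcm F Q ρ ix N) γ k (fDs F Q ρ ix D N) r

/-- The component at the base point. -/
abbrev zzB (F : FC ι) (Q : ℕ) [NeZero Q] (ρ : ℕ → ι → ZMod Q) (ix : ℕ → ℕ) (N : ℕ)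
    (γ : ℕ → ι) (k : ℕ → ℕ) (r : ℕ) : (zz F Q ρ ix N γ k r).Φ →+ F.Φ :=
  (fB F Q ρ ix N).comp (rB (fcm F Q ρ ix N) γ k r)

/-- The functional of a family of coefficients. -/
abbrev zzK (F : FC ι) (ε : F.Φ) (Q : ℕ) [NeZero Q] (ρ : ℕ → ι → ZMod Q) (ix : ℕ → ℕ)
    (N : ℕ) (γ : ℕ → ι) (k : ℕ → ℕ) (r : ℕ) : ((ℕ → ℕ) → ℤ) → (zz F Q ρ ix N γ k r).Φ :=
  krz (fcm F Q ρ ix N) (kfz F ε Q ρ ix N) γ k N r

/-- The homogeneous parts of `p` give coboundaries of elements which vanish at the base point. -/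
def InJ (F : FC ι) (D : ℤ → AddSubgroup F.Φ) (ε : F.Φ) (Q : ℕ) [NeZero Q] (ρ : ℕ → ι → ZMod Q)
    (ix : ℕ → ℕ) (N : ℕ) (γ : ℕ → ι) (k : ℕ → ℕ) (r : ℕ) (p : MvPolynomial (Fin (N + r)) ℤ) : Prop :=
  ∀ l : ℕ, ∃ w ∈ zzD F Q ρ ix N γ k r D (2 * (l : ℤ) - 1), zzB F Q ρ ix N γ k r w = 0 ∧
    (zz F Q ρ ix N γ k r).bd w = zzK F ε Q ρ ix N γ k r (cfl p l)

/-- Multiplication with the variable `j` (circles). -/
def yf (F : FC ι) (Q : ℕ) [NeZero Q] (ρ : ℕ → ι → ZMod Q) (ix : ℕ → ℕ) (j : ℕ) :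
    ∀ n : ℕ, AddMonoid.End (fcm F Q ρ ix n).Φ
  | 0 => 0
  | n + 1 => if ix n = j then
      AddMonoidHom.mk' (fun φ => (fun i c => prv (fun i => φ.1 i c) i, fun i c =>
        prv (fun i => φ.2 i c) i)) (by
        intro φ ψ
        refine Prod.ext ?_ ?_ <;>
        · funext i c
          cases i with
          | zero => exact (add_zero 0).symm
          | succ i => rfl)
      else pc Q (yf F Q ρ ix j n)

/-- Multiplication with the variable `j` (periodic resolutions; the variable of the resolution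
number `t` is `N + t`). -/
def yr (F : FC ι) (Y : AddMonoid.End F.Φ) (γ : ℕ → ι) (k : ℕ → ℕ) (N j : ℕ) :
    ∀ s : ℕ, AddMonoid.End (rit F γ k s).Φ
  | 0 => Y
  | s + 1 => if N + s = j then
      AddMonoidHom.mk' (fun φ l => prv (prv φ) l) (by
        intro φ ψ
        funext l
        cases l with
        | zero => exact (add_zero 0).symm
        | succ l =>
          cases l with
          | zero => exact (add_zero 0).symm
          | succ l => rfl)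
      else pw (yr F Y γ k N j s)

/-! ## E. The functionals on `X` and on the tensor square of the chains -/

section

variable {G : Type} [CommGroup G]

/-- The action of `g` on `X.P i`. -/
def aX (X : AX G) (g : G) (i : ℕ) : X.P i →+ X.P i :=
  AddMonoidHom.mk' (fun x => MonoidAlgebra.of ℤ G g • x) (fun x y => smul_add _ x y)

/-- The functionals on the complex `X`. -/
def fX (X : AX G) : FC G where
  Φ := ∀ i, X.P i →+ ℤ
  tw := AddMonoidHom.mk' (fun φ i => (-1 : ℤ) ^ i • φ i) (by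
    intro φ ψ
    funext i
    exact smul_add _ _ _)
  bd := AddMonoidHom.mk' (fun φ i => match i with
      | 0 => 0
      | i + 1 => (φ i).comp (X.d i).toAddMonoidHom) (by
    intro φ ψ
    funext i
    cases i with
    | zero => exact (add_zero 0).symm
    | succ i => rfl)
  g := fun h => AddMonoidHom.mk' (fun φ i => (φ i).comp (aX X h i)) (by
    intro φ ψ
    funext i
    rfl)

/-- The degrees of `fX X`. -/
def dX (X : AX G) (d : ℤ) : AddSubgroup (fX X).Φ where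
  carrier := {φ | ∀ i : ℕ, (i : ℤ) ≠ d → φ i = 0}
  add_mem' := fun {φ ψ} h h' i hi => by
    change φ i + ψ i = 0
    rw [h i hi, h' i hi, add_zero]
  zero_mem' := fun i _ => rfl
  neg_mem' := fun {φ} h i hi => by
    change -φ i = 0
    rw [h i hi, neg_zero]

/-- The augmentation as an element of `fX X`. -/
def eX (X : AX G) : (fX X).Φ := fun i => match i with
  | 0 => X.ε
  | _ + 1 => 0

/-- The functionals on the tensor square of the chains of `E`. -/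
def f2 {E : Type} [TopologicalSpace E] (act : G → C(E, E)) : FC (G × G) where
  Φ := Ch ℤ (Sing E) ⊗[ℤ] Ch ℤ (Sing E) →ₗ[ℤ] ℤ
  tw := AddMonoidHom.mk' (fun φ => φ ∘ₗ ((cz (Sing E)).tens (cz (Sing E))).sg) (fun _ _ => rfl)
  bd := AddMonoidHom.mk' (fun φ => φ ∘ₗ ((cz (Sing E)).tens (cz (Sing E))).d) (fun _ _ => rfl)
  g := fun h => AddMonoidHom.mk' (fun φ => φ ∘ₗ
    TensorProduct.map (cmap ℤ (SingMap (act h.1))) (cmap ℤ (SingMap (act h.2)))) (fun _ _ => rfl)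

/-- An element of `f2 act` as a functional. -/
def v2 {E : Type} [TopologicalSpace E] {act : G → C(E, E)} (φ : (f2 act).Φ) :
    Ch ℤ (Sing E) ⊗[ℤ] Ch ℤ (Sing E) →ₗ[ℤ] ℤ := φ

/-- The degrees of `f2 act`. -/
def d2 {E : Type} [TopologicalSpace E] (act : G → C(E, E)) (d : ℤ) : AddSubgroup (f2 act).Φ where
  carrier := {φ | ∀ i : ℕ, (i : ℤ) ≠ d → ∀ z ∈ tgr (gr ℤ (Sing E)) (gr ℤ (Sing E)) i,
    v2 φ z = 0}
  add_mem' := fun {φ ψ} h h' i hi z hz => (congrArg₂ (· + ·) (h i hi z hz) (h' i hi z hz)).trans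
    (add_zero 0)
  zero_mem' := fun i _ z _ => rfl
  neg_mem' := fun {φ} h i hi z hz => (congrArg Neg.neg (h i hi z hz)).trans neg_zero

/-- A functional on `X` as a functional on the chains of `E`. -/
def pX {X : AX G} {E : Type} [TopologicalSpace E] {act : G → C(E, E)}
    (Λ : Lk X E act) : (fX X).Φ →+ (Ch ℤ (Sing E) →ₗ[ℤ] ℤ) :=
  AddMonoidHom.mk' (fun φ => Finsupp.linearCombination ℤ
    (fun x : Σ n, (Sing E).K n => φ x.1 (Λ.f' x.1 (Finsupp.single x 1)))) (by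
    intro φ ψ
    apply Finsupp.lhom_ext'
    intro x
    apply LinearMap.ext_ring
    simp only [LinearMap.comp_apply, Finsupp.lsingle_apply, LinearMap.add_apply,
      Finsupp.linearCombination_single, one_smul]
    rfl)

/-- Decomposition of a finite abelian group into cyclic groups: the elements `γ 0, …, γ (r - 1)` of
order dividing `k 0, …, k (r - 1)`. -/
structure Bs (G : Type) [CommGroup G] (r : ℕ) (γ : ℕ → G) (k : ℕ → ℕ) : Prop where
  pos : ∀ t, 0 < k t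
  per : ∀ t, γ t ^ k t = 1
  bij : Function.Bijective (fun a : (∀ t : Fin r, Fin (k t)) => ∏ t : Fin r, γ t ^ (a t : ℕ))

end

end

end HVx
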