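import Pool.Agent.Lib.MP_181146_gt.HV.DefsV

/-!
# Project HV (part V): further definitions
-/

set_option autoImplicit false
set_option linter.unusedVariables false

noncomputable section

namespace HVx

open scoped TensorProduct
open HEp HPx HRx HTx

section

variable {ι : Type}

/-- Multiples of `ε`, on the products with the periodic resolutions. -/
abbrev eR (F : FC ι) (ε : F.Φ) (γ : ℕ → ι) (k : ℕ → ℕ) (r : ℕ) : (zit k r).Φ →+ (rit F γ k r).Φ :=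
  ritF (F := zc) (F' := F) (em ε) (fun _ => ()) k γ k r

/-- The operators `g (γ t)`, `t < r`, have period `k t`. -/
def Per (F : FC ι) (γ : ℕ → ι) (k : ℕ → ℕ) (r : ℕ) : Prop := ∀ t, t < r → F.g (γ t) ^ k t = 1

/-- No torsion. -/
def TF (Φ : Type) [AddCommGroup Φ] : Prop := ∀ (j : ℤ) (φ : Φ), j ≠ 0 → j • φ = 0 → φ = 0

/-- Multiples of `ε` on the edges of the circle of the variable `i`. -/
def eE (F : FC ι) (ε : F.Φ) (Q : ℕ) [NeZero Q] (ρ : ℕ → ι → ZMod Q) (ix : ℕ → ℕ) (i : ℕ)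
    (f : ZMod Q → ℤ) : ∀ n : ℕ, (fcm F Q ρ ix n).Φ
  | 0 => 0
  | n + 1 => if ix n = i then ((0, fun j c => if j = 0 then f c • fI F Q ρ ix n ε else 0) :
      (ℕ → ZMod Q → (fcm F Q ρ ix n).Φ) × (ℕ → ZMod Q → (fcm F Q ρ ix n).Φ))
      else jc Q (eE F ε Q ρ ix i f n)

/-- Multiples of `ε` on the vertices of the circle of the variable `i`. -/
def eV (F : FC ι) (ε : F.Φ) (Q : ℕ) [NeZero Q] (ρ : ℕ → ι → ZMod Q) (ix : ℕ → ℕ) (i : ℕ)
    (f : ZMod Q → ℤ) : ∀ n : ℕ, (fcm F Q ρ ix n).Φ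
  | 0 => 0
  | n + 1 => if ix n = i then ((fun j c => if j = 0 then f c • fI F Q ρ ix n ε else 0, 0) :
      (ℕ → ZMod Q → (fcm F Q ρ ix n).Φ) × (ℕ → ZMod Q → (fcm F Q ρ ix n).Φ))
      else jc Q (eV F ε Q ρ ix i f n)

/-- Multiplication of the coefficients with the variable `j`. -/
def shc (j : ℕ) (κ : (ℕ → ℕ) → ℤ) (a : ℕ → ℕ) : ℤ :=
  if a j = 0 then 0 else κ (Function.update a j (a j - 1))

end

/-! ## The maps to the functionals on the tensor square -/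

section

variable {G : Type} [CommGroup G] {X : AX G} {E : Type} [TopologicalSpace E] {act : G → C(E, E)}

/-- `1 ⊗ aug`. -/
def q1 (K : SS) : Ch ℤ K ⊗[ℤ] Ch ℤ K →ₗ[ℤ] Ch ℤ K :=
  (TensorProduct.rid ℤ (Ch ℤ K)).toLinearMap ∘ₗ TensorProduct.map LinearMap.id (aug ℤ K)

/-- `aug ⊗ 1`. -/
def q2 (K : SS) : Ch ℤ K ⊗[ℤ] Ch ℤ K →ₗ[ℤ] Ch ℤ K :=
  (TensorProduct.lid ℤ (Ch ℤ K)).toLinearMap ∘ₗ TensorProduct.map (aug ℤ K) LinearMap.id

/-- The pull back of a functional by the map `A` from the tensor square to the chains. -/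
def pb2 (Λ : Lk X E act) (A : Ch ℤ (Sing E) ⊗[ℤ] Ch ℤ (Sing E) →ₗ[ℤ] Ch ℤ (Sing E)) :
    (fX X).Φ →+ (f2 act).Φ :=
  AddMonoidHom.mk' (fun φ => (pX Λ φ ∘ₗ A : Ch ℤ (Sing E) ⊗[ℤ] Ch ℤ (Sing E) →ₗ[ℤ] ℤ)) (by
    intro φ ψ
    rw [map_add]
    rfl)

/-- `aug ⊗ aug` as an element of `f2 act`. -/
def e2 (act : G → C(E, E)) : (f2 act).Φ :=
  (augT (aug ℤ (Sing E)) (aug ℤ (Sing E)) : Ch ℤ (Sing E) ⊗[ℤ] Ch ℤ (Sing E) →ₗ[ℤ] ℤ)

/-- The operators on the tensor square for `γ 0, …, γ (s - 1)` on the first factor and `γ s` on the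
second. -/
def gam2 (γ : ℕ → G) (s t : ℕ) : G × G := if t < s then (γ t, 1) else (1, γ s)

/-- The rotation numbers of the characters `χ i`. -/
def rot {Q : ℕ} (χ : ℕ → G →* Multiplicative (ZMod Q)) (i : ℕ) (h : G) : ZMod Q :=
  Multiplicative.toAdd (χ i h)

end

end HVx
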