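import Pool.Agent.Lib.MP_181146_gt.HV.SpecV

/-!
# Project HV, part B: `FcI`, the inclusion `jc` and the base component
-/

set_option autoImplicit false

noncomputable section

namespace HVx

open HEp HPx HRx HTx

private lemma apIte {A B : Type} [AddCommGroup A] [AddCommGroup B] (f : A →+ B) (p : Prop)
    [Decidable p] (φ : A) : f (if p then φ else 0) = if p then f φ else 0 := by
  split_ifs
  · rfl
  · exact map_zero f

theorem sFcI : S_FcI := by
  intro ι F D Q _ ρ hF hD
  refine ⟨⟨?_, ?_, ?_⟩, ?_, ?_⟩
  · intro φ
    refine Prod.ext ?_ ?_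
    · funext j c
      exact (apIte F.tw (j = 0) φ).symm
    · funext j c
      change (0 : F.Φ) = -F.tw 0
      rw [map_zero, neg_zero]
  · intro φ
    refine Prod.ext ?_ ?_
    · funext j c
      change (if j = 0 then F.bd φ else 0) = F.bd (if j = 0 then φ else 0) +
        prv (fun _ => ∑ _a : ZMod Q, F.tw (0 : F.Φ)) j
      refine (apIte F.bd (j = 0) φ).symm.trans ?_
      cases j with
      | zero => exact (add_zero _).symm
      | succ j =>
        change F.bd (if j + 1 = 0 then φ else 0) = F.bd (if j + 1 = 0 then φ else 0) +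
          ∑ _a : ZMod Q, F.tw (0 : F.Φ)
        rw [map_zero F.tw, Finset.sum_const_zero, add_zero]
    · funext j c
      change (0 : F.Φ) = F.bd 0 + (F.tw (if j = 0 then φ else 0) - F.tw (if j = 0 then φ else 0))
      rw [map_zero, sub_self, add_zero]
  · intro d φ hφ j c
    refine ⟨?_, ?_⟩
    · change (if j = 0 then φ else 0) ∈ D (d - 2 * (j : ℤ))
      split_ifs with h
      · rw [h, Nat.cast_zero, mul_zero, sub_zero]
        exact hφ
      · exact zero_mem _
    · exact zero_mem _
  · intro i φ
    refine Prod.ext ?_ ?_
    · funext j c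
      exact apIte (F.g i) (j = 0) φ
    · funext j c
      exact map_zero (F.g i)
  · intro φ
    exact add_zero _

end HVx
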