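import Pool.Agent.Lib.MP_181146_gt.HV.SpecV

/-!
# Project HV (part V), module KRn: polynomials in the variables of the circles only
-/

set_option autoImplicit false
set_option linter.unusedVariables false

noncomputable section

namespace HVx

open scoped TensorProduct
open HEp HPx HRx HTx

/-- `kfz` depends only on the coefficients at the `a` which vanish at all places `≥ N`. -/
private theorem KRn_loc {ι : Type} (F : FC ι) (ε : F.Φ) (Q : ℕ) [NeZero Q]
    (ρ : ℕ → ι → ZMod Q) (ix : ℕ → ℕ) (N : ℕ) (n : ℕ) (hix : ∀ a, a < n → ix a < N) :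
    ∀ κ κ' : (ℕ → ℕ) → ℤ, (∀ a : ℕ → ℕ, (∀ j, N ≤ j → a j = 0) → κ a = κ' a) →
      kfz F ε Q ρ ix n κ = kfz F ε Q ρ ix n κ' := by
  induction n with
  | zero =>
    intro κ κ' h
    change κ 0 • ε = κ' 0 • ε
    rw [h 0 fun _ _ => rfl]
  | succ n ih =>
    intro κ κ' h
    have h1 := ih fun a ha => hix a (Nat.lt_succ_of_lt ha)
    have h2 : ix n < N := hix n (Nat.lt_succ_self n)
    change ((fun j _ => kfz F ε Q ρ ix n (fun a => κ (Function.update a (ix n) j)),
      fun _ _ => 0) : (ℕ → ZMod Q → (fcm F Q ρ ix n).Φ) × (ℕ → ZMod Q → (fcm F Q ρ ix n).Φ)) =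
      (fun j _ => kfz F ε Q ρ ix n (fun a => κ' (Function.update a (ix n) j)), fun _ _ => 0)
    refine Prod.ext ?_ rfl
    funext j c
    change kfz F ε Q ρ ix n (fun a => κ (Function.update a (ix n) j)) =
      kfz F ε Q ρ ix n (fun a => κ' (Function.update a (ix n) j))
    refine h1 _ _ fun a ha => h _ fun i hi => ?_
    have h3 : i ≠ ix n := by omega
    rw [Function.update_of_ne h3]
    exact ha i hi

private theorem KRn_zero {ι : Type} (F : FC ι) (ε : F.Φ) (Q : ℕ) [NeZero Q]
    (ρ : ℕ → ι → ZMod Q) (ix : ℕ → ℕ) (n : ℕ) :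
    kfz F ε Q ρ ix n (fun _ => 0) = 0 := by
  induction n with
  | zero => exact zero_smul ℤ ε
  | succ n ih =>
    change ((fun j _ => kfz F ε Q ρ ix n (fun _ => 0),
      fun _ _ => 0) : (ℕ → ZMod Q → (fcm F Q ρ ix n).Φ) × (ℕ → ZMod Q → (fcm F Q ρ ix n).Φ)) = 0
    rw [ih]
    rfl

/-- `krz` of a family of coefficients which vanishes if one of the new variables occurs. -/
private theorem KRn_krz {ι : Type} (F : FC ι) (b : ((ℕ → ℕ) → ℤ) → F.Φ) (γ : ℕ → ι) (k : ℕ → ℕ)
    (N : ℕ) (hb0 : b (fun _ => 0) = 0)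
    (hb : ∀ κ κ' : (ℕ → ℕ) → ℤ, (∀ a : ℕ → ℕ, (∀ j, N ≤ j → a j = 0) → κ a = κ' a) → b κ = b κ')
    (s : ℕ) : ∀ κ : (ℕ → ℕ) → ℤ, (∀ (a : ℕ → ℕ) (t : ℕ), t < s → a (N + t) ≠ 0 → κ a = 0) →
      krz F b γ k N s κ = rI F γ k s (b κ) := by
  induction s with
  | zero => exact fun κ _ => rfl
  | succ s ih =>
    intro κ hκ
    funext l
    change (if Even l then krz F b γ k N s (fun a => κ (Function.update a (N + s) (l / 2))) else 0) =
      if l = 0 then rI F γ k s (b κ) else 0
    rcases Nat.eq_zero_or_pos l with rfl | hl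
    · rw [if_pos (by decide), if_pos rfl, ih]
      · congr 1
        refine hb _ _ fun a ha => ?_
        have h1 : Function.update a (N + s) (0 / 2) = a := by
          rw [Nat.zero_div, ← ha (N + s) (Nat.le_add_right N s), Function.update_eq_self]
        rw [h1]
      · intro a t ht hat
        refine hκ _ t (Nat.lt_succ_of_lt ht) ?_
        rw [Function.update_of_ne (by omega)]
        exact hat
    · rw [if_neg hl.ne']
      by_cases he : Even l
      · rw [if_pos he]
        have h0 : (fun a : ℕ → ℕ => κ (Function.update a (N + s) (l / 2))) = fun _ => 0 := by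
          funext a
          refine hκ _ s (Nat.lt_succ_self s) ?_
          rw [Function.update_self]
          obtain ⟨m, hm⟩ := he
          omega
        rw [h0, ih _ fun _ _ _ _ => rfl, hb0, map_zero]
      · rw [if_neg he]

theorem sKRn : S_KRn := by
  intro ι F ε Q _ ρ ix N γ k r l p hix
  have hloc := KRn_loc F ε Q ρ ix N N hix
  have h1 : zzK F ε Q ρ ix N γ k r (cfl (MvPolynomial.rename (Fin.castAdd r) p) l) =
      rI (fcm F Q ρ ix N) γ k r
        (kfz F ε Q ρ ix N (cfl (MvPolynomial.rename (Fin.castAdd r) p) l)) := by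
    refine KRn_krz (fcm F Q ρ ix N) (kfz F ε Q ρ ix N) γ k N (KRn_zero F ε Q ρ ix N) hloc r _ ?_
    intro a t ht hat
    have h2 : cf (MvPolynomial.rename (Fin.castAdd r) p) a = 0 := by
      unfold cf
      apply MvPolynomial.coeff_rename_eq_zero
      intro u hu
      exfalso
      apply hat
      have h3 := DFunLike.congr_fun hu (Fin.natAdd N (⟨t, ht⟩ : Fin r))
      rw [Finsupp.mapDomain_of_notMem_range] at h3
      · exact h3.symm
      · rintro ⟨i, hi⟩
        have h4 := congrArg Fin.val hi
        simp only [Fin.val_castAdd, Fin.val_natAdd] at h4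
        have := i.2
        omega
    unfold cfl
    rw [h2]
    split_ifs <;> rfl
  rw [h1]
  congr 1
  refine hloc _ _ fun a ha => ?_
  have hs : ∑ i : Fin (N + r), a i = ∑ i : Fin N, a i := by
    rw [Fin.sum_univ_add]
    have h3 : ∑ i : Fin r, a (Fin.natAdd N i : Fin (N + r)) = 0 :=
      Finset.sum_eq_zero fun i _ => ha _ (by rw [Fin.val_natAdd]; exact Nat.le_add_right N i)
    rw [h3, add_zero]
    rfl
  have hc : cf (MvPolynomial.rename (Fin.castAdd r) p) a = cf p a := by
    unfold cf
    rw [← MvPolynomial.coeff_rename_mapDomain (Fin.castAdd r) (Fin.castAdd_injective N r) p]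
    congr 1
    ext i
    refine Fin.addCases (fun i => ?_) (fun i => ?_) i
    · rw [Finsupp.mapDomain_apply (Fin.castAdd_injective N r)]
      rfl
    · rw [Finsupp.mapDomain_of_notMem_range]
      · change a (Fin.natAdd N i : Fin (N + r)) = 0
        exact ha _ (by rw [Fin.val_natAdd]; exact Nat.le_add_right N i)
      · rintro ⟨j, hj⟩
        have h4 := congrArg Fin.val hj
        simp only [Fin.val_castAdd, Fin.val_natAdd] at h4
        have := j.2
        omega
  unfold cfl
  rw [hs, hc]

end HVx
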