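import Pool.Agent.Lib.MP_181146_gt.HV.SpecV

/-!
# Project HV (part V): the functionals of some families of coefficients
-/

set_option autoImplicit false
set_option linter.unusedVariables false

noncomputable section

namespace HVx

open HEp HPx HRx HTx

namespace Kx

variable {ι : Type}

/-- The diagonal functional with values `z s • x`. -/
def DD (F : FC ι) (x : F.Φ) (γ : ℕ → ι) (k : ℕ → ℕ) (m : ℕ) (z : ℕ → ℤ) :
    ∀ s : ℕ, (rit F γ k s).Φ
  | 0 => (0 : F.Φ)
  | s + 1 => fun l => if l = 0 then DD F x γ k m z s else
      if l = 2 * m then rI F γ k s (z s • x) else 0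

/-- The coefficients of `∑ z t X_(N + t)^m`. -/
def fam (N r m : ℕ) (z : ℕ → ℤ) (a : ℕ → ℕ) : ℤ :=
  ∑ t ∈ Finset.range r, if a (N + t) = m ∧ ∀ i, i < N + r → i ≠ N + t → a i = 0 then z t else 0

/-- The coefficients of the constant `c`. -/
def cst (M : ℕ) (c : ℤ) (a : ℕ → ℕ) : ℤ := if ∀ i, i < M → a i = 0 then c else 0

theorem kfz_zero (F : FC ι) (ε : F.Φ) (Q : ℕ) [NeZero Q] (ρ : ℕ → ι → ZMod Q) (ix : ℕ → ℕ)
    (n : ℕ) : kfz F ε Q ρ ix n (fun _ => 0) = 0 := by
  induction n with
  | zero => exact zero_smul ℤ ε
  | succ n ih =>
    refine Prod.ext ?_ ?_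
    · funext j c
      exact ih
    · rfl

theorem kfz_cst0 (F : FC ι) (ε : F.Φ) (Q : ℕ) [NeZero Q] (ρ : ℕ → ι → ZMod Q) (ix : ℕ → ℕ)
    (c : ℤ) (n : ℕ) (hi : ∀ a b, a < n → b < n → ix a = ix b → a = b) :
    kfz F ε Q ρ ix n (fun a => if ∀ j, j < n → a (ix j) = 0 then c else 0) =
      fI F Q ρ ix n (c • ε) := by
  induction n with
  | zero =>
    exact congrArg (fun d : ℤ => d • ε) (if_pos (fun j h => absurd h (Nat.not_lt_zero j)))
  | succ n ih =>
    have ih' := ih (fun a b ha hb => hi a b (by omega) (by omega))
    have hne : ∀ j, j < n → ix j ≠ ix n := fun j hj h => by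
      have := hi j n (by omega) (by omega) h
      omega
    refine Prod.ext ?_ ?_
    · funext j d
      change kfz F ε Q ρ ix n (fun a => if ∀ j', j' < n + 1 →
        Function.update a (ix n) j (ix j') = 0 then c else 0) =
        if j = 0 then fI F Q ρ ix n (c • ε) else 0
      by_cases hj : j = 0
      · rw [if_pos hj, ← ih']
        apply congrArg
        funext a
        apply if_congr _ rfl rfl
        constructor
        · intro h j' hj'
          have := h j' (by omega)
          rwa [Function.update_of_ne (hne j' hj')] at this
        · intro h j' hj'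
          by_cases h1 : j' = n
          · rw [h1, Function.update_self]
            exact hj
          · rw [Function.update_of_ne (hne j' (by omega))]
            exact h j' (by omega)
      · rw [if_neg hj]
        refine Eq.trans ?_ (kfz_zero F ε Q ρ ix n)
        apply congrArg
        funext a
        apply if_neg
        intro h
        have := h n (by omega)
        rw [Function.update_self] at this
        exact hj this
    · rfl

theorem surj (N : ℕ) (ix : ℕ → ℕ) (h1 : ∀ a, a < N → ix a < N)
    (h2 : ∀ a b, a < N → b < N → ix a = ix b → a = b) (i : ℕ) (hi : i < N) :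
    ∃ j, j < N ∧ ix j = i := by
  have hinj : Function.Injective (fun j : Fin N => (⟨ix j, h1 j j.2⟩ : Fin N)) := by
    intro a b h
    apply Fin.ext
    exact h2 a b a.2 b.2 (congrArg Fin.val h)
  obtain ⟨j, hj⟩ := (Finite.injective_iff_surjective.mp hinj) ⟨i, hi⟩
  exact ⟨j, j.2, congrArg Fin.val hj⟩

theorem kfz_cst (F : FC ι) (ε : F.Φ) (Q : ℕ) [NeZero Q] (ρ : ℕ → ι → ZMod Q) (ix : ℕ → ℕ)
    (c : ℤ) (N : ℕ) (h1 : ∀ a, a < N → ix a < N)
    (h2 : ∀ a b, a < N → b < N → ix a = ix b → a = b) :
    kfz F ε Q ρ ix N (cst N c) = fI F Q ρ ix N (c • ε) := by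
  rw [← kfz_cst0 F ε Q ρ ix c N h2]
  apply congrArg
  funext a
  unfold cst
  apply if_congr _ rfl rfl
  constructor
  · intro h j hj
    exact h _ (h1 j hj)
  · intro h i hi
    obtain ⟨j, hj, rfl⟩ := surj N ix h1 h2 i hi
    exact h j hj

theorem krz_zero (F : FC ι) (b : ((ℕ → ℕ) → ℤ) → F.Φ) (γ : ℕ → ι) (k : ℕ → ℕ) (N r : ℕ)
    (h : b (fun _ => 0) = 0) : krz F b γ k N r (fun _ => 0) = 0 := by
  induction r with
  | zero => exact h
  | succ r ih =>
    funext l
    change (if Even l then krz F b γ k N r (fun _ => 0) else 0) = 0
    rw [ih]
    exact ite_self _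

theorem krz_cst (F : FC ι) (b : ((ℕ → ℕ) → ℤ) → F.Φ) (γ : ℕ → ι) (k : ℕ → ℕ) (N r : ℕ)
    (h : b (fun _ => 0) = 0) (c : ℤ) :
    krz F b γ k N r (cst (N + r) c) = rI F γ k r (b (cst N c)) := by
  induction r with
  | zero => rfl
  | succ r ih =>
    funext l
    change (if Even l then krz F b γ k N r (fun a => cst (N + (r + 1)) c
      (Function.update a (N + r) (l / 2))) else 0) =
      if l = 0 then rI F γ k r (b (cst N c)) else 0
    by_cases hl : l = 0
    · rw [if_pos hl, if_pos (by rw [hl]; exact Even.zero), ← ih]
      apply congrArg
      funext a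
      unfold cst
      apply if_congr _ rfl rfl
      constructor
      · intro h' i hi
        have := h' i (by omega)
        rwa [Function.update_of_ne (by omega)] at this
      · intro h' i hi
        by_cases h1 : i = N + r
        · rw [h1, Function.update_self, hl]
        · rw [Function.update_of_ne h1]
          exact h' i (by omega)
    · rw [if_neg hl]
      by_cases he : Even l
      · rw [if_pos he]
        refine Eq.trans ?_ (krz_zero F b γ k N r h)
        apply congrArg
        funext a
        apply if_neg
        intro h'
        have := h' (N + r) (by omega)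
        rw [Function.update_self] at this
        obtain ⟨j, hj⟩ := he
        omega
      · rw [if_neg he]

theorem krz_fam (F : FC ι) (b : ((ℕ → ℕ) → ℤ) → F.Φ) (γ : ℕ → ι) (k : ℕ → ℕ) (N r m : ℕ)
    (z : ℕ → ℤ) (x : F.Φ) (hm : 0 < m)
    (h : b (fun _ => 0) = 0) (h' : ∀ c : ℤ, b (cst N c) = c • x) :
    krz F b γ k N r (fam N r m z) = DD F x γ k m z r := by
  induction r with
  | zero =>
    change b (fun a => ∑ t ∈ Finset.range 0, _) = 0
    simp only [Finset.range_zero, Finset.sum_empty]
    exact h
  | succ r ih =>
    funext l
    change (if Even l then krz F b γ k N r (fun a => fam N (r + 1) m z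
      (Function.update a (N + r) (l / 2))) else 0) =
      if l = 0 then DD F x γ k m z r else if l = 2 * m then rI F γ k r (z r • x) else 0
    have key : ∀ a : ℕ → ℕ, fam N (r + 1) m z (Function.update a (N + r) (l / 2)) =
        (if l / 2 = 0 then fam N r m z a else 0) + (if l / 2 = m then cst (N + r) (z r) a else 0) := by
      intro a
      unfold fam
      rw [Finset.sum_range_succ]
      apply congrArg₂
      · by_cases hl : l / 2 = 0
        · rw [if_pos hl]
          apply Finset.sum_congr rfl
          intro t ht
          have ht' := Finset.mem_range.mp ht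
          apply if_congr _ rfl rfl
          rw [Function.update_of_ne (by omega)]
          apply and_congr Iff.rfl
          constructor
          · intro h1 i hi hi'
            have := h1 i (by omega) hi'
            rwa [Function.update_of_ne (by omega)] at this
          · intro h1 i hi hi'
            by_cases h2 : i = N + r
            · rw [h2, Function.update_self, hl]
            · rw [Function.update_of_ne h2]
              exact h1 i (by omega) hi'
        · rw [if_neg hl]
          apply Finset.sum_eq_zero
          intro t ht
          have ht' := Finset.mem_range.mp ht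
          apply if_neg
          intro h1
          have := h1.2 (N + r) (by omega) (by omega)
          rw [Function.update_self] at this
          exact hl this
      · unfold cst
        rw [Function.update_self]
        by_cases hl : l / 2 = m
        · rw [if_pos hl]
          apply if_congr _ rfl rfl
          constructor
          · intro h1 i hi
            have := h1.2 i (by omega) (by omega)
            rwa [Function.update_of_ne (by omega)] at this
          · intro h1
            refine ⟨hl, fun i hi hi' => ?_⟩
            rw [Function.update_of_ne hi']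
            exact h1 i (by omega)
        · rw [if_neg hl]
          exact if_neg (fun h1 => hl h1.1)
    by_cases he : Even l
    · rw [if_pos he]
      obtain ⟨j, hj⟩ := he
      have hj' : l / 2 = j := by omega
      rw [hj'] at key
      rw [hj']
      by_cases hl : l = 0
      · rw [if_pos hl, ← ih]
        apply congrArg
        funext a
        rw [key a, if_pos (by omega), if_neg (by omega), add_zero]
      · rw [if_neg hl]
        by_cases hl' : l = 2 * m
        · rw [if_pos hl', ← h' (z r), ← krz_cst F b γ k N r h (z r)]
          apply congrArg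
          funext a
          rw [key a, if_neg (by omega), if_pos (by omega), zero_add]
        · rw [if_neg hl']
          refine Eq.trans ?_ (krz_zero F b γ k N r h)
          apply congrArg
          funext a
          rw [key a, if_neg (by omega), if_neg (by omega), zero_add]
    · rw [if_neg he, if_neg (fun h1 => he (by rw [h1]; exact Even.zero)), if_neg (fun h1 => he
        (by rw [h1]; exact even_two_mul m))]

/-- The coefficients of a sum of powers of the variables of the resolutions. -/
theorem cfl_sum (N r m : ℕ) (z : ℕ → ℤ) :
    cfl (∑ t : Fin r, MvPolynomial.C (z t) *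
        MvPolynomial.X (Fin.natAdd N t) ^ m : MvPolynomial (Fin (N + r)) ℤ) m = fam N r m z := by
  classical
  funext a
  unfold cfl cf fam
  rw [Finset.sum_range]
  have key : ∀ t : Fin r, Finsupp.single (Fin.natAdd N t) m =
      Finsupp.equivFunOnFinite.symm (fun i : Fin (N + r) => a i) ↔
      (a (N + t) = m ∧ ∀ i, i < N + r → i ≠ N + (t : ℕ) → a i = 0) := by
    intro t
    constructor
    · intro h
      refine ⟨?_, fun i hi hi' => ?_⟩
      · have := DFunLike.congr_fun h (Fin.natAdd N t)
        rw [Finsupp.single_eq_same] at this
        exact this.symm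
      · have := DFunLike.congr_fun h ⟨i, hi⟩
        rw [Finsupp.single_apply, if_neg] at this
        · exact this.symm
        · intro h1
          exact hi' (congrArg Fin.val h1).symm
    · intro h
      apply Finsupp.ext
      intro i
      rw [Finsupp.single_apply]
      change _ = a i
      by_cases hi : Fin.natAdd N t = i
      · rw [if_pos hi, ← hi]
        exact h.1.symm
      · rw [if_neg hi]
        exact (h.2 i i.2 (fun h1 => hi (Fin.ext h1.symm))).symm
  have hs : ∀ t : Fin r, (a (N + t) = m ∧ ∀ i, i < N + r → i ≠ N + (t : ℕ) → a i = 0) →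
      ∑ i : Fin (N + r), a i = m := by
    intro t h
    rw [Finset.sum_eq_single (Fin.natAdd N t)]
    · exact h.1
    · intro i _ hi
      exact h.2 i i.2 (fun h1 => hi (Fin.ext h1))
    · intro h1
      exact absurd (Finset.mem_univ _) h1
  by_cases hm : ∑ i : Fin (N + r), a i = m
  · rw [if_pos hm, MvPolynomial.coeff_sum]
    apply Finset.sum_congr rfl
    intro t _
    rw [MvPolynomial.coeff_C_mul, MvPolynomial.coeff_X_pow]
    rw [mul_ite, mul_one, mul_zero]
    exact if_congr (key t) rfl rfl
  · rw [if_neg hm]
    symm
    apply Finset.sum_eq_zero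
    intro t _
    exact if_neg (fun h => hm (hs t h))

end Kx

end HVx
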