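import Pool.Agent.Lib.MP_181146_gt.HV.KxA

/-!
# Project HV (part V): the coboundary of `ins t x`
-/

set_option autoImplicit false
set_option linter.unusedVariables false

noncomputable section

namespace HVx

open HEp HPx HRx HTx

namespace Kx

variable {ι : Type}

theorem ins_eq (F : FC ι) (γ : ℕ → ι) (k : ℕ → ℕ) (s : ℕ) (x : F.Φ) (l : ℕ) :
    (ins F γ k s (s + 1) x : ℕ → (rit F γ k s).Φ) l = if l = 1 then rI F γ k s x else 0 := by
  have e : ins F γ k s (s + 1) = (if s = s then AddMonoidHom.mk' (fun x l => if l = 1 then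
      rI F γ k s x else 0) (by
        intro x y
        funext l
        change (if l = 1 then rI F γ k s (x + y) else 0) = (if l = 1 then rI F γ k s x else 0) +
          (if l = 1 then rI F γ k s y else 0)
        split_ifs
        · rw [map_add]
        · rw [add_zero])
      else ic.comp (ins F γ k s s)) := rfl
  rw [e, if_pos rfl]
  rfl

theorem ins_ne (F : FC ι) (γ : ℕ → ι) (k : ℕ → ℕ) (t s : ℕ) (h : t ≠ s) (x : F.Φ) :
    ins F γ k t (s + 1) x = (ic (ins F γ k t s x) : ℕ → (rit F γ k s).Φ) := by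
  have e : ins F γ k t (s + 1) = (if t = s then AddMonoidHom.mk' (fun x l => if l = 1 then
      rI F γ k s x else 0) (by
        intro x y
        funext l
        change (if l = 1 then rI F γ k s (x + y) else 0) = (if l = 1 then rI F γ k s x else 0) +
          (if l = 1 then rI F γ k s y else 0)
        split_ifs
        · rw [map_add]
        · rw [add_zero])
      else ic.comp (ins F γ k t s)) := rfl
  rw [e, if_neg h]
  rfl

theorem tw_ins (h : S_RitI) (F : FC ι) (D : ℤ → AddSubgroup F.Φ) (hF : F.OK) (hD : DOK F D)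
    (γ : ℕ → ι) (k : ℕ → ℕ) (t s : ℕ) (x : F.Φ) :
    (rit F γ k s).tw (ins F γ k t s x) = -ins F γ k t s (F.tw x) := by
  induction s with
  | zero =>
    change F.tw 0 = -(0 : F.Φ)
    rw [map_zero, neg_zero]
  | succ s ih =>
    funext l
    by_cases hts : t = s
    · subst hts
      change (-1 : ℤ) ^ l • (rit F γ k t).tw ((ins F γ k t (t + 1) x : ℕ → (rit F γ k t).Φ) l) =
        -(ins F γ k t (t + 1) (F.tw x) : ℕ → (rit F γ k t).Φ) l
      rw [ins_eq, ins_eq]
      by_cases hl : l = 1
      · rw [if_pos hl, if_pos hl, hl, (h ι F D γ k t hF hD).1 x, pow_one, neg_smul, one_smul]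
      · rw [if_neg hl, if_neg hl, map_zero, smul_zero, neg_zero]
    · rw [ins_ne F γ k t s hts, ins_ne F γ k t s hts]
      change (-1 : ℤ) ^ l • (rit F γ k s).tw (if l = 0 then ins F γ k t s x else 0) =
        -(if l = 0 then ins F γ k t s (F.tw x) else 0)
      by_cases hl : l = 0
      · rw [if_pos hl, if_pos hl, ih, hl, pow_zero, one_smul]
      · rw [if_neg hl, if_neg hl, map_zero, smul_zero, neg_zero]

theorem tau_even {Φ : Type} [AddCommGroup Φ] (g : AddMonoid.End Φ) (k : ℕ) (x : Φ) (h : g x = x) :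
    tau g k 2 x = (k : ℤ) • x := by
  have e : tau g k 2 = ∑ a ∈ Finset.range k, g ^ a := if_pos even_two
  have e' : (∑ a ∈ Finset.range k, g ^ a) x = ∑ a ∈ Finset.range k, (g ^ a) x :=
    map_sum (AddMonoidHom.mk' (fun f : AddMonoid.End Φ => f x) (fun _ _ => rfl)) _ _
  rw [e, e']
  have hp : ∀ a : ℕ, (g ^ a) x = x := by
    intro a
    induction a with
    | zero => rw [pow_zero]; rfl
    | succ a ih =>
      rw [pow_succ]
      change (g ^ a) (g x) = x
      rw [h, ih]
  rw [Finset.sum_congr rfl (fun a _ => hp a), Finset.sum_const, Finset.card_range, natCast_zsmul]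

theorem tau_one {Φ : Type} [AddCommGroup Φ] (g : AddMonoid.End Φ) (k : ℕ) (x : Φ) :
    tau g k 1 x = g x - x := by
  have e : tau g k 1 = g - 1 := if_neg (by decide)
  rw [e]
  rfl

theorem bd_ins (h : S_RitI) (F : FC ι) (D : ℤ → AddSubgroup F.Φ) (hF : F.OK) (hD : DOK F D)
    (γ : ℕ → ι) (k : ℕ → ℕ) (t s : ℕ) (x : F.Φ) (hb : F.bd x = 0) (ht : F.tw x = x)
    (hg : ∀ i, F.g i x = x) :
    (rit F γ k s).bd (ins F γ k t s x) =
      -DD F x γ k 1 (fun s => if s = t then (k t : ℤ) else 0) s := by
  induction s with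
  | zero =>
    change F.bd 0 = -(0 : F.Φ)
    rw [map_zero, neg_zero]
  | succ s ih =>
    have hI := h ι F D γ k s hF hD
    have hbI : (rit F γ k s).bd (rI F γ k s x) = 0 := by
      rw [hI.2.2.2.1 x, hb, map_zero, zero_add]
      apply Finset.sum_eq_zero
      intro j _
      rw [ht, hg, sub_self, map_zero]
    funext l
    by_cases hts : t = s
    · subst hts
      have hD0 : ∀ s', s' ≤ t → DD F x γ k 1 (fun s => if s = t then (k t : ℤ) else 0) s' = 0 := by
        intro s'
        induction s' with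
        | zero => exact fun _ => rfl
        | succ s' ih' =>
          intro hs
          funext l
          change (if l = 0 then DD F x γ k 1 (fun s => if s = t then (k t : ℤ) else 0) s' else
            if l = 2 * 1 then rI F γ k s' ((if s' = t then (k t : ℤ) else 0) • x) else 0) = 0
          rw [ih' (by omega), if_neg (show ¬ s' = t by omega), zero_smul, map_zero, ite_self,
            ite_self]
      cases l with
      | zero =>
        change (rit F γ k t).bd ((ins F γ k t (t + 1) x : ℕ → (rit F γ k t).Φ) 0) + 0 =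
          -(DD F x γ k 1 (fun s => if s = t then (k t : ℤ) else 0) t)
        rw [ins_eq, if_neg (by omega), map_zero, add_zero, hD0 t le_rfl, neg_zero]
      | succ l =>
        change (rit F γ k t).bd ((ins F γ k t (t + 1) x : ℕ → (rit F γ k t).Φ) (l + 1)) +
          tau ((rit F γ k t).g (γ t)) (k t) (l + 1) ((-1 : ℤ) ^ l • (rit F γ k t).tw
            ((ins F γ k t (t + 1) x : ℕ → (rit F γ k t).Φ) l)) =
          -(if l + 1 = 0 then DD F x γ k 1 (fun s => if s = t then (k t : ℤ) else 0) t else
            if l + 1 = 2 * 1 then rI F γ k t ((if t = t then (k t : ℤ) else 0) • x) else 0)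
        rw [ins_eq, ins_eq, if_neg (show ¬ l + 1 = 0 by omega), if_pos (rfl : t = t)]
        have e1 : (rit F γ k t).bd (if l + 1 = 1 then rI F γ k t x else 0) = 0 := by
          split_ifs
          · exact hbI
          · exact map_zero _
        rw [e1, zero_add]
        by_cases hl : l = 1
        · subst hl
          rw [if_pos (rfl : 1 = 1), if_pos (by omega), hI.1, ht, pow_one, neg_smul, one_smul,
            map_neg]
          rw [show (1 : ℕ) + 1 = 2 from rfl, tau_even _ _ _ (by rw [hI.2.1, hg])]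
          apply congrArg
          exact (map_zsmul (rI F γ k t) (k t : ℤ) x).symm
        · rw [if_neg hl, if_neg (by omega), map_zero, smul_zero, map_zero, neg_zero]
    · rw [ins_ne F γ k t s hts]
      have hz : (if s = t then (k t : ℤ) else 0) = 0 := if_neg (fun h1 => hts h1.symm)
      cases l with
      | zero =>
        change (rit F γ k s).bd (ins F γ k t s x) + 0 =
          -(DD F x γ k 1 (fun s => if s = t then (k t : ℤ) else 0) s)
        rw [add_zero, ih]
      | succ l =>
        change (rit F γ k s).bd (if l + 1 = 0 then ins F γ k t s x else 0) +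
          tau ((rit F γ k s).g (γ s)) (k s) (l + 1) ((-1 : ℤ) ^ l • (rit F γ k s).tw
            (if l = 0 then ins F γ k t s x else 0)) =
          -(if l + 1 = 0 then DD F x γ k 1 (fun s => if s = t then (k t : ℤ) else 0) s else
            if l + 1 = 2 * 1 then rI F γ k s ((if s = t then (k t : ℤ) else 0) • x) else 0)
        rw [hz, zero_smul, map_zero, ite_self, if_neg (show ¬ l + 1 = 0 by omega),
          if_neg (show ¬ l + 1 = 0 by omega), neg_zero, map_zero, zero_add]
        by_cases hl : l = 0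
        · subst hl
          rw [if_pos rfl, pow_zero, one_smul, tw_ins h F D hF hD, ht]
          rw [show (0 : ℕ) + 1 = 1 from rfl, tau_one, map_neg, hI.2.2.1, hg, sub_self]
        · rw [if_neg hl, map_zero, smul_zero, map_zero]

theorem rB_ins (F : FC ι) (γ : ℕ → ι) (k : ℕ → ℕ) (t s : ℕ) (x : F.Φ) :
    rB F γ k s (ins F γ k t s x) = 0 := by
  induction s with
  | zero => rfl
  | succ s ih =>
    change rB F γ k s ((ins F γ k t (s + 1) x : ℕ → (rit F γ k s).Φ) 0) = 0
    by_cases hts : t = s
    · subst hts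
      rw [ins_eq, if_neg (by omega), map_zero]
    · rw [ins_ne F γ k t s hts]
      exact ih

theorem rB_rI (F : FC ι) (γ : ℕ → ι) (k : ℕ → ℕ) (s : ℕ) (x : F.Φ) :
    rB F γ k s (rI F γ k s x) = x := by
  induction s with
  | zero => rfl
  | succ s ih => exact ih

/-- The parts of the wrong degree of a homogeneous polynomial vanish. -/
theorem cfl_hom {M : ℕ} (p : MvPolynomial (Fin M) ℤ) (d l : ℕ) (hp : p.IsHomogeneous d)
    (hl : l ≠ d) : cfl p l = fun _ => 0 := by
  funext a
  unfold cfl
  by_cases h : ∑ i : Fin M, a i = l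
  · rw [if_pos h]
    unfold cf
    apply hp.coeff_eq_zero
    rw [Finsupp.degree_eq_sum]
    intro h'
    exact hl (h.symm.trans h')
  · rw [if_neg h]

/-- The properties of the image of `ε` in the product with the circles. -/
theorem fIe (h3 : S_Fcm) (F : FC ι) (D : ℤ → AddSubgroup F.Φ) (ε : F.Φ) (Q : ℕ) [NeZero Q]
    (ρ : ℕ → ι → ZMod Q) (ix : ℕ → ℕ) (N : ℕ) (hF : F.OK) (hD : DOK F D) (he : ε ∈ D 0)
    (hb : F.bd ε = 0) (hg : ∀ i, F.g i ε = ε) :
    (fcm F Q ρ ix N).bd (fI F Q ρ ix N ε) = 0 ∧ (fcm F Q ρ ix N).tw (fI F Q ρ ix N ε) =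
      fI F Q ρ ix N ε ∧ (∀ i, (fcm F Q ρ ix N).g i (fI F Q ρ ix N ε) = fI F Q ρ ix N ε) ∧
      fI F Q ρ ix N ε ∈ fDs F Q ρ ix D N 0 := by
  obtain ⟨_, _, _, _, hM, hgI, _⟩ := h3 ι F D Q ρ ix N hF hD
  refine ⟨?_, ?_, ?_, hM.fD 0 ε he⟩
  · rw [← hM.fb, hb, map_zero]
  · rw [← hM.ft, hD.Ds 0 ε he]
    rw [Int.negOnePow_zero]
    exact congrArg _ (one_smul ℤ ε)
  · intro i
    rw [hgI, hg]

end Kx

end HVx
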