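import Pool.Agent.Lib.MP_181146_gt.HV.DefsW
import Pool.Agent.Lib.MP_181146_gt.HR.DefsQ

/-!
# Project HV (part V), statements.  Every statement is a separate task; the proof of each is in the
docstring.  `(F.rc i k).Φ` is `ℕ → F.Φ`, `(F.fc Q ρ).Φ` is a pair of families indexed by `ℕ`, `ZMod
Q`; `(rit F γ k (s + 1)) = (rit F γ k s).rc (γ s) (k s)` etc. hold by `rfl`; so do `rc_tw`,
`rc_bd_zero`, `rc_bd_succ`, `rc_g` (DefsV).  All inductions are on the number of resolutions /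
circles.
-/

set_option autoImplicit false
set_option linter.unusedVariables false

noncomputable section

namespace HVx

open scoped TensorProduct
open HEp HPx HRx HTx

/-! ## A. Products with periodic resolutions -/

/-- **RcOK.** Proof.  `tau g k l` is a polynomial in `g`, so it commutes with `tw`, `bd`, all `g j`
and preserves `D d`; `tau g k (l + 1) * tau g k l = 0` since `(∑ g^a) (g - 1) = g^k - 1 = 0` (`l ≥
1`, and also `tau g k 1 * tau g k 0`; not needed for `l = 0`).  `bd (bd φ)` at `l + 2`: `bd bd = 0`,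
`bd tau (± tw φ) + tau (∓..) tw bd φ = 0` by `tb`, `tau tau = 0`.  `tw' bd' = - bd' tw'`: signs
`(-1)^l`. Degrees: `D (d - (l + 1) + 1) = D (d - l)`; `Ds`: `(-1)^l (d - l).negOnePow =
d.negOnePow`. -/
def S_RcOK : Prop :=
  ∀ (ι : Type) (F : FC ι) (D : ℤ → AddSubgroup F.Φ) (i : ι) (k : ℕ), F.OK → DOK F D →
    F.g i ^ k = 1 → (F.rc i k).OK ∧ DOK (F.rc i k) (rD D) ∧
      ∀ j k', F.g j ^ k' = 1 → (F.rc i k).g j ^ k' = 1

/-- **CnRc.** The main lemma.  Proof.  Let `T l = tau (A.g i) k l`, `T' l = tau (F.g i') k l`, `f T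
= T' f`. Given `a`, `φ` (degrees `d + 1`, `d`) define `(a' l, φ' l)` by recursion: apply the
hypothesis `Cn A F DA DF f` in degree `d - l` to `a l - T l (± tw (a' (l-1)))` and `φ l - T' l (± tw
(φ' (l-1)))` (for `l = 0`: `a 0`, `φ 0`). The conditions hold: `bd (a l - T l (± tw (a' (l-1)))) =
bd (a l) + T l (± tw (bd (a' (l-1)))) = bd (a l) + T l (± tw (a (l-1) - T (l-1) ..)) = (bd a) l = 0`
(`T l T (l-1) = 0`), similarly `bd (φ l - ..) = f (a l - ..)`.  Use a choice function `ℤ → A.Φ × F.Φ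
→ A.Φ × F.Φ` and `Nat.rec`. -/
def S_CnRc : Prop :=
  ∀ (ι ι' : Type) (A : FC ι) (F : FC ι') (DA : ℤ → AddSubgroup A.Φ) (DF : ℤ → AddSubgroup F.Φ)
    (f : A.Φ →+ F.Φ) (i : ι) (i' : ι') (k : ℕ), A.OK → F.OK → DOK A DA → DOK F DF →
    A.g i ^ k = 1 → F.g i' ^ k = 1 → Mp A F DA DF f → (∀ φ, f (A.g i φ) = F.g i' (f φ)) →
    Mp (A.rc i k) (F.rc i' k) (rD DA) (rD DF) (pw f) ∧
      (Cn A F DA DF f → Cn (A.rc i k) (F.rc i' k) (rD DA) (rD DF) (pw f))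

/-- **Rit** (from RcOK, CnRc).  Iteration; induction on `r` (prove the statement on `f (A.g i φ) =
F.g i' (f φ)` for `ritF` simultaneously: the operators act componentwise). -/
def S_Rit : Prop :=
  (∀ (ι : Type) (F : FC ι) (D : ℤ → AddSubgroup F.Φ) (γ : ℕ → ι) (k : ℕ → ℕ) (r : ℕ), F.OK →
    DOK F D → Per F γ k r → (rit F γ k r).OK ∧ DOK (rit F γ k r) (rDs F γ k D r) ∧
      (∀ j k', F.g j ^ k' = 1 → (rit F γ k r).g j ^ k' = 1) ∧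
      (TF F.Φ → TF (rit F γ k r).Φ)) ∧
  ∀ (ι ι' : Type) (A : FC ι) (F : FC ι') (DA : ℤ → AddSubgroup A.Φ) (DF : ℤ → AddSubgroup F.Φ)
    (f : A.Φ →+ F.Φ) (γ : ℕ → ι) (γ' : ℕ → ι') (k : ℕ → ℕ) (r : ℕ), A.OK → F.OK → DOK A DA →
    DOK F DF → Per A γ k r → Per F γ' k r → Mp A F DA DF f →
    (∀ t, t < r → ∀ φ, f (A.g (γ t) φ) = F.g (γ' t) (f φ)) →
    Mp (rit A γ k r) (rit F γ' k r) (rDs A γ k DA r) (rDs F γ' k DF r) (ritF f γ k γ' k r) ∧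
    (Cn A F DA DF f → Cn (rit A γ k r) (rit F γ' k r) (rDs A γ k DA r) (rDs F γ' k DF r)
      (ritF f γ k γ' k r)) ∧
    ((∀ φ, f φ = 0 → φ = 0) → ∀ φ, ritF f γ k γ' k r φ = 0 → φ = 0) ∧
    (∀ i i', (∀ φ, f (A.g i φ) = F.g i' (f φ)) → ∀ φ,
      ritF f γ k γ' k r ((rit A γ k r).g i φ) = (rit F γ' k r).g i' (ritF f γ k γ' k r φ))

/-- **RitB.** Naturality of `rI`, `rB`, `ins` (induction on `r`). -/
def S_RitB : Prop :=
  ∀ (ι ι' : Type) (A : FC ι) (F : FC ι') (f : A.Φ →+ F.Φ) (γ : ℕ → ι) (γ' : ℕ → ι')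
    (k k' : ℕ → ℕ) (r : ℕ),
    (∀ φ, rB F γ' k' r (ritF f γ k γ' k' r φ) = f (rB A γ k r φ)) ∧
    (∀ φ, ritF f γ k γ' k' r (rI A γ k r φ) = rI F γ' k' r (f φ)) ∧
    (∀ t φ, ritF f γ k γ' k' r (ins A γ k t r φ) = ins F γ' k' t r (f φ)) ∧
    (∀ φ, rB A γ k r (rI A γ k r φ) = φ) ∧ (∀ t φ, rB A γ k r (ins A γ k t r φ) = 0)

/-- **RitI.** The inclusions `rI`, `ins` (induction on `r`; `tw' (ic x) = ic (tw x)`; degrees; in
the third statement use for the last resolution `bd (ic y) = ic (bd y) + [l = 1: g y' - y']`, `y' =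
tw y`, `tau g k 1 = g - 1`, and `rI`, `ins` commute with the operators `g`). -/
def S_RitI : Prop :=
  ∀ (ι : Type) (F : FC ι) (D : ℤ → AddSubgroup F.Φ) (γ : ℕ → ι) (k : ℕ → ℕ) (r : ℕ),
    F.OK → DOK F D →
    (∀ φ, (rit F γ k r).tw (rI F γ k r φ) = rI F γ k r (F.tw φ)) ∧
    (∀ i φ, (rit F γ k r).g i (rI F γ k r φ) = rI F γ k r (F.g i φ)) ∧
    (∀ i t φ, (rit F γ k r).g i (ins F γ k t r φ) = ins F γ k t r (F.g i φ)) ∧
    (∀ φ, (rit F γ k r).bd (rI F γ k r φ) = rI F γ k r (F.bd φ) +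
      ∑ t ∈ Finset.range r, ins F γ k t r (F.g (γ t) (F.tw φ) - F.tw φ)) ∧
    (∀ d, ∀ φ ∈ D d, rI F γ k r φ ∈ rDs F γ k D r d) ∧
    (∀ t d, ∀ φ ∈ D d, ins F γ k t r φ ∈ rDs F γ k D r (d + 1)) ∧
    (∀ φ, rB F γ k r ((rit F γ k r).bd φ) = F.bd (rB F γ k r φ)) ∧
    (∀ d, ∀ φ ∈ rDs F γ k D r d, rB F γ k r φ ∈ D d) ∧
    (∀ i φ, rB F γ k r ((rit F γ k r).g i φ) = F.g i (rB F γ k r φ))

/-- **TrOK.** The truncation.  Proof.  `Db`: `d + 1 < n`; `d + 1 = n`: `bd φ ∈ cob`; `d = n`: `bd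
(bd ψ) = 0`. `tw ε = ε` by `Ds` (`d = 0`).  `Cn`: given `a ∈ zD (d + 1)`, `φ ∈ trD d`, `bd φ = a •
ε`.  `d + 1 = 0`: `φ = 0` (`neg`), so `a = 0` (`inj`).  Otherwise `a = 0`: `d < 0`: `φ = 0`; `d =
0`: `φ = j • ε` (`H0`), `a' = j`; `0 < d < n`: `Hd`; `d = n`: definition of `cob`; `d > n`: `φ = 0`.
-/
def S_TrOK : Prop :=
  ∀ (ι : Type) (F : FC ι) (D : ℤ → AddSubgroup F.Φ) (n : ℤ) (ε : F.Φ), F.OK → DOK F D → 0 < n →
    Acy F D n ε → zc.OK ∧ DOK zc zD ∧ DOK F (trD F D n) ∧ (∀ d, trD F D n d ≤ D d) ∧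
      Mp zc F zD (trD F D n) (em ε) ∧ Mp zc F zD D (em ε) ∧ Cn zc F zD (trD F D n) (em ε) ∧
      ∀ j : ℤ, em ε j = 0 → j = 0

/-- **TrM.** Induction on `r`: for `φ ∈ rD (..) n` the component `φ l`, `l > 0`, has degree `n - l <
n`. -/
def S_TrM : Prop :=
  ∀ (ι : Type) (F : FC ι) (D : ℤ → AddSubgroup F.Φ) (n : ℤ) (γ : ℕ → ι) (k : ℕ → ℕ) (r : ℕ),
    (∀ d, d < n → ∀ φ ∈ rDs F γ k D r d, φ ∈ rDs F γ k (trD F D n) r d) ∧
    (∀ φ ∈ rDs F γ k D r n, rB F γ k r φ ∈ cob F D n → φ ∈ rDs F γ k (trD F D n) r n) ∧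
    ((∀ d, trD F D n d ≤ D d) → ∀ d, rDs F γ k (trD F D n) r d ≤ rDs F γ k D r d)

/-- **Ex** (from Rit, RitI, RitB, TrOK, TrM).  Existence.  Proof.  `φ = bd (rI u) = ∑ ins t (g (γ t)
(tw u) - tw u)` (RitI, `bd u = 0`); `g (tw u) - tw u = ± (g u - u) ∈ cob = trD n`, so `φ ∈ rDs (trD)
r (n + 1)` (RitI for the family `trD`).  `Cn` for `zc → (F, trD)` (TrOK, Rit) in degree `n + 1` with
`a = 0`: `φ = eR κ + bd w`, `w ∈ rDs (trD) r n`.  `v = rI u - w`; `rB w ∈ trD n = cob`. -/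
def S_Ex : Prop :=
  ∀ (ι : Type) (F : FC ι) (D : ℤ → AddSubgroup F.Φ) (n : ℤ) (ε : F.Φ) (γ : ℕ → ι) (k : ℕ → ℕ)
    (r : ℕ) (u : F.Φ), F.OK → DOK F D → 0 < n → Acy F D n ε → Per F γ k r → u ∈ D n → F.bd u = 0 →
    (∀ t, t < r → F.g (γ t) u - u ∈ cob F D n) →
    ∃ v ∈ rDs F γ k D r n, ∃ κ ∈ zDs k r (n + 1), (rit F γ k r).bd v = eR F ε γ k r κ ∧
      rB F γ k r v - u ∈ cob F D n

/-- **Con** (from Rit, TrOK, TrM).  Concentration.  Proof.  `η ∈ rDs (trD) r n` by TrM; `eR (bd κ) =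
bd (bd η) = 0`, so `bd κ = 0` (Rit: `eR` is injective); `Cn` in degree `n` with `a = κ`. -/
def S_Con : Prop :=
  ∀ (ι : Type) (F : FC ι) (D : ℤ → AddSubgroup F.Φ) (n : ℤ) (ε : F.Φ) (γ : ℕ → ι) (k : ℕ → ℕ)
    (r : ℕ), F.OK → DOK F D → 0 < n → Acy F D n ε → Per F γ k r →
    ∀ η ∈ rDs F γ k D r n, ∀ κ ∈ zDs k r (n + 1), rB F γ k r η ∈ cob F D n →
      (rit F γ k r).bd η = eR F ε γ k r κ → ∃ η' ∈ zDs k r n, (zit k r).bd η' = κ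

/-- **One** (from Ex).  One resolution: `r = 1`, `γ = fun _ => i`.  `κ l ∈ zD (n + 1 - l)` vanishes
unless `l = n + 1 = 2 m`; `z = κ (2 m)`. -/
def S_One : Prop :=
  ∀ (ι : Type) (F : FC ι) (D : ℤ → AddSubgroup F.Φ) (m : ℕ) (ε : F.Φ) (i : ι) (k : ℕ) (u : F.Φ),
    F.OK → DOK F D → 0 < m → Acy F D (2 * m - 1) ε → F.g i ^ k = 1 → u ∈ D (2 * m - 1) →
    F.bd u = 0 → F.g i u - u ∈ cob F D (2 * m - 1) →
    ∃ (z : ℤ) (v : (F.rc i k).Φ), v ∈ rD D (2 * m - 1) ∧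
      (F.rc i k).bd v = (fun l => if l = 2 * m then z • ε else 0) ∧ v 0 - u ∈ cob F D (2 * m - 1)

/-- **Div** (from Con, Rit, RitI).  Divisibility.  `g = F.g i`, `G₀ = F₂.g (γ₂ 0)`, `G₁ = F₂.g (γ₂
1)`, `G₀ μ = μ g = G₁ μ`.  Proof.  In `rit F₂ γ₂ (fun _ => k) 2` (`= ℕ → ℕ → F₂.Φ`, the outer index
`l₂` for `γ₂ 1`) put `M φ l₂ l₁ = c l₂ l₁ • μ (φ (l₁ + l₂))`, `c l₂ l₁ = 0` if both are odd and
`(l₁/2 + l₂/2).choose (l₁/2)` otherwise. `bd (M v) = M (bd v)` (Pascal; for `l₁`, `l₂` both odd the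
two terms cancel).  `ζ₁ = (l₂ = 0: l₁ ↦ p₁ (v l₁))`, `ζ₂ = (l₁ = 0: l₂ ↦ p₂ (v l₂))`.  `η = M v - ζ₁
- ζ₂`: `bd η = eR κ` with `κ l₂ l₁ = z (m.choose (l₁/2))` for `l₁ + l₂ = 2 m`, both even and
positive, `0` otherwise; base component `μ (v 0) - p₁ (v 0) - p₂ (v 0)`, in `cob`. Con: `κ = bd η'`;
at `l₁ = 2 j`, `l₂ = 2 (m - j)` the right-hand side is `± k η' ± k η'` as `zc.g = 1` (`tau 1 k l =
k` for even `l > 0`). -/
def S_Div : Prop :=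
  ∀ (ι ι₂ : Type) (F : FC ι) (F₂ : FC ι₂) (D : ℤ → AddSubgroup F.Φ) (D₂ : ℤ → AddSubgroup F₂.Φ)
    (m : ℕ) (ε : F.Φ) (i : ι) (γ₂ : ℕ → ι₂) (k : ℕ) (μ p₁ p₂ : F.Φ →+ F₂.Φ) (u : F.Φ), F.OK →
    F₂.OK → DOK F D → DOK F₂ D₂ → 0 < m → Acy F₂ D₂ (2 * m - 1) (μ ε) → p₁ ε = μ ε → p₂ ε = μ ε →
    F.g i ^ k = 1 → Per F₂ γ₂ (fun _ => k) 2 → P2 F F₂ D D₂ (fun _ => i) γ₂ 1 μ p₁ p₂ →
    μ u - p₁ u - p₂ u ∈ cob F₂ D₂ (2 * m - 1) →
    ∀ (z : ℤ) (v : (F.rc i k).Φ), v ∈ rD D (2 * m - 1) →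
      (F.rc i k).bd v = (fun l => if l = 2 * m then z • ε else 0) →
      v 0 - u ∈ cob F D (2 * m - 1) → ∀ j, 0 < j → j < m → (k : ℤ) ∣ z * m.choose j

/-- **DStep** (from Ex, Con, Rit, RitI, RitB).  One more cyclic factor.  Proof.  Ex for `s + 1`
resolutions: `v'`, `κ'`.  In `rit F₂ γ₂ k (s + 1)`: `ζ₁ = ic (ritF p₁ v)`, `bd ζ₁ = ic (bd (ritF p₁
v))` since `F₂.g (γ₂ s) (p₁ ·) = p₁ ·` (Rit, last statement, with `i` such that ... or directly by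
induction); `ζ₂ = fun l => rI (p₂ (w l))`, `bd ζ₂ = fun l => if l = 2 m then z s • rI (p₂ ε)` (RitI:
`p₂ ·` is invariant under `γ₂ t`, `t < s`).  `η = ritF μ v' - ζ₁ - ζ₂`: base component `≡ μ u - p₁ u
- p₂ u ≡ 0` modulo `cob` (`Mp` maps `cob` to `cob`), `bd η = eR F₂ (μ ε) (κ' - dg z m k (s + 1))`.
Con: `κ' - dg = bd η'`. `v' - eR F ε η'`; its base component is that of `v'` since `rB η' ∈ zD n =
⊥` (`n ≠ 0`). -/
def S_DStep : Prop :=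
  ∀ (ι ι₂ : Type) (F : FC ι) (F₂ : FC ι₂) (D : ℤ → AddSubgroup F.Φ) (D₂ : ℤ → AddSubgroup F₂.Φ)
    (m s : ℕ) (ε : F.Φ) (γ : ℕ → ι) (γ₂ : ℕ → ι₂) (k : ℕ → ℕ) (μ p₁ p₂ : F.Φ →+ F₂.Φ) (u : F.Φ)
    (z : ℕ → ℤ), F.OK → F₂.OK → DOK F D → DOK F₂ D₂ → 0 < m → Acy F D (2 * m - 1) ε →
    Acy F₂ D₂ (2 * m - 1) (μ ε) → p₁ ε = μ ε → p₂ ε = μ ε → Per F γ k (s + 1) →
    Per F₂ γ₂ k (s + 1) → P2 F F₂ D D₂ γ γ₂ s μ p₁ p₂ → u ∈ D (2 * m - 1) → F.bd u = 0 →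
    (∀ t, t < s + 1 → F.g (γ t) u - u ∈ cob F D (2 * m - 1)) →
    μ u - p₁ u - p₂ u ∈ cob F₂ D₂ (2 * m - 1) →
    (∃ v ∈ rDs F γ k D s (2 * m - 1), (rit F γ k s).bd v = eR F ε γ k s (dg z m k s) ∧
      rB F γ k s v - u ∈ cob F D (2 * m - 1)) →
    (∃ w ∈ rD D (2 * m - 1), (F.rc (γ s) (k s)).bd w = (fun l => if l = 2 * m then z s • ε else 0) ∧
      w 0 - u ∈ cob F D (2 * m - 1)) →
    ∃ v ∈ rDs F γ k D (s + 1) (2 * m - 1),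
      (rit F γ k (s + 1)).bd v = eR F ε γ k (s + 1) (dg z m k (s + 1)) ∧
      rB F γ k (s + 1) v - u ∈ cob F D (2 * m - 1)

/-! ## B. Circles, trace one operators -/

/-- **FcOK.** Proof.  As for RcOK; `∑ a, tw (φ.1 j (a + 1)) - tw (φ.1 j a) = 0` and `∑ a, f (a + ρ)
= ∑ a, f a` (`Equiv.sum_comp (Equiv.addRight _)`). -/
def S_FcOK : Prop :=
  ∀ (ι : Type) (F : FC ι) (D : ℤ → AddSubgroup F.Φ) (Q : ℕ) [NeZero Q] (ρ : ι → ZMod Q), F.OK →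
    DOK F D → (F.fc Q ρ).OK ∧ DOK (F.fc Q ρ) (fD Q D) ∧
      (∀ j (k' : ℕ), F.g j ^ k' = 1 → (k' : ZMod Q) * ρ j = 0 → (F.fc Q ρ).g j ^ k' = 1) ∧
      (TF F.Φ → TF (F.fc Q ρ).Φ)

/-- **FcI.** The inclusion `jc` and the base component. -/
def S_FcI : Prop :=
  ∀ (ι : Type) (F : FC ι) (D : ℤ → AddSubgroup F.Φ) (Q : ℕ) [NeZero Q] (ρ : ι → ZMod Q), F.OK →
    DOK F D → Mp F (F.fc Q ρ) D (fD Q D) (jc Q) ∧
      (∀ i φ, (F.fc Q ρ).g i (jc Q φ) = (jc Q (F.g i φ) : (F.fc Q ρ).Φ)) ∧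
      ∀ φ : (F.fc Q ρ).Φ, ((F.fc Q ρ).bd φ).1 0 0 = F.bd (φ.1 0 0)

/-- **Fcm** (from FcOK, FcI).  Iteration. -/
def S_Fcm : Prop :=
  ∀ (ι : Type) (F : FC ι) (D : ℤ → AddSubgroup F.Φ) (Q : ℕ) [NeZero Q] (ρ : ℕ → ι → ZMod Q)
    (ix : ℕ → ℕ) (n : ℕ), F.OK → DOK F D →
    (fcm F Q ρ ix n).OK ∧ DOK (fcm F Q ρ ix n) (fDs F Q ρ ix D n) ∧
      (∀ j (k' : ℕ), F.g j ^ k' = 1 → (∀ i, (k' : ZMod Q) * ρ i j = 0) →
        (fcm F Q ρ ix n).g j ^ k' = 1) ∧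
      (TF F.Φ → TF (fcm F Q ρ ix n).Φ) ∧
      Mp F (fcm F Q ρ ix n) D (fDs F Q ρ ix D n) (fI F Q ρ ix n) ∧
      (∀ i φ, (fcm F Q ρ ix n).g i (fI F Q ρ ix n φ) = fI F Q ρ ix n (F.g i φ)) ∧
      (∀ φ, fB F Q ρ ix n ((fcm F Q ρ ix n).bd φ) = F.bd (fB F Q ρ ix n φ)) ∧
      (∀ d, ∀ φ ∈ fDs F Q ρ ix D n d, fB F Q ρ ix n φ ∈ D d) ∧
      ∀ φ, fB F Q ρ ix n (fI F Q ρ ix n φ) = φ

/-- **TRRc.** Trace one operators act componentwise. -/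
def S_TRRc : Prop :=
  ∀ (ι : Type) (F : FC ι) (D : ℤ → AddSubgroup F.Φ) (γ : ℕ → ι) (k : ℕ → ℕ) (r : ℕ) (i : ι)
    (k' : ℕ), TR F D γ k r → TR (F.rc i k') (rD D) γ k r

/-- **TRFc.** Trace one operators act componentwise: `g^i E g^(k-i) φ` at `c` is the operator
`g^i E g^(k-i)` of `F` applied to `φ (c + k ρ) = φ c`. -/
def S_TRFc : Prop :=
  ∀ (ι : Type) (F : FC ι) (D : ℤ → AddSubgroup F.Φ) (Q : ℕ) [NeZero Q] (ρ : ι → ZMod Q)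
    (γ : ℕ → ι) (k : ℕ → ℕ) (r : ℕ), (∀ t, t < r → (k t : ZMod Q) * ρ (γ t) = 0) →
    TR F D γ k r → TR (F.fc Q ρ) (fD Q D) γ k r

/-- **Inv1.** Removal of one resolution.  `g = F.g i`, `N = ∑ g^a`.  Exactness: if `N ψ = 0` then `ψ
= (g - 1) c` with `c = - ∑_(a < k) g^a E (∑_(b ≤ a) g^(k-b) ψ)`; if `g ψ = ψ` then `ψ = N (E ψ)`
(from `∑ g^a E g^(k-a) = 1`); `c` has the degree of `ψ` and is invariant under the `g j`, `j ∈ J`,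
if `ψ` is. Proof of the statement: by induction on `L` with `φ l = 0` for all `l ≥ L` (`φ l = 0` for
`l > d` since then the degree is negative).  `L ≤ 1`: `φ = ic (φ 0)`, `a' = φ 0`; `(bd φ) 1 = (g -
1) (tw (φ 0)) = 0`.  Step: `(bd φ) (L + 1) = tau (L + 1) (± tw (φ L)) = 0` for `L ≥ 1`, so `φ L =
tau L (± tw w)` with `w ∈ D (d - L)` (exactness), and `φ - bd (w at the place L - 1)` vanishes in
degrees `≥ L`. -/
def S_Inv1 : Prop :=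
  ∀ (ι : Type) (F : FC ι) (D : ℤ → AddSubgroup F.Φ) (i : ι) (k : ℕ) (J : Set ι)
    (E : AddMonoid.End F.Φ), F.OK → DOK F D → 0 < k → F.g i ^ k = 1 → (∀ d, ∀ φ ∈ D d, E φ ∈ D d) →
    (∀ j ∈ J, ∀ φ, E (F.g j φ) = F.g j (E φ)) → (∀ φ, E (F.tw φ) = F.tw (E φ)) →
    ∑ a ∈ Finset.range k, F.g i ^ a * E * F.g i ^ (k - a) = 1 →
    ∀ (d : ℤ) (a : F.Φ) (φ : (F.rc i k).Φ), a ∈ D (d + 1) → F.bd a = 0 → φ ∈ rD D d →
      (F.rc i k).bd φ = ic a → (∀ j ∈ J, ∀ l, F.g j (φ l) = φ l) →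
      ∃ a' ∈ D d, ∃ φ' ∈ rD D (d - 1), F.bd a' = a ∧ F.g i a' = a' ∧ (∀ j ∈ J, F.g j a' = a') ∧
        ∀ l, φ l = (ic a' : ℕ → F.Φ) l + (F.rc i k).bd φ' l

/-- **InvR** (from Inv1, TRRc, Rit, RitI).  Removal of all resolutions.  Induction on `r` for the
stronger statement with a set `J` of indices under which `φ` is invariant and with which the trace
one operators commute; after the removal of the resolution number `t` the functional is invariant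
under `γ t` (apply Inv1 with `F := rit F γ k t`, `J ∪ {γ s | t < s < r}`). -/
def S_InvR : Prop :=
  ∀ (ι : Type) (F : FC ι) (D : ℤ → AddSubgroup F.Φ) (γ : ℕ → ι) (k : ℕ → ℕ) (r : ℕ), F.OK →
    DOK F D → (∀ t, 0 < k t) → Per F γ k r → TR F D γ k r →
    ∀ (d : ℤ) (a : F.Φ) (φ : (rit F γ k r).Φ), a ∈ D (d + 1) → F.bd a = 0 →
      (∀ t, t < r → F.g (γ t) a = a) → φ ∈ rDs F γ k D r d → (rit F γ k r).bd φ = rI F γ k r a →
      ∃ a' ∈ D d, F.bd a' = a ∧ (∀ t, t < r → F.g (γ t) a' = a') ∧ rB F γ k r φ - a' ∈ cob F D d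

/-! ## C. Polynomials -/

/-- **Kf1.** Properties of `kfz` (induction on `n`, `ix` injective on `{0, …, n - 1}`). -/
def S_Kf1 : Prop :=
  ∀ (ι : Type) (F : FC ι) (D : ℤ → AddSubgroup F.Φ) (ε : F.Φ) (Q : ℕ) [NeZero Q]
    (ρ : ℕ → ι → ZMod Q) (ix : ℕ → ℕ) (n : ℕ), F.OK → DOK F D → ε ∈ D 0 → F.bd ε = 0 →
    (∀ i, F.g i ε = ε) → (∀ a b, a < n → b < n → ix a = ix b → a = b) →
    (∀ κ κ', kfz F ε Q ρ ix n (κ + κ') = kfz F ε Q ρ ix n κ + kfz F ε Q ρ ix n κ') ∧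
    (∀ (c : ℤ) κ, kfz F ε Q ρ ix n (c • κ) = c • kfz F ε Q ρ ix n κ) ∧
    (∀ κ, (fcm F Q ρ ix n).bd (kfz F ε Q ρ ix n κ) = 0) ∧
    (∀ κ, (fcm F Q ρ ix n).tw (kfz F ε Q ρ ix n κ) = kfz F ε Q ρ ix n κ) ∧
    (∀ i κ, (fcm F Q ρ ix n).g i (kfz F ε Q ρ ix n κ) = kfz F ε Q ρ ix n κ) ∧
    (∀ (l : ℤ) κ, (∀ a, κ a ≠ 0 → ((∑ i ∈ Finset.range n, a (ix i) : ℕ) : ℤ) = l) →
      kfz F ε Q ρ ix n κ ∈ fDs F Q ρ ix D n (2 * l)) ∧
    ((∀ j, ∀ κ, kfz F ε Q ρ ix n (shc j κ) = yf F Q ρ ix j n (kfz F ε Q ρ ix n κ)))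

/-- **Yf1.** Properties of `yf` (induction on `n`; for `ix n = j` the shift `prv` on both
components, which commutes with `tw`, `bd`, `g`). -/
def S_Yf1 : Prop :=
  ∀ (ι : Type) (F : FC ι) (D : ℤ → AddSubgroup F.Φ) (Q : ℕ) [NeZero Q]
    (ρ : ℕ → ι → ZMod Q) (ix : ℕ → ℕ) (j n : ℕ), F.OK → DOK F D →
    (∀ φ, (fcm F Q ρ ix n).bd (yf F Q ρ ix j n φ) = yf F Q ρ ix j n ((fcm F Q ρ ix n).bd φ)) ∧
    (∀ φ, (fcm F Q ρ ix n).tw (yf F Q ρ ix j n φ) = yf F Q ρ ix j n ((fcm F Q ρ ix n).tw φ)) ∧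
    (∀ i φ, (fcm F Q ρ ix n).g i (yf F Q ρ ix j n φ) = yf F Q ρ ix j n ((fcm F Q ρ ix n).g i φ)) ∧
    (∀ d, ∀ φ ∈ fDs F Q ρ ix D n d, yf F Q ρ ix j n φ ∈ fDs F Q ρ ix D n (d + 2)) ∧
    ∀ φ, fB F Q ρ ix n (yf F Q ρ ix j n φ) = 0

/-- **Yr1.** Properties of `krz`, `yr` (induction on `r`; `b` is the functional of a family of
coefficients on the base, `Y` the multiplication on the base; for `N + s = j` the shift `prv (prv
φ)` by two places, which commutes with `bd'` since `tau g k l`, `(-1)^l` only depend on the parity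
of `l`). -/
def S_Yr1 : Prop :=
  ∀ (ι : Type) (F : FC ι) (D : ℤ → AddSubgroup F.Φ) (b : ((ℕ → ℕ) → ℤ) → F.Φ)
    (Y : ℕ → AddMonoid.End F.Φ) (γ : ℕ → ι) (k : ℕ → ℕ) (N r : ℕ), F.OK → DOK F D →
    (∀ κ κ', b (κ + κ') = b κ + b κ') → (∀ (c : ℤ) κ, b (c • κ) = c • b κ) →
    (∀ κ, F.bd (b κ) = 0) → (∀ κ, F.tw (b κ) = b κ) → (∀ i κ, F.g i (b κ) = b κ) →
    (∀ j κ, b (shc j κ) = Y j (b κ)) →
    (∀ j φ, F.bd (Y j φ) = Y j (F.bd φ)) → (∀ j φ, F.tw (Y j φ) = Y j (F.tw φ)) →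
    (∀ j i φ, F.g i (Y j φ) = Y j (F.g i φ)) → (∀ j d, ∀ φ ∈ D d, Y j φ ∈ D (d + 2)) →
    (∀ κ κ', krz F b γ k N r (κ + κ') = krz F b γ k N r κ + krz F b γ k N r κ') ∧
    (∀ (c : ℤ) κ, krz F b γ k N r (c • κ) = c • krz F b γ k N r κ) ∧
    (∀ j κ, krz F b γ k N r (shc j κ) = yr F (Y j) γ k N j r (krz F b γ k N r κ)) ∧
    (∀ j φ, (rit F γ k r).bd (yr F (Y j) γ k N j r φ) = yr F (Y j) γ k N j r ((rit F γ k r).bd φ)) ∧
    (∀ j d, ∀ φ ∈ rDs F γ k D r d, yr F (Y j) γ k N j r φ ∈ rDs F γ k D r (d + 2)) ∧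
    (∀ j φ (β : F.Φ →+ F.Φ), (∀ ψ, β (Y j ψ) = 0) → β (rB F γ k r (yr F (Y j) γ k N j r φ)) = 0)

/-- **JId** (from Kf1, Yf1, Yr1).  The polynomials `p` with `InJ p` form an ideal.  Proof.  Sums:
add the elements `w`.  `C c * p`: `c • w`.  `X j * p`: `cfl (X j * p) (l + 1) = shc j (cfl p l)` and
`cfl (X j * p) 0 = 0` (`coeff_X_mul'` or `coeff_mul_X'`), so `Y_j w` works (`zzB (Y_j w) = 0` by
Yf1, Yr1).  Then `MvPolynomial.induction_on` for the multiplier. -/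
def S_JId : Prop :=
  ∀ (ι : Type) (F : FC ι) (D : ℤ → AddSubgroup F.Φ) (ε : F.Φ) (Q : ℕ) [NeZero Q]
    (ρ : ℕ → ι → ZMod Q) (ix : ℕ → ℕ) (N : ℕ) (γ : ℕ → ι) (k : ℕ → ℕ) (r : ℕ), F.OK → DOK F D →
    ε ∈ D 0 → F.bd ε = 0 → (∀ i, F.g i ε = ε) → (∀ a b, a < N → b < N → ix a = ix b → a = b) →
    ∃ I : Ideal (MvPolynomial (Fin (N + r)) ℤ), ∀ p, p ∈ I ↔ InJ F D ε Q ρ ix N γ k r p

/-- **JW** (from RitI, Rit, Fcm).  The element `k_t y'_t`.  `w = - ins t (fI ε)` for `l = 1`, `w =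
0` otherwise. `bd (ins t x)` for `x` with `bd x = 0`, `tw x = x`, `g x = x`: at the place `t` of the
resolution number `t` and `l = 2` the value `tau 2 (- x) = - k_t x`, zero elsewhere (the later
resolutions: `bd (ic y) = ic (bd y)` as `y` is invariant). -/
def S_JW : Prop :=
  ∀ (ι : Type) (F : FC ι) (D : ℤ → AddSubgroup F.Φ) (ε : F.Φ) (Q : ℕ) [NeZero Q]
    (ρ : ℕ → ι → ZMod Q) (ix : ℕ → ℕ) (N : ℕ) (γ : ℕ → ι) (k : ℕ → ℕ) (r : ℕ), F.OK → DOK F D →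
    ε ∈ D 0 → F.bd ε = 0 → (∀ i, F.g i ε = ε) → (∀ a, a < N → ix a < N) →
    (∀ a b, a < N → b < N → ix a = ix b → a = b) → ∀ t : Fin r,
    InJ F D ε Q ρ ix N γ k r (MvPolynomial.C (k t : ℤ) * MvPolynomial.X (Fin.natAdd N t))

/-- **EV** (from FcOK, Fcm).  The functionals `eE`, `eV` (induction on `n`). -/
def S_EV : Prop :=
  ∀ (ι : Type) (F : FC ι) (D : ℤ → AddSubgroup F.Φ) (ε : F.Φ) (Q : ℕ) [NeZero Q]
    (ρ : ℕ → ι → ZMod Q) (ix : ℕ → ℕ) (i n : ℕ) (f : ZMod Q → ℤ), F.OK → DOK F D → ε ∈ D 0 →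
    F.bd ε = 0 → (∀ h, F.g h ε = ε) → (∀ a b, a < n → b < n → ix a = ix b → a = b) →
    (fcm F Q ρ ix n).bd (eV F ε Q ρ ix i f n) =
      eE F ε Q ρ ix i (fun c => f (c + 1) - f c) n ∧
    (fcm F Q ρ ix n).bd (eE F ε Q ρ ix i f n) = (∑ c, f c) •
      kfz F ε Q ρ ix n (fun a => if a i = 1 ∧ ∑ j ∈ Finset.range n, a (ix j) = 1 then 1 else 0) ∧
    (fcm F Q ρ ix n).tw (eV F ε Q ρ ix i f n) = eV F ε Q ρ ix i f n ∧
    (fcm F Q ρ ix n).tw (eE F ε Q ρ ix i f n) = -eE F ε Q ρ ix i f n ∧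
    (∀ h, (fcm F Q ρ ix n).g h (eV F ε Q ρ ix i f n) =
      eV F ε Q ρ ix i (fun c => f (c + ρ i h)) n) ∧
    (∀ h, (fcm F Q ρ ix n).g h (eE F ε Q ρ ix i f n) =
      eE F ε Q ρ ix i (fun c => f (c + ρ i h)) n) ∧
    eV F ε Q ρ ix i f n ∈ fDs F Q ρ ix D n 0 ∧ eE F ε Q ρ ix i f n ∈ fDs F Q ρ ix D n 1 ∧
    fB F Q ρ ix n (eE F ε Q ρ ix i f n) = 0

/-- **JN** (from EV, RitI, Rit, Fcm, JW).  The element `y_i - ∑ c_t y'_t`; `ρ i (γ t) = s t` in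
`ZMod Q`, `s t * k t = Q * c t`.  Proof.  `r c` = representative of `c` in `[0, Q)` (`ZMod.val`). `ν
= rI (eE f) + ∑_t ins t (eV h_t)`, `Q f c = 1 - (r (c+1) - r c)`, `Q h_t c = s t - (r (c + s t) - r
c)`: both are divisible by `Q`.  `Q • ν = ℓ - bd (rI (eV r))` with `ℓ = rI (eE 1) + ∑_t s t • ins t
(fI ε)` (RitI, EV: `bd (rI (eV r)) = rI (eE (r (c+1) - r c)) + ∑ ins t (eV (r (c + s t) - r c))`),
`bd ℓ = Q y_i ε - ∑ s t k t y'_t ε` (EV and the computation in JW), so `Q • bd ν = Q • (y_i - ∑ c t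
y'_t) ε`; no torsion.  `w = ν` for `l = 1`. -/
def S_JN : Prop :=
  ∀ (ι : Type) (F : FC ι) (D : ℤ → AddSubgroup F.Φ) (ε : F.Φ) (Q : ℕ) [NeZero Q]
    (ρ : ℕ → ι → ZMod Q) (ix : ℕ → ℕ) (N : ℕ) (γ : ℕ → ι) (k : ℕ → ℕ) (r : ℕ), F.OK → DOK F D →
    TF F.Φ → ε ∈ D 0 → F.bd ε = 0 → (∀ i, F.g i ε = ε) → (∀ a, a < N → ix a < N) →
    (∀ a b, a < N → b < N → ix a = ix b → a = b) → ∀ (i : Fin N) (c s : Fin r → ℤ),
    (∀ t : Fin r, ρ i (γ t) = (s t : ZMod Q)) → (∀ t, s t * k t = Q * c t) →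
    InJ F D ε Q ρ ix N γ k r (MvPolynomial.X (Fin.castAdd r i) -
      ∑ t, MvPolynomial.C (c t) * MvPolynomial.X (Fin.natAdd N t))

/-- **JAl.** Ring theory.  Proof.  In the quotient by `I` one has `X_i = ∑ C (c i t) X_(N+t)`, so
`rename p = aeval (fun i => ∑ ..) p`, pushed forward by `rename (natAdd N)`. -/
def S_JAl : Prop :=
  ∀ (N r m : ℕ) (k : Fin r → ℤ) (a : Fin r → ℤ) (c : Fin N → Fin r → ℤ)
    (p : MvPolynomial (Fin N) ℤ) (I : Ideal (MvPolynomial (Fin (N + r)) ℤ)),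
    (∀ t, MvPolynomial.C (k t) * MvPolynomial.X (Fin.natAdd N t) ∈ I) →
    (∀ i : Fin N, MvPolynomial.X (Fin.castAdd r i) -
      ∑ t, MvPolynomial.C (c i t) * MvPolynomial.X (Fin.natAdd N t) ∈ I) →
    MvPolynomial.aeval (fun i => ∑ t, MvPolynomial.C (c i t) * MvPolynomial.X t) p -
      ∑ t, MvPolynomial.C (a t) * MvPolynomial.X t ^ m ∈
      Ideal.span (Set.range fun t : Fin r =>
        (MvPolynomial.C (k t) * MvPolynomial.X t : MvPolynomial (Fin r) ℤ)) →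
    MvPolynomial.rename (Fin.castAdd r) p -
      ∑ t, MvPolynomial.C (a t) * MvPolynomial.X (Fin.natAdd N t) ^ m ∈ I

/-- **KDg** (from Kf1, Yr1, RitB).  The diagonal functional.  Proof.  Coefficient of `∑ C (z t)
X_(N+t)^m` at `a`: `z t` if `a (N+t) = m` and `a = 0` elsewhere (below `N + r`).  Induction on `r`
(for `dg` and for `krz` with the family of coefficients `fun a => ∑ t < r, if a (N+t) = m and a = 0
elsewhere then z t else 0`). -/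
def S_KDg : Prop :=
  ∀ (ι : Type) (F : FC ι) (ε : F.Φ) (Q : ℕ) [NeZero Q]
    (ρ : ℕ → ι → ZMod Q) (ix : ℕ → ℕ) (N : ℕ) (γ : ℕ → ι) (k : ℕ → ℕ) (r m : ℕ) (z : ℕ → ℤ),
    0 < m → (∀ a, a < N → ix a < N) → (∀ a b, a < N → b < N → ix a = ix b → a = b) →
    ritF (F := F) (F' := fcm F Q ρ ix N) (fI F Q ρ ix N) γ k γ k r (eR F ε γ k r (dg z m k r)) =
      zzK F ε Q ρ ix N γ k r (cfl (∑ t : Fin r, MvPolynomial.C (z t) *
        MvPolynomial.X (Fin.natAdd N t) ^ m : MvPolynomial (Fin (N + r)) ℤ) m)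

/-- **KRn** (from Kf1, Yr1).  Polynomials in the variables of the circles only. -/
def S_KRn : Prop :=
  ∀ (ι : Type) (F : FC ι) (ε : F.Φ) (Q : ℕ) [NeZero Q]
    (ρ : ℕ → ι → ZMod Q) (ix : ℕ → ℕ) (N : ℕ) (γ : ℕ → ι) (k : ℕ → ℕ) (r l : ℕ)
    (p : MvPolynomial (Fin N) ℤ), (∀ a, a < N → ix a < N) →
    zzK F ε Q ρ ix N γ k r (cfl (MvPolynomial.rename (Fin.castAdd r) p) l) =
      rI (fcm F Q ρ ix N) γ k r (kfz F ε Q ρ ix N (cfl p l))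

/-- **Asm** (from JId, JW, JN, JAl, KDg, KRn, InvR, TRFc, Fcm, Kf1, Rit, RitB, RitI, Yr1).  Proof.
JAl with the ideal of JId: `InJ (rename p - ∑ C (z t) X_(N+t)^m)`; `l = m` gives `w` of degree `n =
2 m - 1`. `v'' = ritF (fI) v + w`, `bd v'' = zzK (cfl (rename p) m) = rI (kfz (cfl p m))` (KDg, KRn,
additivity). InvR for `fcm F Q ρ ix N` (TRFc iterated) with `a = kfz (cfl p m)`, of degree `2 m`
(Kf1): `v^`. `cfl p m = cf p` as `p` is homogeneous.  `fB v^ ≡ fB (rB v'') = rB v + 0 ≡ u` modulo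
`cob`. -/
def S_Asm : Prop :=
  ∀ (ι : Type) (F : FC ι) (D : ℤ → AddSubgroup F.Φ) (ε u : F.Φ) (Q : ℕ) [NeZero Q]
    (ρ : ℕ → ι → ZMod Q) (ix : ℕ → ℕ) (N : ℕ) (γ : ℕ → ι) (k : ℕ → ℕ) (r m : ℕ) (z : ℕ → ℤ),
    F.OK → DOK F D → TF F.Φ → ε ∈ D 0 → F.bd ε = 0 → (∀ i, F.g i ε = ε) → 0 < m →
    (∀ a, a < N → ix a < N) → (∀ a b, a < N → b < N → ix a = ix b → a = b) → (∀ t, 0 < k t) →
    Per F γ k r → (∀ t, t < r → ∀ i, (k t : ZMod Q) * ρ i (γ t) = 0) → TR F D γ k r →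
    (∃ v ∈ rDs F γ k D r (2 * m - 1), (rit F γ k r).bd v = eR F ε γ k r (dg z m k r) ∧
      rB F γ k r v - u ∈ cob F D (2 * m - 1)) →
    ∀ (p : MvPolynomial (Fin N) ℤ) (c s : Fin N → Fin r → ℤ), p.IsHomogeneous m →
    (∀ (i : Fin N) (t : Fin r), ρ i (γ t) = (s i t : ZMod Q)) → (∀ i t, s i t * k t = Q * c i t) →
    MvPolynomial.aeval (fun i => ∑ t, MvPolynomial.C (c i t) * MvPolynomial.X t) p -
      ∑ t : Fin r, MvPolynomial.C (z t) * MvPolynomial.X t ^ m ∈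
      Ideal.span (Set.range fun t : Fin r =>
        (MvPolynomial.C (k t : ℤ) * MvPolynomial.X t : MvPolynomial (Fin r) ℤ)) →
    ∃ v ∈ fDs F Q ρ ix D N (2 * m - 1), (∀ t, t < r → (fcm F Q ρ ix N).g (γ t) v = v) ∧
      (fcm F Q ρ ix N).bd v = kfz F ε Q ρ ix N (cf p) ∧
      fB F Q ρ ix N v - u ∈ cob F D (2 * m - 1)

/-! ## D. The functionals on `X` and on the tensor square -/

/-- **XOK.** The functionals on `X`. -/
def S_XOK : Prop :=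
  ∀ (G : Type) [CommGroup G] (X : AX G), (fX X).OK ∧ DOK (fX X) (dX X) ∧ TF (fX X).Φ ∧
    (∀ φ, (fX X).g 1 φ = φ) ∧ (∀ a b φ, (fX X).g (a * b) φ = (fX X).g a ((fX X).g b φ)) ∧
    (∀ a k, a ^ k = 1 → (fX X).g a ^ k = 1)

/-- **XAc** (from HPx.CobI).  `H0`: CobI (3).  `Hd`: CobI (2), `φ d` is a cocycle of degree `d = i +
1 < n`. `inj`: `ε v = 1` for some `v` (`Ac`). -/
def S_XAc : Prop :=
  ∀ (G : Type) [CommGroup G] [Finite G] (X : AX G) (n : ℕ), 0 < n → X.Ac n →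
    Acy (fX X) (dX X) n (eX X)

/-- **XPN** (from HPx.CobI).  `φ n ∘ (g - 1)` vanishes on cycles (`g y - y = d (h y) + h (d y)`), so
it factors through `d` (CobI (1), `n = i + 1`). -/
def S_XPN : Prop :=
  ∀ (G : Type) [CommGroup G] [Finite G] (X : AX G) (n : ℕ), 0 < n → X.Ac n → X.PN →
    ∀ φ ∈ dX X n, (fX X).bd φ = 0 → ∀ g, (fX X).g g φ - φ ∈ cob (fX X) (dX X) n

/-- **XTR.** Trace one operators on the functionals on `X`.  Proof.  `X.P i` is projective: a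
section `σ` of `Finsupp.linearCombination` (`Module.projective_def'`); `e x = ∑_m (coefficient of 1
in (σ x) m) m` satisfies `∑_(g : G) g (e (g⁻¹ x)) = ∑_m ∑_g (coefficient of g in (σ x) m) g m = x`.
`H` = the set of the `∏_(s ≠ t) γ_s^(a_s)`, `0 ≤ a_s < k_s`; `E_t φ = φ ∘ ∑_(h ∈ H) h e h⁻¹`, which
commutes with the `γ_s`, `s ≠ t` (`H` is a subgroup), and `∑_a γ_t^a E_t γ_t^(-a) = ∑_(g ∈ G) g e
g⁻¹ = 1` by `Bs.bij` (`γ_t^(k_t - a) = γ_t^(-a)`). -/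
def S_XTR : Prop :=
  ∀ (G : Type) [CommGroup G] [Finite G] (X : AX G) (r : ℕ) (γ : ℕ → G) (k : ℕ → ℕ),
    Bs G r γ k → TR (fX X) (dX X) γ k r

/-- **TOK.** The functionals on the tensor square. -/
def S_TOK : Prop :=
  ∀ (G : Type) [CommGroup G] (E : Type) [TopologicalSpace E] (act : G → C(E, E))
    (hact1 : act 1 = ContinuousMap.id E) (hact : ∀ a b, act (a * b) = (act a).comp (act b)),
    (f2 act).OK ∧ DOK (f2 act) (d2 act) ∧ (∀ a k, a ^ k = 1 → (f2 act).g a ^ k = 1)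

/-- **TSc** (from HPx.Rho).  The partial contraction of the tensor square: `S = s ⊗ 1 + (ρ sg) ⊗ s`,
as in the proof of `HPx.sTG` (`HP/TG.lean`), `(ρ ⊗ ρ) z = 0` on `tgr i`, `0 < i < n`, `(ρ ⊗ ρ) z =
augT z • v ⊗ v` on `tgr 0`. -/
def S_TSc : Prop :=
  ∀ (E : Type) [TopologicalSpace E] (v : (Sing E).K 0) (n : ℕ), 0 < n → AcE E v n →
    ∃ S : Ch ℤ (Sing E) ⊗[ℤ] Ch ℤ (Sing E) →ₗ[ℤ] Ch ℤ (Sing E) ⊗[ℤ] Ch ℤ (Sing E),
      (∀ i, ∀ z ∈ tgr (gr ℤ (Sing E)) (gr ℤ (Sing E)) i,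
        S z ∈ tgr (gr ℤ (Sing E)) (gr ℤ (Sing E)) (i + 1)) ∧
      (∀ z ∈ tgr (gr ℤ (Sing E)) (gr ℤ (Sing E)) 0, ((cz (Sing E)).tens (cz (Sing E))).d (S z) =
        z - augT (aug ℤ (Sing E)) (aug ℤ (Sing E)) z • (sx ℤ v ⊗ₜ sx ℤ v)) ∧
      ∀ i, 0 < i → i < n → ∀ z ∈ tgr (gr ℤ (Sing E)) (gr ℤ (Sing E)) i,
        ((cz (Sing E)).tens (cz (Sing E))).d (S z) +
          S (((cz (Sing E)).tens (cz (Sing E))).d z) = z

/-- **TAc** (from TSc, TOK).  `Hd`: `φ' = φ ∘ S`.  `H0`: `φ = φ (v ⊗ v) • augT`.  Every element of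
the tensor square is a sum of elements of the `tgr i` (tensors of simplices). -/
def S_TAc : Prop :=
  ∀ (G : Type) [CommGroup G] (E : Type) [TopologicalSpace E] (act : G → C(E, E))
    (v : (Sing E).K 0) (n : ℕ), 0 < n → AcE E v n → Acy (f2 act) (d2 act) n (e2 act)

/-- **TMp** (from HEp.NabD, HEp.NabG, HEp.NabN, HEp.NabU, HEp.DlG).  The three maps.  Proof.  `pX Λ`
commutes with the sign operators, `pX Λ (bd φ) = pX Λ φ ∘ bd` (`Λ.f'd`), `pX Λ (g φ) = pX Λ φ ∘ cmap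
(act g)` (`Λ.f'g`), `pX Λ (eX X) = aug`.  `mu`, `q1`, `q2` are chain maps compatible with the sign
operators and the gradings and `mu (a ⊗ b) = (a b) mu` (`cmap (act a) ⊗ cmap (act b)`), `q1 (a ⊗ b)
= a q1`, `q2 (a ⊗ b) = b q2`, `aug ∘ mu = aug ∘ q1 = aug ∘ q2 = augT`. -/
def S_TMp : Prop :=
  ∀ (e : ∀ p q : ℕ, Ch ℤ ((De p).prod (De q))) (he : EZ e) (G : Type) [CommGroup G] (X : AX G)
    (E : Type) [TopologicalSpace E] (act : G → C(E, E)) (Λ : Lk X E act) (m : C(E × E, E))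
    (hm1 : ∀ (g : G) (x y : E), m (act g x, y) = act g (m (x, y)))
    (hm2 : ∀ (g : G) (x y : E), m (x, act g y) = act g (m (x, y)))
    (hact1 : act 1 = ContinuousMap.id E) (hact : ∀ a b, act (a * b) = (act a).comp (act b)),
    Mp (fX X) (f2 act) (dX X) (d2 act) (pb2 Λ (mu ℤ e (SingMul m))) ∧
    Mp (fX X) (f2 act) (dX X) (d2 act) (pb2 Λ (q1 (Sing E))) ∧
    Mp (fX X) (f2 act) (dX X) (d2 act) (pb2 Λ (q2 (Sing E))) ∧
    (∀ a b φ, pb2 Λ (mu ℤ e (SingMul m)) ((fX X).g (a * b) φ) =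
      (f2 act).g (a, b) (pb2 Λ (mu ℤ e (SingMul m)) φ)) ∧
    (∀ a b φ, pb2 Λ (q1 (Sing E)) ((fX X).g a φ) = (f2 act).g (a, b) (pb2 Λ (q1 (Sing E)) φ)) ∧
    (∀ a b φ, pb2 Λ (q2 (Sing E)) ((fX X).g b φ) = (f2 act).g (a, b) (pb2 Λ (q2 (Sing E)) φ)) ∧
    pb2 Λ (mu ℤ e (SingMul m)) (eX X) = e2 act ∧ pb2 Λ (q1 (Sing E)) (eX X) = e2 act ∧
    pb2 Λ (q2 (Sing E)) (eX X) = e2 act

/-- **TZt** (from HPx.Zet, TSc, TOK).  Primitivity.  Proof.  `η = μ φ - p₁ φ - p₂ φ` vanishes on the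
cycles of `tgr n` (Zet with `xA = xC = u = φ n`); for `z ∈ tgr n` the element `z - S (D z)` is a
cycle (TSc), so `η z = η (S (D z))`; for `z ∈ tgr i`, `i ≠ n`, both sides vanish.  `η = bd (η ∘ S)`.
-/
def S_TZt : Prop :=
  ∀ (e : ∀ p q : ℕ, Ch ℤ ((De p).prod (De q))) (he : EZ e) (G : Type) [CommGroup G] (X : AX G)
    (E : Type) [TopologicalSpace E] (act : G → C(E, E)) (Λ : Lk X E act) (v : E) (m : C(E × E, E))
    (hA : ContinuousMap.Homotopic (ContinuousMap.id E)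
      (m.comp (ContinuousMap.prodMk (ContinuousMap.id E) (ContinuousMap.const E v))))
    (hB : ContinuousMap.Homotopic (ContinuousMap.id E)
      (m.comp (ContinuousMap.prodMk (ContinuousMap.const E v) (ContinuousMap.id E))))
    (n : ℕ) (hn : 0 < n) (hE : AcE E (vtx v) n) (φ : (fX X).Φ) (hφ : φ ∈ dX X n)
    (hb : (fX X).bd φ = 0),
    pb2 Λ (mu ℤ e (SingMul m)) φ - pb2 Λ (q1 (Sing E)) φ - pb2 Λ (q2 (Sing E)) φ ∈
      cob (f2 act) (d2 act) n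

/-- **DgX** (from One, Div, DStep, XOK, XAc, XPN, TOK, TAc, TMp, TZt).  Induction on `s ≤ r`: DStep
with `F₂ = f2 D.act`, `γ₂ = gam2 γ s`; start `s = 0`: `v = u`.  `z t` from One, divisibility from
Div with `γ₂ = gam2 (fun _ => γ t) 1`. -/
def S_DgX : Prop :=
  ∀ (e : ∀ p q : ℕ, Ch ℤ ((De p).prod (De q))) (he : EZ e) (G : Type) [CommGroup G] [Finite G]
    (E : Type) [TopologicalSpace E] [PathConnectedSpace E] (D : Mlt G E)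
    (X : AX G) (hN : X.PN) (Λ : Lk X E D.act) (m : ℕ) (hm : 1 < m) (hX : X.Ac (2 * m - 1))
    (hE : AcE E (vtx D.v) (2 * m - 1)) (r : ℕ) (γ : ℕ → G) (k : ℕ → ℕ) (hB : Bs G r γ k)
    (u : (fX X).Φ) (hu : u ∈ dX X (2 * m - 1)) (hb : (fX X).bd u = 0),
    ∃ z : ℕ → ℤ, (∀ t, ∀ j, 0 < j → j < m → (k t : ℤ) ∣ z t * m.choose j) ∧
      ∃ v ∈ rDs (fX X) γ k (dX X) r (2 * m - 1),
        (rit (fX X) γ k r).bd v = eR (fX X) (eX X) γ k r (dg z m k r) ∧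
        rB (fX X) γ k r v - u ∈ cob (fX X) (dX X) (2 * m - 1)

/-- **BsE.** Existence of the decomposition (`CommGroup.equiv_prod_multiplicative_zmod_of_finite` or
similar, compare `HP/Grp.lean`), `k t` divides the order of the group, and characters with
prescribed values. -/
def S_BsE : Prop :=
  ∀ (G : Type) [CommGroup G] [Finite G], ∃ (r : ℕ) (γ : ℕ → G) (k : ℕ → ℕ), Bs G r γ k ∧
    (∀ t, k t ∣ Nat.card G) ∧ ∀ (Q : ℕ) (s : ℕ → ℤ),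
      (∀ t, t < r → ((s t * k t : ℤ) : ZMod Q) = 0) →
      ∃ χ : G →* Multiplicative (ZMod Q), ∀ t, t < r → Multiplicative.toAdd (χ (γ t)) = (s t : ZMod Q)

/-- **VG** (from DgX, Asm, BsE, XOK, XAc, XTR, Fcm).  The functional on `X` and the circles for a
norm form `p`. `hp` is given by `HMx.nKap`, `HMx.nPrim`.  Proof.  BsE; DgX: `z`; `hp z`: `c`.  `Q =
Nat.card G`, `s i t = Q / k t * c i t`, `χ i` from BsE, `ρ = rot χ`.  Asm.  Invariance under all of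
`G`: `g (a * b) = g a ∘ g b` on `fcm` (induction on the number of circles, `rot χ i (a * b) = rot χ
i a + rot χ i b`) and every element is a product of powers of the `γ t` (`Bs.bij`). -/
def S_VG : Prop :=
  ∀ (e : ∀ p q : ℕ, Ch ℤ ((De p).prod (De q))) (he : EZ e) (G : Type) [CommGroup G] [Finite G]
    [NeZero (Nat.card G)] (E : Type) [TopologicalSpace E] [PathConnectedSpace E] (D : Mlt G E)
    (X : AX G) (hN : X.PN) (Λ : Lk X E D.act) (m : ℕ) (hm : 1 < m) (hX : X.Ac (2 * m - 1))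
    (hE : AcE E (vtx D.v) (2 * m - 1)) (u : (fX X).Φ) (hu : u ∈ dX X (2 * m - 1))
    (hb : (fX X).bd u = 0) (p : MvPolynomial (Fin m) ℤ) (hph : p.IsHomogeneous m)
    (hp : ∀ (r : ℕ) (k : Fin r → ℕ) (z : Fin r → ℤ), (∀ t, 0 < k t) →
      (∀ t, ∀ j, 0 < j → j < m → (k t : ℤ) ∣ z t * m.choose j) → ∃ c : Fin m → Fin r → ℤ,
      MvPolynomial.aeval (fun i => ∑ t, MvPolynomial.C (c i t) * MvPolynomial.X t) p -
        ∑ t : Fin r, MvPolynomial.C (z t) * MvPolynomial.X t ^ m ∈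
        Ideal.span (Set.range fun t : Fin r =>
          (MvPolynomial.C (k t : ℤ) * MvPolynomial.X t : MvPolynomial (Fin r) ℤ))),
    ∃ (χ : ℕ → G →* Multiplicative (ZMod (Nat.card G))),
      ∃ v ∈ fDs (fX X) (Nat.card G) (rot χ) (rv m) (dX X) m (2 * m - 1),
        (∀ h, (fcm (fX X) (Nat.card G) (rot χ) (rv m) m).g h v = v) ∧
        (fcm (fX X) (Nat.card G) (rot χ) (rv m) m).bd v =
          kfz (fX X) (eX X) (Nat.card G) (rot χ) (rv m) m (cf p) ∧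
        fB (fX X) (Nat.card G) (rot χ) (rv m) m v - u ∈ cob (fX X) (dX X) (2 * m - 1)

end HVx
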