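import Pool.Agent.Lib.MP_181146_gt.HV.SpecV

/-!
# Project HV: trace one operators act componentwise (periodic resolutions)
-/

set_option autoImplicit false

noncomputable section

namespace HVx

open HEp HPx HRx HTx

/-- `pw` as a homomorphism of rings. -/
private def TRRc_P (Φ : Type) [AddCommGroup Φ] :
    AddMonoid.End Φ →+* AddMonoid.End (ℕ → Φ) where
  toFun := fun f => pw (Φ := Φ) (Ψ := Φ) f
  map_one' := by
    refine AddMonoidHom.ext fun φ => ?_
    rfl
  map_mul' := fun f g => by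
    refine AddMonoidHom.ext fun φ => ?_
    rfl
  map_zero' := by
    refine AddMonoidHom.ext fun φ => ?_
    rfl
  map_add' := fun f g => by
    refine AddMonoidHom.ext fun φ => ?_
    rfl

private lemma TRRc_g {ι : Type} (F : FC ι) (i : ι) (k : ℕ) (h : ι) :
    (F.rc i k).g h = TRRc_P F.Φ (F.g h) := rfl

theorem sTRRc : S_TRRc := by
  intro ι F D γ k r i k' hTR t ht
  obtain ⟨E, hE1, hE2, hE3, hE4⟩ := hTR t ht
  refine ⟨TRRc_P F.Φ E, ?_, ?_, ?_, ?_⟩
  · intro d φ hφ l
    exact hE1 _ _ (hφ l)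
  · intro s hs hst φ
    funext l
    exact hE2 s hs hst (φ l)
  · intro φ
    funext l
    change E ((-1 : ℤ) ^ l • F.tw (φ l)) = (-1 : ℤ) ^ l • F.tw (E (φ l))
    rw [map_zsmul, hE3]
  · rw [TRRc_g]
    have h1 := congrArg (TRRc_P F.Φ) hE4
    rw [map_sum, map_one] at h1
    refine Eq.trans ?_ h1
    refine Finset.sum_congr rfl fun a _ => ?_
    rw [map_mul, map_mul, map_pow, map_pow]
    rfl

end HVx
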