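import Pool.Agent.Lib.MP_181146_gt.HV.SpecV

/-!
# Project HV (part V), module Yf1 (helper87): properties of `yf`
-/

set_option autoImplicit false

noncomputable section

namespace HVx

open HEp HPx HRx HTx

namespace Yf1Aux

variable {ι : Type} (F : FC ι) (Q : ℕ) [NeZero Q] (ρ : ℕ → ι → ZMod Q) (ix : ℕ → ℕ) (j : ℕ)

lemma yf_pos {n : ℕ} (h : ix n = j)
    (φ : (ℕ → ZMod Q → (fcm F Q ρ ix n).Φ) × (ℕ → ZMod Q → (fcm F Q ρ ix n).Φ)) :
    (yf F Q ρ ix j (n + 1) φ :
      (ℕ → ZMod Q → (fcm F Q ρ ix n).Φ) × (ℕ → ZMod Q → (fcm F Q ρ ix n).Φ)) =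
      (fun i c => prv (fun i => φ.1 i c) i, fun i c => prv (fun i => φ.2 i c) i) := by
  have e : yf F Q ρ ix j (n + 1) = AddMonoidHom.mk' (fun φ => (fun i c =>
      prv (fun i => φ.1 i c) i, fun i c => prv (fun i => φ.2 i c) i)) (by
        intro φ ψ
        refine Prod.ext ?_ ?_ <;>
        · funext i c
          cases i with
          | zero => exact (add_zero 0).symm
          | succ i => rfl) := if_pos h
  rw [e]
  rfl

lemma yf_neg {n : ℕ} (h : ix n ≠ j)
    (φ : (ℕ → ZMod Q → (fcm F Q ρ ix n).Φ) × (ℕ → ZMod Q → (fcm F Q ρ ix n).Φ)) :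
    (yf F Q ρ ix j (n + 1) φ :
      (ℕ → ZMod Q → (fcm F Q ρ ix n).Φ) × (ℕ → ZMod Q → (fcm F Q ρ ix n).Φ)) =
      (fun i c => yf F Q ρ ix j n (φ.1 i c), fun i c => yf F Q ρ ix j n (φ.2 i c)) := by
  have e : yf F Q ρ ix j (n + 1) = pc Q (yf F Q ρ ix j n) := if_neg h
  rw [e]
  rfl

lemma yf_tw (n : ℕ) :
    ∀ φ, (fcm F Q ρ ix n).tw (yf F Q ρ ix j n φ) = yf F Q ρ ix j n ((fcm F Q ρ ix n).tw φ) := by
  induction n with
  | zero =>
    intro φ
    exact map_zero F.tw
  | succ n ih =>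
    intro φ
    by_cases h : ix n = j
    · rw [yf_pos F Q ρ ix j h φ]
      refine Eq.trans ?_ (yf_pos F Q ρ ix j h ((fcm F Q ρ ix (n + 1)).tw φ)).symm
      refine Prod.ext ?_ ?_
      · funext i c
        cases i with
        | zero => exact map_zero (fcm F Q ρ ix n).tw
        | succ i => rfl
      · funext i c
        cases i with
        | zero =>
          change -(fcm F Q ρ ix n).tw 0 = 0
          rw [map_zero, neg_zero]
        | succ i => rfl
    · rw [yf_neg F Q ρ ix j h φ]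
      refine Eq.trans ?_ (yf_neg F Q ρ ix j h ((fcm F Q ρ ix (n + 1)).tw φ)).symm
      refine Prod.ext ?_ ?_
      · funext i c
        exact ih _
      · funext i c
        change -(fcm F Q ρ ix n).tw (yf F Q ρ ix j n (φ.2 i c)) =
          yf F Q ρ ix j n (-(fcm F Q ρ ix n).tw (φ.2 i c))
        rw [map_neg, ih]

lemma yf_g (h' : ι) (n : ℕ) :
    ∀ φ, (fcm F Q ρ ix n).g h' (yf F Q ρ ix j n φ) =
      yf F Q ρ ix j n ((fcm F Q ρ ix n).g h' φ) := by
  induction n with
  | zero =>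
    intro φ
    exact map_zero (F.g h')
  | succ n ih =>
    intro φ
    by_cases h : ix n = j
    · rw [yf_pos F Q ρ ix j h φ]
      refine Eq.trans ?_ (yf_pos F Q ρ ix j h ((fcm F Q ρ ix (n + 1)).g h' φ)).symm
      refine Prod.ext ?_ ?_
      · funext i c
        cases i with
        | zero => exact map_zero ((fcm F Q ρ ix n).g h')
        | succ i => rfl
      · funext i c
        cases i with
        | zero => exact map_zero ((fcm F Q ρ ix n).g h')
        | succ i => rfl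
    · rw [yf_neg F Q ρ ix j h φ]
      refine Eq.trans ?_ (yf_neg F Q ρ ix j h ((fcm F Q ρ ix (n + 1)).g h' φ)).symm
      refine Prod.ext ?_ ?_
      · funext i c
        exact ih _
      · funext i c
        exact ih _

lemma yf_bd (n : ℕ) :
    ∀ φ, (fcm F Q ρ ix n).bd (yf F Q ρ ix j n φ) = yf F Q ρ ix j n ((fcm F Q ρ ix n).bd φ) := by
  induction n with
  | zero =>
    intro φ
    exact map_zero F.bd
  | succ n ih =>
    intro φ
    by_cases h : ix n = j
    · rw [yf_pos F Q ρ ix j h φ]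
      refine Eq.trans ?_ (yf_pos F Q ρ ix j h ((fcm F Q ρ ix (n + 1)).bd φ)).symm
      refine Prod.ext ?_ ?_
      · funext i c
        match i with
        | 0 =>
          change (fcm F Q ρ ix n).bd 0 + 0 = 0
          rw [map_zero, add_zero]
        | 1 =>
          change (fcm F Q ρ ix n).bd (φ.1 0 c) + ∑ a : ZMod Q, (fcm F Q ρ ix n).tw 0 =
            (fcm F Q ρ ix n).bd (φ.1 0 c) + 0
          rw [map_zero, Finset.sum_const_zero]
        | i + 2 => rfl
      · funext i c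
        match i with
        | 0 =>
          change (fcm F Q ρ ix n).bd 0 + ((fcm F Q ρ ix n).tw 0 - (fcm F Q ρ ix n).tw 0) = 0
          rw [map_zero, sub_self, add_zero]
        | i + 1 => rfl
    · rw [yf_neg F Q ρ ix j h φ]
      refine Eq.trans ?_ (yf_neg F Q ρ ix j h ((fcm F Q ρ ix (n + 1)).bd φ)).symm
      refine Prod.ext ?_ ?_
      · funext i c
        match i with
        | 0 =>
          change (fcm F Q ρ ix n).bd (yf F Q ρ ix j n (φ.1 0 c)) + 0 =
            yf F Q ρ ix j n ((fcm F Q ρ ix n).bd (φ.1 0 c) + 0)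
          rw [add_zero, add_zero, ih]
        | i + 1 =>
          change (fcm F Q ρ ix n).bd (yf F Q ρ ix j n (φ.1 (i + 1) c)) +
              ∑ a : ZMod Q, (fcm F Q ρ ix n).tw (yf F Q ρ ix j n (φ.2 i a)) =
            yf F Q ρ ix j n ((fcm F Q ρ ix n).bd (φ.1 (i + 1) c) +
              ∑ a : ZMod Q, (fcm F Q ρ ix n).tw (φ.2 i a))
          rw [map_add, ih, map_sum]
          congr 1
          exact Finset.sum_congr rfl fun a _ => yf_tw F Q ρ ix j n _
      · funext i c
        change (fcm F Q ρ ix n).bd (yf F Q ρ ix j n (φ.2 i c)) +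
            ((fcm F Q ρ ix n).tw (yf F Q ρ ix j n (φ.1 i (c + 1))) -
              (fcm F Q ρ ix n).tw (yf F Q ρ ix j n (φ.1 i c))) =
          yf F Q ρ ix j n ((fcm F Q ρ ix n).bd (φ.2 i c) +
            ((fcm F Q ρ ix n).tw (φ.1 i (c + 1)) - (fcm F Q ρ ix n).tw (φ.1 i c)))
        rw [map_add, map_sub, ih, yf_tw, yf_tw]

lemma yf_D (D : ℤ → AddSubgroup F.Φ) (n : ℕ) :
    ∀ d, ∀ φ ∈ fDs F Q ρ ix D n d, yf F Q ρ ix j n φ ∈ fDs F Q ρ ix D n (d + 2) := by
  induction n with
  | zero =>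
    intro d φ _
    exact (D (d + 2)).zero_mem
  | succ n ih =>
    intro d φ hφ
    by_cases h : ix n = j
    · rw [yf_pos F Q ρ ix j h φ]
      intro i c
      cases i with
      | zero => exact ⟨(fDs F Q ρ ix D n _).zero_mem, (fDs F Q ρ ix D n _).zero_mem⟩
      | succ i =>
        have h1 : d + 2 - 2 * ((i + 1 : ℕ) : ℤ) = d - 2 * (i : ℤ) := by push_cast; ring
        refine ⟨?_, ?_⟩
        · change φ.1 i c ∈ fDs F Q ρ ix D n (d + 2 - 2 * ((i + 1 : ℕ) : ℤ))
          rw [h1]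
          exact (hφ i c).1
        · change φ.2 i c ∈ fDs F Q ρ ix D n (d + 2 - 2 * ((i + 1 : ℕ) : ℤ) - 1)
          rw [h1]
          exact (hφ i c).2
    · rw [yf_neg F Q ρ ix j h φ]
      intro i c
      have h1 : d + 2 - 2 * (i : ℤ) = d - 2 * (i : ℤ) + 2 := by ring
      have h2 : d + 2 - 2 * (i : ℤ) - 1 = d - 2 * (i : ℤ) - 1 + 2 := by ring
      refine ⟨?_, ?_⟩
      · change yf F Q ρ ix j n (φ.1 i c) ∈ fDs F Q ρ ix D n (d + 2 - 2 * (i : ℤ))
        rw [h1]
        exact ih _ _ (hφ i c).1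
      · change yf F Q ρ ix j n (φ.2 i c) ∈ fDs F Q ρ ix D n (d + 2 - 2 * (i : ℤ) - 1)
        rw [h2]
        exact ih _ _ (hφ i c).2

lemma yf_B (n : ℕ) : ∀ φ, fB F Q ρ ix n (yf F Q ρ ix j n φ) = 0 := by
  induction n with
  | zero =>
    intro φ
    rfl
  | succ n ih =>
    intro φ
    by_cases h : ix n = j
    · rw [yf_pos F Q ρ ix j h φ]
      exact map_zero (fB F Q ρ ix n)
    · rw [yf_neg F Q ρ ix j h φ]
      exact ih _

end Yf1Aux

open Yf1Aux in
/-- **Yf1.** Properties of `yf`. -/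
theorem sYf1 : S_Yf1 := by
  intro ι F D Q _ ρ ix j n _ _
  exact ⟨yf_bd F Q ρ ix j n, yf_tw F Q ρ ix j n, fun i => yf_g F Q ρ ix j i n,
    yf_D F Q ρ ix j D n, yf_B F Q ρ ix j n⟩

end HVx
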